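import Pool.Agent.H72.GPeano

set_option autoImplicit false

open Set Filter Topology Asymptotics

namespace Pool.Agent.H72.GVar

open Pool.Agent.H72.GForms

variable {X : Type*} [NormedAddCommGroup X] [NormedSpace ℝ X]

/-! ### Multilinear maps -/

section multi

variable (A₂ : ContinuousMultilinearMap ℝ (fun _ : Fin 2 => X) ℝ)
  (A₃ : ContinuousMultilinearMap ℝ (fun _ : Fin 3 => X) ℝ)

theorem two_add0 (u u' v : X) : A₂ ![u + u', v] = A₂ ![u, v] + A₂ ![u', v] := by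
  have h := A₂.map_update_add ![0, v] 0 u u'
  have e : ∀ w : X, Function.update ![0, v] 0 w = ![w, v] := by
    intro w; ext i; fin_cases i <;> simp
  simpa only [e] using h

theorem two_add1 (u v v' : X) : A₂ ![u, v + v'] = A₂ ![u, v] + A₂ ![u, v'] := by
  have h := A₂.map_update_add ![u, 0] 1 v v'
  have e : ∀ w : X, Function.update ![u, 0] 1 w = ![u, w] := by
    intro w; ext i; fin_cases i <;> simp
  simpa only [e] using h

theorem two_smul0 (c : ℝ) (u v : X) : A₂ ![c • u, v] = c * A₂ ![u, v] := by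
  have h := A₂.map_update_smul ![0, v] 0 c u
  have e : ∀ w : X, Function.update ![0, v] 0 w = ![w, v] := by
    intro w; ext i; fin_cases i <;> simp
  simpa only [e, smul_eq_mul] using h

theorem two_smul1 (c : ℝ) (u v : X) : A₂ ![u, c • v] = c * A₂ ![u, v] := by
  have h := A₂.map_update_smul ![u, 0] 1 c v
  have e : ∀ w : X, Function.update ![u, 0] 1 w = ![u, w] := by
    intro w; ext i; fin_cases i <;> simp
  simpa only [e, smul_eq_mul] using h

theorem three_add0 (u u' v w : X) : A₃ ![u + u', v, w] = A₃ ![u, v, w] + A₃ ![u', v, w] := by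
  have h := A₃.map_update_add ![0, v, w] 0 u u'
  have e : ∀ z : X, Function.update ![0, v, w] 0 z = ![z, v, w] := by
    intro z; ext i; fin_cases i <;> simp
  simpa only [e] using h

theorem three_add1 (u u' v w : X) : A₃ ![v, u + u', w] = A₃ ![v, u, w] + A₃ ![v, u', w] := by
  have h := A₃.map_update_add ![v, 0, w] 1 u u'
  have e : ∀ z : X, Function.update ![v, 0, w] 1 z = ![v, z, w] := by
    intro z; ext i; fin_cases i <;> simp
  simpa only [e] using h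

theorem three_add2 (u u' v w : X) : A₃ ![v, w, u + u'] = A₃ ![v, w, u] + A₃ ![v, w, u'] := by
  have h := A₃.map_update_add ![v, w, 0] 2 u u'
  have e : ∀ z : X, Function.update ![v, w, 0] 2 z = ![v, w, z] := by
    intro z; ext i; fin_cases i <;> simp
  simpa only [e] using h

theorem three_smul0 (c : ℝ) (u v w : X) : A₃ ![c • u, v, w] = c * A₃ ![u, v, w] := by
  have h := A₃.map_update_smul ![0, v, w] 0 c u
  have e : ∀ z : X, Function.update ![0, v, w] 0 z = ![z, v, w] := by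
    intro z; ext i; fin_cases i <;> simp
  simpa only [e, smul_eq_mul] using h

theorem three_smul1 (c : ℝ) (u v w : X) : A₃ ![v, c • u, w] = c * A₃ ![v, u, w] := by
  have h := A₃.map_update_smul ![v, 0, w] 1 c u
  have e : ∀ z : X, Function.update ![v, 0, w] 1 z = ![v, z, w] := by
    intro z; ext i; fin_cases i <;> simp
  simpa only [e, smul_eq_mul] using h

theorem three_smul2 (c : ℝ) (u v w : X) : A₃ ![v, w, c • u] = c * A₃ ![v, w, u] := by
  have h := A₃.map_update_smul ![v, w, 0] 2 c u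
  have e : ∀ z : X, Function.update ![v, w, 0] 2 z = ![v, w, z] := by
    intro z; ext i; fin_cases i <;> simp
  simpa only [e, smul_eq_mul] using h

/-- symmetrisation -/
noncomputable def sym2 (u v : X) : ℝ := (A₂ ![u, v] + A₂ ![v, u]) / 2

/-- symmetrisation -/
noncomputable def sym3 (u v w : X) : ℝ :=
  (A₃ ![u, v, w] + A₃ ![u, w, v] + A₃ ![v, u, w] + A₃ ![v, w, u] + A₃ ![w, u, v] +
    A₃ ![w, v, u]) / 6

theorem isBi_sym2 : IsBi (sym2 A₂) := by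
  constructor
  · intro u u' v
    unfold sym2
    rw [two_add0, two_add1]
    ring
  · intro c u v
    unfold sym2
    rw [two_smul0, two_smul1]
    ring
  · intro u v
    unfold sym2
    ring

theorem isTri_sym3 : IsTri (sym3 A₃) := by
  constructor
  · intro u u' v w
    unfold sym3
    rw [three_add0, three_add0, three_add1, three_add1, three_add2, three_add2]
    ring
  · intro c u v w
    unfold sym3
    rw [three_smul0, three_smul0, three_smul1, three_smul1, three_smul2, three_smul2]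
    ring
  · intro u v w
    unfold sym3
    ring
  · intro u v w
    unfold sym3
    ring

theorem bd_sym2 : BdBi (sym2 A₂) := by
  refine ⟨‖A₂‖, norm_nonneg _, fun u v => ?_⟩
  have h : ∀ u v : X, |A₂ ![u, v]| ≤ ‖A₂‖ * ‖u‖ * ‖v‖ := by
    intro u v
    have := A₂.le_opNorm ![u, v]
    rw [Fin.prod_univ_two] at this
    simpa [mul_assoc] using this
  have h1 := h u v
  have h2 := h v u
  unfold sym2
  rw [abs_div, div_le_iff₀ (by norm_num)]
  refine (abs_add_le _ _).trans ?_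
  rw [abs_of_pos (by norm_num : (0:ℝ) < 2)]
  linarith

theorem bd_sym3 : BdTri (sym3 A₃) := by
  refine ⟨‖A₃‖, norm_nonneg _, fun u v w => ?_⟩
  have h : ∀ u v w : X, |A₃ ![u, v, w]| ≤ ‖A₃‖ * ‖u‖ * ‖v‖ * ‖w‖ := by
    intro u v w
    have := A₃.le_opNorm ![u, v, w]
    rw [Fin.prod_univ_three] at this
    simpa [mul_assoc] using this
  have h1 := abs_le.1 (h u v w)
  have h2 := abs_le.1 (h u w v)
  have h3 := abs_le.1 (h v u w)
  have h4 := abs_le.1 (h v w u)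
  have h5 := abs_le.1 (h w u v)
  have h6 := abs_le.1 (h w v u)
  unfold sym3
  rw [abs_le]
  constructor <;> linarith [h1.1, h1.2, h2.1, h2.2, h3.1, h3.2, h4.1, h4.2, h5.1, h5.2, h6.1,
    h6.2]

end multi

/-! ### Squares -/

/-- the second coefficient of a square -/
def sqQ (a : ℝ) (L : X → ℝ) (Q : X → X → ℝ) (u v : X) : ℝ := 2 * a * Q u v + 2 * (L u * L v)

/-- the third coefficient of a square -/
def sqC (a : ℝ) (L : X → ℝ) (Q : X → X → ℝ) (C : X → X → X → ℝ) (u v w : X) : ℝ :=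
  2 * a * C u v w + 2 * (L u * Q v w + L v * Q u w + L w * Q u v)

theorem isBi_sqQ {a : ℝ} {L : X → ℝ} {Q : X → X → ℝ} (hL : IsLin L) (hQ : IsBi Q) :
    IsBi (sqQ a L Q) := by
  constructor
  · intro u u' v
    unfold sqQ
    rw [hQ.add, hL.add]; ring
  · intro c u v
    unfold sqQ
    rw [hQ.smul, hL.smul]; ring
  · intro u v
    unfold sqQ
    rw [hQ.symm]; ring

theorem isTri_sqC {a : ℝ} {L : X → ℝ} {Q : X → X → ℝ} {C : X → X → X → ℝ} (hL : IsLin L)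
    (hQ : IsBi Q) (hC : IsTri C) : IsTri (sqC a L Q C) := by
  constructor
  · intro u u' v w
    unfold sqC
    rw [hC.add, hL.add, hQ.add, hQ.add]; ring
  · intro c u v w
    unfold sqC
    rw [hC.smul, hL.smul, hQ.smul, hQ.smul]; ring
  · intro u v w
    unfold sqC
    rw [hC.swap, hQ.symm u v]; ring
  · intro u v w
    unfold sqC
    rw [hC.symm, hQ.symm v w]; ring

theorem bd_sqQ {a : ℝ} {L : X →L[ℝ] ℝ} {Q : X → X → ℝ} (hQ : BdBi Q) :
    BdBi (sqQ a (fun v => L v) Q) := by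
  obtain ⟨M, hM0, hM⟩ := hQ
  refine ⟨2 * |a| * M + 2 * (‖L‖ * ‖L‖), by positivity, fun u v => ?_⟩
  unfold sqQ
  refine (abs_add_le _ _).trans ?_
  rw [abs_mul, abs_mul, abs_mul, abs_mul]
  have h2 : |(2:ℝ)| = 2 := abs_of_pos (by norm_num)
  rw [h2]
  have h1 := hM u v
  have h3 : |L u| ≤ ‖L‖ * ‖u‖ := L.le_opNorm u
  have h4 : |L v| ≤ ‖L‖ * ‖v‖ := L.le_opNorm v
  have h5 : |L u| * |L v| ≤ (‖L‖ * ‖u‖) * (‖L‖ * ‖v‖) :=
    mul_le_mul h3 h4 (abs_nonneg _) (by positivity)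
  have h6 : 2 * |a| * |Q u v| ≤ 2 * |a| * (M * ‖u‖ * ‖v‖) :=
    mul_le_mul_of_nonneg_left h1 (by positivity)
  nlinarith

theorem bd_sqC {a : ℝ} {L : X →L[ℝ] ℝ} {Q : X → X → ℝ} {C : X → X → X → ℝ} (hQ : BdBi Q)
    (hC : BdTri C) : BdTri (sqC a (fun v => L v) Q C) := by
  obtain ⟨M, hM0, hM⟩ := hQ
  obtain ⟨K, hK0, hK⟩ := hC
  refine ⟨2 * |a| * K + 6 * (‖L‖ * M), by positivity, fun u v w => ?_⟩
  have hLQ : ∀ u v w : X, |L u * Q v w| ≤ (‖L‖ * M) * ‖u‖ * ‖v‖ * ‖w‖ := by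
    intro u v w
    rw [abs_mul]
    have h3 : |L u| ≤ ‖L‖ * ‖u‖ := L.le_opNorm u
    have h5 : |L u| * |Q v w| ≤ (‖L‖ * ‖u‖) * (M * ‖v‖ * ‖w‖) :=
      mul_le_mul h3 (hM v w) (abs_nonneg _) (by positivity)
    refine h5.trans (le_of_eq ?_)
    ring
  have h1 := abs_le.1 (hLQ u v w)
  have h2 := abs_le.1 (hLQ v u w)
  have h3 := abs_le.1 (hLQ w u v)
  have h4 : |2 * a * C u v w| ≤ 2 * |a| * (K * ‖u‖ * ‖v‖ * ‖w‖) := by
    rw [abs_mul, abs_mul, abs_of_pos (by norm_num : (0:ℝ) < 2)]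
    exact mul_le_mul_of_nonneg_left (hK u v w) (by positivity)
  have h4' := abs_le.1 h4
  unfold sqC
  rw [abs_le]
  constructor <;> linarith [h1.1, h1.2, h2.1, h2.2, h3.1, h3.2, h4'.1, h4'.2]

theorem sq_aux {R T S F P' : ℝ → ℝ} {r : ℕ} (hR : R =O[𝓝 0] fun t : ℝ => t ^ r)
    (hT : Continuous T) (hS : Continuous S) (hF : ∀ t, F t - P' t = R t * R t + 2 * T t * R t +
      t ^ r * S t) : (fun t => F t - P' t) =O[𝓝 0] fun t : ℝ => t ^ r := by
  have h1 : (fun t : ℝ => t ^ r) =O[𝓝 0] fun _ : ℝ => (1 : ℝ) :=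
    ((continuous_pow r).tendsto (0 : ℝ)).isBigO_one ℝ
  have hR1 : R =O[𝓝 0] fun _ : ℝ => (1 : ℝ) := hR.trans h1
  have hT1 : (fun t => 2 * T t) =O[𝓝 0] fun _ : ℝ => (1 : ℝ) :=
    (((continuous_const.mul hT).tendsto (0 : ℝ))).isBigO_one ℝ
  have hS1 : S =O[𝓝 0] fun _ : ℝ => (1 : ℝ) := (hS.tendsto (0 : ℝ)).isBigO_one ℝ
  have a1 : (fun t => R t * R t) =O[𝓝 0] fun t : ℝ => t ^ r := by
    simpa using hR1.mul hR
  have a2 : (fun t => 2 * T t * R t) =O[𝓝 0] fun t : ℝ => t ^ r := by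
    simpa using hT1.mul hR
  have a3 : (fun t : ℝ => t ^ r * S t) =O[𝓝 0] fun t : ℝ => t ^ r := by
    simpa using (isBigO_refl (fun t : ℝ => t ^ r) (𝓝 0)).mul hS1
  exact ((a1.add a2).add a3).congr_left fun t => (hF t).symm

theorem HasPeano.sq3 {g : X → ℝ} {x : X} {L : X → ℝ} {Q : X → X → ℝ} (hL : IsLin L)
    (hQ : IsBi Q) (hp : HasPeano 3 g x L Q (fun _ _ _ => 0)) :
    HasPeano 3 (fun y => g y ^ 2) x (fun v => 2 * g x * L v) (sqQ (g x) L Q)
      (fun _ _ _ => 0) := by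
  rw [hasPeano_iff] at hp ⊢
  intro h
  have hL' : IsLin (fun v => 2 * g x * L v) :=
    ⟨fun u v => by rw [hL.add]; ring, fun c u => by rw [hL.smul]; ring⟩
  refine sq_aux (R := fun t => g (x + t • h) - tay (g x) L Q (fun _ _ _ => 0) (t • h))
    (T := fun t => g x + t * L h + t ^ 2 * Q h h / 2)
    (S := fun t => L h * Q h h + t * (Q h h) ^ 2 / 4) (hp h) (by fun_prop) (by fun_prop)
    fun t => ?_
  rw [tay_smul hL hQ isTri_zero, tay_smul hL' (isBi_sqQ hL hQ) isTri_zero]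
  simp only [sqQ]
  ring

theorem HasPeano.sq4 {g : X → ℝ} {x : X} {L : X → ℝ} {Q : X → X → ℝ} {C : X → X → X → ℝ}
    (hL : IsLin L) (hQ : IsBi Q) (hC : IsTri C) (hp : HasPeano 4 g x L Q C) :
    HasPeano 4 (fun y => g y ^ 2) x (fun v => 2 * g x * L v) (sqQ (g x) L Q)
      (sqC (g x) L Q C) := by
  rw [hasPeano_iff] at hp ⊢
  intro h
  have hL' : IsLin (fun v => 2 * g x * L v) :=
    ⟨fun u v => by rw [hL.add]; ring, fun c u => by rw [hL.smul]; ring⟩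
  refine sq_aux (R := fun t => g (x + t • h) - tay (g x) L Q C (t • h))
    (T := fun t => g x + t * L h + t ^ 2 * Q h h / 2 + t ^ 3 * C h h h / 6)
    (S := fun t => (Q h h) ^ 2 / 4 + L h * C h h h / 3 + t * (Q h h * C h h h / 6) +
      t ^ 2 * (C h h h) ^ 2 / 36) (hp h) (by fun_prop) (by fun_prop)
    fun t => ?_
  rw [tay_smul hL hQ hC, tay_smul hL' (isBi_sqQ hL hQ) (isTri_sqC hL hQ hC)]
  simp only [sqQ, sqC]
  ring

/-! ### The data -/

theorem exists_clm (A : ContinuousMultilinearMap ℝ (fun _ : Fin 1 => X) ℝ) :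
    ∃ L : X →L[ℝ] ℝ, ∀ h, L h = A (fun _ => h) := by
  refine ⟨continuousMultilinearCurryFin1 ℝ X ℝ A, fun h => ?_⟩
  rw [continuousMultilinearCurryFin1_apply]
  congr 1

theorem data3 {ν : X → ℝ} (H : GateauxDiff 3 ν {0}ᶜ) {x : X} (hx : x ≠ 0) :
    ∃ (L : X →L[ℝ] ℝ) (Q : X → X → ℝ), IsBi Q ∧ BdBi Q ∧
      HasPeano 3 ν x (fun v => L v) Q (fun _ _ _ => 0) := by
  obtain ⟨-, A₁, hA₁⟩ := H x hx 1 le_rfl (by norm_num)
  obtain ⟨-, A₂, hA₂⟩ := H x hx 2 (by norm_num) (by norm_num)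
  obtain ⟨L, hL⟩ := exists_clm A₁
  refine ⟨L, sym2 A₂, isBi_sym2 A₂, bd_sym2 A₂, ?_⟩
  rw [hasPeano_iff]
  intro h
  refine (peano3_raw H hx h).congr_left fun t => ?_
  rw [tay_smul (isLin_clm L) (isBi_sym2 A₂) isTri_zero]
  have e1 : L h = iterDir ν [h] x := by
    rw [hL, hA₁]; rfl
  have e2 : sym2 A₂ h h = iterDir ν [h, h] x := by
    unfold sym2
    rw [hA₂]
    simp
  rw [e1, e2]
  ring

theorem data4 {ν : X → ℝ} (H : GateauxDiff 4 ν {0}ᶜ) {x : X} (hx : x ≠ 0) :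
    ∃ (L : X →L[ℝ] ℝ) (Q : X → X → ℝ) (C : X → X → X → ℝ), IsBi Q ∧ BdBi Q ∧ IsTri C ∧ BdTri C ∧
      HasPeano 4 ν x (fun v => L v) Q C := by
  obtain ⟨-, A₁, hA₁⟩ := H x hx 1 le_rfl (by norm_num)
  obtain ⟨-, A₂, hA₂⟩ := H x hx 2 (by norm_num) (by norm_num)
  obtain ⟨-, A₃, hA₃⟩ := H x hx 3 (by norm_num) (by norm_num)
  obtain ⟨L, hL⟩ := exists_clm A₁
  refine ⟨L, sym2 A₂, sym3 A₃, isBi_sym2 A₂, bd_sym2 A₂, isTri_sym3 A₃, bd_sym3 A₃, ?_⟩
  rw [hasPeano_iff]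
  intro h
  refine (peano4_raw H hx h).congr_left fun t => ?_
  rw [tay_smul (isLin_clm L) (isBi_sym2 A₂) (isTri_sym3 A₃)]
  have e1 : L h = iterDir ν [h] x := by
    rw [hL, hA₁]; rfl
  have e2 : sym2 A₂ h h = iterDir ν [h, h] x := by
    unfold sym2
    rw [hA₂]
    simp
  have e3 : sym3 A₃ h h h = iterDir ν [h, h, h] x := by
    unfold sym3
    rw [hA₃]
    simp
    ring
  rw [e1, e2, e3]

theorem data3_quartic {ν : X → ℝ} (H : GateauxDiff 3 ν {0}ᶜ) {x : X} (hx : x ≠ 0) :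
    ∃ (L : X →L[ℝ] ℝ) (Q : X → X → ℝ), IsBi Q ∧ BdBi Q ∧
      HasPeano 3 (fun y => ν y ^ 4) x (fun v => L v) Q (fun _ _ _ => 0) := by
  obtain ⟨L, Q, hQ, bQ, hp⟩ := data3 H hx
  have h1 := hp.sq3 (isLin_clm L) hQ
  have h2 : HasPeano 3 (fun y => ν y ^ 2) x (fun v => ((2 * ν x) • L) v) (sqQ (ν x) (fun v => L v) Q)
      (fun _ _ _ => 0) := by simpa using h1
  have h3 := h2.sq3 (isLin_clm _) (isBi_sqQ (isLin_clm L) hQ)
  refine ⟨(2 * ν x ^ 2) • ((2 * ν x) • L),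
    sqQ (ν x ^ 2) (fun v => ((2 * ν x) • L) v) (sqQ (ν x) (fun v => L v) Q),
    isBi_sqQ (isLin_clm _) (isBi_sqQ (isLin_clm L) hQ), bd_sqQ (bd_sqQ bQ), ?_⟩
  have e : (fun y => ν y ^ 4) = fun y => (ν y ^ 2) ^ 2 := by
    funext y; ring
  rw [e]
  exact h3

theorem data4_quartic {ν : X → ℝ} (H : GateauxDiff 4 ν {0}ᶜ) {x : X} (hx : x ≠ 0) :
    ∃ (L : X →L[ℝ] ℝ) (Q : X → X → ℝ) (C : X → X → X → ℝ), IsBi Q ∧ BdBi Q ∧ IsTri C ∧ BdTri C ∧
      HasPeano 4 (fun y => ν y ^ 4) x (fun v => L v) Q C := by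
  obtain ⟨L, Q, C, hQ, bQ, hC, bC, hp⟩ := data4 H hx
  have h1 := hp.sq4 (isLin_clm L) hQ hC
  have h2 : HasPeano 4 (fun y => ν y ^ 2) x (fun v => ((2 * ν x) • L) v) (sqQ (ν x) (fun v => L v) Q)
      (sqC (ν x) (fun v => L v) Q C) := by simpa using h1
  have h3 := h2.sq4 (isLin_clm _) (isBi_sqQ (isLin_clm L) hQ) (isTri_sqC (isLin_clm L) hQ hC)
  refine ⟨(2 * ν x ^ 2) • ((2 * ν x) • L),
    sqQ (ν x ^ 2) (fun v => ((2 * ν x) • L) v) (sqQ (ν x) (fun v => L v) Q),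
    sqC (ν x ^ 2) (fun v => ((2 * ν x) • L) v) (sqQ (ν x) (fun v => L v) Q)
      (sqC (ν x) (fun v => L v) Q C),
    isBi_sqQ (isLin_clm _) (isBi_sqQ (isLin_clm L) hQ),
    bd_sqQ (bd_sqQ bQ), isTri_sqC (isLin_clm _) (isBi_sqQ (isLin_clm L) hQ)
      (isTri_sqC (isLin_clm L) hQ hC), bd_sqC (bd_sqQ bQ) (bd_sqC bQ bC), ?_⟩
  have e : (fun y => ν y ^ 4) = fun y => (ν y ^ 2) ^ 2 := by
    funext y; ring
  rw [e]
  exact h3

end Pool.Agent.H72.GVar
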