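import Mathlib

set_option autoImplicit false

namespace Pool.Agent.H72.GVar

variable {X : Type*} [NormedAddCommGroup X] [NormedSpace ℝ X]

/-- The iterated directional derivative: `iterDir f [h₁, …, h_j] x` is
`D_{h₁} ⋯ D_{h_j} f (x)`, where `D_h g (y) = lim_{t → 0} (g (y + t h) - g y) / t`
(Mathlib's `lineDeriv`). -/
noncomputable def iterDir (f : X → ℝ) : List X → X → ℝ
  | [] => f
  | h :: hs => fun x => lineDeriv ℝ (iterDir f hs) x h

/-- `f` is `k` times Gateaux differentiable on `U`: for every `x ∈ U` and every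
`1 ≤ j ≤ k` all the iterated directional derivatives `D_{h₁} ⋯ D_{h_j} f (x)` exist, and they are
given by a bounded `j`-linear form in `(h₁, …, h_j)`. -/
def GateauxDiff (k : ℕ) (f : X → ℝ) (U : Set X) : Prop :=
  ∀ x ∈ U, ∀ j, 1 ≤ j → j ≤ k →
    (∀ (h : X) (hs : List X), hs.length + 1 = j → LineDifferentiableAt ℝ (iterDir f hs) x h) ∧
    ∃ A : ContinuousMultilinearMap ℝ (fun _ : Fin j => X) ℝ,
      ∀ h : Fin j → X, A h = iterDir f (List.ofFn h) x

/-- `X` admits an equivalent norm `ν` (a seminorm with `c ‖x‖ ≤ ν x ≤ C ‖x‖` for some constants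
`c > 0` and `C`) that is `k` times Gateaux smooth, i.e. `k` times Gateaux differentiable on
`X \ {0}`. -/
def AdmitsGateauxSmoothNorm (k : ℕ) (X : Type*) [NormedAddCommGroup X] [NormedSpace ℝ X] :
    Prop :=
  ∃ ν : Seminorm ℝ X, (∃ c C : ℝ, 0 < c ∧ ∀ x, c * ‖x‖ ≤ ν x ∧ ν x ≤ C * ‖x‖) ∧
    GateauxDiff k (fun x => ν x) {0}ᶜ

end Pool.Agent.H72.GVar
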