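import Mathlib

set_option autoImplicit false

open Set Filter Topology

namespace Pool.Agent.H72.GForms

variable {X : Type*} [NormedAddCommGroup X] [NormedSpace ℝ X]

/-- algebraic linearity -/
structure IsLin (L : X → ℝ) : Prop where
  add : ∀ u v, L (u + v) = L u + L v
  smul : ∀ (c : ℝ) u, L (c • u) = c * L u

/-- algebraic symmetric bilinearity -/
structure IsBi (Q : X → X → ℝ) : Prop where
  add : ∀ u u' v, Q (u + u') v = Q u v + Q u' v
  smul : ∀ (c : ℝ) u v, Q (c • u) v = c * Q u v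
  symm : ∀ u v, Q u v = Q v u

/-- algebraic symmetric trilinearity -/
structure IsTri (C : X → X → X → ℝ) : Prop where
  add : ∀ u u' v w, C (u + u') v w = C u v w + C u' v w
  smul : ∀ (c : ℝ) u v w, C (c • u) v w = c * C u v w
  swap : ∀ u v w, C u v w = C v u w
  symm : ∀ u v w, C u v w = C u w v

theorem IsBi.add' {Q : X → X → ℝ} (h : IsBi Q) (u v v' : X) : Q u (v + v') = Q u v + Q u v' := by
  rw [h.symm, h.add, h.symm v, h.symm v']

theorem IsBi.smul' {Q : X → X → ℝ} (h : IsBi Q) (c : ℝ) (u v : X) : Q u (c • v) = c * Q u v := by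
  rw [h.symm, h.smul, h.symm v]

theorem IsTri.add2 {C : X → X → X → ℝ} (h : IsTri C) (u v v' w : X) :
    C u (v + v') w = C u v w + C u v' w := by
  rw [h.swap, h.add, h.swap v, h.swap v']

theorem IsTri.smul2 {C : X → X → X → ℝ} (h : IsTri C) (c : ℝ) (u v w : X) :
    C u (c • v) w = c * C u v w := by
  rw [h.swap, h.smul, h.swap v]

theorem IsTri.add3 {C : X → X → X → ℝ} (h : IsTri C) (u v w w' : X) :
    C u v (w + w') = C u v w + C u v w' := by
  rw [h.symm, h.add2, h.symm u w, h.symm u w']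

theorem IsTri.smul3 {C : X → X → X → ℝ} (h : IsTri C) (c : ℝ) (u v w : X) :
    C u v (c • w) = c * C u v w := by
  rw [h.symm, h.smul2, h.symm u w]

/-- The Taylor polynomial of degree three. -/
noncomputable def tay (a : ℝ) (L : X → ℝ) (Q : X → X → ℝ) (C : X → X → X → ℝ) (h : X) : ℝ :=
  a + L h + Q h h / 2 + C h h h / 6

theorem tay_two {L : X → ℝ} {Q : X → X → ℝ} {C : X → X → X → ℝ} (hL : IsLin L) (hQ : IsBi Q)
    (hC : IsTri C) (a α s : ℝ) (h v : X) :
    tay a L Q C (α • h + s • v) = a + α * L h + s * L v +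
      (α ^ 2 * Q h h + 2 * α * s * Q h v + s ^ 2 * Q v v) / 2 +
      (α ^ 3 * C h h h + 3 * α ^ 2 * s * C h h v + 3 * α * s ^ 2 * C h v v +
        s ^ 3 * C v v v) / 6 := by
  have e1 : Q v h = Q h v := hQ.symm _ _
  have e2 : C v h h = C h h v := by rw [hC.swap, hC.symm]
  have e3 : C h v h = C h h v := by rw [hC.symm]
  have e4 : C v h v = C h v v := by rw [hC.swap]
  have e5 : C v v h = C h v v := by rw [hC.symm, hC.swap]
  unfold tay
  simp only [hL.add, hL.smul, hQ.add, hQ.add', hQ.smul, hQ.smul', hC.add, hC.add2, hC.add3,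
    hC.smul, hC.smul2, hC.smul3, e1, e2, e3, e4, e5]
  ring

theorem tay_smul {L : X → ℝ} {Q : X → X → ℝ} {C : X → X → X → ℝ} (hL : IsLin L) (hQ : IsBi Q)
    (hC : IsTri C) (a s : ℝ) (v : X) :
    tay a L Q C (s • v) = a + s * L v + s ^ 2 * Q v v / 2 + s ^ 3 * C v v v / 6 := by
  unfold tay
  simp only [hL.smul, hQ.smul, hQ.smul', hC.smul, hC.smul2, hC.smul3]
  ring

/-- recentring a Taylor polynomial -/
theorem tay_shift {L L' : X → ℝ} {Q Q' : X → X → ℝ} {C C' : X → X → X → ℝ} (hL : IsLin L)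
    (hL' : IsLin L') (hQ : IsBi Q) (hQ' : IsBi Q') (hC : IsTri C) (hC' : IsTri C') (a a' t : ℝ)
    (k u : X) :
    tay a L Q C (k + t • u) - tay a' L' Q' C' (t • u) =
      tay (tay a L Q C k - a') (fun v => t * (L v + Q k v + C k k v / 2 - L' v))
        (fun v w => t ^ 2 * (Q v w + C k v w - Q' v w))
        (fun v w z => t ^ 3 * (C v w z - C' v w z)) u := by
  have e1 : Q u k = Q k u := hQ.symm _ _
  have e2 : C u k k = C k k u := by rw [hC.swap, hC.symm]
  have e3 : C k u k = C k k u := by rw [hC.symm]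
  have e4 : C u k u = C k u u := by rw [hC.swap]
  have e5 : C u u k = C k u u := by rw [hC.symm, hC.swap]
  unfold tay
  simp only [hL.add, hL.smul, hL'.smul, hQ.add, hQ.add', hQ.smul, hQ.smul', hQ'.smul, hQ'.smul',
    hC.add, hC.add2, hC.add3,
    hC.smul, hC.smul2, hC.smul3, hC'.smul, hC'.smul2, hC'.smul3, e1, e2, e3, e4, e5]
  ring

/-- coefficient bounds along one line -/
theorem coef_bound {c0 c1 c2 c3 σ B : ℝ} (h : ∀ s, |s| ≤ |σ| → |c0 + c1 * s + c2 * s ^ 2 +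
    c3 * s ^ 3| ≤ B) : |σ * c1| ≤ 3 * B ∧ |σ ^ 2 * c2| ≤ 2 * B := by
  have h1 := abs_le.1 (h σ le_rfl)
  have h2 := abs_le.1 (h (-σ) (by rw [abs_neg]))
  have h3 := abs_le.1 (h (σ / 2) (by rw [abs_div]; have := abs_nonneg σ; norm_num))
  have h4 := abs_le.1 (h (-(σ / 2)) (by
    rw [abs_neg, abs_div]; have := abs_nonneg σ; norm_num))
  have h5 := abs_le.1 (h 0 (by rw [abs_zero]; exact abs_nonneg _))
  obtain ⟨h1a, h1b⟩ := h1
  obtain ⟨h2a, h2b⟩ := h2
  obtain ⟨h3a, h3b⟩ := h3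
  obtain ⟨h4a, h4b⟩ := h4
  obtain ⟨h5a, h5b⟩ := h5
  constructor
  · rw [abs_le]; constructor <;> nlinarith
  · rw [abs_le]; constructor <;> nlinarith

theorem poly_bound {R : ℝ} (hR : 0 < R) (h : X) : ∃ W : ℝ, 0 ≤ W ∧ ∀ (a B : ℝ) (L : X → ℝ)
    (Q : X → X → ℝ) (C : X → X → X → ℝ), IsLin L → IsBi Q → IsTri C →
    (∀ u, ‖u - h‖ ≤ R → |tay a L Q C u| ≤ B) → ∀ v, |L v| ≤ W * B * ‖v‖ ∧
      |Q v v| ≤ W * B * ‖v‖ ^ 2 := by
  set β : ℝ := R / (2 * (‖h‖ + 1)) with hβ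
  have hh := norm_nonneg h
  have hβ0 : 0 < β := by positivity
  have hβh : β * ‖h‖ ≤ R / 2 := by
    rw [hβ, div_mul_eq_mul_div, div_le_iff₀ (by positivity)]
    nlinarith
  refine ⟨3 * (1 + 1 / β + 2 / β ^ 2) * (2 / R) + 4 * (1 + 2 / β) * (4 / R ^ 2), by positivity,
    fun a B L Q C hL hQ hC hB v => ?_⟩
  have hB0 : 0 ≤ B := (abs_nonneg _).trans (hB h (by simp [hR.le]))
  by_cases hv : v = 0
  · subst hv
    have e1 : L 0 = 0 := by simpa using hL.smul 0 0
    have e2 : Q 0 0 = 0 := by simpa using hQ.smul 0 0 0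
    rw [e1, e2]
    simp
  have hv0 : 0 < ‖v‖ := norm_pos_iff.2 hv
  set σ : ℝ := R / (2 * ‖v‖) with hσ
  have hσ0 : 0 < σ := by positivity
  have hσv : σ * ‖v‖ = R / 2 := by rw [hσ]; field_simp
  have key : ∀ α : ℝ, |α - 1| ≤ β → |σ * (L v + α * Q h v + α ^ 2 / 2 * C h h v)| ≤ 3 * B ∧
      |σ ^ 2 * ((Q v v + α * C h v v) / 2)| ≤ 2 * B := by
    intro α hα
    refine coef_bound (c0 := a + α * L h + α ^ 2 * Q h h / 2 + α ^ 3 * C h h h / 6)
      (c3 := C v v v / 6) fun s hs => ?_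
    have h1 : ‖α • h + s • v - h‖ ≤ R := by
      have h2 : α • h + s • v - h = (α - 1) • h + s • v := by
        rw [sub_smul, one_smul]; abel
      rw [h2]
      refine (norm_add_le _ _).trans ?_
      rw [norm_smul, norm_smul, Real.norm_eq_abs, Real.norm_eq_abs]
      rw [abs_of_pos hσ0] at hs
      have h3 : |α - 1| * ‖h‖ ≤ β * ‖h‖ := mul_le_mul_of_nonneg_right hα hh
      have h4 : |s| * ‖v‖ ≤ σ * ‖v‖ := mul_le_mul_of_nonneg_right hs hv0.le
      linarith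
    have h5 := hB _ h1
    rw [tay_two hL hQ hC] at h5
    refine le_trans (le_of_eq ?_) h5
    congr 1
    ring
  obtain ⟨k1, q1⟩ := key 1 (by simp [hβ0.le])
  obtain ⟨k2, _⟩ := key (1 - β) (by simp [abs_of_pos hβ0])
  obtain ⟨k3, q3⟩ := key (1 + β) (by simp [abs_of_pos hβ0])
  have hW1 : |σ * L v| ≤ 3 * B * (1 + 1 / β + 2 / β ^ 2) := by
    have e1 : σ * L v = σ * (L v + 1 * Q h v + 1 ^ 2 / 2 * C h h v) -
        (1 / (2 * β)) * (σ * (L v + (1 + β) * Q h v + (1 + β) ^ 2 / 2 * C h h v) -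
          σ * (L v + (1 - β) * Q h v + (1 - β) ^ 2 / 2 * C h h v)) +
        (1 / (2 * β ^ 2)) * (σ * (L v + (1 + β) * Q h v + (1 + β) ^ 2 / 2 * C h h v) +
          σ * (L v + (1 - β) * Q h v + (1 - β) ^ 2 / 2 * C h h v) -
          2 * (σ * (L v + 1 * Q h v + 1 ^ 2 / 2 * C h h v))) := by
      field_simp
      ring
    have b1 : |1 / (2 * β) * (σ * (L v + (1 + β) * Q h v + (1 + β) ^ 2 / 2 * C h h v) -
          σ * (L v + (1 - β) * Q h v + (1 - β) ^ 2 / 2 * C h h v))| ≤ 1 / (2 * β) * (6 * B) := by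
      rw [abs_mul, abs_of_pos (by positivity : 0 < 1 / (2 * β))]
      apply mul_le_mul_of_nonneg_left _ (by positivity)
      exact (abs_sub _ _).trans (by linarith)
    have b2 : |1 / (2 * β ^ 2) * (σ * (L v + (1 + β) * Q h v + (1 + β) ^ 2 / 2 * C h h v) +
          σ * (L v + (1 - β) * Q h v + (1 - β) ^ 2 / 2 * C h h v) -
          2 * (σ * (L v + 1 * Q h v + 1 ^ 2 / 2 * C h h v)))| ≤ 1 / (2 * β ^ 2) * (12 * B) := by
      rw [abs_mul, abs_of_pos (by positivity : 0 < 1 / (2 * β ^ 2))]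
      apply mul_le_mul_of_nonneg_left _ (by positivity)
      have k1' := abs_le.1 k1
      have k2' := abs_le.1 k2
      have k3' := abs_le.1 k3
      rw [abs_le]
      constructor <;> linarith [k1'.1, k1'.2, k2'.1, k2'.2, k3'.1, k3'.2]
    have e2 : 3 * B * (1 + 1 / β + 2 / β ^ 2) = 3 * B + 1 / (2 * β) * (6 * B) +
        1 / (2 * β ^ 2) * (12 * B) := by
      field_simp
      ring
    rw [e1, e2]
    refine (abs_add_le _ _).trans (add_le_add ((abs_sub _ _).trans (add_le_add k1 b1)) b2)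
  have hW2 : |σ ^ 2 * Q v v| ≤ 4 * B * (1 + 2 / β) := by
    have e1 : σ ^ 2 * Q v v = 2 * (σ ^ 2 * ((Q v v + 1 * C h v v) / 2)) -
        (2 / β) * (σ ^ 2 * ((Q v v + (1 + β) * C h v v) / 2) -
          σ ^ 2 * ((Q v v + 1 * C h v v) / 2)) := by
      field_simp
      ring
    have b1 : |2 / β * (σ ^ 2 * ((Q v v + (1 + β) * C h v v) / 2) -
          σ ^ 2 * ((Q v v + 1 * C h v v) / 2))| ≤ 2 / β * (4 * B) := by
      rw [abs_mul, abs_of_pos (by positivity : 0 < 2 / β)]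
      apply mul_le_mul_of_nonneg_left _ (by positivity)
      exact (abs_sub _ _).trans (by linarith)
    have b2 : |2 * (σ ^ 2 * ((Q v v + 1 * C h v v) / 2))| ≤ 4 * B := by
      rw [abs_mul, abs_of_pos (by norm_num : (0:ℝ) < 2)]
      linarith
    have e2 : 4 * B * (1 + 2 / β) = 4 * B + 2 / β * (4 * B) := by ring
    rw [e1, e2]
    exact (abs_sub _ _).trans (add_le_add b2 b1)
  have hσinv : ‖v‖ * (2 / R) * σ = 1 := by rw [hσ]; field_simp
  constructor
  · have e1 : |L v| = |σ * L v| * (‖v‖ * (2 / R)) := by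
      rw [abs_mul, abs_of_pos hσ0]
      linear_combination (-|L v|) * hσinv
    rw [e1]
    have h1 : |σ * L v| * (‖v‖ * (2 / R)) ≤ 3 * B * (1 + 1 / β + 2 / β ^ 2) * (‖v‖ * (2 / R)) :=
      mul_le_mul_of_nonneg_right hW1 (by positivity)
    have h2 : 0 ≤ 4 * (1 + 2 / β) * (4 / R ^ 2) * B * ‖v‖ := by positivity
    calc _ ≤ _ := h1
      _ ≤ 3 * B * (1 + 1 / β + 2 / β ^ 2) * (‖v‖ * (2 / R)) +
        4 * (1 + 2 / β) * (4 / R ^ 2) * B * ‖v‖ := by linarith
      _ = _ := by ring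
  · have e1 : |Q v v| = |σ ^ 2 * Q v v| * (‖v‖ * (2 / R)) ^ 2 := by
      rw [abs_mul, abs_of_pos (by positivity : 0 < σ ^ 2)]
      have : (‖v‖ * (2 / R) * σ) ^ 2 = 1 := by rw [hσinv]; norm_num
      linear_combination (-|Q v v|) * this
    rw [e1]
    have h1 : |σ ^ 2 * Q v v| * (‖v‖ * (2 / R)) ^ 2 ≤ 4 * B * (1 + 2 / β) *
        (‖v‖ * (2 / R)) ^ 2 := mul_le_mul_of_nonneg_right hW2 (by positivity)
    have h2 : 0 ≤ 3 * (1 + 1 / β + 2 / β ^ 2) * (2 / R) * B * ‖v‖ ^ 2 := by positivity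
    calc _ ≤ _ := h1
      _ ≤ 4 * B * (1 + 2 / β) * (‖v‖ * (2 / R)) ^ 2 +
        3 * (1 + 1 / β + 2 / β ^ 2) * (2 / R) * B * ‖v‖ ^ 2 := by linarith
      _ = _ := by ring

/-- inversion of `W(2t) - a W(t)` -/
theorem inversion {W : ℝ → ℝ} {a A t₀ M s₀ : ℝ} {r : ℕ} (ha : 0 < a) (har : a < 2 ^ r)
    (hA : 0 ≤ A) (hs₀ : 0 < s₀)
    (hM : ∀ t, |t| ≤ s₀ → |W t| ≤ M * |t| ^ r)
    (h : ∀ t, |t| ≤ t₀ → |W (2 * t) - a * W t| ≤ A * |t| ^ r) :
    ∀ t, |t| ≤ 2 * t₀ → |W t| ≤ A / (2 ^ r - a) * |t| ^ r := by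
  have h2r : (0 : ℝ) < 2 ^ r := by positivity
  have hd : 0 < 2 ^ r - a := by linarith
  have key : ∀ n : ℕ, ∀ t, |t| ≤ 2 * t₀ → |t| ≤ 2 ^ n * s₀ →
      |W t| ≤ (a / 2 ^ r) ^ n * M * |t| ^ r + A / (2 ^ r - a) * |t| ^ r := by
    intro n
    induction n with
    | zero =>
      intro t _ ht
      have h1 := hM t (by simpa using ht)
      have h2 : 0 ≤ A / (2 ^ r - a) * |t| ^ r := by positivity
      simp only [pow_zero, one_mul]
      linarith
    | succ n ih =>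
      intro t ht1 ht2
      have ht0 := abs_nonneg t
      have habs : |t / 2| = |t| / 2 := by rw [abs_div]; norm_num
      have h1 := ih (t / 2) (by rw [habs]; linarith) (by rw [habs, pow_succ'] at *; linarith)
      have h2 := h (t / 2) (by rw [habs]; linarith)
      have h3 : 2 * (t / 2) = t := by ring
      rw [h3] at h2
      rw [habs, div_pow |t| 2 r] at h1 h2
      have h4 : |W t| ≤ a * |W (t / 2)| + A * (|t| ^ r / 2 ^ r) := by
        have h5 : |W t| ≤ |W t - a * W (t / 2)| + |a * W (t / 2)| := by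
          have := abs_add_le (W t - a * W (t / 2)) (a * W (t / 2))
          simpa using this
        rw [abs_mul, abs_of_pos ha] at h5
        linarith
      have h6 : a * |W (t / 2)| ≤ a * ((a / 2 ^ r) ^ n * M * (|t| ^ r / 2 ^ r) +
          A / (2 ^ r - a) * (|t| ^ r / 2 ^ r)) := mul_le_mul_of_nonneg_left h1 ha.le
      refine (h4.trans (add_le_add_left h6 _)).trans (le_of_eq ?_)
      rw [pow_succ]
      field_simp
      ring
  intro t ht
  have hlim : Tendsto (fun n : ℕ => (a / 2 ^ r) ^ n * M * |t| ^ r + A / (2 ^ r - a) * |t| ^ r)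
      atTop (𝓝 (0 * M * |t| ^ r + A / (2 ^ r - a) * |t| ^ r)) := by
    refine Tendsto.add_const _ (Tendsto.mul_const _ (Tendsto.mul_const _ ?_))
    exact tendsto_pow_atTop_nhds_zero_of_lt_one (by positivity) (by rw [div_lt_one h2r]; exact har)
  rw [zero_mul, zero_mul, zero_add] at hlim
  refine ge_of_tendsto hlim ?_
  have hev : ∀ᶠ n : ℕ in atTop, |t| ≤ 2 ^ n * s₀ := by
    have h1 : Tendsto (fun n : ℕ => (2 : ℝ) ^ n * s₀) atTop atTop :=
      (tendsto_pow_atTop_atTop_of_one_lt (by norm_num)).atTop_mul_const hs₀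
    exact h1.eventually_ge_atTop _
  exact hev.mono fun n hn => key n t ht hn

end Pool.Agent.H72.GForms
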