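import Pool.Agent.H72.GVar

set_option autoImplicit false

open Set Filter Topology
open scoped ENNReal

namespace Pool.Agent.H72.GLp

open Pool.Agent.H72.GVar

/-- `|t| ^ (P - 2) * t`, the derivative of `|t| ^ P / P`. -/
noncomputable def gg (P t : ℝ) : ℝ := |t| ^ (P - 2) * t

theorem hasDerivAt_gg {P : ℝ} (hP : 1 < P) (t : ℝ) :
    HasDerivAt (fun t : ℝ => |t| ^ P) (P * gg P t) t := by
  have h := hasDerivAt_abs_rpow t hP
  have e : P * gg P t = P * |t| ^ (P - 2) * t := by unfold gg; ring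
  rw [e]
  exact h

theorem abs_gg {P : ℝ} (hP : 1 < P) (t : ℝ) : |gg P t| = |t| ^ (P - 1) := by
  unfold gg
  by_cases h : t = 0
  · subst h
    rw [mul_zero, abs_zero, Real.zero_rpow (by linarith)]
  · have h0 : 0 < |t| := abs_pos.2 h
    rw [abs_mul, abs_of_nonneg (Real.rpow_nonneg (abs_nonneg _) _)]
    have e : P - 1 = (P - 2) + 1 := by ring
    rw [e, Real.rpow_add h0, Real.rpow_one]

theorem convexOn_abs_rpow {P : ℝ} (hP : 1 ≤ P) : ConvexOn ℝ univ (fun t : ℝ => |t| ^ P) := by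
  refine ⟨convex_univ, fun x _ y _ a b ha hb hab => ?_⟩
  have h1 : |a • x + b • y| ≤ a • |x| + b • |y| := by
    simp only [smul_eq_mul]
    refine (abs_add_le _ _).trans (le_of_eq ?_)
    rw [abs_mul, abs_mul, abs_of_nonneg ha, abs_of_nonneg hb]
  calc |a • x + b • y| ^ P ≤ (a • |x| + b • |y|) ^ P :=
        Real.rpow_le_rpow (abs_nonneg _) h1 (by linarith)
    _ ≤ a • |x| ^ P + b • |y| ^ P :=
        (convexOn_rpow hP).2 (abs_nonneg x) (abs_nonneg y) ha hb hab

theorem slope_bound {P : ℝ} (hP : 1 < P) (a v : ℝ) {s : ℝ} (hs : 0 < s) (hs1 : s ≤ 1) :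
    (|a + s * v| ^ P - |a| ^ P) / s ≤ |a + v| ^ P - |a| ^ P := by
  have h := (convexOn_abs_rpow hP.le).2 (mem_univ a) (mem_univ (a + v))
    (sub_nonneg.2 hs1) hs.le (by ring)
  simp only [smul_eq_mul] at h
  have e : (1 - s) * a + s * (a + v) = a + s * v := by ring
  rw [e] at h
  rw [div_le_iff₀ hs]
  linarith

theorem slope_tendsto {P : ℝ} (hP : 1 < P) (a v : ℝ) :
    Tendsto (fun s : ℝ => (|a + s * v| ^ P - |a| ^ P) / s) (𝓝[>] 0) (𝓝 (P * gg P a * v)) := by
  have h1 : HasDerivAt (fun s : ℝ => |a + s * v| ^ P) (P * gg P a * v) 0 := by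
    have h2 : HasDerivAt (fun s : ℝ => a + s * v) v 0 := by
      have h3 := ((hasDerivAt_id (0 : ℝ)).mul_const v).const_add a
      simpa using h3
    have h4 := hasDerivAt_gg hP (a + 0 * v)
    have h5 := h4.comp (0 : ℝ) h2
    have e : a + 0 * v = a := by ring
    rw [e] at h5
    exact h5
  have h6 := h1.tendsto_slope_zero_right
  refine h6.congr fun s => ?_
  simp only [zero_add, zero_mul, add_zero, smul_eq_mul]
  rw [div_eq_inv_mul]

theorem tangent {P : ℝ} (hP : 1 < P) (a b : ℝ) :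
    P * gg P a * (b - a) ≤ |b| ^ P - |a| ^ P := by
  refine le_of_tendsto (slope_tendsto hP a (b - a)) ?_
  have h1 : ∀ᶠ s : ℝ in 𝓝[>] 0, s ≤ 1 := by
    have : ∀ᶠ s : ℝ in 𝓝 0, s < 1 := Iio_mem_nhds one_pos
    exact (this.filter_mono nhdsWithin_le_nhds).mono fun s hs => hs.le
  filter_upwards [h1, self_mem_nhdsWithin] with s hs1 hs
  have := slope_bound hP a (b - a) hs hs1
  rwa [add_sub_cancel] at this

theorem sq_rpow_half (a P : ℝ) : (a ^ 2) ^ (P / 2) = |a| ^ P := by
  rw [← sq_abs, ← Real.rpow_natCast, ← Real.rpow_mul (abs_nonneg _)]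
  congr 1
  push_cast
  ring

theorem clarkson {P : ℝ} (hP : 2 ≤ P) (a b : ℝ) :
    |(a + b) / 2| ^ P + |(b - a) / 2| ^ P ≤ (|a| ^ P + |b| ^ P) / 2 := by
  have h1 := Real.add_rpow_le_rpow_add (p := P / 2) (sq_nonneg ((a + b) / 2))
    (sq_nonneg ((b - a) / 2)) (by linarith)
  rw [sq_rpow_half, sq_rpow_half] at h1
  have e : ((a + b) / 2) ^ 2 + ((b - a) / 2) ^ 2 = (1 / 2) * a ^ 2 + (1 / 2) * b ^ 2 := by ring
  rw [e] at h1
  have h2 := (convexOn_rpow (p := P / 2) (by linarith)).2 (sq_nonneg a) (sq_nonneg b)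
    (by norm_num : (0 : ℝ) ≤ 1 / 2) (by norm_num : (0 : ℝ) ≤ 1 / 2) (by norm_num)
  simp only [smul_eq_mul, sq_rpow_half] at h2
  linarith

theorem breg_scalar {P : ℝ} (hP : 2 ≤ P) (a b : ℝ) :
    2 * (1 / 2) ^ P * |b - a| ^ P ≤ |b| ^ P - |a| ^ P - P * gg P a * (b - a) := by
  have h1 := clarkson hP a b
  have h2 := tangent (by linarith : 1 < P) a ((a + b) / 2)
  have e1 : (a + b) / 2 - a = (b - a) / 2 := by ring
  rw [e1] at h2
  have e2 : |(b - a) / 2| ^ P = (1 / 2) ^ P * |b - a| ^ P := by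
    rw [← Real.mul_rpow (by norm_num) (abs_nonneg _)]
    congr 1
    rw [abs_div]
    norm_num
    ring
  rw [e2] at h1
  linarith

theorem gg_mono {P : ℝ} (hP : 2 ≤ P) {a b : ℝ} (h : a ≤ b) : gg P a ≤ gg P b := by
  rcases eq_or_lt_of_le h with rfl | hlt
  · exact le_rfl
  · have h1 := tangent (by linarith : 1 < P) a b
    have h2 := tangent (by linarith : 1 < P) b a
    have h3 : 0 ≤ P * (gg P b - gg P a) * (b - a) := by linarith
    have h4 : 0 < P * (b - a) := mul_pos (by linarith) (by linarith)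
    nlinarith

theorem young_crude {P : ℝ} (hP : 1 < P) (a v : ℝ) : |gg P a * v| ≤ |a| ^ P + |v| ^ P := by
  rw [abs_mul, abs_gg hP]
  have ha := abs_nonneg a
  have hv := abs_nonneg v
  have e : ∀ t : ℝ, 0 ≤ t → t ^ (P - 1) * t = t ^ P := by
    intro t ht
    rcases eq_or_lt_of_le ht with rfl | hlt
    · rw [mul_zero, Real.zero_rpow (by linarith)]
    · rw [Real.rpow_sub_one hlt.ne']
      field_simp
  rcases le_total |v| |a| with h | h
  · have h1 : |a| ^ (P - 1) * |v| ≤ |a| ^ (P - 1) * |a| :=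
      mul_le_mul_of_nonneg_left h (Real.rpow_nonneg ha _)
    rw [e _ ha] at h1
    have h2 : 0 ≤ |v| ^ P := Real.rpow_nonneg hv _
    linarith
  · have h1 : |a| ^ (P - 1) * |v| ≤ |v| ^ (P - 1) * |v| :=
      mul_le_mul_of_nonneg_right (Real.rpow_le_rpow ha h (by linarith)) hv
    rw [e _ hv] at h1
    have h2 : 0 ≤ |a| ^ P := Real.rpow_nonneg ha _
    linarith

/-! ### The sequence space -/

/-- real `ℓ_p` -/
abbrev E (p : ℝ≥0∞) := lp (fun _ : ℕ => ℝ) p

variable {p : ℝ≥0∞}

/-- coordinates -/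
def co (x : E p) (i : ℕ) : ℝ := x i

theorem co_add (x y : E p) (i : ℕ) : co (x + y) i = co x i + co y i := by
  unfold co; rw [lp.coeFn_add]; rfl

theorem co_sub (x y : E p) (i : ℕ) : co (x - y) i = co x i - co y i := by
  unfold co; rw [lp.coeFn_sub]; rfl

theorem co_neg (x : E p) (i : ℕ) : co (-x) i = -co x i := by
  unfold co; rw [lp.coeFn_neg]; rfl

theorem co_smul (c : ℝ) (x : E p) (i : ℕ) : co (c • x) i = c * co x i := by
  unfold co; rw [lp.coeFn_smul]; rfl

theorem co_zero (i : ℕ) : co (0 : E p) i = 0 := by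
  unfold co; rw [lp.coeFn_zero]; rfl

theorem co_ext {x y : E p} (h : ∀ i, co x i = co y i) : x = y := lp.ext (funext h)

theorem summable_co (hp : 0 < p.toReal) (x : E p) : Summable fun i => |co x i| ^ p.toReal :=
  (lp.memℓp x).summable hp

theorem norm_rpow_co (hp : 0 < p.toReal) (x : E p) :
    ‖x‖ ^ p.toReal = ∑' i, |co x i| ^ p.toReal := lp.norm_rpow_eq_tsum hp x

theorem abs_co_le (hp : p ≠ 0) (x : E p) (i : ℕ) : |co x i| ≤ ‖x‖ :=
  lp.norm_apply_le_norm hp x i

/-- constructor -/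
def mk (a : ℕ → ℝ) (h : Summable fun i => |a i| ^ p.toReal) : E p := ⟨a, memℓp_gen h⟩

theorem co_mk (a : ℕ → ℝ) (h : Summable fun i => |a i| ^ p.toReal) (i : ℕ) :
    co (mk a h : E p) i = a i := rfl

variable [Fact (1 ≤ p)]

omit [Fact (1 ≤ p)] in
theorem summable_gg (hp : 1 < p.toReal) (x v : E p) :
    Summable fun i => gg p.toReal (co x i) * co v i := by
  refine Summable.of_norm_bounded ((summable_co (by linarith) x).add
    (summable_co (by linarith) v)) fun i => ?_
  exact young_crude hp _ _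

/-- the functional `N' x` as a linear map -/
noncomputable def dN (hp : 1 < p.toReal) (x : E p) : E p →ₗ[ℝ] ℝ where
  toFun v := p.toReal * ∑' i, gg p.toReal (co x i) * co v i
  map_add' u v := by
    have h1 : ∀ i, gg p.toReal (co x i) * co (u + v) i =
        gg p.toReal (co x i) * co u i + gg p.toReal (co x i) * co v i := by
      intro i; rw [co_add]; ring
    simp only [h1]
    rw [(summable_gg hp x u).tsum_add (summable_gg hp x v)]
    ring
  map_smul' c v := by
    have h1 : ∀ i, gg p.toReal (co x i) * co (c • v) i =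
        c * (gg p.toReal (co x i) * co v i) := by
      intro i; rw [co_smul]; ring
    simp only [h1, tsum_mul_left, RingHom.id_apply, smul_eq_mul]
    ring

theorem dN_bound (hp : 1 < p.toReal) (x v : E p) :
    ‖dN hp x v‖ ≤ p.toReal * (‖x‖ ^ p.toReal + 1) * ‖v‖ := by
  have hP0 : 0 < p.toReal := by linarith
  have h1 : ∀ v : E p, |dN hp x v| ≤ p.toReal * (‖x‖ ^ p.toReal + ‖v‖ ^ p.toReal) := by
    intro v
    change |p.toReal * ∑' i, gg p.toReal (co x i) * co v i| ≤ _
    rw [abs_mul, abs_of_pos hP0]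
    apply mul_le_mul_of_nonneg_left _ hP0.le
    rw [norm_rpow_co hP0, norm_rpow_co hP0, ← (summable_co hP0 x).tsum_add (summable_co hP0 v)]
    have h2 : Summable fun i => ‖gg p.toReal (co x i) * co v i‖ := (summable_gg hp x v).norm
    refine (norm_tsum_le_tsum_norm h2).trans ?_
    exact h2.tsum_le_tsum (fun i => young_crude hp _ _)
      ((summable_co hP0 x).add (summable_co hP0 v))
  by_cases hv : v = 0
  · subst hv; simp
  · have hv0 : 0 < ‖v‖ := norm_pos_iff.2 hv
    have h2 := h1 (‖v‖⁻¹ • v)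
    have h3 : ‖‖v‖⁻¹ • v‖ = 1 := by
      rw [norm_smul, norm_inv, norm_norm, inv_mul_cancel₀ hv0.ne']
    rw [h3, Real.one_rpow, map_smul, smul_eq_mul, abs_mul, abs_of_pos (inv_pos.2 hv0)] at h2
    rw [Real.norm_eq_abs]
    have h4 : |dN hp x v| = ‖v‖ * (‖v‖⁻¹ * |dN hp x v|) := by
      field_simp
    rw [h4]
    calc ‖v‖ * (‖v‖⁻¹ * |dN hp x v|) ≤ ‖v‖ * (p.toReal * (‖x‖ ^ p.toReal + 1)) :=
          mul_le_mul_of_nonneg_left h2 hv0.le
      _ = _ := by ring

/-- the functional `N' x` -/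
noncomputable def dNc (hp : 1 < p.toReal) (x : E p) : E p →L[ℝ] ℝ :=
  (dN hp x).mkContinuous _ (dN_bound hp x)

theorem dNc_apply (hp : 1 < p.toReal) (x v : E p) :
    dNc hp x v = p.toReal * ∑' i, gg p.toReal (co x i) * co v i := rfl

theorem breg_lp (hp : 2 ≤ p.toReal) (hp1 : 1 < p.toReal) (x y : E p) :
    2 * (1 / 2) ^ p.toReal * ‖y - x‖ ^ p.toReal ≤
      ‖y‖ ^ p.toReal - ‖x‖ ^ p.toReal - dNc hp1 x (y - x) := by
  have hP0 : 0 < p.toReal := by linarith
  have h1 := summable_co hP0 x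
  have h2 := summable_co hP0 y
  have h3 := summable_co hP0 (y - x)
  have h4 := summable_gg hp1 x (y - x)
  rw [dNc_apply, norm_rpow_co hP0, norm_rpow_co hP0, norm_rpow_co hP0, ← tsum_mul_left,
    ← tsum_mul_left, ← h2.tsum_sub h1, ← (h2.sub h1).tsum_sub (h4.mul_left _)]
  refine (h3.mul_left _).tsum_le_tsum (fun i => ?_) ((h2.sub h1).sub (h4.mul_left _))
  have h5 := breg_scalar hp (co x i) (co y i)
  rw [co_sub, ← mul_assoc]
  exact h5

theorem hderiv_lp (hp1 : 1 < p.toReal) (x v : E p) :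
    Tendsto (fun s : ℝ => (‖x + s • v‖ ^ p.toReal - ‖x‖ ^ p.toReal) / s) (𝓝[>] 0)
      (𝓝 (dNc hp1 x v)) := by
  have hP0 : 0 < p.toReal := by linarith
  rw [dNc_apply, ← tsum_mul_left]
  have h1 : ∀ s : ℝ, (‖x + s • v‖ ^ p.toReal - ‖x‖ ^ p.toReal) / s =
      ∑' i, (|co x i + s * co v i| ^ p.toReal - |co x i| ^ p.toReal) / s := by
    intro s
    have h2 := summable_co hP0 (x + s • v)
    have h3 := summable_co hP0 x
    rw [norm_rpow_co hP0, norm_rpow_co hP0, ← h2.tsum_sub h3, ← tsum_div_const]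
    refine tsum_congr fun i => ?_
    rw [co_add, co_smul]
  simp only [h1]
  have hb : Summable fun i => p.toReal * (|co x i| ^ p.toReal + |co v i| ^ p.toReal) +
      (|co (x + v) i| ^ p.toReal + |co x i| ^ p.toReal) :=
    (((summable_co hP0 x).add (summable_co hP0 v)).mul_left _).add
      ((summable_co hP0 (x + v)).add (summable_co hP0 x))
  refine tendsto_tsum_of_dominated_convergence hb (fun i => ?_) ?_
  · have := slope_tendsto hp1 (co x i) (co v i)
    rwa [mul_assoc] at this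
  · have h1 : ∀ᶠ s : ℝ in 𝓝[>] 0, s ≤ 1 := by
      have : ∀ᶠ s : ℝ in 𝓝 0, s < 1 := Iio_mem_nhds one_pos
      exact (this.filter_mono nhdsWithin_le_nhds).mono fun s hs => hs.le
    filter_upwards [h1, self_mem_nhdsWithin] with s hs1 hs i
    have hs0 : 0 < s := hs
    have h2 := slope_bound hp1 (co x i) (co v i) hs0 hs1
    have h3 : p.toReal * gg p.toReal (co x i) * co v i ≤
        (|co x i + s * co v i| ^ p.toReal - |co x i| ^ p.toReal) / s := by
      rw [le_div_iff₀ hs0]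
      have := tangent hp1 (co x i) (co x i + s * co v i)
      rw [add_sub_cancel_left] at this
      linarith
    have h4 := abs_le.1 (young_crude hp1 (co x i) (co v i))
    have h5 : 0 ≤ |co x i| ^ p.toReal := Real.rpow_nonneg (abs_nonneg _) _
    have h6 : 0 ≤ |co (x + v) i| ^ p.toReal := Real.rpow_nonneg (abs_nonneg _) _
    have h7 : 0 ≤ |co v i| ^ p.toReal := Real.rpow_nonneg (abs_nonneg _) _
    rw [co_add] at h6 ⊢
    rw [Real.norm_eq_abs, abs_le]
    have h8 := mul_le_mul_of_nonneg_left h4.1 hP0.le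
    constructor
    · rw [mul_assoc] at h3
      linarith
    · have h9 : 0 ≤ p.toReal * (|co x i| ^ p.toReal + |co v i| ^ p.toReal) := by positivity
      linarith

/-- The gauge of `ℓ_p`. -/
noncomputable def gauge (hp : 2 ≤ p.toReal) (hp4 : p.toReal < 4) : Gauge (E p) where
  P := p.toReal
  one_lt := by linarith
  lt_four := hp4
  N := fun x => ‖x‖ ^ p.toReal
  N' := fun x => dNc (by linarith) x
  c := 2 * (1 / 2) ^ p.toReal
  c_pos := by positivity
  N_eq := fun _ => rfl
  breg := fun x y => breg_lp hp (by linarith) x y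
  N'_bound := fun R => by
    have hP0 : 0 < p.toReal := by linarith
    refine ⟨p.toReal * (|R| ^ p.toReal + 1), by positivity, fun x hx => ?_⟩
    refine ((dN (by linarith) x).mkContinuous_norm_le (by positivity) _).trans ?_
    apply mul_le_mul_of_nonneg_left _ hP0.le
    have : ‖x‖ ^ p.toReal ≤ |R| ^ p.toReal :=
      Real.rpow_le_rpow (norm_nonneg _) (hx.trans (le_abs_self _)) hP0.le
    linarith
  hderiv := fun x v => hderiv_lp (by linarith) x v

end Pool.Agent.H72.GLp
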