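import Pool.Agent.H72.GVar
import Pool.Agent.H72.GForms

set_option autoImplicit false

open Set Filter Topology

namespace Pool.Agent.H72.GVar

variable {X : Type*} [NormedAddCommGroup X] [NormedSpace ℝ X]

/-- The closed sets of points at which `f - δ N` behaves convexly. -/
def MS (f : X → ℝ) (G : Gauge X) (δ : ℝ) : Set X :=
  {x | ∀ y, ∀ t > 0, ∀ s > 0, (f x - f (x - (t : ℝ) • (y - x))) / t ≤
    f y - f x - δ * (G.N y - G.N x) + δ * ((G.N (x + (s : ℝ) • (y - x)) - G.N x) / s)}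

theorem isClosed_MS {f : X → ℝ} (hf : Continuous f) (G : Gauge X) :
    IsClosed {q : (ℝ × X) × X | q.1.2 ∈ MS f G (Real.exp q.1.1)} := by
  have hN := G.continuous_N
  have : {q : (ℝ × X) × X | q.1.2 ∈ MS f G (Real.exp q.1.1)} =
      ⋂ (y : X) (t : ℝ) (_ : t > 0) (s : ℝ) (_ : s > 0), {q : (ℝ × X) × X |
        (f q.1.2 - f (q.1.2 - t • (y - q.1.2))) / t ≤
        f y - f q.1.2 - Real.exp q.1.1 * (G.N y - G.N q.1.2) +
        Real.exp q.1.1 * ((G.N (q.1.2 + s • (y - q.1.2)) - G.N q.1.2) / s)} := by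
    ext q
    simp only [MS, mem_iInter, mem_ofPred_eq]
  rw [this]
  refine isClosed_iInter fun y => isClosed_iInter fun t => isClosed_iInter fun ht =>
    isClosed_iInter fun s => isClosed_iInter fun hs => isClosed_le ?_ ?_
  · fun_prop
  · fun_prop

theorem min_mem_MS {f : X → ℝ} {G : Gauge X} {δ : ℝ} (hδ : 0 ≤ δ) {ζ : X →L[ℝ] ℝ} {z : X}
    (hz : ∀ y, H f G δ ζ z ≤ H f G δ ζ y) : z ∈ MS f G δ := by
  intro y t ht s hs
  have h1 := hz y
  have h2 := hz (z - t • (y - z))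
  have h3 := G.slope_le z (y - z) ht hs
  unfold H at h1 h2
  rw [map_sub, map_smul, smul_eq_mul, map_sub] at h2
  have h4 := mul_le_mul_of_nonneg_left h3 hδ
  have h5 : (f z - f (z - t • (y - z))) / t ≤
      δ * ((G.N z - G.N (z - t • (y - z))) / t) + (ζ y - ζ z) := by
    rw [div_le_iff₀ ht]
    have : (δ * ((G.N z - G.N (z - t • (y - z))) / t) + (ζ y - ζ z)) * t =
        δ * (G.N z - G.N (z - t • (y - z))) + t * (ζ y - ζ z) := by
      field_simp
    rw [this]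
    linarith
  linarith

/-- the one-sided consequence of membership at differentiability points -/
theorem MS_growth {f : X → ℝ} {G : Gauge X} {δ : ℝ} {x : X} (hx : x ∈ MS f G δ)
    {L : X →L[ℝ] ℝ} (hL : ∀ v, Tendsto (fun t : ℝ => (f (x + t • v) - f x) / t) (𝓝[≠] 0)
      (𝓝 (L v))) (y : X) :
    f x + L (y - x) + δ * (G.N y - G.N x - G.N' x (y - x)) ≤ f y := by
  have h1 : Tendsto (fun t : ℝ => (f x - f (x - t • (y - x))) / t) (𝓝[>] 0)
      (𝓝 (L (y - x))) := by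
    have h2 := hL (-(y - x))
    have h3 : Tendsto (fun t : ℝ => (f (x + t • (-(y - x))) - f x) / t) (𝓝[>] 0)
      (𝓝 (L (-(y - x)))) := h2.mono_left (nhdsWithin_mono _ fun t ht => ne_of_gt ht)
    have h4 := h3.neg
    rw [map_neg, neg_neg] at h4
    refine h4.congr fun t => ?_
    rw [smul_neg, ← sub_eq_add_neg, ← neg_div, neg_sub]
  have h5 := G.hderiv x (y - x)
  have h6 : ∀ s > 0, L (y - x) ≤ f y - f x - δ * (G.N y - G.N x) +
      δ * ((G.N (x + (s : ℝ) • (y - x)) - G.N x) / s) := by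
    intro s hs
    refine le_of_tendsto h1 ?_
    filter_upwards [self_mem_nhdsWithin] with t ht
    exact hx y t ht s hs
  have h7 : L (y - x) ≤ f y - f x - δ * (G.N y - G.N x) + δ * G.N' x (y - x) := by
    refine ge_of_tendsto ((h5.const_mul δ).const_add _) ?_
    filter_upwards [self_mem_nhdsWithin] with s hs
    exact h6 s hs
  linarith

theorem MS_growth_strict {f : X → ℝ} {G : Gauge X} {δ₀ δ₁ : ℝ} (h01 : δ₀ ≤ δ₁) {x : X}
    (hx : x ∈ MS f G δ₁)
    {L : X →L[ℝ] ℝ} (hL : ∀ v, Tendsto (fun t : ℝ => (f (x + t • v) - f x) / t) (𝓝[≠] 0)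
      (𝓝 (L v))) (y : X) :
    H f G δ₀ (L - δ₀ • G.N' x) x + (δ₁ - δ₀) * (G.c * ‖y - x‖ ^ G.P) ≤
      H f G δ₀ (L - δ₀ • G.N' x) y := by
  have h1 := MS_growth hx hL y
  have h2 := G.breg x y
  have h3 := mul_le_mul_of_nonneg_left h2 (sub_nonneg.2 h01)
  unfold H
  simp only [_root_.sub_apply, _root_.smul_apply, smul_eq_mul]
  rw [map_sub, map_sub] at h1
  rw [map_sub] at h3
  linarith

theorem zero_notMem_MS [Nontrivial X] {f : X → ℝ} {G : Gauge X} {δ a b : ℝ} (hδ : 0 < δ)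
    (hf : Quartic f a) (hfb : ∀ x, f x ≤ b * ‖x‖ ^ 4) (hP : 1 < G.P) : (0 : X) ∉ MS f G δ := by
  intro h0
  obtain ⟨w, hw⟩ := exists_norm_eq X (zero_le_one : (0 : ℝ) ≤ 1)
  have hN0 : G.N 0 = 0 := by rw [G.N_eq, norm_zero, Real.zero_rpow G.P_pos.ne']
  have key : ∀ y : X, 0 ≤ f y - δ * G.N y := by
    intro y
    have h1 : ∀ t > 0, 0 ≤ f y - δ * G.N y + δ * (t ^ (G.P - 1) * ‖y‖ ^ G.P) +
        b * t ^ 3 * ‖y‖ ^ 4 := by
      intro t ht
      have h2 := h0 y t ht t ht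
      simp only [hf.zero, hN0, sub_zero, zero_sub, zero_add] at h2
      have h3 := hfb (-(t • y))
      rw [norm_neg, norm_smul, Real.norm_of_nonneg ht.le, mul_pow] at h3
      have h4 : -f (-(t • y)) / t ≥ -(b * t ^ 3 * ‖y‖ ^ 4) := by
        rw [ge_iff_le, le_div_iff₀ ht]
        nlinarith
      have h5 : G.N (t • y) / t = t ^ (G.P - 1) * ‖y‖ ^ G.P := by
        rw [G.N_eq, norm_smul, Real.norm_of_nonneg ht.le, Real.mul_rpow ht.le (norm_nonneg _),
          Real.rpow_sub_one ht.ne']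
        ring
      rw [h5] at h2
      linarith
    have hlim : Tendsto (fun t : ℝ => f y - δ * G.N y + δ * (t ^ (G.P - 1) * ‖y‖ ^ G.P) +
        b * t ^ 3 * ‖y‖ ^ 4) (𝓝[>] 0) (𝓝 (f y - δ * G.N y + δ * (0 * ‖y‖ ^ G.P) +
        b * 0 ^ 3 * ‖y‖ ^ 4)) := by
      have h6 : Tendsto (fun t : ℝ => t ^ (G.P - 1)) (𝓝[>] 0) (𝓝 0) := by
        have h7 : ContinuousAt (fun t : ℝ => t ^ (G.P - 1)) 0 :=
          Real.continuousAt_rpow_const _ _ (Or.inr (by linarith))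
        have h8 := h7.tendsto
        rw [Real.zero_rpow (by linarith)] at h8
        exact h8.mono_left nhdsWithin_le_nhds
      have h9 : Tendsto (fun t : ℝ => t) (𝓝[>] 0) (𝓝 0) := nhdsWithin_le_nhds
      exact (((h6.mul_const _).const_mul δ).const_add _).add
        (((h9.pow 3).const_mul b).mul_const _)
    have h10 := ge_of_tendsto hlim (by
      filter_upwards [self_mem_nhdsWithin] with t ht
      exact h1 t ht)
    simpa using h10
  -- contradiction for small multiples of `w`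
  have hlim : Tendsto (fun t : ℝ => b * t ^ (4 - G.P)) (𝓝[>] 0) (𝓝 (b * 0)) := by
    refine Tendsto.const_mul b ?_
    have h7 : ContinuousAt (fun t : ℝ => t ^ (4 - G.P)) 0 :=
      Real.continuousAt_rpow_const _ _ (Or.inr (by linarith [G.lt_four]))
    have h8 := h7.tendsto
    rw [Real.zero_rpow (by linarith [G.lt_four])] at h8
    exact h8.mono_left nhdsWithin_le_nhds
  rw [mul_zero] at hlim
  have hev : ∀ᶠ t : ℝ in 𝓝[>] 0, b * t ^ (4 - G.P) < δ := hlim.eventually_lt_const hδ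
  obtain ⟨t, ht1, ht0⟩ := (hev.and self_mem_nhdsWithin).exists
  have ht : 0 < t := ht0
  have h1 := key (t • w)
  have h2 := hfb (t • w)
  rw [norm_smul, Real.norm_of_nonneg ht.le, hw, mul_one] at h2
  rw [G.N_eq, norm_smul, Real.norm_of_nonneg ht.le, hw, mul_one] at h1
  have h3 : t ^ 4 = t ^ (4 - G.P) * t ^ G.P := by
    rw [← Real.rpow_add ht]
    norm_num
  have h4 : 0 < t ^ G.P := Real.rpow_pos_of_pos ht _
  rw [h3] at h2
  nlinarith

/-- **Baire step**. -/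
theorem baire [CompleteSpace X] [Nontrivial X] {f : X → ℝ} {a b : ℝ} (hf : Quartic f a)
    (hfb : ∀ x, f x ≤ b * ‖x‖ ^ 4) (G : Gauge X) (Λ : X → X → ℝ → ℝ) {r : ℕ}
    (hcont : ∀ t, Continuous fun q : X × X => Λ q.1 q.2 t)
    (hΛ : ∀ x, x ≠ 0 → ∀ h, ∃ A t₀ : ℝ, 0 < t₀ ∧ ∀ t, |t| ≤ t₀ → |Λ x h t| ≤ A * |t| ^ r) :
    ∃ δ₀ δ₁ : ℝ, 0 < δ₀ ∧ δ₀ < δ₁ ∧ ∃ x₁ ∈ MS f G δ₁, ∃ ρ > 0, ∃ (h₁ : X) (n : ℕ),
      ∀ x ∈ MS f G δ₀, ‖x - x₁‖ < ρ → ∀ h, ‖h - h₁‖ < ρ → ∀ t, |t| ≤ 1 / (n + 1 : ℝ) →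
        |Λ x h t| ≤ (n + 1) * |t| ^ r := by
  let Z : Set ((ℝ × X) × X) := {q : (ℝ × X) × X | q.1.2 ∈ MS f G (Real.exp q.1.1)}
  have hZ : IsClosed Z := isClosed_MS hf.cont G
  haveI : CompleteSpace Z := hZ.completeSpace_coe
  haveI : Nonempty Z := by
    obtain ⟨ζ, _, z, hz⟩ := exists_min hf G (zero_le_one : (0 : ℝ) ≤ 1) 0 one_pos
    refine ⟨⟨((0, z), 0), ?_⟩⟩
    change z ∈ MS f G (Real.exp 0)
    rw [Real.exp_zero]
    exact min_mem_MS zero_le_one hz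
  let S : ℕ → Set Z := fun n => {q | ∀ t, |t| ≤ 1 / (n + 1 : ℝ) →
    |Λ q.1.1.2 q.1.2 t| ≤ (n + 1) * |t| ^ r}
  have hS : ∀ n, IsClosed (S n) := by
    intro n
    have : S n = ⋂ (t : ℝ) (_ : |t| ≤ 1 / (n + 1 : ℝ)), {q : Z |
        |Λ q.1.1.2 q.1.2 t| ≤ (n + 1) * |t| ^ r} := by
      ext q
      simp only [S, mem_iInter, mem_ofPred_eq]
    rw [this]
    refine isClosed_iInter fun t => isClosed_iInter fun ht => isClosed_le ?_ continuous_const
    have h1 : Continuous fun q : Z => (q.1.1.2, q.1.2) := by fun_prop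
    exact ((hcont t).comp h1).abs
  have hU : ⋃ n, S n = univ := by
    rw [eq_univ_iff_forall]
    intro q
    have hq0 : q.1.1.2 ≠ 0 := by
      intro h0
      have h1 : q.1.1.2 ∈ MS f G (Real.exp q.1.1.1) := q.2
      rw [h0] at h1
      exact zero_notMem_MS (Real.exp_pos _) hf hfb G.one_lt h1
    obtain ⟨A, t₀, ht₀, hA⟩ := hΛ _ hq0 q.1.2
    obtain ⟨n, hn⟩ := exists_nat_gt (max A (1 / t₀))
    refine mem_iUnion.2 ⟨n, fun t ht => ?_⟩
    have h1 : (1 / t₀) < n + 1 := by linarith [le_max_right A (1 / t₀)]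
    have h2 : A ≤ n + 1 := by linarith [le_max_left A (1 / t₀)]
    have h3 : |t| ≤ t₀ := by
      refine ht.trans ?_
      rw [div_le_iff₀ (by positivity)]
      rw [div_lt_iff₀ ht₀] at h1
      linarith
    exact (hA t h3).trans (mul_le_mul_of_nonneg_right h2 (by positivity))
  obtain ⟨n, q, hq⟩ := nonempty_interior_of_iUnion_of_closed hS hU
  rw [mem_interior_iff_mem_nhds, Metric.mem_nhds_iff] at hq
  obtain ⟨ε, hε, hball⟩ := hq
  refine ⟨Real.exp (q.1.1.1 - ε / 2), Real.exp q.1.1.1, Real.exp_pos _,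
    Real.exp_lt_exp.2 (by linarith), q.1.1.2, q.2, ε, hε, q.1.2, n, ?_⟩
  intro x hx hxq h hh t ht
  have h1 : (⟨((q.1.1.1 - ε / 2, x), h), hx⟩ : Z) ∈ Metric.ball q ε := by
    rw [Metric.mem_ball, Subtype.dist_eq, Prod.dist_eq, Prod.dist_eq]
    refine max_lt (max_lt ?_ ?_) ?_
    · rw [Real.dist_eq]
      have : q.1.1.1 - ε / 2 - q.1.1.1 = -(ε / 2) := by ring
      rw [this, abs_neg, abs_of_pos (by linarith)]
      linarith
    · rw [dist_eq_norm]; exact hxq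
    · rw [dist_eq_norm]; exact hh
  exact hball h1 t ht

end Pool.Agent.H72.GVar
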