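import Pool.Agent.H72.GWhit

set_option autoImplicit false

open Set Filter Topology

namespace Pool.Agent.H72.GVar

open Pool.Agent.H72.GForms

variable {X : Type*} [NormedAddCommGroup X] [NormedSpace ℝ X]

theorem isLin_clm (L : X →L[ℝ] ℝ) : IsLin (fun v => L v) :=
  ⟨fun u v => map_add L u v, fun c u => by simp⟩

theorem HasPeano.tendsto {r : ℕ} {f : X → ℝ} {x : X} {L : X → ℝ} {Q : X → X → ℝ}
    {C : X → X → X → ℝ} (hL : IsLin L) (hQ : IsBi Q) (hC : IsTri C)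
    (hp : HasPeano (r + 2) f x L Q C) (v : X) :
    Tendsto (fun t : ℝ => (f (x + t • v) - f x) / t) (𝓝[≠] 0) (𝓝 (L v)) := by
  obtain ⟨A, t₀, ht₀, hA⟩ := hp v
  have hA0 : 0 ≤ A := peano_pos ht₀ hA
  have h1 : Tendsto (fun t : ℝ => |t| * |Q v v / 2| + |t| ^ 2 * |C v v v / 6| + A * |t| ^ (r + 1))
      (𝓝[≠] 0) (𝓝 0) := by
    have h2 : Tendsto (fun t : ℝ => |t| * |Q v v / 2| + |t| ^ 2 * |C v v v / 6| +
        A * |t| ^ (r + 1)) (𝓝 0) (𝓝 (|(0:ℝ)| * |Q v v / 2| + |(0:ℝ)| ^ 2 * |C v v v / 6| +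
        A * |(0:ℝ)| ^ (r + 1))) := by
      apply Continuous.tendsto
      fun_prop
    simp only [abs_zero, zero_mul, ne_eq, OfNat.ofNat_ne_zero, not_false_eq_true, zero_pow,
      Nat.succ_ne_zero, mul_zero, add_zero] at h2
    exact h2.mono_left nhdsWithin_le_nhds
  rw [tendsto_iff_norm_sub_tendsto_zero]
  refine squeeze_zero' (Eventually.of_forall fun t => norm_nonneg _) ?_ h1
  have h3 : ∀ᶠ t : ℝ in 𝓝[≠] 0, |t| ≤ t₀ := by
    have h4 : ∀ᶠ t : ℝ in 𝓝 0, |t| < t₀ := by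
      have := (continuous_abs (G := ℝ)).tendsto 0
      rw [abs_zero] at this
      exact this.eventually_lt_const ht₀
    exact (h4.filter_mono nhdsWithin_le_nhds).mono fun t ht => ht.le
  filter_upwards [h3, self_mem_nhdsWithin] with t ht hne
  have htne : t ≠ 0 := hne
  have ht0 : 0 < |t| := abs_pos.2 htne
  have h5 := hA t ht
  rw [tay_smul hL hQ hC] at h5
  rw [Real.norm_eq_abs]
  have e1 : (f (x + t • v) - f x) / t - L v = t * (Q v v / 2) + t ^ 2 * (C v v v / 6) +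
      (f (x + t • v) - (f x + t * L v + t ^ 2 * Q v v / 2 + t ^ 3 * C v v v / 6)) / t := by
    field_simp
    ring
  rw [e1]
  refine (abs_add_le _ _).trans (add_le_add ((abs_add_le _ _).trans (add_le_add ?_ ?_)) ?_)
  · rw [abs_mul]
  · rw [abs_mul, abs_pow]
  · rw [abs_div, div_le_iff₀ ht0]
    refine h5.trans (le_of_eq ?_)
    ring

/-- Euler-Lagrange equation. -/
theorem euler_lagrange {f : X → ℝ} {G : Gauge X} {δ : ℝ} (hδ : 0 ≤ δ) {ζ : X →L[ℝ] ℝ} {z : X}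
    (hz : ∀ y, H f G δ ζ z ≤ H f G δ ζ y) {L : X →L[ℝ] ℝ}
    (hL : ∀ v, Tendsto (fun t : ℝ => (f (z + t • v) - f z) / t) (𝓝[≠] 0) (𝓝 (L v))) (v : X) :
    L v = δ * G.N' z v + ζ v := by
  have key : ∀ v, δ * G.N' z v + ζ v ≤ L v := by
    intro v
    have h1 : Tendsto (fun t : ℝ => (f (z + t • v) - f z) / t) (𝓝[>] 0) (𝓝 (L v)) :=
      (hL v).mono_left (nhdsWithin_mono _ fun t ht => ne_of_gt ht)
    refine ge_of_tendsto h1 ?_
    filter_upwards [self_mem_nhdsWithin] with t ht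
    have ht' : 0 < t := ht
    rw [le_div_iff₀ ht']
    have h2 := hz (z + t • v)
    have h3 := G.sub_le z (z + t • v)
    unfold H at h2
    rw [map_add, map_smul, smul_eq_mul] at h2
    rw [add_sub_cancel_left, map_smul, smul_eq_mul] at h3
    have h4 := mul_le_mul_of_nonneg_left h3 hδ
    linarith
  apply le_antisymm _ (key v)
  have h1 := key (-v)
  rw [map_neg, map_neg, map_neg] at h1
  linarith

/-- second order condition -/
theorem second_order {f : X → ℝ} {G : Gauge X} {δ : ℝ} {ζ : X →L[ℝ] ℝ} {z : X}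
    (hz : ∀ y, H f G δ ζ z ≤ H f G δ ζ y) {r : ℕ} {L : X → ℝ} {Q : X → X → ℝ}
    {C : X → X → X → ℝ} (hL : IsLin L) (hQ : IsBi Q) (hC : IsTri C)
    (hp : HasPeano (r + 3) f z L Q C) (v : X) {K : ℝ}
    (hK : ∀ s : ℝ, K * s ^ 2 ≤ δ * (G.N (z + s • v) + G.N (z - s • v) - 2 * G.N z)) :
    K ≤ Q v v := by
  obtain ⟨A, t₀, ht₀, hA⟩ := hp v
  have hlim : Tendsto (fun t : ℝ => Q v v + 2 * A * t ^ (r + 1)) (𝓝[>] 0)
      (𝓝 (Q v v + 2 * A * 0 ^ (r + 1))) := by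
    have : Continuous fun t : ℝ => Q v v + 2 * A * t ^ (r + 1) := by fun_prop
    exact (this.tendsto 0).mono_left nhdsWithin_le_nhds
  rw [zero_pow (Nat.succ_ne_zero _), mul_zero, add_zero] at hlim
  refine ge_of_tendsto hlim ?_
  have h3 : ∀ᶠ t : ℝ in 𝓝[>] 0, |t| ≤ t₀ := by
    have h4 : ∀ᶠ t : ℝ in 𝓝 0, |t| < t₀ := by
      have := (continuous_abs (G := ℝ)).tendsto 0
      rw [abs_zero] at this
      exact this.eventually_lt_const ht₀
    exact (h4.filter_mono nhdsWithin_le_nhds).mono fun t ht => ht.le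
  filter_upwards [h3, self_mem_nhdsWithin] with t ht hpos
  have ht0 : 0 < t := hpos
  have h1 := hz (z + t • v)
  have h2 := hz (z - t • v)
  have h5 := hA t ht
  have h6 := hA (-t) (by rwa [abs_neg])
  rw [tay_smul hL hQ hC] at h5 h6
  rw [neg_smul, ← sub_eq_add_neg, abs_neg] at h6
  rw [abs_of_pos ht0] at h5 h6
  have h7 := hK t
  unfold H at h1 h2
  rw [map_add] at h1
  rw [map_sub] at h2
  have h8 : K * t ^ 2 ≤ (Q v v + 2 * A * t ^ (r + 1)) * t ^ 2 := by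
    have h9 := (abs_le.1 h5).2
    have h10 := (abs_le.1 h6).2
    have e1 : (Q v v + 2 * A * t ^ (r + 1)) * t ^ 2 = t ^ 2 * Q v v + 2 * (A * t ^ (r + 3)) := by
      ring
    rw [e1]
    have e2 : (-t) ^ 2 = t ^ 2 := by ring
    have e3 : (-t) ^ 3 = -t ^ 3 := by ring
    rw [e2, e3] at h10
    linarith
  exact le_of_mul_le_mul_right h8 (by positivity)

/-- **The package**: Baire category, Whitney comparison and the variational principle. -/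
theorem package [CompleteSpace X] [Nontrivial X] {f : X → ℝ} {a b : ℝ} (hf : Quartic f a)
    (hfb : ∀ x, f x ≤ b * ‖x‖ ^ 4) (G : Gauge X) (Λ : X → X → ℝ → ℝ) {r : ℕ}
    (hcont : ∀ t, Continuous fun q : X × X => Λ q.1 q.2 t)
    (L : X → (X →L[ℝ] ℝ)) (Q : X → X → X → ℝ) (C : X → X → X → X → ℝ)
    (hQ : ∀ x, IsBi (Q x)) (hC : ∀ x, IsTri (C x))
    (hp : ∀ x, x ≠ 0 → HasPeano (r + 2) f x (fun v => L x v) (Q x) (C x))
    (hΛ : ∀ x, x ≠ 0 → ∀ h, ∃ A t₀ : ℝ, 0 < t₀ ∧ ∀ t, |t| ≤ t₀ →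
      |Λ x h t| ≤ A * |t| ^ (r + 2))
    (hinv : ∀ x, x ≠ 0 → ∀ h (B τ : ℝ), 0 < τ → (∀ t, |t| ≤ τ → |Λ x h t| ≤ B * |t| ^ (r + 2)) →
      ∀ t, |t| ≤ τ → |f (x + t • h) - tay (f x) (fun v => L x v) (Q x) (C x) (t • h)| ≤
        B * |t| ^ (r + 2)) :
    ∃ (x : X) (δ c W κ : ℝ), x ≠ 0 ∧ 0 < δ ∧ 0 < c ∧ 0 ≤ W ∧ 0 < κ ∧
      ∀ (ξ : X →L[ℝ] ℝ) (ε : ℝ), 0 < ε → ∃ (k : X) (τ : X →L[ℝ] ℝ), ‖τ‖ ≤ ε ∧
        x + k ≠ 0 ∧ c * ‖k‖ ^ G.P ≤ ξ k + τ k ∧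
        (∃ ζ : X →L[ℝ] ℝ, ∀ y, H f G δ ζ (x + k) ≤ H f G δ ζ y) ∧
        (‖k‖ ≤ κ → ∀ v,
          |Q x k v + C x k k v / 2 - δ * (G.N' (x + k) v - G.N' x v) - ξ v - τ v| ≤
            W * ‖k‖ ^ (r + 1) * ‖v‖ ∧
          |Q x v v + C x k v v - Q (x + k) v v| ≤ W * ‖k‖ ^ r * ‖v‖ ^ 2) := by
  obtain ⟨δ₀, δ₁, hδ₀, hδ, x₁, hx₁, ρ, hρ, h₁, n, hB⟩ := baire hf hfb G Λ hcont hΛ
  have hn : (0 : ℝ) < 1 / (n + 1 : ℝ) := by positivity
  obtain ⟨W, hW0, κ, hκ, hW⟩ := whitney (r := r) f h₁ (ρ := ρ) (A := n + 1) hρ hn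
    (by positivity)
  have hx0 : x₁ ≠ 0 := by
    rintro rfl
    exact zero_notMem_MS (hδ₀.trans hδ) hf hfb G.one_lt hx₁
  have hten : ∀ x, x ≠ 0 → ∀ v, Tendsto (fun t : ℝ => (f (x + t • v) - f x) / t) (𝓝[≠] 0)
      (𝓝 (L x v)) := fun x hx v => (hp x hx).tendsto (isLin_clm _) (hQ x) (hC x) v
  have hgrow := MS_growth_strict hδ.le hx₁ (hten x₁ hx0)
  set ζ₀ := L x₁ - δ₀ • G.N' x₁ with hζ₀
  have hc : 0 < (δ₁ - δ₀) * G.c := mul_pos (sub_pos.2 hδ) G.c_pos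
  have hx₁' : x₁ ∈ MS f G δ₀ := by
    refine min_mem_MS hδ₀.le (ζ := ζ₀) fun y => ?_
    have h1 := hgrow y
    have h2 : 0 ≤ (δ₁ - δ₀) * (G.c * ‖y - x₁‖ ^ G.P) := by
      rw [← mul_assoc]
      exact mul_nonneg hc.le (Real.rpow_nonneg (norm_nonneg _) _)
    linarith
  refine ⟨x₁, δ₀, (δ₁ - δ₀) * G.c, W, min κ (ρ / 2), hx0, hδ₀, hc, hW0,
    lt_min hκ (by linarith), ?_⟩
  intro ξ ε hε
  obtain ⟨ζ, hζ, z, hz⟩ := exists_min hf G hδ₀.le (ζ₀ + ξ) hε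
  have hzMS : z ∈ MS f G δ₀ := min_mem_MS hδ₀.le hz
  have hz0 : z ≠ 0 := by
    rintro rfl
    exact zero_notMem_MS hδ₀ hf hfb G.one_lt hzMS
  have hxk : x₁ + (z - x₁) = z := by abel
  refine ⟨z - x₁, ζ - (ζ₀ + ξ), hζ, by rw [hxk]; exact hz0, ?_, ⟨ζ, by rw [hxk]; exact hz⟩, ?_⟩
  · have h1 := hgrow z
    have h2 := hz x₁
    unfold H at h1 h2
    simp only [_root_.sub_apply, _root_.add_apply, map_sub]
    linarith
  · intro hk v
    rw [hxk]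
    have hEL := euler_lagrange hδ₀.le hz (hten z hz0) v
    have e1 : ζ v = ζ₀ v + ξ v + (ζ - (ζ₀ + ξ)) v := by
      simp only [_root_.sub_apply, _root_.add_apply]
      ring
    have e2 : ζ₀ v = L x₁ v - δ₀ * G.N' x₁ v := by
      rw [hζ₀]
      simp only [_root_.sub_apply, _root_.smul_apply, smul_eq_mul]
    by_cases hne : z = x₁
    · subst hne
      rw [sub_self]
      have e3 : Q z 0 v = 0 := by simpa using (hQ z).smul 0 0 v
      have e4 : C z 0 0 v = 0 := by simpa using (hC z).smul 0 0 0 v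
      have e5 : C z 0 v v = 0 := by simpa using (hC z).smul 0 0 v v
      rw [e3, e4, e5]
      constructor
      · have h1 : (0 : ℝ) + 0 / 2 - δ₀ * (G.N' z v - G.N' z v) - ξ v - (ζ - (ζ₀ + ξ)) v = 0 := by
          linarith
        rw [h1, abs_zero]
        positivity
      · rw [add_zero, sub_self, abs_zero]
        positivity
    · have h1 := hW x₁ z (fun v => L x₁ v) (fun v => L z v) (Q x₁) (Q z) (C x₁) (C z)
        (isLin_clm _) (isLin_clm _) (hQ _) (hQ _) (hC _) (hC _)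
        (fun h hh => hinv x₁ hx0 h _ _ hn (hB x₁ hx₁' (by simpa using hρ) h hh))
        (fun h hh => hinv z hz0 h _ _ hn (hB z hzMS (by
          have := hk.trans (min_le_right _ _)
          linarith) h hh))
        hne (hk.trans (min_le_left _ _)) v
      refine ⟨?_, h1.2⟩
      refine le_trans (le_of_eq ?_) h1.1
      congr 1
      rw [hEL]
      linarith

end Pool.Agent.H72.GVar
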