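import Pool.Agent.H72.GPack
import Pool.Agent.H72.GDefs

set_option autoImplicit false

open Set Filter Topology Asymptotics

namespace Pool.Agent.H72.GVar

open Pool.Agent.H72.GForms

variable {X : Type*} [NormedAddCommGroup X] [NormedSpace ℝ X]

/-- boundedness of a bilinear form -/
def BdBi (Q : X → X → ℝ) : Prop := ∃ M : ℝ, 0 ≤ M ∧ ∀ u v, |Q u v| ≤ M * ‖u‖ * ‖v‖

/-- boundedness of a trilinear form -/
def BdTri (C : X → X → X → ℝ) : Prop :=
  ∃ M : ℝ, 0 ≤ M ∧ ∀ u v w, |C u v w| ≤ M * ‖u‖ * ‖v‖ * ‖w‖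

theorem hasPeano_iff {r : ℕ} {f : X → ℝ} {x : X} {L : X → ℝ} {Q : X → X → ℝ}
    {C : X → X → X → ℝ} : HasPeano r f x L Q C ↔
      ∀ h, (fun t : ℝ => f (x + t • h) - tay (f x) L Q C (t • h)) =O[𝓝 0] fun t : ℝ => t ^ r := by
  constructor
  · intro H h
    obtain ⟨A, t₀, ht₀, hA⟩ := H h
    rw [isBigO_iff]
    refine ⟨A, ?_⟩
    have h4 : ∀ᶠ t : ℝ in 𝓝 0, |t| < t₀ := by
      have := (continuous_abs (G := ℝ)).tendsto 0
      rw [abs_zero] at this
      exact this.eventually_lt_const ht₀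
    filter_upwards [h4] with t ht
    rw [Real.norm_eq_abs, Real.norm_eq_abs, abs_pow]
    exact hA t ht.le
  · intro H h
    obtain ⟨A, hA⟩ := isBigO_iff.1 (H h)
    obtain ⟨t₀, ht₀, hball⟩ := Metric.eventually_nhds_iff.1 hA
    refine ⟨A, t₀ / 2, by linarith, fun t ht => ?_⟩
    have h1 := hball (y := t) (by rw [Real.dist_eq, sub_zero]; linarith)
    rwa [Real.norm_eq_abs, Real.norm_eq_abs, abs_pow] at h1

/-- integration of an estimate -/
theorem integ {φ ψ : ℝ → ℝ} {m : ℕ} (hd : ∀ᶠ t in 𝓝 (0 : ℝ), HasDerivAt φ (ψ t) t)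
    (h0 : φ 0 = 0) (hψ : ψ =O[𝓝 0] fun t : ℝ => t ^ m) : φ =O[𝓝 0] fun t : ℝ => t ^ (m + 1) := by
  obtain ⟨A, hA⟩ := isBigO_iff.1 hψ
  obtain ⟨t₀, ht₀, hball⟩ := Metric.eventually_nhds_iff.1 (hd.and hA)
  rw [isBigO_iff]
  refine ⟨A, Metric.eventually_nhds_iff.2 ⟨t₀, ht₀, fun {t} ht => ?_⟩⟩
  rw [Real.dist_eq, sub_zero] at ht
  have h1 : ∀ s ∈ Icc (-|t|) |t|, HasDerivWithinAt φ (ψ s) (Icc (-|t|) |t|) s := by
    intro s hs
    have : |s| < t₀ := lt_of_le_of_lt (abs_le.2 hs) ht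
    exact (hball (y := s) (by rwa [Real.dist_eq, sub_zero])).1.hasDerivWithinAt
  have hA0 : ∀ s ∈ Icc (-|t|) |t|, ‖ψ s‖ ≤ |A| * |t| ^ m := by
    intro s hs
    have hs' : |s| ≤ |t| := abs_le.2 hs
    have h2 := (hball (y := s) (by rw [Real.dist_eq, sub_zero]; exact lt_of_le_of_lt hs' ht)).2
    rw [norm_pow, Real.norm_eq_abs s] at h2
    refine h2.trans ?_
    have h3 : |s| ^ m ≤ |t| ^ m := pow_le_pow_left₀ (abs_nonneg _) hs' m
    have h4 : 0 ≤ |s| ^ m := by positivity
    calc A * |s| ^ m ≤ |A| * |s| ^ m := mul_le_mul_of_nonneg_right (le_abs_self _) h4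
      _ ≤ _ := mul_le_mul_of_nonneg_left h3 (abs_nonneg _)
  have h5 := (convex_Icc (-|t|) |t|).norm_image_sub_le_of_norm_hasDerivWithin_le h1 hA0
    (x := 0) (y := t) ⟨by linarith [abs_nonneg t], abs_nonneg t⟩ ⟨neg_abs_le t, le_abs_self t⟩
  rw [h0, sub_zero, sub_zero] at h5
  by_cases ht0 : t = 0
  · subst ht0
    rw [h0]; simp
  · have hApos : 0 ≤ A := by
      have h6 := (hball (y := t) (by rwa [Real.dist_eq, sub_zero])).2
      rw [norm_pow, Real.norm_eq_abs t] at h6
      have h7 : 0 < |t| ^ m := by have := abs_pos.2 ht0; positivity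
      exact nonneg_of_mul_nonneg_left ((norm_nonneg _).trans h6) h7
    rw [abs_of_nonneg hApos, Real.norm_eq_abs t] at h5
    rw [norm_pow, Real.norm_eq_abs t, pow_succ]
    linarith

theorem hasDerivAt_line {F : X → ℝ} {x h : X} {t : ℝ}
    (H : LineDifferentiableAt ℝ F (x + t • h) h) :
    HasDerivAt (fun s : ℝ => F (x + s • h)) (lineDeriv ℝ F (x + t • h) h) t := by
  have h1 : HasDerivAt (fun s : ℝ => F (x + t • h + s • h)) (lineDeriv ℝ F (x + t • h) h) 0 :=
    H.hasLineDerivAt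
  have h3 : HasDerivAt (fun s : ℝ => F (x + t • h + s • h)) (lineDeriv ℝ F (x + t • h) h)
      (t - t) := by rwa [sub_self]
  have h4 := HasDerivAt.comp_sub_const t t h3
  refine h4.congr_of_eventuallyEq (Eventually.of_forall fun s => ?_)
  change F (x + s • h) = F (x + t • h + (s - t) • h)
  congr 1
  rw [sub_smul]
  abel

theorem eventually_ne {x : X} (hx : x ≠ 0) (h : X) : ∀ᶠ t : ℝ in 𝓝 0, x + t • h ≠ 0 := by
  have h1 : Continuous fun t : ℝ => x + t • h := by fun_prop
  have h2 := h1.tendsto 0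
  simp only [zero_smul, add_zero] at h2
  exact h2.eventually_ne hx

theorem gateaux_deriv {k : ℕ} {ν : X → ℝ} (H : GateauxDiff k ν {0}ᶜ) {j : ℕ} (hj : j + 1 ≤ k)
    {x : X} (hx : x ≠ 0) (h : X) :
    ∀ᶠ t : ℝ in 𝓝 0, HasDerivAt (fun t : ℝ => iterDir ν (List.replicate j h) (x + t • h))
      (iterDir ν (List.replicate (j + 1) h) (x + t • h)) t := by
  filter_upwards [eventually_ne hx h] with t ht
  have h1 := (H (x + t • h) ht (j + 1) (by omega) hj).1 h (List.replicate j h) (by simp)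
  have h2 := hasDerivAt_line h1
  rw [List.replicate_succ]
  exact h2

theorem peano_base {k : ℕ} {ν : X → ℝ} (H : GateauxDiff k ν {0}ᶜ) {j : ℕ} (hj : j + 1 ≤ k)
    {x : X} (hx : x ≠ 0) (h : X) :
    (fun t : ℝ => iterDir ν (List.replicate j h) (x + t • h) -
      iterDir ν (List.replicate j h) x) =O[𝓝 0] fun t : ℝ => t ^ 1 := by
  have h1 := (gateaux_deriv H hj hx h).self_of_nhds
  have h2 := h1.isBigO_sub
  simp only [zero_smul, add_zero, sub_zero] at h2
  simpa using h2

theorem peano_step {k : ℕ} {ν : X → ℝ} (H : GateauxDiff k ν {0}ᶜ) {j : ℕ} (hj : j + 1 ≤ k)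
    {x : X} (hx : x ≠ 0) (h : X) {m : ℕ} {q q' : ℝ → ℝ} (hq : ∀ t, HasDerivAt q (q' t) t)
    (hq0 : q 0 = iterDir ν (List.replicate j h) x)
    (hO : (fun t : ℝ => iterDir ν (List.replicate (j + 1) h) (x + t • h) - q' t) =O[𝓝 0]
      fun t : ℝ => t ^ m) :
    (fun t : ℝ => iterDir ν (List.replicate j h) (x + t • h) - q t) =O[𝓝 0]
      fun t : ℝ => t ^ (m + 1) := by
  refine integ ?_ ?_ hO
  · filter_upwards [gateaux_deriv H hj hx h] with t ht
    exact ht.sub (hq t)
  · rw [hq0]; simp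

/-- Taylor with `φ_j` notation: order three. -/
theorem peano3_raw {ν : X → ℝ} (H : GateauxDiff 3 ν {0}ᶜ) {x : X} (hx : x ≠ 0) (h : X) :
    (fun t : ℝ => ν (x + t • h) - (ν x + t * iterDir ν [h] x + t ^ 2 * iterDir ν [h, h] x / 2))
      =O[𝓝 0] fun t : ℝ => t ^ 3 := by
  have b2 := peano_base H (j := 2) le_rfl hx h
  have b1 := peano_step H (j := 1) (by norm_num) hx h
    (q := fun t => iterDir ν [h] x + t * iterDir ν [h, h] x) (q' := fun _ => iterDir ν [h, h] x)
    (fun t => by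
      have := ((hasDerivAt_id t).mul_const (iterDir ν [h, h] x)).const_add (iterDir ν [h] x)
      simpa using this)
    (by simp) b2
  have b0 := peano_step H (j := 0) (by norm_num) hx h
    (q := fun t => ν x + t * iterDir ν [h] x + t ^ 2 * iterDir ν [h, h] x / 2)
    (q' := fun t => iterDir ν [h] x + t * iterDir ν [h, h] x)
    (fun t => by
      have h1 := ((hasDerivAt_id t).mul_const (iterDir ν [h] x)).const_add (ν x)
      have h2 := (((hasDerivAt_id t).pow 2).mul_const (iterDir ν [h, h] x)).div_const 2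
      have h3 := h1.add h2
      refine h3.congr_deriv ?_
      simp
      ring)
    (by simp [iterDir]) b1
  exact b0

theorem peano4_raw {ν : X → ℝ} (H : GateauxDiff 4 ν {0}ᶜ) {x : X} (hx : x ≠ 0) (h : X) :
    (fun t : ℝ => ν (x + t • h) - (ν x + t * iterDir ν [h] x + t ^ 2 * iterDir ν [h, h] x / 2 +
      t ^ 3 * iterDir ν [h, h, h] x / 6))
      =O[𝓝 0] fun t : ℝ => t ^ 4 := by
  have b3 := peano_base H (j := 3) le_rfl hx h
  have b2 := peano_step H (j := 2) (by norm_num) hx h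
    (q := fun t => iterDir ν [h, h] x + t * iterDir ν [h, h, h] x)
    (q' := fun _ => iterDir ν [h, h, h] x)
    (fun t => by
      have := ((hasDerivAt_id t).mul_const (iterDir ν [h, h, h] x)).const_add
        (iterDir ν [h, h] x)
      simpa using this)
    (by simp) b3
  have b1 := peano_step H (j := 1) (by norm_num) hx h
    (q := fun t => iterDir ν [h] x + t * iterDir ν [h, h] x + t ^ 2 * iterDir ν [h, h, h] x / 2)
    (q' := fun t => iterDir ν [h, h] x + t * iterDir ν [h, h, h] x)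
    (fun t => by
      have h1 := ((hasDerivAt_id t).mul_const (iterDir ν [h, h] x)).const_add (iterDir ν [h] x)
      have h2 := (((hasDerivAt_id t).pow 2).mul_const (iterDir ν [h, h, h] x)).div_const 2
      have h3 := h1.add h2
      refine h3.congr_deriv ?_
      simp
      ring)
    (by simp) b2
  have b0 := peano_step H (j := 0) (by norm_num) hx h
    (q := fun t => ν x + t * iterDir ν [h] x + t ^ 2 * iterDir ν [h, h] x / 2 +
      t ^ 3 * iterDir ν [h, h, h] x / 6)
    (q' := fun t => iterDir ν [h] x + t * iterDir ν [h, h] x + t ^ 2 * iterDir ν [h, h, h] x / 2)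
    (fun t => by
      have h1 := ((hasDerivAt_id t).mul_const (iterDir ν [h] x)).const_add (ν x)
      have h2 := (((hasDerivAt_id t).pow 2).mul_const (iterDir ν [h, h] x)).div_const 2
      have h3 := (((hasDerivAt_id t).pow 3).mul_const (iterDir ν [h, h, h] x)).div_const 6
      have h4 := (h1.add h2).add h3
      refine h4.congr_deriv ?_
      simp
      ring)
    (by simp [iterDir]) b1
  exact b0

end Pool.Agent.H72.GVar
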