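import Pool.Agent.H72.GThree

set_option autoImplicit false

open Set Filter Topology
open scoped ENNReal

namespace Pool.Agent.H72.GLp

open Pool.Agent.H72.GForms Pool.Agent.H72.GVar

variable {p : ℝ≥0∞} [Fact (1 ≤ p)]

omit [Fact (1 ≤ p)] in
theorem le_one_mul_three {ε a b : ℝ} (hε : 0 ≤ ε) (ha : 0 ≤ a) (hb : 0 ≤ b) (ha1 : a ≤ 1)
    (hb1 : b ≤ 1) : ε * a * b ≤ ε := by
  have h1 : a * b ≤ 1 := mul_le_one₀ ha1 hb hb1
  calc ε * a * b = ε * (a * b) := by ring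
    _ ≤ ε * 1 := mul_le_mul_of_nonneg_left h1 hε
    _ = ε := mul_one _

omit [Fact (1 ≤ p)] in
theorem le_one_mul_four {ε a b c : ℝ} (hε : 0 ≤ ε) (ha : 0 ≤ a) (hb : 0 ≤ b) (hc : 0 ≤ c)
    (ha1 : a ≤ 1) (hb1 : b ≤ 1) (hc1 : c ≤ 1) : ε * a * b * c ≤ ε := by
  have h1 := le_one_mul_three hε ha hb ha1 hb1
  have h2 : ε * a * b * c ≤ ε * c := mul_le_mul_of_nonneg_right h1 hc
  have h3 : ε * c ≤ ε * 1 := mul_le_mul_of_nonneg_left hc1 hε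
  linarith

/-- tail smallness of a form between heads of length `a` and tails from `b` on -/
structure HT (Q : E p → E p → ℝ) (C : E p → E p → E p → ℝ) (ε : ℝ) (a b : ℕ) : Prop where
  q : ∀ h u, Hd a h → Tl b u → |Q h u| ≤ ε * ‖h‖ * ‖u‖
  c1 : ∀ h u v, Hd a h → Tl b u → Tl b v → |C h u v| ≤ ε * ‖h‖ * ‖u‖ * ‖v‖
  c2 : ∀ h h' u, Hd a h → Hd a h' → Tl b u → |C h h' u| ≤ ε * ‖h‖ * ‖h'‖ * ‖u‖

/-- the bilinear bracket -/
theorem bracket1 {Q : E p → E p → ℝ} {C : E p → E p → E p → ℝ} (hQ : IsBi Q) {M ε : ℝ}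
    (hM0 : 0 ≤ M) (hM : ∀ u v, |Q u v| ≤ M * ‖u‖ * ‖v‖) (hε : 0 ≤ ε) {J₀ a b : ℕ} (ha : J₀ ≤ b)
    (hT : ∀ u v, Tl J₀ u → Tl J₀ v → |Q u v| ≤ ε * ‖u‖ * ‖v‖) (hHT : HT Q C ε a b)
    {h₂ e₂ u₂ u₁ l : E p} (hl : l = h₂ + e₂ + u₂) (hh : Hd a h₂) (hu₂ : Tl b u₂)
    (hu₁ : Tl b u₁) (he : ‖e₂‖ ≤ ε) (nh : ‖h₂‖ ≤ 1) (nu₂ : ‖u₂‖ ≤ 1) (nu₁ : ‖u₁‖ ≤ 1) :
    -2 * Q l u₁ + Q u₂ u₂ ≤ (5 + 2 * M) * ε := by
  have h1 := (hHT.q h₂ u₁ hh hu₁).trans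
    (le_one_mul_three hε (norm_nonneg _) (norm_nonneg _) nh nu₁)
  have h2 : |Q e₂ u₁| ≤ M * ε := by
    refine (hM e₂ u₁).trans ?_
    calc M * ‖e₂‖ * ‖u₁‖ ≤ M * ε * 1 := by
          apply mul_le_mul _ nu₁ (norm_nonneg _) (by positivity)
          exact mul_le_mul_of_nonneg_left he hM0
      _ = _ := mul_one _
  have h3 := (hT u₂ u₁ (hu₂.mono ha) (hu₁.mono ha)).trans
    (le_one_mul_three hε (norm_nonneg _) (norm_nonneg _) nu₂ nu₁)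
  have h4 := (hT u₂ u₂ (hu₂.mono ha) (hu₂.mono ha)).trans
    (le_one_mul_three hε (norm_nonneg _) (norm_nonneg _) nu₂ nu₂)
  rw [hl, hQ.add, hQ.add]
  have a1 := (abs_le.1 h1).1
  have a2 := (abs_le.1 h2).1
  have a3 := (abs_le.1 h3).1
  have a4 := (abs_le.1 h4).2
  linarith

/-- the trilinear bracket -/
theorem bracket2 {Q : E p → E p → ℝ} {C : E p → E p → E p → ℝ} (hC : IsTri C) {M ε : ℝ}
    (hM0 : 0 ≤ M) (hM : ∀ u v w, |C u v w| ≤ M * ‖u‖ * ‖v‖ * ‖w‖) (hε : 0 ≤ ε) {a b : ℕ}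
    (hHT : HT Q C ε a b)
    {h₁ e₁ u₁ h₂ e₂ u₂ k l : E p} (hk : k = h₁ + e₁ + u₁) (hl : l = h₂ + e₂ + u₂)
    (hh₁ : Hd a h₁) (hh₂ : Hd a h₂) (hu₁ : Tl b u₁) (hu₂ : Tl b u₂) (he₁ : ‖e₁‖ ≤ ε)
    (he₂ : ‖e₂‖ ≤ ε) (nh₁ : ‖h₁‖ ≤ 1) (nh₂ : ‖h₂‖ ≤ 1) (ne₂ : ‖e₂‖ ≤ 1) (nu₁ : ‖u₁‖ ≤ 1)
    (nu₂ : ‖u₂‖ ≤ 1) :
    -C l l u₁ + C k u₂ u₂ ≤ (4 + 6 * M) * ε := by
  have small : ∀ e v w : E p, ‖e‖ ≤ ε → ‖v‖ ≤ 1 → ‖w‖ ≤ 1 → |C e v w| ≤ M * ε := by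
    intro e v w he hv hw
    refine (hM e v w).trans ?_
    have h1 : M * ‖e‖ ≤ M * ε := mul_le_mul_of_nonneg_left he hM0
    have h2 := le_one_mul_three (ε := M * ‖e‖) (by positivity) (norm_nonneg v) (norm_nonneg w)
      hv hw
    linarith
  have b1 := (hHT.c2 h₂ h₂ u₁ hh₂ hh₂ hu₁).trans
    (le_one_mul_four hε (norm_nonneg _) (norm_nonneg _) (norm_nonneg _) nh₂ nh₂ nu₁)
  have b2 := (hHT.c1 h₂ u₂ u₁ hh₂ hu₂ hu₁).trans
    (le_one_mul_four hε (norm_nonneg _) (norm_nonneg _) (norm_nonneg _) nh₂ nu₂ nu₁)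
  have b3 := (hHT.c1 h₁ u₂ u₂ hh₁ hu₂ hu₂).trans
    (le_one_mul_four hε (norm_nonneg _) (norm_nonneg _) (norm_nonneg _) nh₁ nu₂ nu₂)
  have s1 := small e₂ h₂ u₁ he₂ nh₂ nu₁
  have s2 := small e₂ e₂ u₁ he₂ ne₂ nu₁
  have s3 := small e₂ u₂ u₁ he₂ nu₂ nu₁
  have s4 := small e₁ u₂ u₂ he₁ nu₂ nu₂
  have e1 : C h₂ e₂ u₁ = C e₂ h₂ u₁ := hC.swap _ _ _
  have e2 : C u₂ h₂ u₁ = C h₂ u₂ u₁ := hC.swap _ _ _
  have e3 : C u₂ e₂ u₁ = C e₂ u₂ u₁ := hC.swap _ _ _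
  have e4 : C u₂ u₂ u₁ = C u₁ u₂ u₂ := by rw [hC.symm, hC.swap]
  rw [hk, hl]
  simp only [hC.add, hC.add2, e1, e2, e3, e4]
  have a1 := (abs_le.1 b1).1
  have a2 := (abs_le.1 b2).1
  have a3 := (abs_le.1 b3).2
  have a4 := (abs_le.1 s1).1
  have a5 := (abs_le.1 s2).1
  have a6 := (abs_le.1 s3).1
  have a7 := (abs_le.1 s4).2
  linarith

omit [Fact (1 ≤ p)] in
theorem sq_root {c n ρ : ℝ} (hc : 0 < c) (hn : 0 ≤ n) (hρ : 0 ≤ ρ)
    (h : c * n ^ 3 ≤ c * ρ ^ 2 * n) : n ≤ ρ := by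
  by_contra hcon
  push Not at hcon
  have h1 : ρ ^ 2 < n ^ 2 := by nlinarith
  have hn0 : 0 < n := hρ.trans_lt hcon
  have h2 : c * ρ ^ 2 * n < c * n ^ 2 * n :=
    mul_lt_mul_of_pos_right (mul_lt_mul_of_pos_left h1 hc) hn0
  nlinarith

theorem no_norm4 (hP : p.toReal = 3) {ν : E p → ℝ} (hcont : Continuous ν)
    {c₀ C₀ : ℝ} (hc₀ : 0 < c₀) (hlow : ∀ x, c₀ * ‖x‖ ≤ ν x) (hup : ∀ x, ν x ≤ C₀ * ‖x‖)
    (H : GateauxDiff 4 ν {0}ᶜ) : False := by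
  have hP2 : 2 < p.toReal := by rw [hP]; norm_num
  have hP4 : p.toReal < 4 := by rw [hP]; norm_num
  have hP0 : 0 < p.toReal := by linarith
  have hP1 : 1 < p.toReal := by linarith
  have htop : p ≠ ⊤ := by rintro rfl; simp at hP0
  have hp0 : 0 < p := by
    rw [pos_iff_ne_zero]; rintro rfl; simp at hP0
  have hν0 : ∀ x, 0 ≤ ν x := fun x => (by positivity : 0 ≤ c₀ * ‖x‖).trans (hlow x)
  set f : E p → ℝ := fun x => ν x ^ 4 with hf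
  have hQuart : Quartic f (c₀ ^ 4) := by
    refine ⟨hcont.pow 4, by positivity, fun x => ?_, ?_⟩
    · rw [← mul_pow]
      exact pow_le_pow_left₀ (by positivity) (hlow x) 4
    · have h1 := hup 0
      rw [norm_zero, mul_zero] at h1
      have h2 : ν 0 = 0 := le_antisymm h1 (hν0 0)
      simp [hf, h2]
  have hfb : ∀ x, f x ≤ C₀ ^ 4 * ‖x‖ ^ 4 := fun x => by
    rw [← mul_pow]
    exact pow_le_pow_left₀ (hν0 x) (hup x) 4
  have hdata : ∀ x : E p, ∃ (L : E p →L[ℝ] ℝ) (Q : E p → E p → ℝ) (C : E p → E p → E p → ℝ),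
      IsBi Q ∧ BdBi Q ∧ IsTri C ∧ BdTri C ∧ (x ≠ 0 → HasPeano 4 f x (fun v => L v) Q C) := by
    intro x
    by_cases hx : x = 0
    · refine ⟨0, fun _ _ => 0, fun _ _ _ => 0,
        ⟨by intros; simp, by intros; simp, by intros; rfl⟩,
        ⟨0, le_rfl, by intros; simp⟩, isTri_zero, ⟨0, le_rfl, by intros; simp⟩,
        fun h => absurd hx h⟩
    · obtain ⟨L, Q, C, h1, h2, h3, h4, h5⟩ := data4_quartic H hx
      exact ⟨L, Q, C, h1, h2, h3, h4, fun _ => h5⟩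
  choose L Q C hQ hbQ hC hbC hp using hdata
  have hfc : Continuous f := hQuart.cont
  obtain ⟨x, δ, c, W, κ, hx0, hδ, hc, hW, hκ, hmain⟩ := package (r := 2) hQuart hfb
    (gauge hP2.le hP4) (Lam4 f) (fun t => by unfold Lam4; fun_prop) L Q
    C hQ hC (fun x hx => hp x hx)
    (fun x hx h => lam4_bound (isLin_clm _) (hQ x) (hC x) (hp x hx) h)
    (fun x hx h B τ hτ hB => lam4_inv (isLin_clm _) (hQ x) (hC x) (hp x hx) h hτ hB)
  obtain ⟨M₁, hM₁0, hM₁⟩ := hbQ x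
  obtain ⟨M₂, hM₂0, hM₂⟩ := hbC x
  have hGP : (gauge (p := p) hP2.le hP4).P = p.toReal := rfl
  rw [hGP] at hmain
  simp only [pow_co hP, Nat.reduceAdd] at hmain
  set M := M₁ + M₂ with hMdef
  have hM0 : 0 ≤ M := by positivity
  have hMQ : ∀ u v, |Q x u v| ≤ M * ‖u‖ * ‖v‖ := fun u v => (hM₁ u v).trans (by
    have : 0 ≤ M₂ * ‖u‖ * ‖v‖ := by positivity
    rw [hMdef]; linarith)
  have hMC : ∀ u v w, |C x u v w| ≤ M * ‖u‖ * ‖v‖ * ‖w‖ := fun u v w => (hM₂ u v w).trans (by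
    have : 0 ≤ M₁ * ‖u‖ * ‖v‖ * ‖w‖ := by positivity
    rw [hMdef]; linarith)
  -- constants
  set D : ℝ := M / 2 + 3 * δ + W + 1 with hD
  have hD0 : 0 < D := by positivity
  obtain ⟨lam, hlam0, hlam⟩ : ∃ lam : ℝ, 0 < lam ∧ D * lam ^ 2 = c / 4 := by
    refine ⟨Real.sqrt (c / 4 / D), Real.sqrt_pos.2 (by positivity), ?_⟩
    rw [Real.sq_sqrt (by positivity)]
    field_simp
  obtain ⟨ρ, hρ0, hρκ, hρ1, hρW⟩ : ∃ ρ : ℝ, 0 < ρ ∧ ρ ≤ κ ∧ ρ ≤ 1 ∧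
      3 * W * ρ ≤ c * lam ^ 3 / 2 := by
    refine ⟨min κ (min 1 (c * lam ^ 3 / (6 * (W + 1)))), lt_min hκ (lt_min one_pos
      (by positivity)), min_le_left _ _, (min_le_right _ _).trans (min_le_left _ _), ?_⟩
    calc 3 * W * min κ (min 1 (c * lam ^ 3 / (6 * (W + 1)))) ≤
          3 * W * (c * lam ^ 3 / (6 * (W + 1))) := by
          apply mul_le_mul_of_nonneg_left _ (by positivity)
          exact (min_le_right _ _).trans (min_le_right _ _)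
      _ ≤ c * lam ^ 3 / 2 := by
          rw [← mul_div_assoc, div_le_iff₀ (by positivity)]
          have h1 : 0 < c * lam ^ 3 := by positivity
          nlinarith
  set η : ℝ := c * ρ ^ 2 / 2 with hη
  have hη0 : 0 < η := by positivity
  set B : ℝ := min (c * ρ ^ 2 / 8) (c * lam ^ 3 * ρ ^ 3 / 8) with hB
  have hB0 : 0 < B := lt_min (by positivity) (by positivity)
  have hB1 : B ≤ c * ρ ^ 2 / 8 := min_le_left _ _
  have hB2 : B ≤ c * lam ^ 3 * ρ ^ 3 / 8 := min_le_right _ _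
  set K : ℝ := 9 + 8 * M + 18 * δ with hK
  have hK0 : 0 < K := by positivity
  obtain ⟨θ, hθ0, hθ1, hθK⟩ : ∃ θ : ℝ, 0 < θ ∧ θ ≤ 1 ∧ K * θ ^ 3 ≤ B := by
    refine ⟨min 1 (B / K), lt_min one_pos (by positivity), min_le_left _ _, ?_⟩
    set θ := min 1 (B / K) with hθ
    have h1 : 0 < θ := lt_min one_pos (by positivity)
    have h2 : θ ≤ 1 := min_le_left _ _
    have h3 : θ ^ 3 ≤ θ := by
      calc θ ^ 3 = θ * θ ^ 2 := by ring
        _ ≤ θ * 1 := mul_le_mul_of_nonneg_left (pow_le_one₀ h1.le h2) h1.le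
        _ = θ := mul_one _
    calc K * θ ^ 3 ≤ K * (B / K) := mul_le_mul_of_nonneg_left (h3.trans (min_le_right _ _)) hK0.le
      _ = B := by field_simp
  set ε : ℝ := θ ^ 3 with hε
  have hε0 : 0 < ε := by positivity
  have hε1 : ε ≤ 1 := pow_le_one₀ hθ0.le hθ1
  obtain ⟨n, hn⟩ := exists_nat_gt (2 / ε ^ 3)
  rw [div_lt_iff₀ (by positivity)] at hn
  -- the blocks
  obtain ⟨J₀, hJ₀⟩ := ((bi_tail hP2 htop (hQ x) hM0 hMQ hε0).and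
    ((tendsto_norm_cut_Ici hP0 htop x).eventually_le_const hε0)).exists
  obtain ⟨hJ₀Q, hJ₀x⟩ := hJ₀
  have hnext : ∀ a : ℕ, ∃ b : ℕ, a ≤ b ∧ HT (Q x) (C x) ε a b := by
    intro a
    obtain ⟨b, ⟨⟨h1, h2⟩, h3⟩, h4⟩ := (((bi_head_tail hP1 htop (hQ x) hM0 hMQ a hε0).and
      (tri_head_tail hP2 htop (hC x) hM0 hMC a hε0)).and
      (tri_head_head_tail hP1 htop (hC x) hM0 hMC a hε0)).and (eventually_ge_atTop a) |>.exists
    exact ⟨b, h4, ⟨h1, h2, h3⟩⟩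
  choose nx hnx1 hnx2 using hnext
  let J : ℕ → ℕ := fun j => Nat.rec J₀ (fun _ a => nx a) j
  have hJ0 : J 0 = J₀ := rfl
  have hJs : ∀ j, J (j + 1) = nx (J j) := fun _ => rfl
  have hJm : Monotone J := monotone_nat_of_le_succ fun j => by rw [hJs]; exact hnx1 _
  obtain ⟨m, hmQ, hmJ⟩ := ((Q_e_small hP2 htop (hQ x) hM0 hMQ hε0).and
    (eventually_ge_atTop (J n))).exists
  have hxm : |co x m| ≤ ε := by
    have h1 : co x m = co (cut hP0 (Ici J₀) x) m := by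
      rw [co_cut_mem hP0 x]
      have := hJm (Nat.zero_le n)
      rw [hJ0] at this
      simpa using this.trans hmJ
    rw [h1]
    exact (abs_co_le hp0.ne' _ m).trans hJ₀x
  -- the two minimisers
  obtain ⟨k, τ₁, hτ₁, -, hgk, ⟨ζ₁, hζ₁⟩, hwk⟩ := hmain (η • coL m) B hB0
  obtain ⟨l, τ₂, hτ₂, -, hgl, -, hwl⟩ := hmain ((-η) • coL m) B hB0
  have hξk : (η • coL m) k = η * co k m := by
    rw [_root_.smul_apply, smul_eq_mul, coL_apply]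
  have hξl : ((-η) • coL m) l = -η * co l m := by
    rw [_root_.smul_apply, smul_eq_mul, coL_apply]
  rw [hξk] at hgk
  rw [hξl] at hgl
  have hkm : |co k m| ≤ ‖k‖ := abs_co_le hp0.ne' k m
  have hlm : |co l m| ≤ ‖l‖ := abs_co_le hp0.ne' l m
  have hτk : |τ₁ k| ≤ B * ‖k‖ := (τ₁.le_opNorm k).trans
    (mul_le_mul_of_nonneg_right hτ₁ (norm_nonneg _))
  have hτl : |τ₂ l| ≤ B * ‖l‖ := (τ₂.le_opNorm l).trans
    (mul_le_mul_of_nonneg_right hτ₂ (norm_nonneg _))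
  have hkn := norm_nonneg k
  have hln := norm_nonneg l
  have hkρ : ‖k‖ ≤ ρ := by
    refine sq_root hc hkn hρ0.le ?_
    have h1 : η * co k m ≤ η * ‖k‖ := mul_le_mul_of_nonneg_left ((le_abs_self _).trans hkm) hη0.le
    have h2 : B * ‖k‖ ≤ c * ρ ^ 2 / 8 * ‖k‖ := mul_le_mul_of_nonneg_right hB1 hkn
    have h3 := le_abs_self (τ₁ k)
    have h4 : 0 ≤ c * ρ ^ 2 * ‖k‖ := by positivity
    have h5 : η * ‖k‖ = c * ρ ^ 2 * ‖k‖ / 2 := by rw [hη]; ring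
    linarith
  have hlρ : ‖l‖ ≤ ρ := by
    refine sq_root hc hln hρ0.le ?_
    have h1 : -η * co l m ≤ η * ‖l‖ := by
      have : -co l m ≤ ‖l‖ := (neg_le_abs _).trans hlm
      have h6 := mul_le_mul_of_nonneg_left this hη0.le
      rw [neg_mul, ← mul_neg]
      exact h6
    have h2 : B * ‖l‖ ≤ c * ρ ^ 2 / 8 * ‖l‖ := mul_le_mul_of_nonneg_right hB1 hln
    have h3 := le_abs_self (τ₂ l)
    have h4 : 0 ≤ c * ρ ^ 2 * ‖l‖ := by positivity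
    have h5 : η * ‖l‖ = c * ρ ^ 2 * ‖l‖ / 2 := by rw [hη]; ring
    linarith
  have hk1 : ‖k‖ ≤ 1 := hkρ.trans hρ1
  have hl1 : ‖l‖ ≤ 1 := hlρ.trans hρ1
  -- choose the block
  obtain ⟨j, hjn, hbk, hbl⟩ := exists_block hP hP0 hJm hk1 hl1 hε0 hn
  set a := J j with ha
  set b := J (j + 1) with hb
  have hab : a ≤ b := hJm (Nat.le_succ j)
  have hJ₀a : J₀ ≤ a := by rw [← hJ0]; exact hJm (Nat.zero_le _)
  have hJ₀b : J₀ ≤ b := hJ₀a.trans hab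
  have hbm : b ≤ m := (hJm hjn).trans hmJ
  have hHT : HT (Q x) (C x) ε a b := by rw [hb, hJs]; exact hnx2 _
  set h₁ := cut hP0 (Iio a) k with hh₁
  set e₁ := cut hP0 (Ico a b) k with he₁
  set u₁ := cut hP0 (Ici b) k with hu₁
  set h₂ := cut hP0 (Iio a) l with hh₂
  set e₂ := cut hP0 (Ico a b) l with he₂
  set u₂ := cut hP0 (Ici b) l with hu₂
  have hkd : k = h₁ + e₁ + u₁ := cut_three hP0 hab k
  have hld : l = h₂ + e₂ + u₂ := cut_three hP0 hab l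
  have nu₁ρ : ‖u₁‖ ≤ ρ := (norm_cut_le hP0 _ _).trans hkρ
  have nu₂ρ : ‖u₂‖ ≤ ρ := (norm_cut_le hP0 _ _).trans hlρ
  have nu₁ : ‖u₁‖ ≤ 1 := nu₁ρ.trans hρ1
  have nu₂ : ‖u₂‖ ≤ 1 := nu₂ρ.trans hρ1
  have nh₁ : ‖h₁‖ ≤ 1 := (norm_cut_le hP0 _ _).trans hk1
  have nh₂ : ‖h₂‖ ≤ 1 := (norm_cut_le hP0 _ _).trans hl1
  have ne₂ : ‖e₂‖ ≤ 1 := (norm_cut_le hP0 _ _).trans hl1
  have tu₁ : Tl b u₁ := tl_cut hP0 b k
  have tu₂ : Tl b u₂ := tl_cut hP0 b l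
  have hd₁ : Hd a h₁ := hd_cut hP0 a k
  have hd₂ : Hd a h₂ := hd_cut hP0 a l
  have br1 := bracket1 (hQ x) hM0 hMQ hε0.le hJ₀b hJ₀Q hHT hld hd₂ tu₂ tu₁ hbl nh₂ nu₂ nu₁
  have br2 := bracket2 (hC x) hM0 hMC hε0.le hHT hkd hld hd₁ hd₂ tu₁ tu₂ hbk hbl nh₁ nh₂ ne₂
    nu₁ nu₂
  have br3 := tail_three (x := x) (k := k) (l := l) hP hP1 tu₁ tu₂
    (fun i hi => (co_cut_mem hP0 l (by simpa using hi)).symm)
    (fun i hi => (co_cut_mem hP0 k (by simpa using hi)).symm)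
    (w := cut hP0 (Ici b) x) (fun i hi => co_cut_mem hP0 x (by simpa using hi)) hθ0
    (by
      refine le_trans (norm_le_of_co hP0 fun i => ?_) hJ₀x
      by_cases hi : b ≤ i
      · rw [co_cut_mem hP0 x (by simpa using hi), co_cut_mem hP0 x (by simp; omega)]
      · rw [co_cut_notMem hP0 x (by simpa using hi), abs_zero]
        exact abs_nonneg _) nu₁ nu₂
  have hN : ∀ y v : E p, (gauge (p := p) hP2.le hP4).N' y v = dNc hP1 y v := fun y v => rfl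
  simp only [hN] at hwk hwl
  -- first order relation at the second point tested with `u₁`
  obtain ⟨hA, -⟩ := hwl (hlρ.trans hρκ) u₁
  have hcu : co u₁ m = co k m := co_cut_mem hP0 k (by simpa using hbm)
  have hξu : ((-η) • coL m) u₁ = -η * co k m := by
    rw [_root_.smul_apply, smul_eq_mul, coL_apply, hcu]
  rw [hξu] at hA
  have hτu : |τ₂ u₁| ≤ B := by
    refine (τ₂.le_opNorm u₁).trans ?_
    calc ‖τ₂‖ * ‖u₁‖ ≤ B * 1 := mul_le_mul hτ₂ nu₁ (norm_nonneg _) hB0.le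
      _ = B := mul_one _
  have hWA : W * ‖l‖ ^ 3 * ‖u₁‖ ≤ W * ρ ^ 4 := by
    have h1 : ‖l‖ ^ 3 ≤ ρ ^ 3 := pow_le_pow_left₀ hln hlρ 3
    calc W * ‖l‖ ^ 3 * ‖u₁‖ ≤ W * ρ ^ 3 * ρ := by
          apply mul_le_mul _ nu₁ρ (norm_nonneg _) (by positivity)
          exact mul_le_mul_of_nonneg_left h1 hW
      _ = _ := by ring
  -- second order relation at the first point tested with `u₂`
  obtain ⟨-, hS⟩ := hwk (hkρ.trans hρκ) u₂
  have hWS : W * ‖k‖ ^ 2 * ‖u₂‖ ^ 2 ≤ W * ρ ^ 4 := by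
    have h1 : ‖k‖ ^ 2 ≤ ρ ^ 2 := pow_le_pow_left₀ hkn hkρ 2
    have h2 : ‖u₂‖ ^ 2 ≤ ρ ^ 2 := pow_le_pow_left₀ (norm_nonneg _) nu₂ρ 2
    calc W * ‖k‖ ^ 2 * ‖u₂‖ ^ 2 ≤ W * ρ ^ 2 * ρ ^ 2 := by
          apply mul_le_mul _ h2 (by positivity) (by positivity)
          exact mul_le_mul_of_nonneg_left h1 hW
      _ = _ := by ring
  have hxk : x + k ≠ 0 := by
    obtain ⟨k', τ', h1, h2, h3⟩ := hmain (η • coL m) B hB0
    intro h0
    have hmin : x + k ∈ MS f (gauge (p := p) hP2.le hP4) δ := min_mem_MS hδ.le hζ₁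
    rw [h0] at hmin
    exact zero_notMem_MS hδ hQuart hfb (gauge (p := p) hP2.le hP4).one_lt hmin
  have hsec : δ * (6 * S2 (x + k) u₂) ≤ Q (x + k) u₂ u₂ := by
    refine second_order (r := 1) hζ₁ (isLin_clm _) (hQ (x + k)) (hC (x + k)) (hp (x + k) hxk)
      u₂ fun s => ?_
    have h1 := second_diff hP (x + k) u₂ s
    have h2 : ∀ y : E p, (gauge (p := p) hP2.le hP4).N y = ‖y‖ ^ 3 := fun y => by
      rw [(gauge (p := p) hP2.le hP4).N_eq, hGP, pow_co hP]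
    rw [h2, h2, h2, mul_assoc]
    exact mul_le_mul_of_nonneg_left h1 hδ.le
  -- first order relation at the first point tested with `e m`
  obtain ⟨hE, -⟩ := hwk (hkρ.trans hρκ) (e m)
  have hξe : (η • coL m) (e m : E p) = η := by
    rw [_root_.smul_apply, smul_eq_mul, coL_apply, co_e, if_pos rfl, mul_one]
  rw [dNc_e, dNc_e, hξe, norm_e hp0, mul_one, co_add] at hE
  simp only [hP, gg_three] at hE
  have hτe : |τ₁ (e m)| ≤ B := by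
    have := τ₁.le_opNorm (e m)
    rw [norm_e hp0, mul_one] at this
    exact this.trans hτ₁
  have hQe : |Q x k (e m)| ≤ ε := by
    refine (hmQ k).trans ?_
    calc ε * ‖k‖ ≤ ε * 1 := mul_le_mul_of_nonneg_left hk1 hε0.le
      _ = _ := mul_one _
  have hCe : |C x k k (e m)| ≤ M * ‖k‖ ^ 2 := by
    have := hMC k k (e m)
    rw [norm_e hp0, mul_one] at this
    refine this.trans (le_of_eq ?_)
    ring
  have hge : |(|co x m + co k m| * (co x m + co k m)) - |co x m| * co x m| ≤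
      ‖k‖ ^ 2 + 2 * ε := by
    refine (sc2 _ _).trans ?_
    have h1 : (co k m) ^ 2 ≤ ‖k‖ ^ 2 := by
      rw [← sq_abs (co k m)]
      exact pow_le_pow_left₀ (abs_nonneg _) hkm 2
    have h2 : |co x m| * |co k m| ≤ ε * 1 :=
      mul_le_mul hxm (hkm.trans hk1) (abs_nonneg _) hε0.le
    linarith
  have hWE : W * ‖k‖ ^ 3 ≤ W * ‖k‖ ^ 2 := by
    apply mul_le_mul_of_nonneg_left _ hW
    exact pow_le_pow_of_le_one hkn hk1 (by norm_num)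
  have hlow1 : lam * ρ ≤ ‖k‖ := by
    have h1 := (abs_le.1 hE).1
    have h2 := (abs_le.1 hτe).1
    have h3 := (abs_le.1 hQe).2
    have h4 := (abs_le.1 hCe).2
    have h5 := (abs_le.1 hge).1
    have h6 : δ * (3 * -(‖k‖ ^ 2 + 2 * ε)) ≤ δ * (3 * ((|co x m + co k m| * (co x m + co k m)) -
        |co x m| * co x m)) := by
      apply mul_le_mul_of_nonneg_left _ hδ.le
      linarith
    have h7 : η ≤ D * ‖k‖ ^ 2 + (1 + 6 * δ) * ε + B := by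
      have h8 : 0 ≤ ‖k‖ ^ 2 := by positivity
      have h9 : D * ‖k‖ ^ 2 = M * ‖k‖ ^ 2 / 2 + 3 * (δ * ‖k‖ ^ 2) + W * ‖k‖ ^ 2 + ‖k‖ ^ 2 := by
        rw [hD]; ring
      have h10 : (1 + 6 * δ) * ε = ε + 6 * (δ * ε) := by ring
      rw [h9, h10]
      linarith
    have h8 : (1 + 6 * δ) * ε ≤ B := by
      refine le_trans (mul_le_mul_of_nonneg_right ?_ hε0.le) hθK
      rw [hK]
      linarith
    have h9 : D * (lam * ρ) ^ 2 ≤ D * ‖k‖ ^ 2 := by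
      have : D * (lam * ρ) ^ 2 = c * ρ ^ 2 / 4 := by
        rw [mul_pow, ← mul_assoc, hlam]; ring
      rw [this]
      have h10 : η = c * ρ ^ 2 / 2 := hη
      linarith
    have h10 := le_of_mul_le_mul_left h9 hD0
    exact (pow_le_pow_iff_left₀ (by positivity) hkn two_ne_zero).1 h10
  have hcube : c * (lam * ρ) ^ 3 ≤ c * ‖k‖ ^ 3 :=
    mul_le_mul_of_nonneg_left (pow_le_pow_left₀ (by positivity) hlow1 3) hc.le
  -- conclusion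
  have hA1 := (abs_le.1 hA).2
  have hS1 := (abs_le.1 hS).1
  have hτu' := (abs_le.1 hτu).2
  have hτk' : τ₁ k ≤ B := by
    refine ((le_abs_self _).trans hτk).trans ?_
    calc B * ‖k‖ ≤ B * 1 := mul_le_mul_of_nonneg_left hk1 hB0.le
      _ = B := mul_one _
  have hbr3 : δ * (2 * (dNc hP1 (x + l) u₁ - dNc hP1 x u₁) - 6 * S2 (x + k) u₂) ≤
      δ * (18 * ε) := mul_le_mul_of_nonneg_left br3 hδ.le
  have hmain2 : 2 * (η * co k m) ≤ 3 * (W * ρ ^ 4) + 2 * B + K * ε := by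
    have h1 : K * ε = (5 + 2 * M) * ε + (4 + 6 * M) * ε + δ * (18 * ε) := by rw [hK]; ring
    rw [h1]
    linarith
  have hρW' : 3 * (W * ρ ^ 4) ≤ c * (lam * ρ) ^ 3 / 2 := by
    have h1 : 3 * W * ρ * ρ ^ 3 ≤ c * lam ^ 3 / 2 * ρ ^ 3 :=
      mul_le_mul_of_nonneg_right hρW (by positivity)
    calc 3 * (W * ρ ^ 4) = 3 * W * ρ * ρ ^ 3 := by ring
      _ ≤ _ := h1
      _ = _ := by ring
  have hB2' : B ≤ c * (lam * ρ) ^ 3 / 8 := by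
    refine hB2.trans (le_of_eq ?_)
    ring
  have hpos : 0 < c * (lam * ρ) ^ 3 := by positivity
  linarith

end Pool.Agent.H72.GLp
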