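import Pool.Agent.H72.GLp
import Pool.Agent.H72.GForms

set_option autoImplicit false

open Set Filter Topology
open scoped ENNReal

namespace Pool.Agent.H72.GLp

open Pool.Agent.H72.GForms

variable {p : ℝ≥0∞}

/-- supported on `[J, ∞)` -/
def Tl (J : ℕ) (u : E p) : Prop := ∀ i < J, co u i = 0

/-- supported on `[0, J)` -/
def Hd (J : ℕ) (u : E p) : Prop := ∀ i, J ≤ i → co u i = 0

theorem Tl.mono {J J' : ℕ} (h : J ≤ J') {u : E p} (hu : Tl J' u) : Tl J u :=
  fun i hi => hu i (hi.trans_le h)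

theorem Hd.mono {J J' : ℕ} (h : J ≤ J') {u : E p} (hu : Hd J u) : Hd J' u :=
  fun i hi => hu i (h.trans hi)

theorem Tl.add {J : ℕ} {u v : E p} (hu : Tl J u) (hv : Tl J v) : Tl J (u + v) :=
  fun i hi => by rw [co_add, hu i hi, hv i hi, add_zero]

theorem Hd.add {J : ℕ} {u v : E p} (hu : Hd J u) (hv : Hd J v) : Hd J (u + v) :=
  fun i hi => by rw [co_add, hu i hi, hv i hi, add_zero]

theorem Tl.neg {J : ℕ} {u : E p} (hu : Tl J u) : Tl J (-u) :=
  fun i hi => by rw [co_neg, hu i hi, neg_zero]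

theorem Hd.neg {J : ℕ} {u : E p} (hu : Hd J u) : Hd J (-u) :=
  fun i hi => by rw [co_neg, hu i hi, neg_zero]

theorem Tl.zero {J : ℕ} : Tl J (0 : E p) := fun i _ => co_zero i

theorem Hd.zero {J : ℕ} : Hd J (0 : E p) := fun i _ => co_zero i

/-- restriction to a set of coordinates -/
noncomputable def cut (hp : 0 < p.toReal) (s : Set ℕ) (x : E p) : E p :=
  mk (s.indicator (co x)) (by
    refine Summable.of_nonneg_of_le (fun i => Real.rpow_nonneg (abs_nonneg _) _) (fun i => ?_)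
      (summable_co hp x)
    refine Real.rpow_le_rpow (abs_nonneg _) ?_ hp.le
    by_cases h : i ∈ s
    · rw [indicator_of_mem h]
    · rw [indicator_of_notMem h, abs_zero]; exact abs_nonneg _)

theorem co_cut (hp : 0 < p.toReal) (s : Set ℕ) (x : E p) (i : ℕ) :
    co (cut hp s x) i = s.indicator (co x) i := rfl

theorem co_cut_mem (hp : 0 < p.toReal) {s : Set ℕ} (x : E p) {i : ℕ} (h : i ∈ s) :
    co (cut hp s x) i = co x i := by rw [co_cut, indicator_of_mem h]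

theorem co_cut_notMem (hp : 0 < p.toReal) {s : Set ℕ} (x : E p) {i : ℕ} (h : i ∉ s) :
    co (cut hp s x) i = 0 := by rw [co_cut, indicator_of_notMem h]

theorem tl_cut (hp : 0 < p.toReal) (J : ℕ) (x : E p) : Tl J (cut hp (Ici J) x) :=
  fun i hi => co_cut_notMem hp x (by simpa using hi)

theorem hd_cut (hp : 0 < p.toReal) (J : ℕ) (x : E p) : Hd J (cut hp (Iio J) x) :=
  fun i hi => co_cut_notMem hp x (by simpa using hi)

theorem cut_add_cut (hp : 0 < p.toReal) (J : ℕ) (x : E p) :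
    cut hp (Iio J) x + cut hp (Ici J) x = x := by
  apply co_ext
  intro i
  rw [co_add]
  by_cases h : i < J
  · rw [co_cut_mem hp x (by simpa using h), co_cut_notMem hp x (by simpa using h), add_zero]
  · rw [co_cut_notMem hp x (by simpa using h), co_cut_mem hp x (by simpa using h), zero_add]

variable [Fact (1 ≤ p)]

theorem norm_le_of_co (hp : 0 < p.toReal) {u v : E p} (h : ∀ i, |co u i| ≤ |co v i|) :
    ‖u‖ ≤ ‖v‖ := by
  rw [← Real.rpow_le_rpow_iff (norm_nonneg _) (norm_nonneg _) hp, norm_rpow_co hp,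
    norm_rpow_co hp]
  exact (summable_co hp u).tsum_le_tsum
    (fun i => Real.rpow_le_rpow (abs_nonneg _) (h i) hp.le) (summable_co hp v)

theorem norm_cut_le (hp : 0 < p.toReal) (s : Set ℕ) (x : E p) : ‖cut hp s x‖ ≤ ‖x‖ := by
  refine norm_le_of_co hp fun i => ?_
  by_cases h : i ∈ s
  · rw [co_cut_mem hp x h]
  · rw [co_cut_notMem hp x h, abs_zero]; exact abs_nonneg _

omit [Fact (1 ≤ p)] in
theorem norm_add_disj (hp : 0 < p.toReal) {u v : E p} (h : ∀ i, co u i = 0 ∨ co v i = 0) :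
    ‖u + v‖ ^ p.toReal = ‖u‖ ^ p.toReal + ‖v‖ ^ p.toReal := by
  rw [norm_rpow_co hp, norm_rpow_co hp, norm_rpow_co hp,
    ← (summable_co hp u).tsum_add (summable_co hp v)]
  refine tsum_congr fun i => ?_
  rw [co_add]
  rcases h i with h | h
  · rw [h, zero_add, abs_zero, Real.zero_rpow hp.ne', zero_add]
  · rw [h, add_zero, abs_zero, Real.zero_rpow hp.ne', add_zero]

/-- unit vectors -/
noncomputable def e (i : ℕ) : E p := lp.single p i (1 : ℝ)

omit [Fact (1 ≤ p)] in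
theorem co_e (i j : ℕ) : co (e i : E p) j = if j = i then 1 else 0 := by
  unfold co e
  rw [lp.single_apply]
  by_cases h : j = i
  · subst h; simp
  · simp [h]

omit [Fact (1 ≤ p)] in
theorem norm_e (hp : 0 < p) (i : ℕ) : ‖(e i : E p)‖ = 1 := by
  unfold e
  rw [lp.norm_single hp, norm_one]

omit [Fact (1 ≤ p)] in
theorem tl_e {i J : ℕ} (h : J ≤ i) : Tl J (e i : E p) := fun j hj => by
  rw [co_e, if_neg (by omega)]

omit [Fact (1 ≤ p)] in
theorem co_sum {ι : Type*} (s : Finset ι) (f : ι → E p) (i : ℕ) :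
    co (∑ j ∈ s, f j) i = ∑ j ∈ s, co (f j) i := by
  classical
  induction s using Finset.induction_on with
  | empty => simp [co_zero]
  | insert a s ha ih => rw [Finset.sum_insert ha, Finset.sum_insert ha, co_add, ih]

theorem hd_expand {J : ℕ} {h : E p} (hh : Hd J h) :
    h = ∑ i ∈ Finset.range J, co h i • (e i : E p) := by
  apply co_ext
  intro i
  rw [co_sum]
  simp only [co_smul, co_e]
  by_cases hi : i < J
  · rw [Finset.sum_eq_single i]
    · simp
    · intro b _ hb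
      rw [if_neg (Ne.symm hb), mul_zero]
    · intro h1
      exact absurd (Finset.mem_range.2 hi) h1
  · rw [hh i (by omega)]
    symm
    refine Finset.sum_eq_zero fun b hb => ?_
    rw [Finset.mem_range] at hb
    rw [if_neg (by omega), mul_zero]

theorem cut_Iio_eq (hp : 0 < p.toReal) (J : ℕ) (x : E p) :
    cut hp (Iio J) x = ∑ i ∈ Finset.range J, lp.single p i (x i) := by
  apply co_ext
  intro i
  rw [co_sum]
  have h1 : ∀ j, co (lp.single p j (x j) : E p) i = if i = j then co x i else 0 := by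
    intro j
    unfold co
    rw [lp.single_apply]
    by_cases h : i = j
    · subst h; simp
    · simp [h]
  simp only [h1]
  by_cases hi : i < J
  · rw [co_cut_mem hp x (by simpa using hi)]
    simp [hi]
  · rw [co_cut_notMem hp x (by simpa using hi)]
    simp [hi]

theorem tendsto_cut_Iio (hp : 0 < p.toReal) (htop : p ≠ ⊤) (x : E p) :
    Tendsto (fun J => cut hp (Iio J) x) atTop (𝓝 x) := by
  simp only [cut_Iio_eq]
  exact (lp.hasSum_single htop x).tendsto_sum_nat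

theorem tendsto_norm_cut_Ici (hp : 0 < p.toReal) (htop : p ≠ ⊤) (x : E p) :
    Tendsto (fun J => ‖cut hp (Ici J) x‖) atTop (𝓝 0) := by
  have h1 := tendsto_cut_Iio hp htop x
  have h2 : Tendsto (fun J => ‖x - cut hp (Iio J) x‖) atTop (𝓝 ‖x - x‖) :=
    (h1.const_sub x).norm
  rw [sub_self, norm_zero] at h2
  refine h2.congr fun J => ?_
  congr 1
  rw [sub_eq_iff_eq_add, add_comm]
  exact (cut_add_cut hp J x).symm

omit [Fact (1 ≤ p)] in
theorem growth_contra {P ε M θ : ℝ} (hP : θ < P) (hθ : 0 < θ) (hε : 0 < ε)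
    (h : ∀ n : ℕ, n * ε ≤ M * (n : ℝ) ^ (θ / P)) : False := by
  have hP0 : 0 < P := hθ.trans hP
  have h1 : Tendsto (fun n : ℕ => (n : ℝ) ^ (1 - θ / P)) atTop atTop :=
    (tendsto_rpow_atTop (by rw [sub_pos, div_lt_one hP0]; exact hP)).comp
      tendsto_natCast_atTop_atTop
  obtain ⟨n, hn1, hn0⟩ := ((h1.eventually_gt_atTop (M / ε)).and (eventually_gt_atTop 0)).exists
  have hn : (0 : ℝ) < n := by exact_mod_cast hn0
  have h2 := h n
  have h3 : (n : ℝ) = (n : ℝ) ^ (1 - θ / P) * (n : ℝ) ^ (θ / P) := by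
    rw [← Real.rpow_add hn]
    norm_num
  have h4 : 0 < (n : ℝ) ^ (θ / P) := Real.rpow_pos_of_pos hn _
  have h5 : (n : ℝ) ^ (1 - θ / P) * ε ≤ M := by
    have : ((n : ℝ) ^ (1 - θ / P) * ε) * (n : ℝ) ^ (θ / P) ≤ M * (n : ℝ) ^ (θ / P) := by
      calc ((n : ℝ) ^ (1 - θ / P) * ε) * (n : ℝ) ^ (θ / P) =
            ((n : ℝ) ^ (1 - θ / P) * (n : ℝ) ^ (θ / P)) * ε := by ring
        _ = n * ε := by rw [← h3]
        _ ≤ _ := h2
    exact le_of_mul_le_mul_right this h4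
  rw [div_lt_iff₀ hε] at hn1
  linarith

theorem lin_tail (hP : 1 < p.toReal) (htop : p ≠ ⊤) {L : E p → ℝ} (hL : IsLin L) {M : ℝ}
    (hM0 : 0 ≤ M) (hM : ∀ u, |L u| ≤ M * ‖u‖) {ε : ℝ} (hε : 0 < ε) :
    ∀ᶠ J in atTop, ∀ u, Tl J u → |L u| ≤ ε * ‖u‖ := by
  by_contra hcon
  have hP0 : 0 < p.toReal := by linarith
  have hneg : ∀ u, L (-u) = -L u := fun u => by
    have := hL.smul (-1) u
    rw [neg_one_smul] at this
    rw [this]; ring
  have hfreq : ∀ J : ℕ, ∃ u, Tl J u ∧ ε * ‖u‖ < |L u| := by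
    intro J
    rw [not_eventually] at hcon
    obtain ⟨J', hJ', h⟩ := (hcon.and_eventually (eventually_ge_atTop J)).exists
    push Not at hJ'
    obtain ⟨u, hu, h1⟩ := hJ'
    exact ⟨u, hu.mono h, h1⟩
  -- normalised finitely supported vectors
  have hnorm : ∀ J : ℕ, ∃ (u : E p) (K : ℕ), Tl J u ∧ Hd K u ∧ ‖u‖ ≤ 1 ∧ ε ≤ L u := by
    intro J
    obtain ⟨u, hu, h1⟩ := hfreq J
    have hu0 : u ≠ 0 := by
      rintro rfl
      have h2 : L 0 = 0 := by simpa using hL.smul 0 0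
      rw [h2, norm_zero, mul_zero, abs_zero] at h1
      exact lt_irrefl _ h1
    have hn0 : 0 < ‖u‖ := norm_pos_iff.2 hu0
    -- sign
    obtain ⟨w, hw, hwn, hwL⟩ : ∃ w : E p, Tl J w ∧ ‖w‖ = 1 ∧ ε < L w := by
      rcases le_total 0 (L u) with h2 | h2
      · refine ⟨‖u‖⁻¹ • u, fun i hi => by rw [co_smul, hu i hi, mul_zero], ?_, ?_⟩
        · rw [norm_smul, norm_inv, norm_norm, inv_mul_cancel₀ hn0.ne']
        · rw [hL.smul, inv_mul_eq_div, lt_div_iff₀ hn0]
          rwa [abs_of_nonneg h2] at h1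
      · refine ⟨‖u‖⁻¹ • (-u), fun i hi => by rw [co_smul, co_neg, hu i hi, neg_zero, mul_zero],
          ?_, ?_⟩
        · rw [norm_smul, norm_inv, norm_norm, norm_neg, inv_mul_cancel₀ hn0.ne']
        · rw [hL.smul, hneg, inv_mul_eq_div, lt_div_iff₀ hn0]
          rwa [abs_of_nonpos h2] at h1
    have hlim : Tendsto (fun K => L (cut hP0 (Iio K) w)) atTop (𝓝 (L w)) := by
      rw [tendsto_iff_norm_sub_tendsto_zero]
      have h3 : Tendsto (fun K => M * ‖cut hP0 (Ici K) w‖) atTop (𝓝 0) := by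
        have := (tendsto_norm_cut_Ici hP0 htop w).const_mul M
        rwa [mul_zero] at this
      refine squeeze_zero (fun K => norm_nonneg _) (fun K => ?_) h3
      have h4 := hL.add (cut hP0 (Iio K) w) (cut hP0 (Ici K) w)
      rw [cut_add_cut] at h4
      rw [h4, Real.norm_eq_abs]
      have h5 : L (cut hP0 (Iio K) w) - (L (cut hP0 (Iio K) w) + L (cut hP0 (Ici K) w)) =
        -L (cut hP0 (Ici K) w) := by ring
      rw [h5, abs_neg]
      exact hM _
    obtain ⟨K, hK⟩ := (hlim.eventually_const_lt hwL).exists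
    refine ⟨cut hP0 (Iio K) w, K, fun i hi => ?_, hd_cut hP0 K w, (norm_cut_le hP0 _ _).trans
      hwn.le, hK.le⟩
    by_cases h : i < K
    · rw [co_cut_mem hP0 w (by simpa using h), hw i hi]
    · rw [co_cut_notMem hP0 w (by simpa using h)]
  have hind : ∀ n : ℕ, ∀ J : ℕ, ∃ (U : E p) (K : ℕ), Tl J U ∧ Hd K U ∧
      ‖U‖ ^ p.toReal ≤ n ∧ n * ε ≤ L U := by
    intro n
    induction n with
    | zero =>
      intro J
      refine ⟨0, 0, Tl.zero, Hd.zero, ?_, ?_⟩
      · rw [norm_zero, Real.zero_rpow hP0.ne']; simp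
      · have h2 : L 0 = 0 := by simpa using hL.smul 0 0
        rw [h2]; simp
    | succ n ih =>
      intro J
      obtain ⟨U, K, hU1, hU2, hU3, hU4⟩ := ih J
      obtain ⟨u, K', hu1, hu2, hu3, hu4⟩ := hnorm (max J K)
      refine ⟨U + u, max K K', hU1.add (hu1.mono (le_max_left _ _)),
        (hU2.mono (le_max_left _ _)).add (hu2.mono (le_max_right _ _)), ?_, ?_⟩
      · rw [norm_add_disj hP0]
        · have h1 : ‖u‖ ^ p.toReal ≤ 1 := Real.rpow_le_one (norm_nonneg _) hu3 hP0.le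
          push_cast
          linarith
        · intro i
          by_cases h : i < K
          · exact Or.inr (hu1 i (h.trans_le (le_max_right _ _)))
          · exact Or.inl (hU2 i (by omega))
      · rw [hL.add]
        push_cast
        linarith
  refine growth_contra (P := p.toReal) (ε := ε) (M := M) (θ := 1) hP one_pos hε fun n => ?_
  obtain ⟨U, K, -, -, h3, h4⟩ := hind n 0
  have h5 : ‖U‖ ≤ (n : ℝ) ^ (1 / p.toReal) := by
    have h6 : (‖U‖ ^ p.toReal) ^ (1 / p.toReal) ≤ (n : ℝ) ^ (1 / p.toReal) :=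
      Real.rpow_le_rpow (Real.rpow_nonneg (norm_nonneg _) _) h3 (by positivity)
    rwa [← Real.rpow_mul (norm_nonneg _), mul_one_div_cancel hP0.ne', Real.rpow_one] at h6
  calc (n : ℝ) * ε ≤ L U := h4
    _ ≤ |L U| := le_abs_self _
    _ ≤ M * ‖U‖ := hM U
    _ ≤ _ := mul_le_mul_of_nonneg_left h5 hM0

theorem bi_tail (hP : 2 < p.toReal) (htop : p ≠ ⊤) {Q : E p → E p → ℝ} (hQ : IsBi Q) {M : ℝ}
    (hM0 : 0 ≤ M) (hM : ∀ u v, |Q u v| ≤ M * ‖u‖ * ‖v‖) {ε : ℝ} (hε : 0 < ε) :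
    ∀ᶠ J in atTop, ∀ u v, Tl J u → Tl J v → |Q u v| ≤ ε * ‖u‖ * ‖v‖ := by
  by_contra hcon
  have hP0 : 0 < p.toReal := by linarith
  have hneg : ∀ u v, Q (-u) v = -Q u v := fun u v => by
    have := hQ.smul (-1) u v
    rw [neg_one_smul] at this
    rw [this]; ring
  have hneg' : ∀ u v, Q u (-v) = -Q u v := fun u v => by
    rw [hQ.symm, hneg, hQ.symm]
  have hz : ∀ v, Q 0 v = 0 := fun v => by simpa using hQ.smul 0 0 v
  have hz' : ∀ v, Q v 0 = 0 := fun v => by rw [hQ.symm]; exact hz v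
  have hfreq : ∀ J : ℕ, ∃ u v, Tl J u ∧ Tl J v ∧ ε * ‖u‖ * ‖v‖ < |Q u v| := by
    intro J
    rw [not_eventually] at hcon
    obtain ⟨J', hJ', h⟩ := (hcon.and_eventually (eventually_ge_atTop J)).exists
    push Not at hJ'
    obtain ⟨u, v, hu, hv, h1⟩ := hJ'
    exact ⟨u, v, hu.mono h, hv.mono h, h1⟩
  have hnorm : ∀ J : ℕ, ∃ (u v : E p) (K : ℕ), Tl J u ∧ Tl J v ∧ Hd K u ∧ Hd K v ∧ ‖u‖ ≤ 1 ∧
      ‖v‖ ≤ 1 ∧ ε ≤ Q u v := by
    intro J
    obtain ⟨u, v, hu, hv, h1⟩ := hfreq J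
    have hu0 : u ≠ 0 := by
      rintro rfl
      rw [hz, norm_zero, mul_zero, zero_mul, abs_zero] at h1
      exact lt_irrefl _ h1
    have hv0 : v ≠ 0 := by
      rintro rfl
      rw [hz', norm_zero, mul_zero, abs_zero] at h1
      exact lt_irrefl _ h1
    have hn0 : 0 < ‖u‖ := norm_pos_iff.2 hu0
    have hm0 : 0 < ‖v‖ := norm_pos_iff.2 hv0
    obtain ⟨w, z, hw, hz, hwn, hzn, hwz⟩ : ∃ w z : E p, Tl J w ∧ Tl J z ∧ ‖w‖ = 1 ∧ ‖z‖ = 1 ∧
        ε < Q w z := by
      rcases le_total 0 (Q u v) with h2 | h2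
      · refine ⟨‖u‖⁻¹ • u, ‖v‖⁻¹ • v, fun i hi => by rw [co_smul, hu i hi, mul_zero],
          fun i hi => by rw [co_smul, hv i hi, mul_zero], ?_, ?_, ?_⟩
        · rw [norm_smul, norm_inv, norm_norm, inv_mul_cancel₀ hn0.ne']
        · rw [norm_smul, norm_inv, norm_norm, inv_mul_cancel₀ hm0.ne']
        · rw [hQ.smul, hQ.smul', inv_mul_eq_div, inv_mul_eq_div, lt_div_iff₀ hn0,
            lt_div_iff₀ hm0]
          rwa [abs_of_nonneg h2] at h1
      · refine ⟨‖u‖⁻¹ • (-u), ‖v‖⁻¹ • v,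
          fun i hi => by rw [co_smul, co_neg, hu i hi, neg_zero, mul_zero],
          fun i hi => by rw [co_smul, hv i hi, mul_zero], ?_, ?_, ?_⟩
        · rw [norm_smul, norm_inv, norm_norm, norm_neg, inv_mul_cancel₀ hn0.ne']
        · rw [norm_smul, norm_inv, norm_norm, inv_mul_cancel₀ hm0.ne']
        · rw [hQ.smul, hQ.smul', hneg, inv_mul_eq_div, inv_mul_eq_div, lt_div_iff₀ hn0,
            lt_div_iff₀ hm0]
          rwa [abs_of_nonpos h2] at h1
    have hlim : Tendsto (fun K => Q (cut hP0 (Iio K) w) (cut hP0 (Iio K) z)) atTop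
        (𝓝 (Q w z)) := by
      rw [tendsto_iff_norm_sub_tendsto_zero]
      have h3 : Tendsto (fun K => M * ‖w‖ * ‖cut hP0 (Ici K) z‖ + M * ‖cut hP0 (Ici K) w‖ * ‖z‖)
          atTop (𝓝 0) := by
        have h4 := (tendsto_norm_cut_Ici hP0 htop z).const_mul (M * ‖w‖)
        have h5 := ((tendsto_norm_cut_Ici hP0 htop w).const_mul M).mul_const ‖z‖
        have h6 := h4.add h5
        simpa using h6
      refine squeeze_zero (fun K => norm_nonneg _) (fun K => ?_) h3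
      have h4 : Q w z = Q (cut hP0 (Iio K) w) (cut hP0 (Iio K) z) +
          Q (cut hP0 (Iio K) w) (cut hP0 (Ici K) z) + Q (cut hP0 (Ici K) w) z := by
        rw [← hQ.add', cut_add_cut, ← hQ.add, cut_add_cut]
      rw [Real.norm_eq_abs]
      have h5 : Q (cut hP0 (Iio K) w) (cut hP0 (Iio K) z) - Q w z =
          -(Q (cut hP0 (Iio K) w) (cut hP0 (Ici K) z) + Q (cut hP0 (Ici K) w) z) := by
        rw [h4]; ring
      rw [h5, abs_neg]
      refine (abs_add_le _ _).trans (add_le_add ?_ (hM _ _))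
      refine (hM _ _).trans ?_
      gcongr
      exact norm_cut_le hP0 _ _
    obtain ⟨K, hK⟩ := (hlim.eventually_const_lt hwz).exists
    refine ⟨cut hP0 (Iio K) w, cut hP0 (Iio K) z, K, fun i hi => ?_, fun i hi => ?_,
      hd_cut hP0 K w, hd_cut hP0 K z, (norm_cut_le hP0 _ _).trans hwn.le,
      (norm_cut_le hP0 _ _).trans hzn.le, hK.le⟩
    · by_cases h : i < K
      · rw [co_cut_mem hP0 w (by simpa using h), hw i hi]
      · rw [co_cut_notMem hP0 w (by simpa using h)]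
    · by_cases h : i < K
      · rw [co_cut_mem hP0 z (by simpa using h), hz i hi]
      · rw [co_cut_notMem hP0 z (by simpa using h)]
  have hind : ∀ n : ℕ, ∀ J : ℕ, ∃ (U V : E p) (K : ℕ), Tl J U ∧ Tl J V ∧ Hd K U ∧ Hd K V ∧
      ‖U‖ ^ p.toReal ≤ n ∧ ‖V‖ ^ p.toReal ≤ n ∧ n * ε ≤ Q U V := by
    intro n
    induction n with
    | zero =>
      intro J
      refine ⟨0, 0, 0, Tl.zero, Tl.zero, Hd.zero, Hd.zero, ?_, ?_, ?_⟩
      · rw [norm_zero, Real.zero_rpow hP0.ne']; simp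
      · rw [norm_zero, Real.zero_rpow hP0.ne']; simp
      · rw [hz]; simp
    | succ n ih =>
      intro J
      obtain ⟨U, V, K, hU1, hV1, hU2, hV2, hU3, hV3, hUV⟩ := ih J
      obtain ⟨u, v, K', hu1, hv1, hu2, hv2, hu3, hv3, huv⟩ := hnorm (max J K)
      have hdisj : ∀ {A B : E p}, Hd K A → Tl (max J K) B → ‖A + B‖ ^ p.toReal =
          ‖A‖ ^ p.toReal + ‖B‖ ^ p.toReal := by
        intro A B hA hB
        refine norm_add_disj hP0 fun i => ?_
        by_cases h : i < K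
        · exact Or.inr (hB i (h.trans_le (le_max_right _ _)))
        · exact Or.inl (hA i (by omega))
      have hu4 : ‖u‖ ^ p.toReal ≤ 1 := Real.rpow_le_one (norm_nonneg _) hu3 hP0.le
      have hv4 : ‖v‖ ^ p.toReal ≤ 1 := Real.rpow_le_one (norm_nonneg _) hv3 hP0.le
      rcases le_total 0 (Q U v + Q u V) with h | h
      · refine ⟨U + u, V + v, max K K', hU1.add (hu1.mono (le_max_left _ _)),
          hV1.add (hv1.mono (le_max_left _ _)),
          (hU2.mono (le_max_left _ _)).add (hu2.mono (le_max_right _ _)),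
          (hV2.mono (le_max_left _ _)).add (hv2.mono (le_max_right _ _)), ?_, ?_, ?_⟩
        · rw [hdisj hU2 hu1]; push_cast; linarith
        · rw [hdisj hV2 hv1]; push_cast; linarith
        · rw [hQ.add, hQ.add', hQ.add']; push_cast; linarith
      · refine ⟨U + -u, V + -v, max K K', hU1.add (hu1.mono (le_max_left _ _)).neg,
          hV1.add (hv1.mono (le_max_left _ _)).neg,
          (hU2.mono (le_max_left _ _)).add (hu2.mono (le_max_right _ _)).neg,
          (hV2.mono (le_max_left _ _)).add (hv2.mono (le_max_right _ _)).neg, ?_, ?_, ?_⟩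
        · rw [hdisj hU2 hu1.neg, norm_neg]; push_cast; linarith
        · rw [hdisj hV2 hv1.neg, norm_neg]; push_cast; linarith
        · rw [hQ.add, hQ.add', hQ.add', hneg, hneg, hneg', hneg']; push_cast; linarith
  refine growth_contra (P := p.toReal) (ε := ε) (M := M) (θ := 2) hP two_pos hε fun n => ?_
  obtain ⟨U, V, K, -, -, -, -, h1, h2, h3⟩ := hind n 0
  have hroot : ∀ U : E p, ‖U‖ ^ p.toReal ≤ n → ‖U‖ ≤ (n : ℝ) ^ (1 / p.toReal) := by
    intro U h3
    have h6 : (‖U‖ ^ p.toReal) ^ (1 / p.toReal) ≤ (n : ℝ) ^ (1 / p.toReal) :=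
      Real.rpow_le_rpow (Real.rpow_nonneg (norm_nonneg _) _) h3 (by positivity)
    rwa [← Real.rpow_mul (norm_nonneg _), mul_one_div_cancel hP0.ne', Real.rpow_one] at h6
  have e1 : (n : ℝ) ^ (2 / p.toReal) = (n : ℝ) ^ (1 / p.toReal) * (n : ℝ) ^ (1 / p.toReal) := by
    rw [← sq, ← Real.rpow_natCast, ← Real.rpow_mul (Nat.cast_nonneg n)]
    congr 1
    push_cast
    ring
  calc (n : ℝ) * ε ≤ Q U V := h3
    _ ≤ |Q U V| := le_abs_self _
    _ ≤ M * ‖U‖ * ‖V‖ := hM U V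
    _ = M * (‖U‖ * ‖V‖) := by ring
    _ ≤ M * ((n : ℝ) ^ (1 / p.toReal) * (n : ℝ) ^ (1 / p.toReal)) := by
        apply mul_le_mul_of_nonneg_left _ hM0
        exact mul_le_mul (hroot U h1) (hroot V h2) (norm_nonneg _)
          (Real.rpow_nonneg (Nat.cast_nonneg n) _)
    _ = _ := by rw [e1]

/-- A linear functional on head vectors is controlled by its values at the unit vectors. -/
theorem head_bound {T : E p → ℝ} (hT : IsLin T) {J : ℕ} {h : E p} (hh : Hd J h)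
    (hp : p ≠ 0) {B : ℝ} (hB0 : 0 ≤ B) (hB : ∀ i < J, |T (e i)| ≤ B / (J + 1)) :
    |T h| ≤ B * ‖h‖ := by
  have hsum : ∀ s : Finset ℕ, T (∑ i ∈ s, co h i • (e i : E p)) =
      ∑ i ∈ s, co h i * T (e i) := by
    classical
    intro s
    induction s using Finset.induction_on with
    | empty => simpa using hT.smul 0 0
    | insert a s ha ih => rw [Finset.sum_insert ha, Finset.sum_insert ha, hT.add, hT.smul, ih]
  rw [hd_expand hh, hsum, ← hd_expand hh]
  refine (Finset.abs_sum_le_sum_abs _ _).trans ?_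
  have h1 : ∀ i ∈ Finset.range J, |co h i * T (e i)| ≤ ‖h‖ * (B / (J + 1)) := by
    intro i hi
    rw [abs_mul]
    exact mul_le_mul (abs_co_le hp h i) (hB i (Finset.mem_range.1 hi)) (abs_nonneg _)
      (norm_nonneg _)
  refine (Finset.sum_le_sum h1).trans ?_
  rw [Finset.sum_const, Finset.card_range, nsmul_eq_mul]
  have hJ : (0 : ℝ) < J + 1 := by positivity
  have h2 : (J : ℝ) * (‖h‖ * (B / (J + 1))) = (B * ‖h‖) * (J / (J + 1)) := by
    field_simp
  rw [h2]
  have h3 : (J : ℝ) / (J + 1) ≤ 1 := by rw [div_le_one hJ]; linarith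
  have h4 : 0 ≤ B * ‖h‖ := mul_nonneg hB0 (norm_nonneg _)
  calc (B * ‖h‖) * (J / (J + 1)) ≤ (B * ‖h‖) * 1 := mul_le_mul_of_nonneg_left h3 h4
    _ = _ := mul_one _

theorem bi_head_tail (hP : 1 < p.toReal) (htop : p ≠ ⊤) {Q : E p → E p → ℝ} (hQ : IsBi Q)
    {M : ℝ} (hM0 : 0 ≤ M) (hM : ∀ u v, |Q u v| ≤ M * ‖u‖ * ‖v‖) (J₀ : ℕ) {ε : ℝ} (hε : 0 < ε) :
    ∀ᶠ J in atTop, ∀ h u, Hd J₀ h → Tl J u → |Q h u| ≤ ε * ‖h‖ * ‖u‖ := by
  have hp0 : p ≠ 0 := by rintro rfl; simp at hP; linarith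
  have hev : ∀ i ∈ Finset.range J₀, ∀ᶠ J in atTop, ∀ u, Tl J u → |Q (e i) u| ≤
      (ε / (J₀ + 1)) * ‖u‖ := by
    intro i _
    refine lin_tail hP htop (L := fun u => Q (e i) u) ⟨fun u v => hQ.add' _ _ _,
      fun c u => hQ.smul' _ _ _⟩ (M := M * ‖(e i : E p)‖) (by positivity) (fun u => hM _ _)
      (by positivity)
  rw [← Filter.eventually_all_finset] at hev
  filter_upwards [hev] with J hJ h u hh hu
  have h1 := head_bound (T := fun h => Q h u) ⟨fun a b => hQ.add _ _ _, fun c a => hQ.smul _ _ _⟩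
    hh hp0 (B := ε * ‖u‖) (by positivity) (fun i hi => by
      refine (hJ i (Finset.mem_range.2 hi) u hu).trans (le_of_eq ?_)
      ring)
  refine h1.trans (le_of_eq ?_)
  ring

theorem tri_head_tail (hP : 2 < p.toReal) (htop : p ≠ ⊤) {C : E p → E p → E p → ℝ}
    (hC : IsTri C) {M : ℝ} (hM0 : 0 ≤ M) (hM : ∀ u v w, |C u v w| ≤ M * ‖u‖ * ‖v‖ * ‖w‖)
    (J₀ : ℕ) {ε : ℝ} (hε : 0 < ε) :
    ∀ᶠ J in atTop, ∀ h u v, Hd J₀ h → Tl J u → Tl J v → |C h u v| ≤ ε * ‖h‖ * ‖u‖ * ‖v‖ := by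
  have hp0 : p ≠ 0 := by rintro rfl; simp at hP; linarith
  have hev : ∀ i ∈ Finset.range J₀, ∀ᶠ J in atTop, ∀ u v, Tl J u → Tl J v → |C (e i) u v| ≤
      (ε / (J₀ + 1)) * ‖u‖ * ‖v‖ := by
    intro i _
    refine bi_tail hP htop (Q := fun u v => C (e i) u v) ⟨fun u u' v => hC.add2 _ _ _ _,
      fun c u v => hC.smul2 _ _ _ _, fun u v => hC.symm _ _ _⟩ (M := M * ‖(e i : E p)‖)
      (by positivity) (fun u v => hM _ _ _) (by positivity)
  rw [← Filter.eventually_all_finset] at hev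
  filter_upwards [hev] with J hJ h u v hh hu hv
  have h1 := head_bound (T := fun h => C h u v) ⟨fun a b => hC.add _ _ _ _,
    fun c a => hC.smul _ _ _ _⟩
    hh hp0 (B := ε * ‖u‖ * ‖v‖) (by positivity) (fun i hi => by
      refine (hJ i (Finset.mem_range.2 hi) u v hu hv).trans (le_of_eq ?_)
      ring)
  refine h1.trans (le_of_eq ?_)
  ring

theorem tri_head_head_tail (hP : 1 < p.toReal) (htop : p ≠ ⊤) {C : E p → E p → E p → ℝ}
    (hC : IsTri C) {M : ℝ} (hM0 : 0 ≤ M) (hM : ∀ u v w, |C u v w| ≤ M * ‖u‖ * ‖v‖ * ‖w‖)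
    (J₀ : ℕ) {ε : ℝ} (hε : 0 < ε) :
    ∀ᶠ J in atTop, ∀ h h' u, Hd J₀ h → Hd J₀ h' → Tl J u →
      |C h h' u| ≤ ε * ‖h‖ * ‖h'‖ * ‖u‖ := by
  have hp0 : p ≠ 0 := by rintro rfl; simp at hP; linarith
  have hev : ∀ i ∈ Finset.range J₀, ∀ᶠ J in atTop, ∀ h' u, Hd J₀ h' → Tl J u →
      |C (e i) h' u| ≤ (ε / (J₀ + 1)) * ‖h'‖ * ‖u‖ := by
    intro i _
    refine bi_head_tail hP htop (Q := fun u v => C (e i) u v) ⟨fun u u' v => hC.add2 _ _ _ _,
      fun c u v => hC.smul2 _ _ _ _, fun u v => hC.symm _ _ _⟩ (M := M * ‖(e i : E p)‖)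
      (by positivity) (fun u v => hM _ _ _) J₀ (by positivity)
  rw [← Filter.eventually_all_finset] at hev
  filter_upwards [hev] with J hJ h h' u hh hh' hu
  have h1 := head_bound (T := fun h => C h h' u) ⟨fun a b => hC.add _ _ _ _,
    fun c a => hC.smul _ _ _ _⟩
    hh hp0 (B := ε * ‖h'‖ * ‖u‖) (by positivity) (fun i hi => by
      refine (hJ i (Finset.mem_range.2 hi) h' u hh' hu).trans (le_of_eq ?_)
      ring)
  refine h1.trans (le_of_eq ?_)
  ring

end Pool.Agent.H72.GLp
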