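import Pool.Agent.H72.GData
import Pool.Agent.H72.GTail

set_option autoImplicit false

open Set Filter Topology
open scoped ENNReal

namespace Pool.Agent.H72.GLp

open Pool.Agent.H72.GForms Pool.Agent.H72.GVar

variable {p : ℝ≥0∞} [Fact (1 ≤ p)]

/-- coordinate functional -/
noncomputable def coL (m : ℕ) : E p →L[ℝ] ℝ := lp.evalCLM ℝ (fun _ : ℕ => ℝ) p m

theorem coL_apply (m : ℕ) (x : E p) : coL m x = co x m := rfl

theorem dNc_e (hp : 1 < p.toReal) (x : E p) (m : ℕ) :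
    dNc hp x (e m) = p.toReal * gg p.toReal (co x m) := by
  rw [dNc_apply]
  congr 1
  rw [tsum_eq_single m]
  · rw [co_e, if_pos rfl, mul_one]
  · intro j hj
    rw [co_e, if_neg hj, mul_zero]

omit [Fact (1 ≤ p)] in
theorem root_bound {P c A n ρ : ℝ} (hP : 1 < P) (hc : 0 < c) (hn : 0 ≤ n) (hρ : 0 ≤ ρ)
    (h : c * n ^ P ≤ A * n) (hA : A ≤ c * ρ ^ (P - 1)) : n ≤ ρ := by
  rcases eq_or_lt_of_le hn with h0 | h0
  · rw [← h0]; exact hρ
  · have e1 : n ^ P = n ^ (P - 1) * n := by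
      rw [Real.rpow_sub_one h0.ne']
      field_simp
    rw [e1, ← mul_assoc] at h
    have h1 : c * n ^ (P - 1) ≤ A := le_of_mul_le_mul_right h h0
    have h2 : n ^ (P - 1) ≤ ρ ^ (P - 1) := le_of_mul_le_mul_left (h1.trans hA) hc
    exact (Real.rpow_le_rpow_iff hn hρ (by linarith)).1 h2

theorem Q_e_small (hP : 2 < p.toReal) (htop : p ≠ ⊤) {Q : E p → E p → ℝ} (hQ : IsBi Q) {M : ℝ}
    (hM0 : 0 ≤ M) (hM : ∀ u v, |Q u v| ≤ M * ‖u‖ * ‖v‖) {ε : ℝ} (hε : 0 < ε) :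
    ∀ᶠ m in atTop, ∀ k, |Q k (e m)| ≤ ε * ‖k‖ := by
  have hP0 : 0 < p.toReal := by linarith
  have hp0 : 0 < p := by
    rw [pos_iff_ne_zero]; rintro rfl; simp at hP; linarith
  obtain ⟨J₁, hJ₁⟩ := eventually_atTop.1 (bi_tail hP htop hQ hM0 hM (half_pos hε))
  filter_upwards [bi_head_tail (by linarith) htop hQ hM0 hM J₁ (half_pos hε),
    eventually_ge_atTop J₁] with m hm hmJ k
  have h1 := hm (cut hP0 (Iio J₁) k) (e m) (hd_cut hP0 J₁ k) (tl_e le_rfl)
  have h2 := hJ₁ J₁ le_rfl (cut hP0 (Ici J₁) k) (e m) (tl_cut hP0 J₁ k) (tl_e hmJ)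
  rw [norm_e hp0, mul_one] at h1 h2
  have h3 : Q k (e m) = Q (cut hP0 (Iio J₁) k) (e m) + Q (cut hP0 (Ici J₁) k) (e m) := by
    rw [← hQ.add, cut_add_cut]
  rw [h3]
  have h4 := norm_cut_le hP0 (Iio J₁) k
  have h5 := norm_cut_le hP0 (Ici J₁) k
  refine (abs_add_le _ _).trans ?_
  have h6 := mul_le_mul_of_nonneg_left h4 (half_pos hε).le
  have h7 := mul_le_mul_of_nonneg_left h5 (half_pos hε).le
  linarith

omit [Fact (1 ≤ p)] in
theorem continuous_gg {P : ℝ} (hP : 2 ≤ P) : Continuous (gg P) := by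
  unfold gg
  exact (continuous_abs.rpow_const fun _ => Or.inr (by linarith)).mul continuous_id

instance : Nontrivial (E p) := by
  refine ⟨e 0, 0, fun h => ?_⟩
  have h1 : co (e 0 : E p) 0 = 0 := by rw [h, co_zero]
  rw [co_e, if_pos rfl] at h1
  exact one_ne_zero h1

theorem no_norm3 (h2 : 2 < p.toReal) (h3 : p.toReal < 3) {ν : E p → ℝ} (hcont : Continuous ν)
    {c₀ C₀ : ℝ} (hc₀ : 0 < c₀) (hlow : ∀ x, c₀ * ‖x‖ ≤ ν x) (hup : ∀ x, ν x ≤ C₀ * ‖x‖)
    (H : GateauxDiff 3 ν {0}ᶜ) : False := by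
  have hP0 : 0 < p.toReal := by linarith
  have htop : p ≠ ⊤ := by rintro rfl; simp at hP0
  have hp0 : 0 < p := by
    rw [pos_iff_ne_zero]; rintro rfl; simp at hP0
  have hν0 : ∀ x, 0 ≤ ν x := fun x => (by positivity : 0 ≤ c₀ * ‖x‖).trans (hlow x)
  set f : E p → ℝ := fun x => ν x ^ 4 with hf
  have hQuart : Quartic f (c₀ ^ 4) := by
    refine ⟨hcont.pow 4, by positivity, fun x => ?_, ?_⟩
    · rw [← mul_pow]
      exact pow_le_pow_left₀ (by positivity) (hlow x) 4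
    · have h1 := hup 0
      rw [norm_zero, mul_zero] at h1
      have h2 : ν 0 = 0 := le_antisymm h1 (hν0 0)
      simp [hf, h2]
  have hfb : ∀ x, f x ≤ C₀ ^ 4 * ‖x‖ ^ 4 := fun x => by
    rw [← mul_pow]
    exact pow_le_pow_left₀ (hν0 x) (hup x) 4
  have hdata : ∀ x : E p, ∃ (L : E p →L[ℝ] ℝ) (Q : E p → E p → ℝ), IsBi Q ∧ BdBi Q ∧ (x ≠ 0 →
      HasPeano 3 f x (fun v => L v) Q (fun _ _ _ => 0)) := by
    intro x
    by_cases hx : x = 0
    · refine ⟨0, fun _ _ => 0, ⟨by intros; simp, by intros; simp, by intros; rfl⟩,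
        ⟨0, le_rfl, by intros; simp⟩, fun h => absurd hx h⟩
    · obtain ⟨L, Q, h1, h2, h3⟩ := data3_quartic H hx
      exact ⟨L, Q, h1, h2, fun _ => h3⟩
  choose L Q hQ hbQ hp using hdata
  have hfc : Continuous f := hQuart.cont
  obtain ⟨x, δ, c, W, κ, hx0, hδ, hc, hW, hκ, hmain⟩ := package (r := 1) hQuart hfb
    (gauge h2.le (by linarith)) (Lam3 f) (fun t => by unfold Lam3; fun_prop) L Q
    (fun _ _ _ _ => 0) hQ (fun _ => isTri_zero) (fun x hx => hp x hx)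
    (fun x hx h => lam3_bound (isLin_clm _) (hQ x) (hp x hx) h)
    (fun x hx h B τ hτ hB => lam3_inv (isLin_clm _) (hQ x) (hp x hx) h hτ hB)
  obtain ⟨M, hM0, hM⟩ := hbQ x
  have hGP : (gauge (p := p) h2.le (by linarith)).P = p.toReal := rfl
  rw [hGP] at hmain
  -- the scale
  obtain ⟨ρ, hρ0, hρκ, hρ1, hρW⟩ : ∃ ρ : ℝ, 0 < ρ ∧ ρ ≤ κ ∧ ρ ≤ 1 ∧
      W * ρ ^ 2 ≤ c / 8 * ρ ^ (p.toReal - 1) := by
    have hlim : Tendsto (fun t : ℝ => W * t ^ (3 - p.toReal)) (𝓝[>] 0) (𝓝 (W * 0)) := by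
      refine Tendsto.const_mul W ?_
      have h7 : ContinuousAt (fun t : ℝ => t ^ (3 - p.toReal)) 0 :=
        Real.continuousAt_rpow_const _ _ (Or.inr (by linarith))
      have h8 := h7.tendsto
      rw [Real.zero_rpow (by linarith)] at h8
      exact h8.mono_left nhdsWithin_le_nhds
    rw [mul_zero] at hlim
    have hev : ∀ᶠ t : ℝ in 𝓝[>] 0, W * t ^ (3 - p.toReal) < c / 8 :=
      hlim.eventually_lt_const (by positivity)
    have hev2 : ∀ᶠ t : ℝ in 𝓝[>] 0, t < min κ 1 :=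
      mem_nhdsWithin_of_mem_nhds (Iio_mem_nhds (lt_min hκ one_pos))
    obtain ⟨t, ⟨ht1, ht2⟩, ht0⟩ := ((hev.and hev2).and self_mem_nhdsWithin).exists
    have ht : 0 < t := ht0
    refine ⟨t, ht, ht2.le.trans (min_le_left _ _), ht2.le.trans (min_le_right _ _), ?_⟩
    have e1 : t ^ 2 = t ^ (3 - p.toReal) * t ^ (p.toReal - 1) := by
      rw [← Real.rpow_add ht]
      norm_num
    rw [e1, ← mul_assoc]
    exact mul_le_mul_of_nonneg_right ht1.le (Real.rpow_nonneg ht.le _)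
  set η : ℝ := c * ρ ^ (p.toReal - 1) / 2 with hη
  have hρP : 0 < ρ ^ (p.toReal - 1) := Real.rpow_pos_of_pos hρ0 _
  have hη0 : 0 < η := by positivity
  obtain ⟨m, hm⟩ := (Q_e_small h2 htop (hQ x) hM0 hM (ε := η / 8) (by positivity)).exists
  obtain ⟨θ, hθ0, hθ⟩ : ∃ θ : ℝ, 0 < θ ∧ ∀ s, |s| ≤ θ →
      |gg p.toReal (co x m + s) - gg p.toReal (co x m)| ≤ η / (8 * δ * p.toReal) := by
    have h1 : Continuous fun s : ℝ => |gg p.toReal (co x m + s) - gg p.toReal (co x m)| := by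
      have := continuous_gg h2.le
      fun_prop
    have h4 := h1.tendsto 0
    simp only [add_zero, sub_self, abs_zero] at h4
    have h5 := h4.eventually_lt_const (u := η / (8 * δ * p.toReal)) (by positivity)
    obtain ⟨t₀, ht₀, hball⟩ := Metric.eventually_nhds_iff.1 h5
    refine ⟨t₀ / 2, by linarith, fun s hs => (hball ?_).le⟩
    rw [Real.dist_eq, sub_zero]; linarith
  have hθP : 0 < θ ^ (p.toReal - 1) := Real.rpow_pos_of_pos hθ0 _
  obtain ⟨k, τ, hτ, hxk, hgrow, -, hwh⟩ := hmain (η • coL m) (min (η / 8) (c * θ ^ (p.toReal - 1)))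
    (lt_min (by positivity) (by positivity))
  have hτ1 : ‖τ‖ ≤ η / 8 := hτ.trans (min_le_left _ _)
  have hτ2 : ‖τ‖ ≤ c * θ ^ (p.toReal - 1) := hτ.trans (min_le_right _ _)
  have hξk : (η • coL m) k = η * co k m := by
    rw [_root_.smul_apply, smul_eq_mul, coL_apply]
  rw [hξk] at hgrow
  have hkm : |co k m| ≤ ‖k‖ := abs_co_le hp0.ne' k m
  have hτk : τ k ≤ ‖τ‖ * ‖k‖ := (le_abs_self _).trans (τ.le_opNorm k)
  have hk0 := norm_nonneg k
  have hkρ : ‖k‖ ≤ ρ := by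
    refine root_bound (P := p.toReal) (c := c) (A := 2 * η) (by linarith) hc hk0 hρ0.le ?_ ?_
    · have h4 : η * co k m ≤ η * ‖k‖ := mul_le_mul_of_nonneg_left ((le_abs_self _).trans hkm)
        hη0.le
      have h5 : ‖τ‖ * ‖k‖ ≤ η / 8 * ‖k‖ := mul_le_mul_of_nonneg_right hτ1 hk0
      have h6 : 0 ≤ η * ‖k‖ := by positivity
      linarith
    · rw [hη]; linarith
  have hk1 : ‖k‖ ≤ 1 := hkρ.trans hρ1
  obtain ⟨hA, -⟩ := hwh (hkρ.trans hρκ) (e m)
  rw [norm_e hp0, mul_one] at hA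
  have hN : ∀ y : E p, (gauge (p := p) h2.le (by linarith)).N' y (e m) =
      p.toReal * gg p.toReal (co y m) := fun y => dNc_e (by linarith) y m
  have hξe : (η • coL m) (e m : E p) = η := by
    rw [_root_.smul_apply, smul_eq_mul, coL_apply, co_e, if_pos rfl, mul_one]
  rw [hN, hN, hξe, co_add] at hA
  have hτe : |τ (e m)| ≤ ‖τ‖ := by
    have := τ.le_opNorm (e m)
    rwa [norm_e hp0, mul_one] at this
  have hQk : |Q x k (e m)| ≤ η / 8 := by
    refine (hm k).trans ?_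
    calc η / 8 * ‖k‖ ≤ η / 8 * 1 := mul_le_mul_of_nonneg_left hk1 (by positivity)
      _ = _ := mul_one _
  have hWk : W * ‖k‖ ^ (1 + 1) ≤ η / 4 := by
    have h4 : W * ‖k‖ ^ (1 + 1) ≤ W * ρ ^ 2 :=
      mul_le_mul_of_nonneg_left (pow_le_pow_left₀ hk0 hkρ 2) hW
    refine (h4.trans hρW).trans (le_of_eq ?_)
    rw [hη]
    ring
  have hA1 := (abs_le.1 hA).1
  have hQ1 := (abs_le.1 hQk).2
  have hτ3 := (abs_le.1 hτe).1
  have hgg : -(δ * (p.toReal * gg p.toReal (co x m + co k m) -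
      p.toReal * gg p.toReal (co x m))) ≤ η / 8 := by
    rcases le_or_gt 0 (co k m) with h4 | h4
    · have h5 := gg_mono h2.le (a := co x m) (b := co x m + co k m) (by linarith)
      have h6 : 0 ≤ δ * (p.toReal * gg p.toReal (co x m + co k m) -
          p.toReal * gg p.toReal (co x m)) := by
        apply mul_nonneg hδ.le
        rw [← mul_sub]
        exact mul_nonneg hP0.le (by linarith)
      linarith
    · have h5 : ‖k‖ ≤ θ := by
        refine root_bound (P := p.toReal) (c := c) (A := ‖τ‖) (by linarith) hc hk0 hθ0.le ?_ hτ2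
        have h6 : η * co k m ≤ 0 := by nlinarith
        linarith
      have h6 := hθ (co k m) (hkm.trans h5)
      have h7 : δ * p.toReal * |gg p.toReal (co x m + co k m) - gg p.toReal (co x m)| ≤
          δ * p.toReal * (η / (8 * δ * p.toReal)) :=
        mul_le_mul_of_nonneg_left h6 (by positivity)
      have h8 : δ * p.toReal * (η / (8 * δ * p.toReal)) = η / 8 := by
        field_simp
      rw [h8] at h7
      have h9 : -(gg p.toReal (co x m + co k m) - gg p.toReal (co x m)) ≤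
          |gg p.toReal (co x m + co k m) - gg p.toReal (co x m)| := neg_le_abs _
      have h10 := mul_le_mul_of_nonneg_left h9 (by positivity : 0 ≤ δ * p.toReal)
      linarith
  linarith

end Pool.Agent.H72.GLp
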