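import Pool.Agent.H72.GTail
import Pool.Agent.H72.GQ2

set_option autoImplicit false

open Set Filter Topology
open scoped ENNReal

namespace Pool.Agent.H72.GLp

open Pool.Agent.H72.GForms Pool.Agent.H72.GVar

/-! ### scalar facts for the exponent three -/

theorem gg_three (t : ℝ) : gg 3 t = |t| * t := by
  unfold gg
  norm_num

theorem sc0 (x b : ℝ) : |(|x + b| * (x + b)) - |x| * x - |b| * b| ≤ 2 * |x| * |b| := by
  rcases abs_cases x with ⟨h1, h1'⟩ | ⟨h1, h1'⟩ <;> rcases abs_cases b with ⟨h2, h2'⟩ | ⟨h2, h2'⟩ <;>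
    rcases abs_cases (x + b) with ⟨h3, h3'⟩ | ⟨h3, h3'⟩ <;> rw [h1, h2, h3, abs_le] <;>
    constructor <;> nlinarith

theorem sc1 (x a b : ℝ) : (|x + b| * (x + b) - |x| * x) * a - |x + a| * b ^ 2 ≤
    2 * |x| * |a| * |b| + |x| * b ^ 2 := by
  have h1 := (abs_le.1 (sc0 x b))
  have h2 : (|x + b| * (x + b) - |x| * x - |b| * b) * a ≤ 2 * |x| * |b| * |a| := by
    calc (|x + b| * (x + b) - |x| * x - |b| * b) * a ≤
          |(|x + b| * (x + b) - |x| * x - |b| * b) * a| := le_abs_self _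
      _ = |(|x + b| * (x + b) - |x| * x - |b| * b)| * |a| := abs_mul _ _
      _ ≤ _ := mul_le_mul_of_nonneg_right (sc0 x b) (abs_nonneg _)
  have h3 : |b| * b * a ≤ b ^ 2 * |a| := by
    calc |b| * b * a ≤ |(|b| * b * a)| := le_abs_self _
      _ = |b| * |b| * |a| := by rw [abs_mul, abs_mul, abs_abs]
      _ = b ^ 2 * |a| := by rw [← sq, sq_abs]
  have h4 : |a| - |x| ≤ |x + a| := by
    have := abs_sub_abs_le_abs_sub a (-x)
    rw [abs_neg, sub_neg_eq_add, add_comm a x] at this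
    exact this
  have h5 : (|a| - |x|) * b ^ 2 ≤ |x + a| * b ^ 2 := mul_le_mul_of_nonneg_right h4 (sq_nonneg b)
  nlinarith

theorem sc2 (x b : ℝ) : |(|x + b| * (x + b)) - |x| * x| ≤ b ^ 2 + 2 * |x| * |b| := by
  have h1 := sc0 x b
  have h2 : |(|b| * b)| = b ^ 2 := by rw [abs_mul, abs_abs, ← sq, sq_abs]
  have h3 : (|x + b| * (x + b)) - |x| * x = ((|x + b| * (x + b)) - |x| * x - |b| * b) + |b| * b := by
    ring
  rw [h3]
  refine (abs_add_le _ _).trans ?_
  rw [h2]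
  linarith

theorem sc3 (y s : ℝ) : 6 * |y| * s ^ 2 ≤ |y + s| ^ 3 + |y - s| ^ 3 - 2 * |y| ^ 3 := by
  rcases abs_cases y with ⟨h1, h1'⟩ | ⟨h1, h1'⟩ <;>
    rcases abs_cases (y + s) with ⟨h2, h2'⟩ | ⟨h2, h2'⟩ <;>
    rcases abs_cases (y - s) with ⟨h3, h3'⟩ | ⟨h3, h3'⟩ <;> rw [h1, h2, h3]
  · nlinarith
  · have : 0 ≤ (s - y) ^ 3 := by
      have : 0 ≤ s - y := by linarith
      positivity
    nlinarith
  · have : 0 ≤ (-s - y) ^ 3 := by
      have : 0 ≤ -s - y := by linarith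
      positivity
    nlinarith
  · linarith
  · linarith
  · have : 0 ≤ (y + s) ^ 3 := by positivity
    nlinarith
  · have : 0 ≤ (y - s) ^ 3 := by positivity
    nlinarith
  · nlinarith

theorem amgm3 {x a b θ : ℝ} (hx : 0 ≤ x) (ha : 0 ≤ a) (hb : 0 ≤ b) (hθ : 0 < θ) :
    3 * (x * a * b) ≤ x ^ 3 / θ ^ 6 + θ ^ 3 * (a ^ 3 + b ^ 3) := by
  have key : ∀ X Y Z : ℝ, 0 ≤ X → 0 ≤ Y → 0 ≤ Z → 3 * (X * Y * Z) ≤ X ^ 3 + Y ^ 3 + Z ^ 3 := by
    intro X Y Z hX hY hZ
    have h : X ^ 3 + Y ^ 3 + Z ^ 3 - 3 * (X * Y * Z) =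
        (X + Y + Z) * ((X - Y) ^ 2 + (Y - Z) ^ 2 + (Z - X) ^ 2) / 2 := by ring
    have : 0 ≤ (X + Y + Z) * ((X - Y) ^ 2 + (Y - Z) ^ 2 + (Z - X) ^ 2) / 2 := by positivity
    linarith
  have h := key (x / θ ^ 2) (θ * a) (θ * b) (by positivity) (by positivity) (by positivity)
  have e1 : x / θ ^ 2 * (θ * a) * (θ * b) = x * a * b := by field_simp
  have e2 : (x / θ ^ 2) ^ 3 = x ^ 3 / θ ^ 6 := by rw [div_pow]; ring
  rw [e1, e2] at h
  linarith

theorem term_bound {x a b θ : ℝ} (hθ : 0 < θ) :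
    (|x + b| * (x + b) - |x| * x) * a - |x + a| * b ^ 2 ≤
      |x| ^ 3 / θ ^ 6 + (2 / 3 * θ ^ 3) * |a| ^ 3 + (4 / 3 * θ ^ 3) * |b| ^ 3 := by
  have h1 := sc1 x a b
  have h2 := amgm3 (abs_nonneg x) (abs_nonneg a) (abs_nonneg b) hθ
  have h3 := amgm3 (abs_nonneg x) (abs_nonneg b) (abs_nonneg b) hθ
  have e1 : |x| * b ^ 2 = |x| * |b| * |b| := by rw [← sq_abs b]; ring
  rw [e1] at h1
  linarith

variable {p : ℝ≥0∞}

theorem pow_co (hP : p.toReal = 3) (t : ℝ) : t ^ p.toReal = t ^ 3 := by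
  rw [hP]
  exact Real.rpow_ofNat t 3

theorem summable_cube (hP : p.toReal = 3) (x : E p) : Summable fun i => |co x i| ^ 3 := by
  have h := summable_co (by rw [hP]; norm_num) x
  simpa only [pow_co hP] using h

theorem norm_cube (hP : p.toReal = 3) (x : E p) : ‖x‖ ^ 3 = ∑' i, |co x i| ^ 3 := by
  have h := norm_rpow_co (by rw [hP]; norm_num) x
  simpa only [pow_co hP] using h

/-- the quadratic form of second derivatives -/
noncomputable def S2 (y v : E p) : ℝ := ∑' i, |co y i| * (co v i) ^ 2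

theorem summable_S2 (hP : p.toReal = 3) (y v : E p) :
    Summable fun i => |co y i| * (co v i) ^ 2 := by
  refine Summable.of_norm_bounded ((summable_cube hP y).add (summable_cube hP v)) fun i => ?_
  have ha := abs_nonneg (co y i)
  have hv := abs_nonneg (co v i)
  rw [Real.norm_eq_abs, abs_mul, abs_abs, abs_pow]
  rcases le_total |co y i| |co v i| with h | h
  · have h1 : |co y i| * |co v i| ^ 2 ≤ |co v i| * |co v i| ^ 2 :=
      mul_le_mul_of_nonneg_right h (by positivity)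
    have h2 : 0 ≤ |co y i| ^ 3 := by positivity
    nlinarith
  · have h1 : |co y i| * |co v i| ^ 2 ≤ |co y i| * |co y i| ^ 2 :=
      mul_le_mul_of_nonneg_left (pow_le_pow_left₀ hv h 2) ha
    have h2 : 0 ≤ |co v i| ^ 3 := by positivity
    nlinarith

variable [Fact (1 ≤ p)]

theorem second_diff (hP : p.toReal = 3) (y v : E p) (s : ℝ) :
    6 * S2 y v * s ^ 2 ≤ ‖y + s • v‖ ^ 3 + ‖y - s • v‖ ^ 3 - 2 * ‖y‖ ^ 3 := by
  have h1 := summable_cube hP (y + s • v)
  have h2 := summable_cube hP (y - s • v)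
  have h3 := summable_cube hP y
  have h4 := summable_S2 hP y v
  have e1 : 6 * S2 y v * s ^ 2 = ∑' i, 6 * s ^ 2 * (|co y i| * (co v i) ^ 2) := by
    rw [tsum_mul_left]; unfold S2; ring
  rw [norm_cube hP, norm_cube hP, norm_cube hP, e1, ← tsum_mul_left, ← h1.tsum_add h2,
    ← (h1.add h2).tsum_sub (h3.mul_left 2)]
  refine (h4.mul_left _).tsum_le_tsum (fun i => ?_) ((h1.add h2).sub (h3.mul_left 2))
  rw [co_add, co_sub, co_smul]
  have h5 := sc3 (co y i) (s * co v i)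
  rw [mul_pow] at h5
  linarith

theorem dNc_three (hP : p.toReal = 3) (hp1 : 1 < p.toReal) (y v : E p) :
    dNc hp1 y v = 3 * ∑' i, (|co y i| * co y i) * co v i := by
  rw [dNc_apply]
  simp only [hP, gg_three]

theorem tail_three (hP : p.toReal = 3) (hp1 : 1 < p.toReal) {x k l u₁ u₂ : E p} {b : ℕ}
    (hu₁ : Tl b u₁) (hu₂ : Tl b u₂) (hl : ∀ i, b ≤ i → co l i = co u₂ i)
    (hk : ∀ i, b ≤ i → co k i = co u₁ i) {w : E p} (hw : ∀ i, b ≤ i → co w i = co x i)
    {θ : ℝ} (hθ : 0 < θ) (hwn : ‖w‖ ≤ θ ^ 3) (hn₁ : ‖u₁‖ ≤ 1) (hn₂ : ‖u₂‖ ≤ 1) :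
    2 * (dNc hp1 (x + l) u₁ - dNc hp1 x u₁) - 6 * S2 (x + k) u₂ ≤ 18 * θ ^ 3 := by
  have s1 : Summable fun i => (|co (x + l) i| * co (x + l) i) * co u₁ i := by
    have := summable_gg hp1 (x + l) u₁
    simpa only [hP, gg_three] using this
  have s2 : Summable fun i => (|co x i| * co x i) * co u₁ i := by
    have := summable_gg hp1 x u₁
    simpa only [hP, gg_three] using this
  have s3 := summable_S2 hP (x + k) u₂
  have s4 := summable_cube hP w
  have s5 := summable_cube hP u₁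
  have s6 := summable_cube hP u₂
  have s7 : Summable fun i => |co w i| ^ 3 / θ ^ 6 + (2 / 3 * θ ^ 3) * |co u₁ i| ^ 3 +
      (4 / 3 * θ ^ 3) * |co u₂ i| ^ 3 :=
    ((s4.div_const _).add (s5.mul_left _)).add (s6.mul_left _)
  have h1 : ∑' i, (((|co (x + l) i| * co (x + l) i) * co u₁ i - (|co x i| * co x i) * co u₁ i) -
      |co (x + k) i| * (co u₂ i) ^ 2) ≤ ∑' i, (|co w i| ^ 3 / θ ^ 6 +
      (2 / 3 * θ ^ 3) * |co u₁ i| ^ 3 + (4 / 3 * θ ^ 3) * |co u₂ i| ^ 3) := by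
    refine ((s1.sub s2).sub s3).tsum_le_tsum (fun i => ?_) s7
    by_cases hi : i < b
    · rw [hu₁ i hi, hu₂ i hi]
      have : 0 ≤ |co w i| ^ 3 / θ ^ 6 := by positivity
      simp only [abs_zero]
      nlinarith
    · have hi' : b ≤ i := by omega
      rw [co_add, co_add, hl i hi', hk i hi', hw i hi', ← sub_mul]
      exact term_bound hθ
  rw [(s1.sub s2).tsum_sub s3, s1.tsum_sub s2,
    ((s4.div_const _).add (s5.mul_left _)).tsum_add (s6.mul_left _),
    (s4.div_const _).tsum_add (s5.mul_left _), tsum_mul_left, tsum_mul_left, tsum_div_const,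
    ← norm_cube hP, ← norm_cube hP, ← norm_cube hP] at h1
  have h2 : ‖w‖ ^ 3 / θ ^ 6 ≤ θ ^ 3 := by
    rw [div_le_iff₀ (by positivity)]
    have := pow_le_pow_left₀ (norm_nonneg w) hwn 3
    calc ‖w‖ ^ 3 ≤ (θ ^ 3) ^ 3 := this
      _ = _ := by ring
  have h3 : ‖u₁‖ ^ 3 ≤ 1 := pow_le_one₀ (norm_nonneg _) hn₁
  have h4 : ‖u₂‖ ^ 3 ≤ 1 := pow_le_one₀ (norm_nonneg _) hn₂
  have h5 : (2 / 3 * θ ^ 3) * ‖u₁‖ ^ 3 ≤ (2 / 3 * θ ^ 3) * 1 :=
    mul_le_mul_of_nonneg_left h3 (by positivity)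
  have h6 : (4 / 3 * θ ^ 3) * ‖u₂‖ ^ 3 ≤ (4 / 3 * θ ^ 3) * 1 :=
    mul_le_mul_of_nonneg_left h4 (by positivity)
  rw [dNc_three hP, dNc_three hP]
  unfold S2
  linarith

/-! ### blocks -/

theorem cut_split (hp : 0 < p.toReal) {a b : ℕ} (hab : a ≤ b) (k : E p) :
    ‖cut hp (Iio b) k‖ ^ p.toReal =
      ‖cut hp (Iio a) k‖ ^ p.toReal + ‖cut hp (Ico a b) k‖ ^ p.toReal := by
  rw [← norm_add_disj hp]
  · congr 2
    apply co_ext
    intro i
    rw [co_add]
    by_cases h1 : i < a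
    · rw [co_cut_mem hp k (by simp; omega), co_cut_mem hp k (by simpa using h1),
        co_cut_notMem hp k (by simp; omega), add_zero]
    · by_cases h2 : i < b
      · rw [co_cut_mem hp k (by simpa using h2), co_cut_notMem hp k (by simpa using h1),
          co_cut_mem hp k (by simp; omega), zero_add]
      · rw [co_cut_notMem hp k (by simpa using h2), co_cut_notMem hp k (by simpa using h1),
          co_cut_notMem hp k (by simp; omega), zero_add]
  · intro i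
    by_cases h1 : i < a
    · exact Or.inr (co_cut_notMem hp k (by simp; omega))
    · exact Or.inl (co_cut_notMem hp k (by simpa using h1))

theorem sum_blocks (hp : 0 < p.toReal) {J : ℕ → ℕ} (hJ : Monotone J) (k : E p) (n : ℕ) :
    ∑ j ∈ Finset.range n, ‖cut hp (Ico (J j) (J (j + 1))) k‖ ^ p.toReal ≤ ‖k‖ ^ p.toReal := by
  have h : ∀ n, ∑ j ∈ Finset.range n, ‖cut hp (Ico (J j) (J (j + 1))) k‖ ^ p.toReal ≤
      ‖cut hp (Iio (J n)) k‖ ^ p.toReal := by
    intro n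
    induction n with
    | zero => simp only [Finset.range_zero, Finset.sum_empty]; positivity
    | succ n ih =>
      rw [Finset.sum_range_succ, cut_split hp (hJ (Nat.le_succ n))]
      linarith
  exact (h n).trans (Real.rpow_le_rpow (norm_nonneg _) (norm_cut_le hp _ _) hp.le)

theorem exists_block (hP : p.toReal = 3) (hp : 0 < p.toReal) {J : ℕ → ℕ} (hJ : Monotone J)
    {k l : E p} (hk : ‖k‖ ≤ 1) (hl : ‖l‖ ≤ 1) {ε : ℝ} (hε : 0 < ε) {n : ℕ}
    (hn : 2 < n * ε ^ 3) : ∃ j < n, ‖cut hp (Ico (J j) (J (j + 1))) k‖ ≤ ε ∧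
      ‖cut hp (Ico (J j) (J (j + 1))) l‖ ≤ ε := by
  by_contra hcon
  push Not at hcon
  have h1 := sum_blocks hp hJ k n
  have h2 := sum_blocks hp hJ l n
  simp only [pow_co hP] at h1 h2
  have h3 : ‖k‖ ^ 3 ≤ 1 := pow_le_one₀ (norm_nonneg _) hk
  have h4 : ‖l‖ ^ 3 ≤ 1 := pow_le_one₀ (norm_nonneg _) hl
  have h5 : ∀ j ∈ Finset.range n, ε ^ 3 ≤ ‖cut hp (Ico (J j) (J (j + 1))) k‖ ^ 3 +
      ‖cut hp (Ico (J j) (J (j + 1))) l‖ ^ 3 := by
    intro j hj
    have h6 : 0 ≤ ‖cut hp (Ico (J j) (J (j + 1))) k‖ ^ 3 := by positivity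
    have h7 : 0 ≤ ‖cut hp (Ico (J j) (J (j + 1))) l‖ ^ 3 := by positivity
    rcases le_or_gt ‖cut hp (Ico (J j) (J (j + 1))) k‖ ε with h8 | h8
    · have h9 := hcon j (Finset.mem_range.1 hj) h8
      have := pow_le_pow_left₀ hε.le h9.le 3
      linarith
    · have := pow_le_pow_left₀ hε.le h8.le 3
      linarith
  have h6 := Finset.sum_le_sum h5
  rw [Finset.sum_const, Finset.card_range, nsmul_eq_mul, Finset.sum_add_distrib] at h6
  linarith

theorem cut_three (hp : 0 < p.toReal) {a b : ℕ} (hab : a ≤ b) (k : E p) :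
    k = cut hp (Iio a) k + cut hp (Ico a b) k + cut hp (Ici b) k := by
  apply co_ext
  intro i
  rw [co_add, co_add]
  by_cases h1 : i < a
  · rw [co_cut_mem hp k (by simpa using h1), co_cut_notMem hp k (by simp; omega),
      co_cut_notMem hp k (by simp; omega), add_zero, add_zero]
  · by_cases h2 : i < b
    · rw [co_cut_notMem hp k (by simpa using h1), co_cut_mem hp k (by simp; omega),
        co_cut_notMem hp k (by simp; omega), zero_add, add_zero]
    · rw [co_cut_notMem hp k (by simpa using h1), co_cut_notMem hp k (by simp; omega),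
        co_cut_mem hp k (by simp; omega), zero_add, zero_add]

end Pool.Agent.H72.GLp
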