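import Mathlib

set_option autoImplicit false

open Set Filter Topology

namespace Pool.Agent.H72.GVar

variable {X : Type*} [NormedAddCommGroup X] [NormedSpace ℝ X]

/-- A power type convex gauge `N = ‖·‖ ^ P` with its derivative `N'`. -/
structure Gauge (X : Type*) [NormedAddCommGroup X] [NormedSpace ℝ X] where
  P : ℝ
  one_lt : 1 < P
  lt_four : P < 4
  N : X → ℝ
  N' : X → (X →L[ℝ] ℝ)
  c : ℝ
  c_pos : 0 < c
  N_eq : ∀ x, N x = ‖x‖ ^ P
  breg : ∀ x y, c * ‖y - x‖ ^ P ≤ N y - N x - N' x (y - x)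
  N'_bound : ∀ R : ℝ, ∃ K : ℝ, 0 ≤ K ∧ ∀ x, ‖x‖ ≤ R → ‖N' x‖ ≤ K
  hderiv : ∀ x v, Tendsto (fun s : ℝ => (N (x + s • v) - N x) / s) (𝓝[>] 0) (𝓝 (N' x v))

namespace Gauge

variable (G : Gauge X)

theorem P_pos : 0 < G.P := lt_trans one_pos G.one_lt

theorem continuous_N : Continuous G.N := by
  have : G.N = fun x => ‖x‖ ^ G.P := funext G.N_eq
  rw [this]
  exact continuous_norm.rpow_const fun x => Or.inr G.P_pos.le

theorem sub_le (x y : X) : G.N' x (y - x) ≤ G.N y - G.N x := by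
  have h1 := G.breg x y
  have h2 : 0 ≤ G.c * ‖y - x‖ ^ G.P :=
    mul_nonneg G.c_pos.le (Real.rpow_nonneg (norm_nonneg _) _)
  linarith

/-- three slope inequality -/
theorem slope_le (x v : X) {t s : ℝ} (ht : 0 < t) (hs : 0 < s) :
    (G.N x - G.N (x - t • v)) / t ≤ (G.N (x + s • v) - G.N x) / s := by
  have h1 := G.sub_le x (x - t • v)
  have h2 := G.sub_le x (x + s • v)
  have e1 : x - t • v - x = -(t • v) := by abel
  have e2 : x + s • v - x = s • v := by abel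
  rw [e1, map_neg, map_smul, smul_eq_mul] at h1
  rw [e2, map_smul, smul_eq_mul] at h2
  rw [div_le_iff₀ ht]
  have h3 : G.N' x v ≤ (G.N (x + s • v) - G.N x) / s := by
    rw [le_div_iff₀ hs]; linarith
  nlinarith

end Gauge

/-- coercivity -/
theorem coercive {a P D Z : ℝ} (ha : 0 < a) (hP : 0 < P) (hP4 : P < 4) (hD : 0 ≤ D)
    (hZ : 0 ≤ Z) (hP1 : 1 ≤ P) :
    ∃ R : ℝ, 1 ≤ R ∧ ∀ r : ℝ, 0 ≤ r → a * r ^ 4 ≤ 1 + D * r ^ P + Z * r → r ≤ R := by
  refine ⟨max 1 (((1 + D + Z) / a) ^ (1 / (4 - P))), le_max_left _ _, fun r hr h => ?_⟩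
  by_cases h1 : r ≤ 1
  · exact h1.trans (le_max_left _ _)
  · push Not at h1
    refine le_trans ?_ (le_max_right _ _)
    have hr1 : 1 ≤ r ^ P := Real.one_le_rpow h1.le hP.le
    have hr2 : r ≤ r ^ P := by
      calc r = r ^ (1 : ℝ) := (Real.rpow_one r).symm
        _ ≤ r ^ P := Real.rpow_le_rpow_of_exponent_le h1.le hP1
    have h2 : a * r ^ 4 ≤ (1 + D + Z) * r ^ P := by nlinarith
    have h3 : r ^ 4 = r ^ (4 - P) * r ^ P := by
      rw [← Real.rpow_add (by linarith)]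
      norm_num
    rw [h3] at h2
    have h4 : 0 < r ^ P := by linarith
    have h5 : a * r ^ (4 - P) ≤ 1 + D + Z := by
      have : (a * r ^ (4 - P)) * r ^ P ≤ (1 + D + Z) * r ^ P := by linarith
      exact le_of_mul_le_mul_right this h4
    have h6 : r ^ (4 - P) ≤ (1 + D + Z) / a := by
      rw [le_div_iff₀ ha]; linarith
    have h7 : (r ^ (4 - P)) ^ (1 / (4 - P)) ≤ ((1 + D + Z) / a) ^ (1 / (4 - P)) := by
      apply Real.rpow_le_rpow (Real.rpow_nonneg hr _) h6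
      apply div_nonneg zero_le_one
      linarith
    rwa [← Real.rpow_mul hr, mul_one_div_cancel (by linarith), Real.rpow_one] at h7

/-- The functions to be minimised. -/
def H (f : X → ℝ) (G : Gauge X) (δ : ℝ) (ζ : X →L[ℝ] ℝ) (y : X) : ℝ := f y - δ * G.N y - ζ y

/-- `f` is continuous and dominates `a ‖x‖^4`. -/
structure Quartic (f : X → ℝ) (a : ℝ) : Prop where
  cont : Continuous f
  pos : 0 < a
  le : ∀ x, a * ‖x‖ ^ 4 ≤ f x
  zero : f 0 = 0

theorem exists_bound {f : X → ℝ} {a : ℝ} (hf : Quartic f a) (G : Gauge X) (D Z : ℝ) (hD : 0 ≤ D)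
    (hZ : 0 ≤ Z) : ∃ R : ℝ, 1 ≤ R ∧ ∀ δ : ℝ, δ ≤ D → ∀ ζ : X →L[ℝ] ℝ, ‖ζ‖ ≤ Z → ∀ y : X,
      H f G δ ζ y ≤ 1 → ‖y‖ ≤ R := by
  obtain ⟨R, hR1, hR⟩ := coercive hf.pos G.P_pos G.lt_four hD hZ G.one_lt.le
  refine ⟨R, hR1, fun δ hδ ζ hζ y hy => hR _ (norm_nonneg _) ?_⟩
  have h1 := hf.le y
  have h2 : ζ y ≤ Z * ‖y‖ := by
    calc ζ y ≤ |ζ y| := le_abs_self _
      _ ≤ ‖ζ‖ * ‖y‖ := ζ.le_opNorm y
      _ ≤ Z * ‖y‖ := mul_le_mul_of_nonneg_right hζ (norm_nonneg _)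
  have h3 : δ * G.N y ≤ D * ‖y‖ ^ G.P := by
    rw [G.N_eq]
    exact mul_le_mul_of_nonneg_right hδ (Real.rpow_nonneg (norm_nonneg _) _)
  unfold H at hy
  linarith

theorem exists_lower {f : X → ℝ} {a : ℝ} (hf : Quartic f a) (G : Gauge X) (δ : ℝ)
    (ζ : X →L[ℝ] ℝ) : ∃ B : ℝ, ∀ y, B ≤ H f G δ ζ y := by
  obtain ⟨R, hR1, hR⟩ := exists_bound hf G (max δ 0) ‖ζ‖ (le_max_right _ _) (norm_nonneg _)
  refine ⟨min 1 (-(max δ 0) * R ^ G.P - ‖ζ‖ * R), fun y => ?_⟩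
  by_cases h : H f G δ ζ y ≤ 1
  · have h1 := hR δ (le_max_left _ _) ζ le_rfl y h
    refine (min_le_right _ _).trans ?_
    have h2 : 0 ≤ f y := le_trans (by have := hf.pos; positivity) (hf.le y)
    have h3 : δ * G.N y ≤ max δ 0 * R ^ G.P := by
      rw [G.N_eq]
      calc δ * ‖y‖ ^ G.P ≤ max δ 0 * ‖y‖ ^ G.P :=
            mul_le_mul_of_nonneg_right (le_max_left _ _) (Real.rpow_nonneg (norm_nonneg _) _)
        _ ≤ _ := mul_le_mul_of_nonneg_left
            (Real.rpow_le_rpow (norm_nonneg _) h1 G.P_pos.le) (le_max_right _ _)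
    have h4 : ζ y ≤ ‖ζ‖ * R := by
      calc ζ y ≤ |ζ y| := le_abs_self _
        _ ≤ ‖ζ‖ * ‖y‖ := ζ.le_opNorm y
        _ ≤ _ := mul_le_mul_of_nonneg_left h1 (norm_nonneg _)
    unfold H
    linarith
  · push Not at h
    exact (min_le_left _ _).trans h.le

theorem exists_approx {f : X → ℝ} {a : ℝ} (hf : Quartic f a) (G : Gauge X) (δ : ℝ)
    (ζ : X →L[ℝ] ℝ) {ε : ℝ} (hε : 0 < ε) :
    ∃ z : X, (∀ y, H f G δ ζ z ≤ H f G δ ζ y + ε) := by
  obtain ⟨B, hB⟩ := exists_lower hf G δ ζ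
  have hbdd : BddBelow (range (H f G δ ζ)) := ⟨B, by rintro _ ⟨y, rfl⟩; exact hB y⟩
  obtain ⟨_, ⟨z, rfl⟩, hz⟩ := Real.lt_sInf_add_pos (s := range (H f G δ ζ)) ⟨_, ⟨0, rfl⟩⟩ hε
  refine ⟨z, fun y => ?_⟩
  have := csInf_le hbdd ⟨y, rfl⟩
  linarith

/-- **Variational principle**: minimisers exist after an arbitrarily small linear perturbation. -/
theorem exists_min [CompleteSpace X] {f : X → ℝ} {a : ℝ} (hf : Quartic f a) (G : Gauge X)
    {δ : ℝ} (hδ : 0 ≤ δ) (ζ₀ : X →L[ℝ] ℝ) {ε : ℝ} (hε : 0 < ε) :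
    ∃ ζ : X →L[ℝ] ℝ, ‖ζ - ζ₀‖ ≤ ε ∧ ∃ z, ∀ y, H f G δ ζ z ≤ H f G δ ζ y := by
  obtain ⟨R, hR1, hR⟩ := exists_bound hf G (δ + 1) ‖ζ₀‖ (by linarith) (norm_nonneg _)
  obtain ⟨K, hK0, hK⟩ := G.N'_bound (R + 2)
  obtain ⟨κ, hκ0, hκ1, hκε⟩ : ∃ κ : ℝ, 0 < κ ∧ κ ≤ 1 ∧ κ * K ≤ ε := by
    refine ⟨min 1 (ε / (K + 1)), lt_min one_pos (by positivity), min_le_left _ _, ?_⟩
    calc min 1 (ε / (K + 1)) * K ≤ (ε / (K + 1)) * K :=
          mul_le_mul_of_nonneg_right (min_le_right _ _) hK0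
      _ ≤ ε := by
          rw [div_mul_eq_mul_div, div_le_iff₀ (by linarith)]
          nlinarith
  have hc := G.c_pos
  -- parameters
  let δs : ℕ → ℝ := fun i => δ + κ * (1 / 2) ^ i
  let κs : ℕ → ℝ := fun i => κ * (1 / 2) ^ (i + 1)
  let εs : ℕ → ℝ := fun i => min 1 (κs i * G.c * ((1 / 2 : ℝ) ^ (i + 1)) ^ G.P / 2)
  have hκs : ∀ i, 0 < κs i := fun i => by simp only [κs]; positivity
  have hεs : ∀ i, 0 < εs i := fun i => by
    have := hκs i
    simp only [εs]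
    positivity
  have hεs_anti : ∀ i, εs (i + 1) ≤ εs i := by
    intro i
    refine min_le_min le_rfl ?_
    have h1 : κs (i + 1) ≤ κs i := by
      simp only [κs]
      rw [pow_succ (1 / 2 : ℝ) (i + 1)]
      have : 0 < (1 / 2 : ℝ) ^ (i + 1) := by positivity
      nlinarith
    have h2 : ((1 / 2 : ℝ) ^ (i + 1 + 1)) ^ G.P ≤ ((1 / 2 : ℝ) ^ (i + 1)) ^ G.P := by
      apply Real.rpow_le_rpow (by positivity) _ G.P_pos.le
      rw [pow_succ (1 / 2 : ℝ) (i + 1)]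
      have : 0 < (1 / 2 : ℝ) ^ (i + 1) := by positivity
      linarith
    have h3 : 0 ≤ ((1 / 2 : ℝ) ^ (i + 1 + 1)) ^ G.P := by positivity
    have := (hκs (i + 1)).le
    have := (hκs i).le
    gcongr
  have hδs : ∀ i, δs (i + 1) = δs i - κs i := by
    intro i
    simp only [δs, κs]
    ring
  have hδs_le : ∀ i, δs i ≤ δ + 1 := by
    intro i
    simp only [δs]
    have : (1 / 2 : ℝ) ^ i ≤ 1 := pow_le_one₀ (by norm_num) (by norm_num)
    nlinarith
  choose am ham using fun (δ : ℝ) (ζ : X →L[ℝ] ℝ) (e : {e : ℝ // 0 < e}) =>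
    exists_approx hf G δ ζ e.2
  -- the sequence of functionals
  let ζs : ℕ → (X →L[ℝ] ℝ) := fun n => Nat.rec ζ₀
    (fun i ζ => ζ + κs i • G.N' (am (δs i) ζ ⟨εs i, hεs i⟩)) n
  let zs : ℕ → X := fun i => am (δs i) (ζs i) ⟨εs i, hεs i⟩
  have hζ0 : ζs 0 = ζ₀ := rfl
  have hζs : ∀ i, ζs (i + 1) = ζs i + κs i • G.N' (zs i) := fun i => rfl
  have hzs : ∀ i y, H f G (δs i) (ζs i) (zs i) ≤ H f G (δs i) (ζs i) y + εs i := fun i y =>
    ham (δs i) (ζs i) ⟨εs i, hεs i⟩ y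
  -- consecutive points are close
  have hstep : ∀ i, ‖zs (i + 1) - zs i‖ ≤ (1 / 2) ^ (i + 1) := by
    intro i
    have h1 := hzs i (zs (i + 1))
    have h2 := hzs (i + 1) (zs i)
    have h3 := G.breg (zs i) (zs (i + 1))
    have h4 : G.N' (zs i) (zs (i + 1) - zs i) = G.N' (zs i) (zs (i + 1)) - G.N' (zs i) (zs i) :=
      map_sub _ _ _
    unfold H at h1 h2
    rw [hζs, hδs] at h2
    simp only [ContinuousLinearMap.add_apply, ContinuousLinearMap.smul_apply, smul_eq_mul] at h2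
    have h5 : κs i * (G.c * ‖zs (i + 1) - zs i‖ ^ G.P) ≤ εs i + εs (i + 1) := by
      have := mul_le_mul_of_nonneg_left h3 (hκs i).le
      rw [h4] at this
      nlinarith
    have h6 : εs i + εs (i + 1) ≤ κs i * G.c * ((1 / 2 : ℝ) ^ (i + 1)) ^ G.P := by
      have h7 := hεs_anti i
      have h8 : εs i ≤ κs i * G.c * ((1 / 2 : ℝ) ^ (i + 1)) ^ G.P / 2 := min_le_right _ _
      linarith
    have h9 : ‖zs (i + 1) - zs i‖ ^ G.P ≤ ((1 / 2 : ℝ) ^ (i + 1)) ^ G.P := by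
      have h10 : κs i * G.c * ‖zs (i + 1) - zs i‖ ^ G.P ≤
          κs i * G.c * ((1 / 2 : ℝ) ^ (i + 1)) ^ G.P := by linarith
      exact le_of_mul_le_mul_left h10 (mul_pos (hκs i) hc)
    exact (Real.rpow_le_rpow_iff (norm_nonneg _) (by positivity) G.P_pos).1 h9
  have hz0 : ‖zs 0‖ ≤ R := by
    refine hR (δs 0) (hδs_le 0) (ζs 0) (by rw [hζ0]) _ ?_
    have h1 := hzs 0 0
    have h2 : H f G (δs 0) (ζs 0) 0 = 0 := by
      unfold H
      rw [hf.zero, G.N_eq, norm_zero, Real.zero_rpow G.P_pos.ne', map_zero]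
      ring
    rw [h2] at h1
    have h3 : εs 0 ≤ 1 := min_le_left _ _
    linarith
  have hdist : ∀ n, dist (zs n) (zs (n + 1)) ≤ 1 / 2 / 2 ^ n := by
    intro n
    rw [dist_comm, dist_eq_norm]
    refine (hstep n).trans (le_of_eq ?_)
    rw [pow_succ, one_div_pow]
    ring
  have hcau : CauchySeq zs := cauchySeq_of_le_geometric_two hdist
  obtain ⟨z, hz⟩ := cauchySeq_tendsto_of_complete hcau
  have hzbound : ∀ n, ‖zs n‖ ≤ R + 2 := by
    intro n
    have h1 : ∀ n, ‖zs n‖ ≤ R + (1 - (1 / 2) ^ n) := by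
      intro n
      induction n with
      | zero => simpa using hz0
      | succ n ih =>
        have h2 : ‖zs (n + 1)‖ ≤ ‖zs (n + 1) - zs n‖ + ‖zs n‖ := by
          have := norm_add_le (zs (n + 1) - zs n) (zs n)
          simpa using this
        have h3 := hstep n
        rw [pow_succ] at h3 ⊢
        linarith
    have h2 := h1 n
    have : (0 : ℝ) ≤ (1 / 2) ^ n := by positivity
    linarith
  have hζdist : ∀ n, dist (ζs n) (ζs (n + 1)) ≤ (κ * K) / 2 / 2 ^ n := by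
    intro n
    rw [dist_comm, dist_eq_norm, hζs]
    have h1 : ζs n + κs n • G.N' (zs n) - ζs n = κs n • G.N' (zs n) := by abel
    rw [h1, norm_smul, Real.norm_of_nonneg (hκs n).le]
    have h2 := hK (zs n) (hzbound n)
    calc κs n * ‖G.N' (zs n)‖ ≤ κs n * K := mul_le_mul_of_nonneg_left h2 (hκs n).le
      _ = (κ * K) / 2 / 2 ^ n := by
        simp only [κs]
        rw [pow_succ, one_div_pow]
        ring
  obtain ⟨ζ, hζ⟩ := cauchySeq_tendsto_of_complete (cauchySeq_of_le_geometric_two hζdist)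
  refine ⟨ζ, ?_, z, ?_⟩
  · have h1 := dist_le_of_le_geometric_two_of_tendsto₀ hζdist hζ
    rw [hζ0, dist_comm, dist_eq_norm] at h1
    linarith
  · intro y
    have hδlim : Tendsto δs atTop (𝓝 δ) := by
      have h1 : Tendsto (fun i : ℕ => δ + κ * (1 / 2 : ℝ) ^ i) atTop (𝓝 (δ + κ * 0)) :=
        (tendsto_pow_atTop_nhds_zero_of_lt_one (by norm_num) (by norm_num)).const_mul κ
          |>.const_add δ
      rw [mul_zero, add_zero] at h1
      exact h1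
    have hεlim : Tendsto εs atTop (𝓝 0) := by
      have h1 : Tendsto (fun i : ℕ => κ * (1 / 2 : ℝ) ^ (i + 1) * G.c) atTop (𝓝 (κ * 0 * G.c)) := by
        have h2 : Tendsto (fun i : ℕ => (1 / 2 : ℝ) ^ (i + 1)) atTop (𝓝 0) :=
          (tendsto_add_atTop_iff_nat 1).2
            (tendsto_pow_atTop_nhds_zero_of_lt_one (by norm_num) (by norm_num))
        exact (h2.const_mul κ).mul_const G.c
      rw [mul_zero, zero_mul] at h1
      refine squeeze_zero (fun i => (hεs i).le) (fun i => ?_) h1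
      have h3 : εs i ≤ κs i * G.c * ((1 / 2 : ℝ) ^ (i + 1)) ^ G.P / 2 := min_le_right _ _
      have h4 : ((1 / 2 : ℝ) ^ (i + 1)) ^ G.P ≤ 1 :=
        Real.rpow_le_one (by positivity) (pow_le_one₀ (by norm_num) (by norm_num)) G.P_pos.le
      have h5 : 0 < κs i * G.c := mul_pos (hκs i) hc
      have h6 : κs i * G.c * ((1 / 2 : ℝ) ^ (i + 1)) ^ G.P ≤ κs i * G.c * 1 :=
        mul_le_mul_of_nonneg_left h4 h5.le
      simp only [κs] at h3 h5 h6 ⊢
      linarith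
    have hev : Tendsto (fun i => ζs i (zs i)) atTop (𝓝 (ζ z)) := by
      have h1 : Tendsto (fun i => (ζs i, zs i)) atTop (𝓝 (ζ, z)) := hζ.prodMk_nhds hz
      exact ((continuous_fst.clm_apply continuous_snd).tendsto (ζ, z)).comp h1
    have hevy : Tendsto (fun i => ζs i y) atTop (𝓝 (ζ y)) := by
      have h1 : Tendsto (fun i => (ζs i, y)) atTop (𝓝 (ζ, y)) :=
        hζ.prodMk_nhds tendsto_const_nhds
      exact ((continuous_fst.clm_apply continuous_snd).tendsto (ζ, y)).comp h1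
    have hL : Tendsto (fun i => H f G (δs i) (ζs i) (zs i)) atTop (𝓝 (H f G δ ζ z)) := by
      unfold H
      exact (((hf.cont.tendsto z).comp hz).sub (hδlim.mul ((G.continuous_N.tendsto z).comp hz))).sub
        hev
    have hRt : Tendsto (fun i => H f G (δs i) (ζs i) y + εs i) atTop (𝓝 (H f G δ ζ y + 0)) := by
      unfold H
      exact ((tendsto_const_nhds.sub (hδlim.mul tendsto_const_nhds)).sub hevy).add hεlim
    rw [add_zero] at hRt
    exact le_of_tendsto_of_tendsto' hL hRt fun i => hzs i y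

end Pool.Agent.H72.GVar
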