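import Pool.Agent.H72.GMS

set_option autoImplicit false

open Set Filter Topology

namespace Pool.Agent.H72.GVar

open Pool.Agent.H72.GForms

variable {X : Type*} [NormedAddCommGroup X] [NormedSpace ℝ X]

/-- Directional Peano expansion of order `r` at `x`. -/
def HasPeano (r : ℕ) (f : X → ℝ) (x : X) (L : X → ℝ) (Q : X → X → ℝ) (C : X → X → X → ℝ) :
    Prop :=
  ∀ h, ∃ A t₀ : ℝ, 0 < t₀ ∧ ∀ t, |t| ≤ t₀ →
    |f (x + t • h) - tay (f x) L Q C (t • h)| ≤ A * |t| ^ r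

/-- third difference -/
def Lam3 (f : X → ℝ) (x h : X) (t : ℝ) : ℝ :=
  f (x + (4 * t) • h) - 6 * f (x + (2 * t) • h) + 8 * f (x + t • h) - 3 * f x

/-- fourth difference -/
def Lam4 (f : X → ℝ) (x h : X) (t : ℝ) : ℝ :=
  f (x + (8 * t) • h) - 14 * f (x + (4 * t) • h) + 56 * f (x + (2 * t) • h) -
    64 * f (x + t • h) + 21 * f x

/-- remainder -/
noncomputable def rem (f : X → ℝ) (x : X) (L : X → ℝ) (Q : X → X → ℝ) (C : X → X → X → ℝ) (h : X)
    (t : ℝ) : ℝ := f (x + t • h) - tay (f x) L Q C (t • h)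

theorem isTri_zero : IsTri (fun _ _ _ : X => (0 : ℝ)) :=
  ⟨by intros; simp, by intros; simp, by intros; rfl, by intros; rfl⟩

theorem lam3_eq {f : X → ℝ} {x : X} {L : X → ℝ} {Q : X → X → ℝ} (hL : IsLin L) (hQ : IsBi Q)
    (h : X) (t : ℝ) : Lam3 f x h t = rem f x L Q (fun _ _ _ => 0) h (2 * (2 * t)) -
      6 * rem f x L Q (fun _ _ _ => 0) h (2 * t) + 8 * rem f x L Q (fun _ _ _ => 0) h t := by
  unfold rem Lam3
  rw [tay_smul hL hQ isTri_zero, tay_smul hL hQ isTri_zero, tay_smul hL hQ isTri_zero]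
  have : (2 : ℝ) * (2 * t) = 4 * t := by ring
  rw [this]
  ring

theorem lam4_eq {f : X → ℝ} {x : X} {L : X → ℝ} {Q : X → X → ℝ} {C : X → X → X → ℝ} (hL : IsLin L)
    (hQ : IsBi Q) (hC : IsTri C)
    (h : X) (t : ℝ) : Lam4 f x h t = rem f x L Q C h (2 * (2 * (2 * t))) -
      14 * rem f x L Q C h (2 * (2 * t)) + 56 * rem f x L Q C h (2 * t) -
      64 * rem f x L Q C h t := by
  unfold rem Lam4
  rw [tay_smul hL hQ hC, tay_smul hL hQ hC, tay_smul hL hQ hC, tay_smul hL hQ hC]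
  have e1 : (2 : ℝ) * (2 * t) = 4 * t := by ring
  have e2 : (2 : ℝ) * (4 * t) = 8 * t := by ring
  rw [e1, e2]
  ring

theorem abs_two_mul' (t : ℝ) : |2 * t| = 2 * |t| := by
  rw [abs_mul]; norm_num

theorem peano_pos {R : ℝ → ℝ} {r : ℕ} {A t₀ : ℝ} (ht₀ : 0 < t₀)
    (h : ∀ t, |t| ≤ t₀ → |R t| ≤ A * |t| ^ r) : 0 ≤ A := by
  have h1 := h t₀ (by rw [abs_of_pos ht₀])
  have h2 : 0 ≤ A * |t₀| ^ r := (abs_nonneg _).trans h1
  have h3 : 0 < |t₀| ^ r := by have := abs_pos.2 ht₀.ne'; positivity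
  exact nonneg_of_mul_nonneg_left h2 h3

theorem lam3_bound {f : X → ℝ} {x : X} {L : X → ℝ} {Q : X → X → ℝ} (hL : IsLin L) (hQ : IsBi Q)
    (hp : HasPeano 3 f x L Q (fun _ _ _ => 0)) (h : X) :
    ∃ A t₀ : ℝ, 0 < t₀ ∧ ∀ t, |t| ≤ t₀ → |Lam3 f x h t| ≤ A * |t| ^ 3 := by
  obtain ⟨A, t₀, ht₀, hA⟩ := hp h
  refine ⟨120 * A, t₀ / 4, by linarith, fun t ht => ?_⟩
  have ht' := abs_nonneg t
  have h1 := hA t (by linarith)
  have h2 := hA (2 * t) (by rw [abs_two_mul']; linarith)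
  have h3 := hA (2 * (2 * t)) (by rw [abs_two_mul', abs_two_mul']; linarith)
  rw [abs_two_mul'] at h2
  rw [abs_two_mul', abs_two_mul'] at h3
  rw [lam3_eq hL hQ]
  change |rem f x L Q (fun _ _ _ => 0) h t| ≤ _ at h1
  change |rem f x L Q (fun _ _ _ => 0) h (2 * t)| ≤ _ at h2
  change |rem f x L Q (fun _ _ _ => 0) h (2 * (2 * t))| ≤ _ at h3
  rw [abs_le] at h1 h2 h3 ⊢
  constructor <;> linarith [h1.1, h1.2, h2.1, h2.2, h3.1, h3.2]

theorem lam4_bound {f : X → ℝ} {x : X} {L : X → ℝ} {Q : X → X → ℝ} {C : X → X → X → ℝ}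
    (hL : IsLin L) (hQ : IsBi Q) (hC : IsTri C)
    (hp : HasPeano 4 f x L Q C) (h : X) :
    ∃ A t₀ : ℝ, 0 < t₀ ∧ ∀ t, |t| ≤ t₀ → |Lam4 f x h t| ≤ A * |t| ^ 4 := by
  obtain ⟨A, t₀, ht₀, hA⟩ := hp h
  refine ⟨(4096 + 14 * 256 + 56 * 16 + 64) * A, t₀ / 8, by linarith, fun t ht => ?_⟩
  have ht' := abs_nonneg t
  have h1 := hA t (by linarith)
  have h2 := hA (2 * t) (by rw [abs_two_mul']; linarith)
  have h3 := hA (2 * (2 * t)) (by rw [abs_two_mul', abs_two_mul']; linarith)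
  have h4 := hA (2 * (2 * (2 * t))) (by rw [abs_two_mul', abs_two_mul', abs_two_mul']; linarith)
  rw [abs_two_mul'] at h2
  rw [abs_two_mul', abs_two_mul'] at h3
  rw [abs_two_mul', abs_two_mul', abs_two_mul'] at h4
  rw [lam4_eq hL hQ hC]
  change |rem f x L Q C h t| ≤ _ at h1
  change |rem f x L Q C h (2 * t)| ≤ _ at h2
  change |rem f x L Q C h (2 * (2 * t))| ≤ _ at h3
  change |rem f x L Q C h (2 * (2 * (2 * t)))| ≤ _ at h4
  rw [abs_le] at h1 h2 h3 h4 ⊢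
  constructor <;> linarith [h1.1, h1.2, h2.1, h2.2, h3.1, h3.2, h4.1, h4.2]

theorem lam3_inv {f : X → ℝ} {x : X} {L : X → ℝ} {Q : X → X → ℝ} (hL : IsLin L) (hQ : IsBi Q)
    (hp : HasPeano 3 f x L Q (fun _ _ _ => 0)) (h : X) {B τ : ℝ} (hτ : 0 < τ)
    (hB : ∀ t, |t| ≤ τ → |Lam3 f x h t| ≤ B * |t| ^ 3) :
    ∀ t, |t| ≤ τ → |f (x + t • h) - tay (f x) L Q (fun _ _ _ => 0) (t • h)| ≤ B * |t| ^ 3 := by
  obtain ⟨A, t₀, ht₀, hA⟩ := hp h
  have hB0 := peano_pos hτ hB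
  set R := rem f x L Q (fun _ _ _ => 0) h with hR
  have hA' : ∀ t, |t| ≤ t₀ → |R t| ≤ A * |t| ^ 3 := hA
  have hA0 := peano_pos ht₀ hA'
  have s1 : ∀ t, |t| ≤ 2 * τ → |R (2 * t) - 4 * R t| ≤ B / (2 ^ 3 - 2) * |t| ^ 3 := by
    refine inversion (W := fun t => R (2 * t) - 4 * R t) (r := 3) (s₀ := t₀ / 2) (M := 12 * A)
      (by norm_num) (by norm_num) hB0 (by linarith) (fun t ht => ?_) (fun t ht => ?_)
    · have h1 := hA' t (by have := abs_nonneg t; linarith)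
      have h2 := hA' (2 * t) (by rw [abs_two_mul']; linarith)
      rw [abs_two_mul'] at h2
      rw [abs_le] at h1 h2 ⊢
      constructor <;> linarith [h1.1, h1.2, h2.1, h2.2]
    · have h1 := hB t ht
      rw [lam3_eq hL hQ, ← hR] at h1
      refine le_trans (le_of_eq ?_) h1
      congr 1
      ring
  have s2 : ∀ t, |t| ≤ 2 * (2 * τ) → |R t| ≤ B / (2 ^ 3 - 2) / (2 ^ 3 - 4) * |t| ^ 3 :=
    inversion (by norm_num) (by norm_num) (div_nonneg hB0 (by norm_num)) ht₀ hA' s1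
  intro t ht
  have h1 := s2 t (by linarith)
  refine h1.trans (mul_le_mul_of_nonneg_right ?_ (by positivity))
  norm_num
  linarith

theorem lam4_inv {f : X → ℝ} {x : X} {L : X → ℝ} {Q : X → X → ℝ} {C : X → X → X → ℝ}
    (hL : IsLin L) (hQ : IsBi Q) (hC : IsTri C)
    (hp : HasPeano 4 f x L Q C) (h : X) {B τ : ℝ} (hτ : 0 < τ)
    (hB : ∀ t, |t| ≤ τ → |Lam4 f x h t| ≤ B * |t| ^ 4) :
    ∀ t, |t| ≤ τ → |f (x + t • h) - tay (f x) L Q C (t • h)| ≤ B * |t| ^ 4 := by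
  obtain ⟨A, t₀, ht₀, hA⟩ := hp h
  have hB0 := peano_pos hτ hB
  set R := rem f x L Q C h with hR
  have hA' : ∀ t, |t| ≤ t₀ → |R t| ≤ A * |t| ^ 4 := hA
  have hA0 := peano_pos ht₀ hA'
  have s1 : ∀ t, |t| ≤ 2 * τ → |R (2 * (2 * t)) - 12 * R (2 * t) + 32 * R t| ≤
      B / (2 ^ 4 - 2) * |t| ^ 4 := by
    refine inversion (W := fun t => R (2 * (2 * t)) - 12 * R (2 * t) + 32 * R t) (r := 4)
      (s₀ := t₀ / 4) (M := (256 + 12 * 16 + 32) * A)
      (by norm_num) (by norm_num) hB0 (by linarith) (fun t ht => ?_) (fun t ht => ?_)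
    · have h1 := hA' t (by have := abs_nonneg t; linarith)
      have h2 := hA' (2 * t) (by rw [abs_two_mul']; have := abs_nonneg t; linarith)
      have h3 := hA' (2 * (2 * t)) (by rw [abs_two_mul', abs_two_mul']; linarith)
      rw [abs_two_mul'] at h2
      rw [abs_two_mul', abs_two_mul'] at h3
      rw [abs_le] at h1 h2 h3 ⊢
      constructor <;> linarith [h1.1, h1.2, h2.1, h2.2, h3.1, h3.2]
    · have h1 := hB t ht
      rw [lam4_eq hL hQ hC, ← hR] at h1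
      refine le_trans (le_of_eq ?_) h1
      congr 1
      ring
  have s2 : ∀ t, |t| ≤ 2 * (2 * τ) → |R (2 * t) - 8 * R t| ≤
      B / (2 ^ 4 - 2) / (2 ^ 4 - 4) * |t| ^ 4 := by
    refine inversion (W := fun t => R (2 * t) - 8 * R t) (r := 4)
      (s₀ := t₀ / 2) (M := 24 * A)
      (by norm_num) (by norm_num) (div_nonneg hB0 (by norm_num)) (by linarith)
      (fun t ht => ?_) (fun t ht => ?_)
    · have h1 := hA' t (by have := abs_nonneg t; linarith)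
      have h2 := hA' (2 * t) (by rw [abs_two_mul']; linarith)
      rw [abs_two_mul'] at h2
      rw [abs_le] at h1 h2 ⊢
      constructor <;> linarith [h1.1, h1.2, h2.1, h2.2]
    · have h1 := s1 t ht
      refine le_trans (le_of_eq ?_) h1
      congr 1
      ring
  have s3 : ∀ t, |t| ≤ 2 * (2 * (2 * τ)) → |R t| ≤
      B / (2 ^ 4 - 2) / (2 ^ 4 - 4) / (2 ^ 4 - 8) * |t| ^ 4 :=
    inversion (by norm_num) (by norm_num)
      (div_nonneg (div_nonneg hB0 (by norm_num)) (by norm_num)) ht₀ hA' s2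
  intro t ht
  have h1 := s3 t (by linarith)
  refine h1.trans (mul_le_mul_of_nonneg_right ?_ (by positivity))
  norm_num
  linarith

/-- The Whitney type comparison of two Taylor polynomials with uniform remainders. -/
theorem whitney {r : ℕ} (f : X → ℝ) (h₁ : X) {ρ A t₀ : ℝ} (hρ : 0 < ρ) (ht₀ : 0 < t₀)
    (hA : 0 ≤ A) : ∃ W : ℝ, 0 ≤ W ∧ ∃ κ : ℝ, 0 < κ ∧ ∀ (x x' : X) (L L' : X → ℝ)
      (Q Q' : X → X → ℝ)
      (C C' : X → X → X → ℝ), IsLin L → IsLin L' → IsBi Q → IsBi Q' → IsTri C → IsTri C' →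
      (∀ h, ‖h - h₁‖ < ρ → ∀ t, |t| ≤ t₀ →
        |f (x + t • h) - tay (f x) L Q C (t • h)| ≤ A * |t| ^ (r + 2)) →
      (∀ h, ‖h - h₁‖ < ρ → ∀ t, |t| ≤ t₀ →
        |f (x' + t • h) - tay (f x') L' Q' C' (t • h)| ≤ A * |t| ^ (r + 2)) →
      x' ≠ x → ‖x' - x‖ ≤ κ → ∀ v,
        |L v + Q (x' - x) v + C (x' - x) (x' - x) v / 2 - L' v| ≤
          W * ‖x' - x‖ ^ (r + 1) * ‖v‖ ∧
        |Q v v + C (x' - x) v v - Q' v v| ≤ W * ‖x' - x‖ ^ r * ‖v‖ ^ 2 := by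
  obtain ⟨W₀, hW₀, hW⟩ := poly_bound (R := ρ / 2) (by linarith) h₁
  refine ⟨2 * W₀ * A * ((4 / ρ) ^ (r + 1) + (4 / ρ) ^ r), by positivity, ρ * t₀ / 4,
    by positivity, ?_⟩
  intro x x' L L' Q Q' C C' hL hL' hQ hQ' hC hC' hx hx' hne hk v
  set k := x' - x with hkdef
  have hk0 : 0 < ‖k‖ := norm_pos_iff.2 (sub_ne_zero.2 hne)
  set t : ℝ := 4 / ρ * ‖k‖ with htdef
  have ht : 0 < t := by positivity
  have htt : |t| ≤ t₀ := by
    rw [abs_of_pos ht, htdef, div_mul_eq_mul_div, div_le_iff₀ hρ]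
    linarith
  have hkt : ‖t⁻¹ • k‖ = ρ / 4 := by
    rw [norm_smul, norm_inv, Real.norm_of_nonneg ht.le, htdef]
    field_simp
  have key : ∀ u, ‖u - h₁‖ ≤ ρ / 2 → |tay (tay (f x) L Q C k - f x')
        (fun v => t * (L v + Q k v + C k k v / 2 - L' v))
        (fun v w => t ^ 2 * (Q v w + C k v w - Q' v w))
        (fun v w z => t ^ 3 * (C v w z - C' v w z)) u| ≤ 2 * A * t ^ (r + 2) := by
    intro u hu
    rw [← tay_shift hL hL' hQ hQ' hC hC']
    have h1 := hx' u (by linarith) t htt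
    have h2 := hx (u + t⁻¹ • k) (by
      have : u + t⁻¹ • k - h₁ = (u - h₁) + t⁻¹ • k := by abel
      rw [this]
      refine (norm_add_le _ _).trans_lt ?_
      rw [hkt]
      linarith) t htt
    have e1 : t • (u + t⁻¹ • k) = k + t • u := by
      rw [smul_add, smul_smul, mul_inv_cancel₀ ht.ne', one_smul, add_comm]
    have e2 : x + (k + t • u) = x' + t • u := by rw [hkdef]; abel
    rw [e1, e2] at h2
    rw [abs_of_pos ht] at h1 h2
    have h3 := abs_sub_le (tay (f x) L Q C (k + t • u)) (f (x' + t • u))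
      (tay (f x') L' Q' C' (t • u))
    rw [abs_sub_comm] at h2
    linarith
  have hL'' : IsLin (fun v => t * (L v + Q k v + C k k v / 2 - L' v)) := by
    constructor
    · intro u v
      simp only [hL.add, hL'.add, hQ.add', hC.add3]
      ring
    · intro c u
      simp only [hL.smul, hL'.smul, hQ.smul', hC.smul3]
      ring
  have hQ'' : IsBi (fun v w => t ^ 2 * (Q v w + C k v w - Q' v w)) := by
    constructor
    · intro u u' v
      simp only [hQ.add, hC.add2, hQ'.add]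
      ring
    · intro c u v
      simp only [hQ.smul, hC.smul2, hQ'.smul]
      ring
    · intro u v
      rw [hQ.symm, hQ'.symm, hC.symm]
  have hC'' : IsTri (fun v w z => t ^ 3 * (C v w z - C' v w z)) := by
    constructor
    · intro u u' v w
      simp only [hC.add, hC'.add]
      ring
    · intro c u v w
      simp only [hC.smul, hC'.smul]
      ring
    · intro u v w
      rw [hC.swap, hC'.swap]
    · intro u v w
      rw [hC.symm, hC'.symm]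
  obtain ⟨b1, b2⟩ := hW _ _ _ _ _ hL'' hQ'' hC'' key v
  have hv := norm_nonneg v
  have e4 : (4 / ρ) ^ (r + 1) * ‖k‖ ^ (r + 1) = t ^ (r + 1) := by rw [htdef, mul_pow]
  have e5 : (4 / ρ) ^ r * ‖k‖ ^ r = t ^ r := by rw [htdef, mul_pow]
  constructor
  · rw [abs_mul, abs_of_pos ht] at b1
    have h1 : t * |L v + Q k v + C k k v / 2 - L' v| ≤ t * (2 * W₀ * A * t ^ (r + 1) * ‖v‖) := by
      refine b1.trans (le_of_eq ?_)
      ring
    have h2 := le_of_mul_le_mul_left h1 ht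
    refine h2.trans ?_
    have h3 : 0 ≤ 2 * W₀ * A * (4 / ρ) ^ r * ‖k‖ ^ (r + 1) * ‖v‖ := by positivity
    calc 2 * W₀ * A * t ^ (r + 1) * ‖v‖ ≤ 2 * W₀ * A * t ^ (r + 1) * ‖v‖ +
          2 * W₀ * A * (4 / ρ) ^ r * ‖k‖ ^ (r + 1) * ‖v‖ := by linarith
      _ = _ := by rw [← e4]; ring
  · rw [abs_mul, abs_of_pos (by positivity : 0 < t ^ 2)] at b2
    have h1 : t ^ 2 * |Q v v + C k v v - Q' v v| ≤ t ^ 2 * (2 * W₀ * A * t ^ r * ‖v‖ ^ 2) := by
      refine b2.trans (le_of_eq ?_)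
      ring
    have h2 := le_of_mul_le_mul_left h1 (by positivity)
    refine h2.trans ?_
    have h3 : 0 ≤ 2 * W₀ * A * (4 / ρ) ^ (r + 1) * ‖k‖ ^ r * ‖v‖ ^ 2 := by positivity
    calc 2 * W₀ * A * t ^ r * ‖v‖ ^ 2 ≤ 2 * W₀ * A * t ^ r * ‖v‖ ^ 2 +
          2 * W₀ * A * (4 / ρ) ^ (r + 1) * ‖k‖ ^ r * ‖v‖ ^ 2 := by linarith
      _ = _ := by rw [← e5]; ring

end Pool.Agent.H72.GVar
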