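import Mathlib

set_option autoImplicit false

/-! Divergence-free holomorphic fields on `ℂ × ℂ` and the energy inequality. -/

namespace Pool.Agent.H72.PB

open MeasureTheory Set Filter Topology Complex Metric

noncomputable section

instance instHaar : (volume : Measure (ℂ × ℂ)).IsAddHaarMeasure :=
  inferInstanceAs (((volume : Measure ℂ).prod (volume : Measure ℂ)).IsAddHaarMeasure)

/-- Integrable with vanishing integral. -/
def ZInt (f : ℂ × ℂ → ℝ) : Prop := Integrable f ∧ ∫ p, f p = 0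

lemma ZInt.add {f g : ℂ × ℂ → ℝ} (hf : ZInt f) (hg : ZInt g) : ZInt (fun p => f p + g p) :=
  ⟨hf.1.add hg.1, by rw [integral_add hf.1 hg.1, hf.2, hg.2, add_zero]⟩

lemma ZInt.sub {f g : ℂ × ℂ → ℝ} (hf : ZInt f) (hg : ZInt g) : ZInt (fun p => f p - g p) :=
  ⟨hf.1.sub hg.1, by rw [integral_sub hf.1 hg.1, hf.2, hg.2, sub_zero]⟩

/-- The integral of a directional derivative of a compactly supported function vanishes. -/
lemma integral_fderiv_zero {F : ℂ × ℂ → ℝ} (hF : ContDiff ℝ 1 F) (hc : HasCompactSupport F)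
    (h : ℂ × ℂ) : ∫ p, fderiv ℝ F p h = 0 := by
  have h1 : Continuous (fun p => fderiv ℝ F p h) :=
    (hF.continuous_fderiv one_ne_zero).clm_apply continuous_const
  have h2 : HasCompactSupport (fun p => fderiv ℝ F p h) := hc.fderiv_apply (𝕜 := ℝ) h
  have h3 := integral_mul_fderiv_eq_neg_fderiv_mul_of_integrable (μ := (volume : Measure (ℂ × ℂ)))
    (f := fun _ : ℂ × ℂ => (1:ℝ)) (g := F) (v := h) (by simp)
    (by simpa using h1.integrable_of_hasCompactSupport h2)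
    (by simpa using hF.continuous.integrable_of_hasCompactSupport hc)
    (fun x _ => by fun_prop) (fun x _ => (hF.differentiable one_ne_zero) x)
  simpa using h3

/-- The derivative in the second variable. -/
def dW (P : ℂ × ℂ → ℂ) (p : ℂ × ℂ) : ℂ := fderiv ℂ P p (0, 1)

/-- The derivative in the first variable. -/
def dZ (P : ℂ × ℂ → ℂ) (p : ℂ × ℂ) : ℂ := fderiv ℂ P p (1, 0)

/-- The Hamiltonian field of `P`. -/
def ham (P : ℂ × ℂ → ℂ) (p : ℂ × ℂ) : ℂ × ℂ := (dW P p, - dZ P p)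

lemma dW_contDiff {P : ℂ × ℂ → ℂ} (hP : ContDiff ℂ 2 P) : ContDiff ℂ 1 (dW P) :=
  (hP.fderiv_right (m := 1) (by norm_num)).clm_apply contDiff_const

lemma dZ_contDiff {P : ℂ × ℂ → ℂ} (hP : ContDiff ℂ 2 P) : ContDiff ℂ 1 (dZ P) :=
  (hP.fderiv_right (m := 1) (by norm_num)).clm_apply contDiff_const

lemma ham_contDiff {P : ℂ × ℂ → ℂ} (hP : ContDiff ℂ 2 P) : ContDiff ℂ 1 (ham P) :=
  (dW_contDiff hP).prodMk (dZ_contDiff hP).neg

lemma fderiv_ham_self {P : ℂ × ℂ → ℂ} (p : ℂ × ℂ) : fderiv ℂ P p (ham P p) = 0 := by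
  have h1 : ham P p = (dW P p) • ((1:ℂ), (0:ℂ)) + (- dZ P p) • ((0:ℂ), (1:ℂ)) := by
    simp [ham]
  rw [h1, map_add, map_smul, map_smul]
  simp only [dW, dZ, smul_eq_mul]
  ring

lemma cross_symm {P : ℂ × ℂ → ℂ} (hP : ContDiff ℂ 2 P) (p : ℂ × ℂ) :
    fderiv ℂ (dW P) p (1, 0) = fderiv ℂ (dZ P) p (0, 1) := by
  have hd : DifferentiableAt ℂ (fderiv ℂ P) p :=
    ((hP.fderiv_right (m := 1) (by norm_num)).differentiable one_ne_zero) p
  have h1 : fderiv ℂ (dW P) p (1, 0) = fderiv ℂ (fderiv ℂ P) p (1, 0) (0, 1) := by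
    unfold dW
    rw [fderiv_clm_apply hd (by fun_prop)]
    simp
  have h2 : fderiv ℂ (dZ P) p (0, 1) = fderiv ℂ (fderiv ℂ P) p (0, 1) (1, 0) := by
    unfold dZ
    rw [fderiv_clm_apply hd (by fun_prop)]
    simp
  rw [h1, h2]
  exact (hP.contDiffAt.isSymmSndFDerivAt (by simp)).eq _ _

/-- Real coordinates of a real linear functional on `ℂ × ℂ`. -/
lemma clm_expand (L : ℂ × ℂ →L[ℝ] ℝ) (a b : ℂ) :
    L (a, b) = a.re * L (1, 0) + a.im * L (I, 0) + b.re * L (0, 1) + b.im * L (0, I) := by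
  have h1 : ((a, b) : ℂ × ℂ) = a.re • ((1:ℂ), (0:ℂ)) + a.im • ((I:ℂ), (0:ℂ)) +
      b.re • ((0:ℂ), (1:ℂ)) + b.im • ((0:ℂ), (I:ℂ)) := by
    ext <;> simp
  rw [h1, map_add, map_add, map_add, map_smul, map_smul, map_smul, map_smul]
  simp only [smul_eq_mul]

lemma fderiv_re {P : ℂ × ℂ → ℂ} {p : ℂ × ℂ} (hP : DifferentiableAt ℂ P p) (h : ℂ × ℂ) :
    fderiv ℝ (fun q => (P q).re) p h = (fderiv ℂ P p h).re := by
  have h1 : HasFDerivAt P ((fderiv ℂ P p).restrictScalars ℝ) p := hP.hasFDerivAt.restrictScalars ℝ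
  have h2 : HasFDerivAt (fun q => (P q).re) (Complex.reCLM.comp ((fderiv ℂ P p).restrictScalars ℝ)) p :=
    Complex.reCLM.hasFDerivAt.comp p h1
  rw [h2.fderiv]
  rfl

lemma fderiv_im {P : ℂ × ℂ → ℂ} {p : ℂ × ℂ} (hP : DifferentiableAt ℂ P p) (h : ℂ × ℂ) :
    fderiv ℝ (fun q => (P q).im) p h = (fderiv ℂ P p h).im := by
  have h1 : HasFDerivAt P ((fderiv ℂ P p).restrictScalars ℝ) p := hP.hasFDerivAt.restrictScalars ℝ
  have h2 : HasFDerivAt (fun q => (P q).im) (Complex.imCLM.comp ((fderiv ℂ P p).restrictScalars ℝ)) p :=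
    Complex.imCLM.hasFDerivAt.comp p h1
  rw [h2.fderiv]
  rfl

lemma fderiv_I {P : ℂ × ℂ → ℂ} (p : ℂ × ℂ) :
    fderiv ℂ P p (I, 0) = I * fderiv ℂ P p (1, 0) ∧ fderiv ℂ P p (0, I) = I * fderiv ℂ P p (0, 1) := by
  constructor
  · have : ((I:ℂ), (0:ℂ)) = I • ((1:ℂ), (0:ℂ)) := by simp
    rw [this, map_smul, smul_eq_mul]
  · have : ((0:ℂ), (I:ℂ)) = I • ((0:ℂ), (1:ℂ)) := by simp
    rw [this, map_smul, smul_eq_mul]

/-- The Hamiltonian field is divergence free (real part). -/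
lemma integral_ham {P : ℂ × ℂ → ℂ} (hP : ContDiff ℂ 2 P) {g : ℂ × ℂ → ℝ} (hg : ContDiff ℝ 1 g)
    (hc : HasCompactSupport g) :
    ∫ p, fderiv ℝ g p (ham P p) = 0 ∧ ∫ p, fderiv ℝ g p (I • ham P p) = 0 := by
  have hW := dW_contDiff hP
  have hZ := dZ_contDiff hP
  have hWr : ContDiff ℝ 1 (dW P) := hW.restrict_scalars ℝ
  have hZr : ContDiff ℝ 1 (dZ P) := hZ.restrict_scalars ℝ
  have hre : ∀ {f : ℂ × ℂ → ℂ}, ContDiff ℝ 1 f → ContDiff ℝ 1 (fun q => (f q).re) :=
    fun hf => Complex.reCLM.contDiff.comp hf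
  have him : ∀ {f : ℂ × ℂ → ℂ}, ContDiff ℝ 1 f → ContDiff ℝ 1 (fun q => (f q).im) :=
    fun hf => Complex.imCLM.contDiff.comp hf
  have key : ∀ {f : ℂ × ℂ → ℝ}, ContDiff ℝ 1 f → ∀ h : ℂ × ℂ,
      ZInt (fun p => fderiv ℝ g p h * f p + g p * fderiv ℝ f p h) := by
    intro f hf h
    have h1 : ContDiff ℝ 1 (fun p => g p * f p) := hg.mul hf
    have h2 : HasCompactSupport (fun p => g p * f p) := hc.mul_right
    have h3 : (fun p => fderiv ℝ (fun p => g p * f p) p h) =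
        fun p => fderiv ℝ g p h * f p + g p * fderiv ℝ f p h := by
      funext p
      have h4 : HasFDerivAt (fun p => g p * f p) (g p • fderiv ℝ f p + f p • fderiv ℝ g p) p :=
        ((hg.differentiable one_ne_zero) p).hasFDerivAt.mul ((hf.differentiable one_ne_zero) p).hasFDerivAt
      rw [h4.fderiv]
      simp only [_root_.add_apply, _root_.smul_apply, smul_eq_mul]
      ring
    constructor
    · rw [← h3]
      exact ((h1.continuous_fderiv one_ne_zero).clm_apply continuous_const).integrable_of_hasCompactSupport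
        (h2.fderiv_apply (𝕜 := ℝ) h)
    · rw [← h3]
      exact integral_fderiv_zero h1 h2 h
  have hWd := fun p => (hW.differentiable one_ne_zero) p
  have hZd := fun p => (hZ.differentiable one_ne_zero) p
  constructor
  · have h5 : ∀ p, fderiv ℝ g p (ham P p) =
        (fderiv ℝ g p (1, 0) * (dW P p).re + g p * fderiv ℝ (fun q => (dW P q).re) p (1, 0)) +
        (fderiv ℝ g p (I, 0) * (dW P p).im + g p * fderiv ℝ (fun q => (dW P q).im) p (I, 0)) -
        (fderiv ℝ g p (0, 1) * (dZ P p).re + g p * fderiv ℝ (fun q => (dZ P q).re) p (0, 1)) -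
        (fderiv ℝ g p (0, I) * (dZ P p).im + g p * fderiv ℝ (fun q => (dZ P q).im) p (0, I)) := by
      intro p
      rw [ham, clm_expand, fderiv_re (hWd p), fderiv_im (hWd p), fderiv_re (hZd p), fderiv_im (hZd p),
        (fderiv_I (P := dW P) p).1, (fderiv_I (P := dZ P) p).2, cross_symm hP p]
      simp [Complex.mul_im]
      ring
    simp_rw [h5]
    exact ((((key (hre hWr) (1, 0)).add (key (him hWr) (I, 0))).sub (key (hre hZr) (0, 1))).sub
      (key (him hZr) (0, I))).2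
  · have h5 : ∀ p, fderiv ℝ g p (I • ham P p) =
        (fderiv ℝ g p (I, 0) * (dW P p).re + g p * fderiv ℝ (fun q => (dW P q).re) p (I, 0)) -
        (fderiv ℝ g p (1, 0) * (dW P p).im + g p * fderiv ℝ (fun q => (dW P q).im) p (1, 0)) -
        (fderiv ℝ g p (0, I) * (dZ P p).re + g p * fderiv ℝ (fun q => (dZ P q).re) p (0, I)) +
        (fderiv ℝ g p (0, 1) * (dZ P p).im + g p * fderiv ℝ (fun q => (dZ P q).im) p (0, 1)) := by
      intro p
      have h6 : I • ham P p = (I * dW P p, - (I * dZ P p)) := by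
        simp [ham]
      rw [h6, clm_expand, fderiv_re (hWd p), fderiv_im (hWd p), fderiv_re (hZd p), fderiv_im (hZd p),
        (fderiv_I (P := dW P) p).1, (fderiv_I (P := dZ P) p).2, cross_symm hP p]
      simp [Complex.mul_im, Complex.mul_re]
      ring
    simp_rw [h5]
    exact ((((key (hre hWr) (I, 0)).sub (key (him hWr) (1, 0))).sub (key (hre hZr) (0, I))).add
      (key (him hZr) (0, 1))).2

end

end Pool.Agent.H72.PB
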