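import Pool.Agent.H72.PB9

set_option autoImplicit false

/-! The sequence of polynomials and the domain. -/

namespace Pool.Agent.H72.PB

open MeasureTheory Set Filter Topology Complex Metric Polynomial
open scoped ENNReal

noncomputable section

lemma MonW.degZ {P : ℂ × ℂ → ℂ} (hP : MonW P) : DegZ (P ∘ Prod.swap) := by
  obtain ⟨m, c, q, hm, hc, hq, hqc, hPq⟩ := hP
  exact ⟨m, q, fun w => (hq w).1.le, hqc, fun z w => hPq w z⟩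

lemma dZ_swap {P : ℂ × ℂ → ℂ} (hP : ContDiff ℂ 2 P) (p : ℂ × ℂ) :
    dZ (P ∘ Prod.swap) p = dW P p.swap ∧ dW (P ∘ Prod.swap) p = dZ P p.swap := by
  have e1 : HasFDerivAt (Prod.swap : ℂ × ℂ → ℂ × ℂ)
      ((ContinuousLinearMap.snd ℂ ℂ ℂ).prod (ContinuousLinearMap.fst ℂ ℂ ℂ)) p :=
    hasFDerivAt_snd.prodMk hasFDerivAt_fst
  have e2 : HasFDerivAt (P ∘ Prod.swap) _ p :=
    HasFDerivAt.comp p ((hP.differentiable two_ne_zero) p.swap).hasFDerivAt e1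
  constructor
  · rw [dZ, e2.fderiv, dW]
    rfl
  · rw [dW, e2.fderiv, dZ]
    rfl

lemma volume_swap {S : Set (ℂ × ℂ)} (hS : MeasurableSet S) :
    volume (Prod.swap ⁻¹' S) = volume S :=
  (Measure.measurePreserving_swap (μ := (volume : Measure ℂ)) (ν := (volume : Measure ℂ))).measure_preimage
    hS.nullMeasurableSet

/-- The properties kept in the recursion. -/
def Good (P : ℂ × ℂ → ℂ) : Prop := ContDiff ℂ 2 P ∧ MonW P ∧ MonW (P ∘ Prod.swap)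

/-- The closed truncated sublevel set. -/
def KK (P : ℂ × ℂ → ℂ) (R : ℝ) : Set (ℂ × ℂ) := {p | ‖p.1‖ ≤ R ∧ ‖p.2‖ ≤ R ∧ ‖P p‖ ≤ 1}

/-- The open truncated sublevel set. -/
def DD (P : ℂ × ℂ → ℂ) (R : ℝ) : Set (ℂ × ℂ) := {p | ‖p.1‖ < R ∧ ‖p.2‖ < R ∧ ‖P p‖ < 1}

/-- Closeness of the Hamiltonian field to a constant one: horizontal or vertical. -/
def Close (k : ℕ) (P : ℂ × ℂ → ℂ) (η : ℝ) (p : ℂ × ℂ) : Prop :=
  (Even k → ‖dZ P p - (η : ℂ)‖ ≤ (1 / ((k:ℝ) + 1)) * η ∧ ‖dW P p‖ ≤ (1 / ((k:ℝ) + 1)) * η) ∧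
  (¬ Even k → ‖dW P p - (η : ℂ)‖ ≤ (1 / ((k:ℝ) + 1)) * η ∧ ‖dZ P p‖ ≤ (1 / ((k:ℝ) + 1)) * η)

/-- The relation between consecutive stages. -/
def Rel (k : ℕ) (P : ℂ × ℂ → ℂ) (R : ℝ) (P' : ℂ × ℂ → ℂ) (R' η : ℝ) (ψ : ℂ × ℂ → ℝ) : Prop :=
  0 < η ∧ 2 * R ≤ R' ∧ (∀ p ∈ KK P R, ‖P' p‖ ≤ 1 / 2 ∧ Close k P' η p ∧ ψ p = 1) ∧
  ContDiff ℝ 1 ψ ∧ HasCompactSupport ψ ∧ tsupport ψ ⊆ DD P' R' ∧
  ∫ p, ((fderiv ℝ ψ p (ham P' p)) ^ 2 + (fderiv ℝ ψ p (I • ham P' p)) ^ 2) ≤ η ^ 2 / ((k:ℝ) + 1) ^ 2 ∧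
  volume {p : ℂ × ℂ | ‖P' p‖ ≤ 1} ≤ volume {p : ℂ × ℂ | ‖P p‖ ≤ 1} + ENNReal.ofReal ((1 / 2) ^ k)

lemma exists_next (k : ℕ) {P : ℂ × ℂ → ℂ} (hP : Good P) {R : ℝ} (hR : 1 ≤ R) :
    ∃ (P' : ℂ × ℂ → ℂ) (R' η : ℝ) (ψ : ℂ × ℂ → ℝ), Good P' ∧ 1 ≤ R' ∧ Rel k P R P' R' η ψ := by
  obtain ⟨η, P', hη, hG, hcl, hv⟩ : ∃ (η : ℝ) (P' : ℂ × ℂ → ℂ), 0 < η ∧ Good P' ∧
      (∀ p ∈ KK P R, ‖P' p‖ ≤ 1 / 2 ∧ Close k P' η p) ∧
      volume {p : ℂ × ℂ | ‖P' p‖ ≤ 1} ≤ volume {p : ℂ × ℂ | ‖P p‖ ≤ 1} + ENNReal.ofReal ((1 / 2) ^ k) := by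
    have hβ : (0:ℝ) < 1 / ((k:ℝ) + 1) := by positivity
    have hε : (0:ℝ) < (1 / 2) ^ k := by positivity
    by_cases hk : Even k
    · have hD : DegZ P := by
        have := hP.2.2.degZ
        have e : (P ∘ Prod.swap) ∘ Prod.swap = P := by
          funext p; simp
        rwa [e] at this
      obtain ⟨η, P', h1, h2, h3, h4, h5, h6⟩ := step hP.1 hP.2.1 hD hR hε hβ
      refine ⟨η, P', h1, ⟨h2, h3, h4⟩, ?_, ?_⟩
      · intro p hp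
        obtain ⟨e1, e2, e3⟩ := h5 p hp.1 hp.2.1 hp.2.2
        exact ⟨e1, fun _ => ⟨e2, e3⟩, fun h => absurd hk h⟩
      · refine h6.trans ?_
        gcongr
        intro h
        exact h.2
    · have hQ : ContDiff ℂ 2 (P ∘ Prod.swap) := hP.1.comp (contDiff_snd.prodMk contDiff_fst)
      obtain ⟨η, P1, h1, h2, h3, h4, h5, h6⟩ := step hQ hP.2.2 hP.2.1.degZ hR hε hβ
      have e : (P1 ∘ Prod.swap) ∘ Prod.swap = P1 := by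
        funext p; simp
      refine ⟨η, P1 ∘ Prod.swap, h1, ⟨h2.comp (contDiff_snd.prodMk contDiff_fst), h4, by rw [e]; exact h3⟩,
        ?_, ?_⟩
      · intro p hp
        obtain ⟨e1, e2, e3⟩ := h5 p.swap hp.2.1 hp.1 (by simpa using hp.2.2)
        refine ⟨e1, fun h => absurd h hk, fun _ => ?_⟩
        rw [(dZ_swap h2 p).1, (dZ_swap h2 p).2]
        exact ⟨e2, e3⟩
      · have m1 : MeasurableSet {p : ℂ × ℂ | ‖P1 p‖ ≤ 1} :=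
          (isClosed_le h2.continuous.norm continuous_const).measurableSet
        have m2 : MeasurableSet {p : ℂ × ℂ | ‖P p‖ ≤ 1} :=
          (isClosed_le hP.1.continuous.norm continuous_const).measurableSet
        have v1 : volume {p : ℂ × ℂ | ‖(P1 ∘ Prod.swap) p‖ ≤ 1} = volume {p : ℂ × ℂ | ‖P1 p‖ ≤ 1} :=
          volume_swap m1
        have v2 : volume {p : ℂ × ℂ | ‖(P ∘ Prod.swap) p‖ ≤ 1} = volume {p : ℂ × ℂ | ‖P p‖ ≤ 1} :=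
          volume_swap m2
        rw [v1]
        refine h6.trans ?_
        rw [← v2]
        gcongr
        intro h
        exact h.2
  obtain ⟨ψ, p1, p2, p3, p4, p5⟩ := exists_psi hG.1 hG.2.1 R (ε := η ^ 2 / ((k:ℝ) + 1) ^ 2) (by positivity)
  obtain ⟨S, hS⟩ := p2.isCompact.isBounded.subset_closedBall (0 : ℂ × ℂ)
  refine ⟨P', max (2 * R) (S + 1), η, ψ, hG, ?_, hη, le_max_left _ _, ?_, p1, p2, ?_, p5, hv⟩
  · exact le_trans (by linarith) (le_max_left _ _)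
  · intro p hp
    obtain ⟨c1, c2⟩ := hcl p hp
    exact ⟨c1, c2, p4 p hp.1 c1⟩
  · intro p hp
    have h1 := hS hp
    rw [mem_closedBall, dist_zero_right] at h1
    have h2 : ‖p.1‖ ≤ ‖p‖ := norm_fst_le p
    have h3 : ‖p.2‖ ≤ ‖p‖ := norm_snd_le p
    have h4 : S + 1 ≤ max (2 * R) (S + 1) := le_max_right _ _
    exact ⟨by linarith, by linarith, p3 p hp⟩

/-- The first polynomial. -/
lemma exists_base : ∃ P : ℂ × ℂ → ℂ, Good P ∧ ‖P (0, 0)‖ < 1 ∧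
    volume {p : ℂ × ℂ | ‖P p‖ ≤ 1} < ∞ := by
  have hQ : ContDiff ℂ 2 (fun p : ℂ × ℂ => p.2) := contDiff_snd
  have hM : MonW (fun p : ℂ × ℂ => p.2) :=
    ⟨1, 1, fun _ => X, le_rfl, one_ne_zero, fun _ => ⟨natDegree_X, leadingCoeff_X⟩,
      contCoeff_const _, fun z w => by simp⟩
  have hD : DegZ (fun p : ℂ × ℂ => p.2) :=
    ⟨0, fun w => C w, fun w => (natDegree_C w).le, contCoeff_C continuous_id, fun z w => by simp⟩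
  obtain ⟨η, P, h1, h2, h3, h4, h5, h6⟩ := step hQ hM hD le_rfl one_pos one_pos
  refine ⟨P, ⟨h2, h3, h4⟩, ?_, ?_⟩
  · have := (h5 (0, 0) (by simp) (by simp) (by simp)).1
    linarith
  · exact h6.trans_lt (ENNReal.add_lt_top.mpr ⟨hM.finvol hQ.continuous _ _, ENNReal.ofReal_lt_top⟩)

/-- The sequence. -/
theorem exists_seq : ∃ (P : ℕ → ℂ × ℂ → ℂ) (R η : ℕ → ℝ) (ψ : ℕ → ℂ × ℂ → ℝ),
    (∀ k, Good (P k)) ∧ (∀ k, 1 ≤ R k) ∧ ‖P 0 (0, 0)‖ < 1 ∧ volume {p : ℂ × ℂ | ‖P 0 p‖ ≤ 1} < ∞ ∧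
    ∀ k, Rel k (P k) (R k) (P (k + 1)) (R (k + 1)) (η k) (ψ k) := by
  obtain ⟨P0, hP0, hP00, hv0⟩ := exists_base
  let St := {s : (ℂ × ℂ → ℂ) × ℝ // Good s.1 ∧ 1 ≤ s.2}
  have hnext : ∀ (k : ℕ) (s : St), ∃ (s' : St) (η : ℝ) (ψ : ℂ × ℂ → ℝ),
      Rel k s.1.1 s.1.2 s'.1.1 s'.1.2 η ψ := by
    intro k s
    obtain ⟨P', R', η, ψ, h1, h2, h3⟩ := exists_next k s.2.1 s.2.2
    exact ⟨⟨(P', R'), h1, h2⟩, η, ψ, h3⟩
  choose nx ηf ψf hrel using hnext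
  let st : ℕ → St := fun k => Nat.rec ⟨(P0, 1), hP0, le_rfl⟩ (fun k s => nx k s) k
  refine ⟨fun k => (st k).1.1, fun k => (st k).1.2, fun k => ηf k (st k), fun k => ψf k (st k),
    fun k => (st k).2.1, fun k => (st k).2.2, hP00, hv0, fun k => ?_⟩
  exact hrel k (st k)

end

end Pool.Agent.H72.PB
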