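import Pool.Agent.H72.PB10

set_option autoImplicit false

/-! The domain, its volume and its exhaustion function. -/

namespace Pool.Agent.H72.PB

open MeasureTheory Set Filter Topology Complex Metric Polynomial
open scoped ENNReal

noncomputable section

/-- The data of the construction. -/
structure Tower where
  P : ℕ → ℂ × ℂ → ℂ
  R : ℕ → ℝ
  η : ℕ → ℝ
  ψ : ℕ → ℂ × ℂ → ℝ
  good : ∀ k, Good (P k)
  one_le : ∀ k, 1 ≤ R k
  base : ‖P 0 (0, 0)‖ < 1
  vol : volume {p : ℂ × ℂ | ‖P 0 p‖ ≤ 1} < ∞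
  rel : ∀ k, Rel k (P k) (R k) (P (k + 1)) (R (k + 1)) (η k) (ψ k)

theorem exists_tower : Nonempty Tower := by
  obtain ⟨P, R, η, ψ, h1, h2, h3, h4, h5⟩ := exists_seq
  exact ⟨⟨P, R, η, ψ, h1, h2, h3, h4, h5⟩⟩

namespace Tower

variable (T : Tower)

/-- The open pieces. -/
def D (k : ℕ) : Set (ℂ × ℂ) := DD (T.P k) (T.R k)

/-- The closed pieces. -/
def K (k : ℕ) : Set (ℂ × ℂ) := KK (T.P k) (T.R k)

/-- The union. -/
def Om : Set (ℂ × ℂ) := ⋃ k, T.D k

lemma P_cont (k : ℕ) : Continuous (T.P k) := (T.good k).1.continuous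

lemma isOpen_D (k : ℕ) : IsOpen (T.D k) :=
  (isOpen_lt continuous_fst.norm continuous_const).inter
    ((isOpen_lt continuous_snd.norm continuous_const).inter (isOpen_lt (T.P_cont k).norm continuous_const))

lemma isClosed_K (k : ℕ) : IsClosed (T.K k) :=
  (isClosed_le continuous_fst.norm continuous_const).inter
    ((isClosed_le continuous_snd.norm continuous_const).inter (isClosed_le (T.P_cont k).norm continuous_const))

lemma isCompact_K (k : ℕ) : IsCompact (T.K k) := by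
  apply IsCompact.of_isClosed_subset ((isCompact_closedBall (0:ℂ) (T.R k)).prod
    (isCompact_closedBall (0:ℂ) (T.R k))) (T.isClosed_K k)
  intro p hp
  exact ⟨by simpa using hp.1, by simpa using hp.2.1⟩

lemma D_subset_K (k : ℕ) : T.D k ⊆ T.K k := fun _ hp => ⟨hp.1.le, hp.2.1.le, hp.2.2.le⟩

lemma K_subset_D (k : ℕ) : T.K k ⊆ T.D (k + 1) := by
  intro p hp
  have h1 := (T.rel k).2.1
  have h2 := ((T.rel k).2.2.1 p hp).1
  have h3 := T.one_le k
  exact ⟨by have := hp.1; linarith, by have := hp.2.1; linarith, by linarith⟩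

lemma D_mono : Monotone T.D :=
  monotone_nat_of_le_succ (fun k => (T.D_subset_K k).trans (T.K_subset_D k))

lemma isOpen_Om : IsOpen T.Om := isOpen_iUnion T.isOpen_D

lemma D_subset_Om (k : ℕ) : T.D k ⊆ T.Om := subset_iUnion _ _

lemma exists_D {L : Set (ℂ × ℂ)} (hL : IsCompact L) (hLO : L ⊆ T.Om) : ∃ k, L ⊆ T.D k := by
  obtain ⟨k, hk⟩ := hL.elim_directed_cover T.D T.isOpen_D hLO T.D_mono.directed_le
  exact ⟨k, hk⟩

lemma zero_mem : ((0, 0) : ℂ × ℂ) ∈ T.Om := by
  apply T.D_subset_Om 0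
  have := T.one_le 0
  exact ⟨by simpa using (by linarith : (0:ℝ) < T.R 0), by simpa using (by linarith : (0:ℝ) < T.R 0), T.base⟩

lemma vol_le (k : ℕ) : volume {p : ℂ × ℂ | ‖T.P k p‖ ≤ 1} ≤
    volume {p : ℂ × ℂ | ‖T.P 0 p‖ ≤ 1} + ENNReal.ofReal (∑ i ∈ Finset.range k, ((1:ℝ) / 2) ^ i) := by
  induction k with
  | zero => simp
  | succ k ih =>
    refine (T.rel k).2.2.2.2.2.2.2.trans ?_
    rw [Finset.sum_range_succ, ENNReal.ofReal_add (Finset.sum_nonneg (fun i _ => by positivity)) (by positivity),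
      ← add_assoc]
    gcongr

theorem vol_Om : volume T.Om < ∞ := by
  have h1 : volume T.Om = ⨆ k, volume (T.D k) := T.D_mono.measure_iUnion
  rw [h1]
  have h2 : ∀ k, volume (T.D k) ≤ volume {p : ℂ × ℂ | ‖T.P 0 p‖ ≤ 1} + ENNReal.ofReal 2 := by
    intro k
    calc volume (T.D k) ≤ volume {p : ℂ × ℂ | ‖T.P k p‖ ≤ 1} := measure_mono (fun p hp => hp.2.2.le)
      _ ≤ _ := T.vol_le k
      _ ≤ _ := by
        gcongr
        exact sum_geometric_two_le k
  exact (iSup_le h2).trans_lt (ENNReal.add_lt_top.mpr ⟨T.vol, ENNReal.ofReal_lt_top⟩)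

end Tower

/-! ### Sub-mean functions -/

/-- Continuous functions with the sub-mean value property on all affine discs. -/
def SM (g : ℂ × ℂ → ℝ) : Prop := Continuous g ∧ ∀ a b : ℂ × ℂ,
  g a ≤ (1 / (2 * Real.pi)) * ∫ θ in (0:ℝ)..(2 * Real.pi), g (a + Complex.exp ((θ : ℂ) * Complex.I) • b)

lemma circ_cont {g : ℂ × ℂ → ℝ} (hg : Continuous g) (a b : ℂ × ℂ) :
    Continuous (fun θ : ℝ => g (a + Complex.exp ((θ : ℂ) * Complex.I) • b)) := by
  apply hg.comp
  fun_prop

lemma SM.const (c : ℝ) : SM (fun _ => c) := by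
  refine ⟨continuous_const, fun a b => ?_⟩
  rw [intervalIntegral.integral_const, smul_eq_mul, sub_zero]
  apply le_of_eq
  have := Real.pi_pos
  field_simp

lemma SM.add {g h : ℂ × ℂ → ℝ} (hg : SM g) (hh : SM h) : SM (fun p => g p + h p) := by
  refine ⟨hg.1.add hh.1, fun a b => ?_⟩
  rw [intervalIntegral.integral_add ((circ_cont hg.1 a b).intervalIntegrable _ _)
    ((circ_cont hh.1 a b).intervalIntegrable _ _), mul_add]
  exact add_le_add (hg.2 a b) (hh.2 a b)

lemma SM.mul {g : ℂ × ℂ → ℝ} (hg : SM g) {c : ℝ} (hc : 0 ≤ c) : SM (fun p => c * g p) := by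
  refine ⟨continuous_const.mul hg.1, fun a b => ?_⟩
  rw [intervalIntegral.integral_const_mul, mul_left_comm]
  exact mul_le_mul_of_nonneg_left (hg.2 a b) hc

lemma SM.sup {g h : ℂ × ℂ → ℝ} (hg : SM g) (hh : SM h) : SM (fun p => max (g p) (h p)) := by
  have hc : Continuous (fun p => max (g p) (h p)) := hg.1.max hh.1
  have hpi := Real.pi_pos
  refine ⟨hc, fun a b => max_le ?_ ?_⟩
  · refine (hg.2 a b).trans ?_
    apply mul_le_mul_of_nonneg_left _ (by positivity)
    apply intervalIntegral.integral_mono_on (by positivity) ((circ_cont hg.1 a b).intervalIntegrable _ _)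
      ((circ_cont hc a b).intervalIntegrable _ _)
    intro θ _
    exact le_max_left _ _
  · refine (hh.2 a b).trans ?_
    apply mul_le_mul_of_nonneg_left _ (by positivity)
    apply intervalIntegral.integral_mono_on (by positivity) ((circ_cont hh.1 a b).intervalIntegrable _ _)
      ((circ_cont hc a b).intervalIntegrable _ _)
    intro θ _
    exact le_max_right _ _

lemma SM.norm {F : ℂ × ℂ → ℂ} (hF : Differentiable ℂ F) : SM (fun p => ‖F p‖) := by
  have hpi := Real.pi_pos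
  refine ⟨hF.continuous.norm, fun a b => ?_⟩
  have hd : Differentiable ℂ (fun ζ : ℂ => F (a + ζ • b)) := by
    apply hF.comp
    fun_prop
  have h1 : Real.circleAverage (fun ζ : ℂ => F (a + ζ • b)) 0 1 = F (a + (0:ℂ) • b) :=
    (hd.diffContOnCl (s := ball (0:ℂ) |1|)).circleAverage
  rw [zero_smul, add_zero, Real.circleAverage_def] at h1
  have h2 : ∀ θ : ℝ, circleMap 0 1 θ = Complex.exp ((θ : ℂ) * Complex.I) := by
    intro θ; simp [circleMap]
  simp_rw [h2] at h1
  calc ‖F a‖ = ‖(2 * Real.pi)⁻¹ • ∫ θ in (0:ℝ)..(2 * Real.pi), F (a + Complex.exp ((θ : ℂ) * Complex.I) • b)‖ := by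
        rw [h1]
    _ = (1 / (2 * Real.pi)) * ‖∫ θ in (0:ℝ)..(2 * Real.pi), F (a + Complex.exp ((θ : ℂ) * Complex.I) • b)‖ := by
        rw [norm_smul, Real.norm_eq_abs, abs_of_pos (by positivity), one_div]
    _ ≤ _ := by
        apply mul_le_mul_of_nonneg_left _ (by positivity)
        exact intervalIntegral.norm_integral_le_integral_norm (by positivity)

lemma SM.sum {ι : Type*} (s : Finset ι) {g : ι → ℂ × ℂ → ℝ} (hg : ∀ i ∈ s, SM (g i)) :
    SM (fun p => ∑ i ∈ s, g i p) := by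
  classical
  induction s using Finset.induction_on with
  | empty => simpa using SM.const 0
  | insert i s hi ih =>
    simp_rw [Finset.sum_insert hi]
    exact (hg i (Finset.mem_insert_self _ _)).add (ih (fun j hj => hg j (Finset.mem_insert_of_mem hj)))

namespace Tower

variable (T : Tower)

/-- The building blocks of the exhaustion function. -/
def vv (k : ℕ) (p : ℂ × ℂ) : ℝ :=
  max (‖T.P (k + 1) p‖ + (-(1 / 2))) (max ((T.R (k + 1))⁻¹ * ‖p.1‖ + (-(1 / 2)))
    ((T.R (k + 1))⁻¹ * ‖p.2‖ + (-(1 / 2))))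

/-- The terms of the exhaustion function. -/
def gg (k : ℕ) (p : ℂ × ℂ) : ℝ := (2 * ((k:ℝ) + 1)) * max 0 (T.vv k p)

lemma gg_SM (k : ℕ) : SM (T.gg k) := by
  have hR : 0 < T.R (k + 1) := by have := T.one_le (k + 1); linarith
  have h1 : SM (T.vv k) := by
    unfold vv
    apply SM.sup
    · exact (SM.norm ((T.good (k + 1)).1.differentiable two_ne_zero)).add (SM.const _)
    · apply SM.sup
      · exact ((SM.norm differentiable_fst).mul (inv_nonneg.mpr hR.le)).add (SM.const _)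
      · exact ((SM.norm differentiable_snd).mul (inv_nonneg.mpr hR.le)).add (SM.const _)
  exact ((SM.const 0).sup h1).mul (by positivity)

lemma gg_nonneg (k : ℕ) (p : ℂ × ℂ) : 0 ≤ T.gg k p :=
  mul_nonneg (by positivity) (le_max_left _ _)

lemma gg_zero {k : ℕ} {p : ℂ × ℂ} (hp : p ∈ T.K k) : T.gg k p = 0 := by
  have hR : 0 < T.R (k + 1) := by have := T.one_le (k + 1); linarith
  have h1 := (T.rel k).2.1
  have h2 := ((T.rel k).2.2.1 p hp).1
  have e : ∀ x : ℝ, x ≤ T.R k → (T.R (k + 1))⁻¹ * x + (-(1 / 2)) ≤ 0 := by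
    intro x hx
    have : (T.R (k + 1))⁻¹ * x ≤ 1 / 2 := by
      rw [inv_mul_le_iff₀ hR]
      linarith
    linarith
  have h3 : T.vv k p ≤ 0 := by
    unfold vv
    apply max_le (by linarith)
    exact max_le (e _ hp.1) (e _ hp.2.1)
  rw [gg, max_eq_left h3, mul_zero]

lemma gg_large {k : ℕ} {p : ℂ × ℂ} (hp : p ∉ T.D (k + 1)) : (k:ℝ) + 1 ≤ T.gg k p := by
  have hR : 0 < T.R (k + 1) := by have := T.one_le (k + 1); linarith
  have e : ∀ x : ℝ, T.R (k + 1) ≤ x → 1 / 2 ≤ (T.R (k + 1))⁻¹ * x + (-(1 / 2)) := by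
    intro x hx
    have : 1 ≤ (T.R (k + 1))⁻¹ * x := by
      rw [le_inv_mul_iff₀ hR]
      linarith
    linarith
  have h1 : 1 / 2 ≤ T.vv k p := by
    unfold vv
    by_contra hcon
    push Not at hcon
    apply hp
    have h2 := lt_of_le_of_lt (le_max_left _ _) hcon
    have h3 := lt_of_le_of_lt (le_max_right _ _) hcon
    have h4 := lt_of_le_of_lt (le_max_left _ _) h3
    have h5 := lt_of_le_of_lt (le_max_right _ _) h3
    refine ⟨?_, ?_, by linarith⟩
    · by_contra h; push Not at h; have := e _ h; linarith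
    · by_contra h; push Not at h; have := e _ h; linarith
  have h6 : 1 / 2 ≤ max 0 (T.vv k p) := h1.trans (le_max_right _ _)
  rw [gg]
  have : (0:ℝ) ≤ k := Nat.cast_nonneg k
  nlinarith

/-- The exhaustion function. -/
def phi (p : ℂ × ℂ) : ℝ := ∑' k, T.gg k p

lemma phi_eq {j : ℕ} {p : ℂ × ℂ} (hp : p ∈ T.D j) : T.phi p = ∑ k ∈ Finset.range j, T.gg k p := by
  apply tsum_eq_sum
  intro k hk
  rw [Finset.mem_range, not_lt] at hk
  exact T.gg_zero (T.D_subset_K k (T.D_mono hk hp))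

lemma phi_continuousOn : ContinuousOn T.phi T.Om := by
  intro p hp
  obtain ⟨j, hj⟩ := mem_iUnion.mp hp
  apply ContinuousAt.continuousWithinAt
  have h1 : T.phi =ᶠ[𝓝 p] fun p => ∑ k ∈ Finset.range j, T.gg k p := by
    filter_upwards [(T.isOpen_D j).mem_nhds hj] with q hq
    exact T.phi_eq hq
  rw [continuousAt_congr h1]
  exact (SM.sum _ (fun k _ => T.gg_SM k)).1.continuousAt

lemma isCompact_disc (a b : ℂ × ℂ) : IsCompact ((fun ζ : ℂ => a + ζ • b) '' closedBall (0:ℂ) 1) := by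
  apply (isCompact_closedBall (0:ℂ) 1).image
  fun_prop

lemma phi_submean {a b : ℂ × ℂ} (hab : ∀ ζ : ℂ, ‖ζ‖ ≤ 1 → a + ζ • b ∈ T.Om) :
    T.phi a ≤ (1 / (2 * Real.pi)) *
      ∫ θ in (0:ℝ)..(2 * Real.pi), T.phi (a + Complex.exp ((θ : ℂ) * Complex.I) • b) := by
  obtain ⟨j, hj⟩ := T.exists_D (isCompact_disc a b) (by
    rintro _ ⟨ζ, hζ, rfl⟩
    exact hab ζ (by simpa using hζ))
  have h1 : ∀ ζ : ℂ, ‖ζ‖ ≤ 1 → a + ζ • b ∈ T.D j := fun ζ hζ => hj ⟨ζ, by simpa using hζ, rfl⟩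
  have h2 : T.phi a = ∑ k ∈ Finset.range j, T.gg k a := by
    apply T.phi_eq
    have := h1 0 (by simp)
    simpa using this
  have h3 : ∀ θ : ℝ, T.phi (a + Complex.exp ((θ : ℂ) * Complex.I) • b) =
      ∑ k ∈ Finset.range j, T.gg k (a + Complex.exp ((θ : ℂ) * Complex.I) • b) := by
    intro θ
    apply T.phi_eq
    apply h1
    rw [Complex.norm_exp_ofReal_mul_I]
  rw [h2]
  simp_rw [h3]
  exact (SM.sum _ (fun k _ => T.gg_SM k)).2 a b

lemma phi_sublevel (c : ℝ) : ∃ k, {p | p ∈ T.Om ∧ T.phi p < c} ⊆ T.K k := by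
  obtain ⟨k, hk⟩ := exists_nat_ge c
  refine ⟨k + 1, ?_⟩
  rintro p ⟨hp, hpc⟩
  apply T.D_subset_K
  by_contra hcon
  obtain ⟨j, hj⟩ := mem_iUnion.mp hp
  have hkj : k < j := by
    by_contra h
    push Not at h
    exact hcon (T.D_mono (by omega) hj)
  have h1 := T.gg_large hcon
  rw [T.phi_eq hj] at hpc
  have h2 : T.gg k p ≤ ∑ i ∈ Finset.range j, T.gg i p :=
    Finset.single_le_sum (f := fun i => T.gg i p) (fun i _ => T.gg_nonneg i p) (Finset.mem_range.mpr hkj)
  linarith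

end Tower

end

end Pool.Agent.H72.PB
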