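import Pool.Agent.H72.PB11

set_option autoImplicit false

/-! Mollification. -/

namespace Pool.Agent.H72.PB

open MeasureTheory Set Filter Topology Complex Metric Polynomial
open scoped ENNReal Convolution

noncomputable section

/-- The mollified function. -/
def mol (φ : ContDiffBump (0 : ℂ × ℂ)) (v : ℂ × ℂ → ℝ) : ℂ × ℂ → ℝ :=
  (φ.normed volume) ⋆[ContinuousLinearMap.lsmul ℝ ℝ, volume] v

lemma mol_apply (φ : ContDiffBump (0 : ℂ × ℂ)) (v : ℂ × ℂ → ℝ) (p : ℂ × ℂ) :
    mol φ v p = ∫ t, φ.normed volume t * v (p - t) := by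
  rw [mol, convolution_def]
  rfl

/-- Bounded measurable nonnegative functions. -/
structure Bdd (v : ℂ × ℂ → ℝ) (C : ℝ) : Prop where
  meas : Measurable v
  nonneg : ∀ p, 0 ≤ v p
  le : ∀ p, v p ≤ C

variable {v : ℂ × ℂ → ℝ} {C : ℝ}

lemma Bdd.C_nonneg (hv : Bdd v C) : 0 ≤ C := (hv.nonneg 0).trans (hv.le 0)

lemma Bdd.locInt (hv : Bdd v C) : LocallyIntegrable v volume := by
  apply (locallyIntegrable_const C).mono hv.meas.aestronglyMeasurable
  apply Eventually.of_forall
  intro p
  rw [Real.norm_eq_abs, Real.norm_eq_abs, abs_of_nonneg (hv.nonneg p), abs_of_nonneg hv.C_nonneg]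
  exact hv.le p

lemma mol_contDiff (hv : Bdd v C) (φ : ContDiffBump (0 : ℂ × ℂ)) : ContDiff ℝ 2 (mol φ v) := by
  have h1 : ContDiff ℝ (2:ℕ∞) (mol φ v) :=
    φ.hasCompactSupport_normed.contDiff_convolution_left _ φ.contDiff_normed hv.locInt
  exact_mod_cast h1

lemma mol_integrable (hv : Bdd v C) (φ : ContDiffBump (0 : ℂ × ℂ)) (p : ℂ × ℂ) :
    Integrable (fun t => φ.normed volume t * v (p - t)) := by
  apply Integrable.mono' (g := fun t => φ.normed volume t * C)
  · exact φ.integrable_normed.mul_const C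
  · apply AEStronglyMeasurable.mul
    · exact φ.continuous_normed.aestronglyMeasurable
    · exact (hv.meas.comp (measurable_const.sub measurable_id)).aestronglyMeasurable
  · apply Eventually.of_forall
    intro t
    rw [Real.norm_eq_abs, abs_of_nonneg (mul_nonneg (φ.nonneg_normed t) (hv.nonneg _))]
    exact mul_le_mul_of_nonneg_left (hv.le _) (φ.nonneg_normed t)

lemma mol_nonneg (hv : Bdd v C) (φ : ContDiffBump (0 : ℂ × ℂ)) (p : ℂ × ℂ) : 0 ≤ mol φ v p := by
  rw [mol_apply]
  exact integral_nonneg (fun t => mul_nonneg (φ.nonneg_normed t) (hv.nonneg _))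

lemma mol_le (hv : Bdd v C) (φ : ContDiffBump (0 : ℂ × ℂ)) (p : ℂ × ℂ) : mol φ v p ≤ C := by
  rw [mol_apply]
  calc ∫ t, φ.normed volume t * v (p - t) ≤ ∫ t, φ.normed volume t * C := by
        apply integral_mono (mol_integrable hv φ p) (φ.integrable_normed.mul_const C)
        intro t
        exact mul_le_mul_of_nonneg_left (hv.le _) (φ.nonneg_normed t)
    _ = C := by rw [integral_mul_const, φ.integral_normed, one_mul]

/-- Mollification preserves the sub-mean value property, away from the boundary. -/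
lemma mol_submean (hv : Bdd v C) (φ : ContDiffBump (0 : ℂ × ℂ)) {a b : ℂ × ℂ}
    (h : ∀ t ∈ ball (0 : ℂ × ℂ) φ.rOut, v (a - t) ≤ (1 / (2 * Real.pi)) *
      ∫ θ in (0:ℝ)..(2 * Real.pi), v ((a - t) + Complex.exp ((θ : ℂ) * Complex.I) • b)) :
    mol φ v a ≤ (1 / (2 * Real.pi)) *
      ∫ θ in (0:ℝ)..(2 * Real.pi), mol φ v (a + Complex.exp ((θ : ℂ) * Complex.I) • b) := by
  have hpi := Real.pi_pos
  set f : ℂ × ℂ → ℝ → ℝ := fun t θ => φ.normed volume t *
    v (a + Complex.exp ((θ : ℂ) * Complex.I) • b - t) with hf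
  have hfm : Measurable (Function.uncurry f) := by
    apply Measurable.mul
    · exact φ.continuous_normed.measurable.comp measurable_fst
    · apply hv.meas.comp
      apply Continuous.measurable
      fun_prop
  have hfi : Integrable (Function.uncurry f)
      ((volume : Measure (ℂ × ℂ)).prod ((volume : Measure ℝ).restrict (Ioc 0 (2 * Real.pi)))) := by
    have h1 : Integrable (fun x : (ℂ × ℂ) × ℝ => (φ.normed volume x.1) * C)
        ((volume : Measure (ℂ × ℂ)).prod ((volume : Measure ℝ).restrict (Ioc 0 (2 * Real.pi)))) :=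
      (φ.integrable_normed.mul_const C).comp_fst _
    apply h1.mono' hfm.aestronglyMeasurable
    apply Eventually.of_forall
    intro x
    simp only [Function.uncurry, hf]
    rw [Real.norm_eq_abs, abs_of_nonneg (mul_nonneg (φ.nonneg_normed _) (hv.nonneg _))]
    exact mul_le_mul_of_nonneg_left (hv.le _) (φ.nonneg_normed _)
  have hswap : ∫ t, ∫ θ in Ioc 0 (2 * Real.pi), f t θ = ∫ θ in Ioc 0 (2 * Real.pi), ∫ t, f t θ :=
    integral_integral_swap hfi
  have h2 : ∀ θ : ℝ, ∫ t, f t θ = mol φ v (a + Complex.exp ((θ : ℂ) * Complex.I) • b) := by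
    intro θ
    rw [mol_apply]
  simp_rw [h2] at hswap
  rw [intervalIntegral.integral_of_le (by positivity), ← hswap, ← integral_const_mul, mol_apply]
  apply integral_mono (mol_integrable hv φ a)
  · exact (hfi.integral_prod_left).const_mul _
  · intro t
    simp only [hf]
    rw [integral_const_mul, mul_left_comm]
    by_cases ht : t ∈ ball (0 : ℂ × ℂ) φ.rOut
    · apply mul_le_mul_of_nonneg_left _ (φ.nonneg_normed t)
      refine (h t ht).trans (le_of_eq ?_)
      rw [intervalIntegral.integral_of_le (by positivity)]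
      congr 1
      apply integral_congr_ae
      apply Eventually.of_forall
      intro θ
      simp only
      congr 1
      abel
    · have h3 : φ.normed volume t = 0 := by
        rw [← φ.support_normed_eq (μ := volume)] at ht
        exact Function.notMem_support.mp ht
      rw [h3]
      simp

/-- A sequence of bumps. -/
def bump (n : ℕ) : ContDiffBump (0 : ℂ × ℂ) where
  rIn := 1 / (2 * ((n:ℝ) + 1))
  rOut := 1 / ((n:ℝ) + 1)
  rIn_pos := by positivity
  rIn_lt_rOut := by
    apply one_div_lt_one_div_of_lt (by positivity)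
    have : (0:ℝ) ≤ n := Nat.cast_nonneg n
    linarith

lemma bump_rOut : Tendsto (fun n => (bump n).rOut) atTop (𝓝 0) :=
  tendsto_one_div_add_atTop_nhds_zero_nat

lemma mol_tendsto (hv : Bdd v C) : ∀ᵐ p, Tendsto (fun n => mol (bump n) v p) atTop (𝓝 (v p)) := by
  apply ContDiffBump.ae_convolution_tendsto_right_of_locallyIntegrable (K := 2) bump_rOut _ hv.locInt
  apply Eventually.of_forall
  intro n
  simp only [bump]
  apply le_of_eq
  field_simp

/-- The derivative of the mollified function. -/
lemma mol_fderiv (hv : Bdd v C) (φ : ContDiffBump (0 : ℂ × ℂ)) (p h : ℂ × ℂ) :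
    fderiv ℝ (mol φ v) p h = - ∫ y, v y * fderiv ℝ (fun y => φ.normed volume (p - y)) y h := by
  have h0 : ContDiff ℝ 1 (φ.normed volume) := φ.contDiff_normed (n := 1)
  have h1 := φ.hasCompactSupport_normed (μ := volume) |>.hasFDerivAt_convolution_left
    (ContinuousLinearMap.lsmul ℝ ℝ) h0 hv.locInt p
  have h2 : fderiv ℝ (mol φ v) p = _ := h1.fderiv
  rw [h2, convolution_def]
  have hci : ∀ t, ‖(ContinuousLinearMap.precompL (ℂ × ℂ) (ContinuousLinearMap.lsmul ℝ ℝ))
      (fderiv ℝ (φ.normed volume) t) (v (p - t))‖ ≤ ‖fderiv ℝ (φ.normed volume) t‖ * C := by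
    intro t
    apply ContinuousLinearMap.opNorm_le_bound _ (mul_nonneg (norm_nonneg _) hv.C_nonneg)
    intro x
    rw [ContinuousLinearMap.precompL_apply]
    simp only [ContinuousLinearMap.lsmul_apply, smul_eq_mul]
    rw [norm_mul]
    have e1 := (fderiv ℝ (φ.normed volume) t).le_opNorm x
    have e2 : ‖v (p - t)‖ ≤ C := by
      rw [Real.norm_eq_abs, abs_of_nonneg (hv.nonneg _)]
      exact hv.le _
    calc ‖(fderiv ℝ (φ.normed volume) t) x‖ * ‖v (p - t)‖
        ≤ (‖fderiv ℝ (φ.normed volume) t‖ * ‖x‖) * C := mul_le_mul e1 e2 (norm_nonneg _) (by positivity)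
      _ = ‖fderiv ℝ (φ.normed volume) t‖ * C * ‖x‖ := by ring
  have hdc : Continuous (fderiv ℝ (φ.normed volume)) := h0.continuous_fderiv one_ne_zero
  have hint : Integrable (fun t => (ContinuousLinearMap.precompL (ℂ × ℂ) (ContinuousLinearMap.lsmul ℝ ℝ))
      (fderiv ℝ (φ.normed volume) t) (v (p - t))) := by
    have e1 : Integrable (fun t => ‖fderiv ℝ (φ.normed volume) t‖ * C) := by
      apply Integrable.mul_const
      exact (hdc.integrable_of_hasCompactSupport (φ.hasCompactSupport_normed.fderiv (𝕜 := ℝ))).norm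
    apply e1.mono'
    · exact ContinuousLinearMap.aestronglyMeasurable_comp₂ _ hdc.aestronglyMeasurable
        (hv.meas.comp (measurable_const.sub measurable_id)).aestronglyMeasurable
    · exact Eventually.of_forall hci
  rw [ContinuousLinearMap.integral_apply hint]
  have h3 : ∀ t, (ContinuousLinearMap.precompL (ℂ × ℂ) (ContinuousLinearMap.lsmul ℝ ℝ))
      (fderiv ℝ (φ.normed volume) t) (v (p - t)) h = fderiv ℝ (φ.normed volume) t h * v (p - t) := by
    intro t
    rw [ContinuousLinearMap.precompL_apply]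
    simp
  simp_rw [h3]
  have h4 : ∀ y, fderiv ℝ (fun y => φ.normed volume (p - y)) y h = - fderiv ℝ (φ.normed volume) (p - y) h := by
    intro y
    have e1 : HasFDerivAt (fun y : ℂ × ℂ => p - y) (-(ContinuousLinearMap.id ℝ (ℂ × ℂ))) y :=
      (hasFDerivAt_id y).const_sub p
    have e2 := ((h0.differentiable one_ne_zero) (p - y)).hasFDerivAt.comp y e1
    have e3 : fderiv ℝ (fun y => φ.normed volume (p - y)) y = _ := e2.fderiv
    rw [e3]
    simp
  simp_rw [h4]
  rw [← integral_sub_left_eq_self (fun t => fderiv ℝ (φ.normed volume) t h * v (p - t)) volume p,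
    ← integral_neg]
  apply integral_congr_ae
  apply Eventually.of_forall
  intro y
  simp only
  rw [sub_sub_cancel]
  ring

end

end Pool.Agent.H72.PB
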