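import Pool.Agent.H72.PB3
import Pool.Agent.H72.PB12

set_option autoImplicit false

/-! Vanishing of the weak gradient. -/

namespace Pool.Agent.H72.PB

open MeasureTheory Set Filter Topology Complex Metric Polynomial
open scoped ENNReal

noncomputable section

/-- The sub-mean value property on affine discs in a set. -/
def SubOn (Ω : Set (ℂ × ℂ)) (v : ℂ × ℂ → ℝ) : Prop :=
  ∀ a b : ℂ × ℂ, (∀ ζ : ℂ, ‖ζ‖ ≤ 1 → a + ζ • b ∈ Ω) → v a ≤ (1 / (2 * Real.pi)) *
    ∫ θ in (0:ℝ)..(2 * Real.pi), v (a + Complex.exp ((θ : ℂ) * Complex.I) • b)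

variable {v : ℂ × ℂ → ℝ} {C : ℝ}

lemma lev_mol (hv : Bdd v C) {Ω : Set (ℂ × ℂ)} (hs : SubOn Ω v) {q : ℂ × ℂ} {δ : ℝ} (hδ : 0 < δ)
    (hball : ball q (2 * δ) ⊆ Ω) (φ : ContDiffBump (0 : ℂ × ℂ)) (hφ : φ.rOut ≤ δ) (h : ℂ × ℂ) :
    0 ≤ Lev (mol φ v) q h := by
  apply lev_nonneg (mol_contDiff hv φ) q h (r0 := δ / (‖h‖ + 1)) (by positivity)
  intro r hr hrr
  rw [← one_div]
  apply mol_submean hv
  intro t ht
  apply hs
  intro ζ hζ
  apply hball
  rw [mem_ball, dist_eq_norm]
  have e1 : q - t + ζ • (r:ℂ) • h - q = -t + ζ • (r:ℂ) • h := by abel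
  rw [e1]
  have e2 : ‖t‖ < δ := by
    rw [mem_ball, dist_zero_right] at ht
    linarith
  have e3 : ‖ζ • (r:ℂ) • h‖ ≤ r * ‖h‖ := by
    rw [norm_smul, norm_smul, Complex.norm_real, Real.norm_eq_abs, abs_of_pos hr]
    have : 0 ≤ r * ‖h‖ := by positivity
    nlinarith
  have e4 : r * ‖h‖ < δ := by
    rw [lt_div_iff₀ (by positivity)] at hrr
    nlinarith [norm_nonneg h]
  calc ‖-t + ζ • (r:ℂ) • h‖ ≤ ‖-t‖ + ‖ζ • (r:ℂ) • h‖ := norm_add_le _ _
    _ < 2 * δ := by rw [norm_neg]; linarith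

/-- The abstract testing lemma. -/
lemma test_bound (hv : Bdd v C) {V : ℂ × ℂ → ℂ × ℂ} (hV : Continuous V)
    (hdiv : ∀ G : ℂ × ℂ → ℝ, ContDiff ℝ 1 G → HasCompactSupport G → ∫ p, fderiv ℝ G p (V p) = 0)
    {ψ : ℂ × ℂ → ℝ} (hψ : Continuous ψ) (hψc : HasCompactSupport ψ) {E : ℝ}
    (hE : ∀ᶠ n in atTop, ∫ p, ψ p ^ 2 * (fderiv ℝ (mol (bump n) v) p (V p)) ^ 2 ≤ E)
    {g : ℂ × ℂ → ℝ} (hg : ContDiff ℝ 1 g) (hgc : HasCompactSupport g) (hgψ : ∀ p, g p ≠ 0 → ψ p = 1)
    {l : ℝ} (hl : 0 < l) :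
    |∫ p, v p * fderiv ℝ g p (V p)| ≤ l / 2 * E + 1 / (2 * l) * ∫ p, g p ^ 2 := by
  have hgd : Continuous (fun p => fderiv ℝ g p (V p)) := (hg.continuous_fderiv one_ne_zero).clm_apply hV
  have hcs : HasCompactSupport (fun p => fderiv ℝ g p (V p)) := by
    have h1 : HasCompactSupport (fderiv ℝ g) := hgc.fderiv (𝕜 := ℝ)
    refine h1.mono ?_
    intro p hp
    simp only [Function.mem_support, ne_eq] at hp ⊢
    intro h
    apply hp
    rw [h]
    simp
  have hg2 : HasCompactSupport (fun p => g p ^ 2) := by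
    have : (fun p => g p ^ 2) = fun p => g p * g p := by
      funext p; ring
    rw [this]
    exact hgc.mul_right
  have hψ2 : HasCompactSupport (fun p => ψ p ^ 2) := by
    have : (fun p => ψ p ^ 2) = fun p => ψ p * ψ p := by
      funext p; ring
    rw [this]
    exact hψc.mul_right
  have hgi : Integrable (fun p => g p ^ 2) := (hg.continuous.pow 2).integrable_of_hasCompactSupport hg2
  have hdi : Integrable (fun p => fderiv ℝ g p (V p)) := hgd.integrable_of_hasCompactSupport hcs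
  have hlim : Tendsto (fun n => ∫ p, mol (bump n) v p * fderiv ℝ g p (V p)) atTop
      (𝓝 (∫ p, v p * fderiv ℝ g p (V p))) := by
    apply tendsto_integral_of_dominated_convergence (fun p => C * ‖fderiv ℝ g p (V p)‖)
    · intro n
      exact ((mol_contDiff hv (bump n)).continuous.mul hgd).aestronglyMeasurable
    · exact hdi.norm.const_mul C
    · intro n
      apply Eventually.of_forall
      intro p
      rw [norm_mul, Real.norm_eq_abs, abs_of_nonneg (mol_nonneg hv _ p)]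
      exact mul_le_mul_of_nonneg_right (mol_le hv _ p) (norm_nonneg _)
    · filter_upwards [mol_tendsto hv] with p hp
      exact hp.mul_const _
  apply le_of_tendsto hlim.abs
  filter_upwards [hE] with n hn
  set w := mol (bump n) v with hw
  have hw2 : ContDiff ℝ 2 w := mol_contDiff hv (bump n)
  have hw1 : ContDiff ℝ 1 w := hw2.of_le (by norm_num)
  have hwd : Continuous (fun p => fderiv ℝ w p (V p)) := (hw1.continuous_fderiv one_ne_zero).clm_apply hV
  have h1 : ContDiff ℝ 1 (fun p => g p * w p) := hg.mul hw1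
  have h2 : HasCompactSupport (fun p => g p * w p) := hgc.mul_right
  have h3 := hdiv _ h1 h2
  have h4 : ∀ p, fderiv ℝ (fun p => g p * w p) p (V p) = g p * fderiv ℝ w p (V p) + w p * fderiv ℝ g p (V p) := by
    intro p
    have e1 : HasFDerivAt (fun p => g p * w p) (g p • fderiv ℝ w p + w p • fderiv ℝ g p) p :=
      ((hg.differentiable one_ne_zero) p).hasFDerivAt.mul ((hw1.differentiable one_ne_zero) p).hasFDerivAt
    rw [e1.fderiv]
    simp [_root_.add_apply, _root_.smul_apply]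
  simp_rw [h4] at h3
  have i1 : Integrable (fun p => g p * fderiv ℝ w p (V p)) :=
    (hg.continuous.mul hwd).integrable_of_hasCompactSupport hgc.mul_right
  have i2 : Integrable (fun p => w p * fderiv ℝ g p (V p)) :=
    (hw1.continuous.mul hgd).integrable_of_hasCompactSupport hcs.mul_left
  rw [integral_add i1 i2] at h3
  have h5 : ∫ p, w p * fderiv ℝ g p (V p) = - ∫ p, g p * fderiv ℝ w p (V p) := by linarith
  rw [h5, abs_neg]
  have i3 : Integrable (fun p => ψ p ^ 2 * (fderiv ℝ w p (V p)) ^ 2) :=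
    ((hψ.pow 2).mul (hwd.pow 2)).integrable_of_hasCompactSupport hψ2.mul_right
  calc |∫ p, g p * fderiv ℝ w p (V p)| ≤ ∫ p, |g p * fderiv ℝ w p (V p)| := abs_integral_le_integral_abs
    _ ≤ ∫ p, (l / 2 * (ψ p ^ 2 * (fderiv ℝ w p (V p)) ^ 2) + 1 / (2 * l) * g p ^ 2) := by
        apply integral_mono i1.abs ((i3.const_mul _).add (hgi.const_mul _))
        intro p
        simp only [Pi.add_apply]
        by_cases hp : g p = 0
        · rw [hp]
          simp
          positivity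
        · rw [hgψ p hp]
          set x := fderiv ℝ w p (V p)
          have e1 : l / 2 * (1 ^ 2 * x ^ 2) + 1 / (2 * l) * g p ^ 2 = (l ^ 2 * x ^ 2 + g p ^ 2) / (2 * l) := by
            field_simp
          rw [e1, le_div_iff₀ (by positivity), abs_mul]
          have e2 : 0 ≤ (l * |x| - |g p|) ^ 2 := sq_nonneg _
          have e3 : |x| ^ 2 = x ^ 2 := sq_abs _
          have e4 : |g p| ^ 2 = g p ^ 2 := sq_abs _
          nlinarith
    _ = l / 2 * (∫ p, ψ p ^ 2 * (fderiv ℝ w p (V p)) ^ 2) + 1 / (2 * l) * ∫ p, g p ^ 2 := by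
        rw [integral_add (i3.const_mul _) (hgi.const_mul _), integral_const_mul, integral_const_mul]
    _ ≤ _ := by gcongr

namespace Tower

variable (T : Tower)

lemma energy_mol (hv : Bdd v C) (hs : SubOn T.Om v) (k : ℕ) :
    ∀ᶠ n in atTop, ∫ p, T.ψ k p ^ 2 * ((fderiv ℝ (mol (bump n) v) p (ham (T.P (k + 1)) p)) ^ 2 +
      (fderiv ℝ (mol (bump n) v) p (I • ham (T.P (k + 1)) p)) ^ 2) ≤
      4 * C ^ 2 * (T.η k ^ 2 / ((k:ℝ) + 1) ^ 2) := by
  obtain ⟨hη, h2R, hK, hψ1, hψ2, hψ3, hψ4, -⟩ := T.rel k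
  obtain ⟨δ, hδ, hthick⟩ := hψ2.isCompact.exists_thickening_subset_open T.isOpen_Om
    (hψ3.trans (T.D_subset_Om (k + 1)))
  have hev : ∀ᶠ n in atTop, (bump n).rOut < δ / 2 := bump_rOut.eventually_lt_const (by positivity)
  filter_upwards [hev] with n hn
  refine (energy (T.good (k + 1)).1 (mol_contDiff hv (bump n)) hψ1 hψ2 (C := C)
    (fun p _ => ⟨mol_nonneg hv _ p, mol_le hv _ p⟩) ?_).trans ?_
  · intro p hp
    apply lev_mol hv hs (δ := δ / 2) (by positivity) _ _ hn.le
    have e1 : 2 * (δ / 2) = δ := by ring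
    rw [e1]
    exact (ball_subset_thickening hp δ).trans hthick
  · gcongr

/-- Testing along the Hamiltonian field. -/
lemma test_ham (hv : Bdd v C) (hs : SubOn T.Om v) (k : ℕ) {g : ℂ × ℂ → ℝ} (hg : ContDiff ℝ 1 g)
    (hgc : HasCompactSupport g) (hgK : ∀ p, g p ≠ 0 → p ∈ T.K k) :
    |∫ p, v p * fderiv ℝ g p (ham (T.P (k + 1)) p)| ≤
      T.η k * ((2 * C ^ 2 + (1 / 2) * ∫ p, g p ^ 2) / ((k:ℝ) + 1)) ∧
    |∫ p, v p * fderiv ℝ g p (I • ham (T.P (k + 1)) p)| ≤
      T.η k * ((2 * C ^ 2 + (1 / 2) * ∫ p, g p ^ 2) / ((k:ℝ) + 1)) := by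
  obtain ⟨hη, h2R, hK, hψ1, hψ2, hψ3, hψ4, -⟩ := T.rel k
  have hham : ContDiff ℝ 1 (ham (T.P (k + 1))) := (ham_contDiff (T.good (k + 1)).1).restrict_scalars ℝ
  have hhamc := hham.continuous
  have hIc : Continuous (fun p => I • ham (T.P (k + 1)) p) := hhamc.const_smul I
  have hk : (0:ℝ) < (k:ℝ) + 1 := by positivity
  have hgψ : ∀ p, g p ≠ 0 → T.ψ k p = 1 := fun p hp => (hK p (hgK p hp)).2.2
  have hval : ((k:ℝ) + 1) / T.η k / 2 * (4 * C ^ 2 * (T.η k ^ 2 / ((k:ℝ) + 1) ^ 2)) +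
      1 / (2 * (((k:ℝ) + 1) / T.η k)) * ∫ p, g p ^ 2 =
      T.η k * ((2 * C ^ 2 + (1 / 2) * ∫ p, g p ^ 2) / ((k:ℝ) + 1)) := by
    field_simp
    ring
  have hE := T.energy_mol hv hs k
  have hint : ∀ n, ∀ V : ℂ × ℂ → ℂ × ℂ, Continuous V → Integrable (fun p => T.ψ k p ^ 2 *
      (fderiv ℝ (mol (bump n) v) p (V p)) ^ 2) := by
    intro n V hV
    have hw1 : ContDiff ℝ 1 (mol (bump n) v) := (mol_contDiff hv (bump n)).of_le (by norm_num)
    apply Continuous.integrable_of_hasCompactSupport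
    · exact (hψ1.continuous.pow 2).mul (((hw1.continuous_fderiv one_ne_zero).clm_apply hV).pow 2)
    · apply HasCompactSupport.mul_right
      have : (fun p => T.ψ k p ^ 2) = fun p => T.ψ k p * T.ψ k p := by
        funext p; ring
      rw [this]
      exact hψ2.mul_right
  rw [← hval]
  constructor
  · apply test_bound hv hhamc (fun G hG hGc => (integral_ham (T.good (k + 1)).1 hG hGc).1)
      hψ1.continuous hψ2 _ hg hgc hgψ (by positivity)
    filter_upwards [hE] with n hn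
    refine le_trans ?_ hn
    apply integral_mono (hint n _ hhamc)
    · have := (hint n _ hhamc).add (hint n _ hIc)
      refine this.congr (Eventually.of_forall (fun p => ?_))
      simp only [Pi.add_apply]
      ring
    · intro p
      simp only
      apply mul_le_mul_of_nonneg_left _ (sq_nonneg _)
      have := sq_nonneg (fderiv ℝ (mol (bump n) v) p (I • ham (T.P (k + 1)) p))
      linarith
  · apply test_bound hv hIc (fun G hG hGc => (integral_ham (T.good (k + 1)).1 hG hGc).2)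
      hψ1.continuous hψ2 _ hg hgc hgψ (by positivity)
    filter_upwards [hE] with n hn
    refine le_trans ?_ hn
    apply integral_mono (hint n _ hIc)
    · have := (hint n _ hhamc).add (hint n _ hIc)
      refine this.congr (Eventually.of_forall (fun p => ?_))
      simp only [Pi.add_apply]
      ring
    · intro p
      simp only
      apply mul_le_mul_of_nonneg_left _ (sq_nonneg _)
      have := sq_nonneg (fderiv ℝ (mol (bump n) v) p (ham (T.P (k + 1)) p))
      linarith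

end Tower

end

end Pool.Agent.H72.PB
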