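import Pool.Agent.H72.PB13

set_option autoImplicit false

/-! The Liouville property. -/

namespace Pool.Agent.H72.PB

open MeasureTheory Set Filter Topology Complex Metric Polynomial
open scoped ENNReal

noncomputable section

variable {v : ℂ × ℂ → ℝ} {C : ℝ}

/-- Replacing a field by a constant one. -/
lemma replace_field (hv : Bdd v C) {V : ℂ × ℂ → ℂ × ℂ} (hV : Continuous V) {e : ℂ × ℂ} {η κ : ℝ}
    (hη : 0 < η) {g : ℂ × ℂ → ℝ} (hg : ContDiff ℝ 1 g) (hgc : HasCompactSupport g) {L : Set (ℂ × ℂ)}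
    (hgL : tsupport g ⊆ L) (hclose : ∀ p ∈ L, ‖V p - η • e‖ ≤ κ * η) {B : ℝ}
    (hB : |∫ p, v p * fderiv ℝ g p (V p)| ≤ η * B) :
    |∫ p, v p * fderiv ℝ g p e| ≤ B + C * κ * ∫ p, ‖fderiv ℝ g p‖ := by
  have hgd : Continuous (fderiv ℝ g) := hg.continuous_fderiv one_ne_zero
  have hdc : HasCompactSupport (fderiv ℝ g) := hgc.fderiv (𝕜 := ℝ)
  have hni : Integrable (fun p => ‖fderiv ℝ g p‖) := (hgd.integrable_of_hasCompactSupport hdc).norm
  have hint : ∀ W : ℂ × ℂ → ℂ × ℂ, Continuous W → Integrable (fun p => v p * fderiv ℝ g p (W p)) := by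
    intro W hW
    have h1 : Continuous (fun p => fderiv ℝ g p (W p)) := hgd.clm_apply hW
    have h2 : HasCompactSupport (fun p => fderiv ℝ g p (W p)) := by
      refine hdc.mono ?_
      intro p hp
      simp only [Function.mem_support, ne_eq] at hp ⊢
      intro h
      apply hp
      rw [h]
      simp
    have h3 : Integrable (fun p => fderiv ℝ g p (W p)) := h1.integrable_of_hasCompactSupport h2
    apply (h3.norm.const_mul C).mono'
    · exact hv.meas.aestronglyMeasurable.mul h1.aestronglyMeasurable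
    · apply Eventually.of_forall
      intro p
      rw [norm_mul, Real.norm_eq_abs, abs_of_nonneg (hv.nonneg p)]
      exact mul_le_mul_of_nonneg_right (hv.le p) (norm_nonneg _)
  have h1 : (∫ p, v p * fderiv ℝ g p (V p)) = η * (∫ p, v p * fderiv ℝ g p e) +
      ∫ p, v p * fderiv ℝ g p (V p - η • e) := by
    rw [← integral_const_mul, ← integral_add]
    · apply integral_congr_ae
      apply Eventually.of_forall
      intro p
      simp only [map_sub, map_smul, smul_eq_mul]
      ring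
    · exact (hint (fun _ => e) continuous_const).const_mul _
    · exact hint _ (hV.sub continuous_const)
  have h2 : |∫ p, v p * fderiv ℝ g p (V p - η • e)| ≤ C * (κ * η) * ∫ p, ‖fderiv ℝ g p‖ := by
    rw [← integral_const_mul]
    refine abs_integral_le_integral_abs.trans ?_
    apply integral_mono (hint _ (hV.sub continuous_const)).abs (hni.const_mul _)
    intro p
    simp only
    rw [abs_mul, abs_of_nonneg (hv.nonneg p)]
    by_cases hp : p ∈ tsupport g
    · have e1 := (fderiv ℝ g p).le_opNorm (V p - η • e)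
      have e2 := hclose p (hgL hp)
      rw [Real.norm_eq_abs] at e1
      calc v p * |fderiv ℝ g p (V p - η • e)| ≤ C * (‖fderiv ℝ g p‖ * (κ * η)) := by
            apply mul_le_mul (hv.le p) _ (abs_nonneg _) hv.C_nonneg
            exact e1.trans (mul_le_mul_of_nonneg_left e2 (norm_nonneg _))
        _ = _ := by ring
    · have h3 : fderiv ℝ g p = 0 :=
        image_eq_zero_of_notMem_tsupport (fun h => hp (tsupport_fderiv_subset ℝ h))
      rw [h3]
      simp
  have h3 : η * |∫ p, v p * fderiv ℝ g p e| ≤ η * (B + C * κ * ∫ p, ‖fderiv ℝ g p‖) := by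
    have h4 : η * |∫ p, v p * fderiv ℝ g p e| = |η * ∫ p, v p * fderiv ℝ g p e| := by
      rw [abs_mul, abs_of_pos hη]
    rw [h4]
    have h5 : η * (∫ p, v p * fderiv ℝ g p e) = (∫ p, v p * fderiv ℝ g p (V p)) -
        ∫ p, v p * fderiv ℝ g p (V p - η • e) := by
      have := h1
      linarith
    rw [h5]
    calc |(∫ p, v p * fderiv ℝ g p (V p)) - ∫ p, v p * fderiv ℝ g p (V p - η • e)|
        ≤ |∫ p, v p * fderiv ℝ g p (V p)| + |∫ p, v p * fderiv ℝ g p (V p - η • e)| := abs_sub _ _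
      _ ≤ η * B + C * (κ * η) * ∫ p, ‖fderiv ℝ g p‖ := add_le_add hB h2
      _ = _ := by ring
  exact le_of_mul_le_mul_left h3 hη

namespace Tower

variable (T : Tower)

lemma close_even {k : ℕ} (hk : Even k) {p : ℂ × ℂ} (hp : p ∈ T.K k) :
    ‖ham (T.P (k + 1)) p - T.η k • ((0:ℂ), (-1:ℂ))‖ ≤ 1 / ((k:ℝ) + 1) * T.η k := by
  obtain ⟨h1, h2⟩ := ((T.rel k).2.2.1 p hp).2.1.1 hk
  rw [Prod.norm_def]
  apply max_le
  · simpa [ham] using h2
  · have : (ham (T.P (k + 1)) p - T.η k • ((0:ℂ), (-1:ℂ))).2 = -(dZ (T.P (k + 1)) p - (T.η k : ℂ)) := by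
      simp [ham]
      ring
    rw [this, norm_neg]
    exact h1

lemma close_odd {k : ℕ} (hk : ¬ Even k) {p : ℂ × ℂ} (hp : p ∈ T.K k) :
    ‖ham (T.P (k + 1)) p - T.η k • ((1:ℂ), (0:ℂ))‖ ≤ 1 / ((k:ℝ) + 1) * T.η k := by
  obtain ⟨h1, h2⟩ := ((T.rel k).2.2.1 p hp).2.1.2 hk
  rw [Prod.norm_def]
  apply max_le
  · have : (ham (T.P (k + 1)) p - T.η k • ((1:ℂ), (0:ℂ))).1 = (dW (T.P (k + 1)) p - (T.η k : ℂ)) := by
      simp [ham]
    rw [this]
    exact h1
  · simpa [ham] using h2

/-- The quantitative vanishing in the directions `e` and `I • e`. -/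
lemma dir_bound (hv : Bdd v C) (hs : SubOn T.Om v) {g : ℂ × ℂ → ℝ} (hg : ContDiff ℝ 1 g)
    (hgc : HasCompactSupport g) {k : ℕ} (hgK : tsupport g ⊆ T.K k) {e : ℂ × ℂ}
    (hclose : ∀ p ∈ T.K k, ‖ham (T.P (k + 1)) p - T.η k • e‖ ≤ 1 / ((k:ℝ) + 1) * T.η k) :
    |∫ p, v p * fderiv ℝ g p e| ≤ (2 * C ^ 2 + (1 / 2) * (∫ p, g p ^ 2) + C * ∫ p, ‖fderiv ℝ g p‖) *
      (1 / ((k:ℝ) + 1)) ∧
    |∫ p, v p * fderiv ℝ g p (I • e)| ≤ (2 * C ^ 2 + (1 / 2) * (∫ p, g p ^ 2) + C * ∫ p, ‖fderiv ℝ g p‖) *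
      (1 / ((k:ℝ) + 1)) := by
  have hη := (T.rel k).1
  have hham : ContDiff ℝ 1 (ham (T.P (k + 1))) := (ham_contDiff (T.good (k + 1)).1).restrict_scalars ℝ
  have hhamc := hham.continuous
  have hIc : Continuous (fun p => I • ham (T.P (k + 1)) p) := hhamc.const_smul I
  obtain ⟨t1, t2⟩ := T.test_ham hv hs k hg hgc (fun p hp => hgK (subset_tsupport _ hp))
  constructor
  · refine (replace_field hv hhamc hη hg hgc hgK hclose t1).trans (le_of_eq ?_)
    ring
  · refine (replace_field hv hIc hη hg hgc hgK (e := I • e) (κ := 1 / ((k:ℝ) + 1)) ?_ t2).trans (le_of_eq ?_)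
    · intro p hp
      have e1 : I • ham (T.P (k + 1)) p - T.η k • I • e = I • (ham (T.P (k + 1)) p - T.η k • e) := by
        rw [smul_sub, smul_comm]
      rw [e1, norm_smul, Complex.norm_I, one_mul]
      exact hclose p hp
    · ring

/-- The weak gradient vanishes. -/
theorem weak_grad (hv : Bdd v C) (hs : SubOn T.Om v) {g : ℂ × ℂ → ℝ} (hg : ContDiff ℝ 1 g)
    (hgc : HasCompactSupport g) (hgO : tsupport g ⊆ T.Om) (h : ℂ × ℂ) :
    ∫ p, v p * fderiv ℝ g p h = 0 := by
  obtain ⟨j, hj⟩ := T.exists_D hgc.isCompact hgO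
  have hK : ∀ k, j ≤ k → tsupport g ⊆ T.K k := fun k hk =>
    (hj.trans (T.D_mono hk)).trans (T.D_subset_K k)
  set M := 2 * C ^ 2 + (1 / 2) * (∫ p, g p ^ 2) + C * ∫ p, ‖fderiv ℝ g p‖ with hM
  have hzero : ∀ (A : ℝ) (σ : ℕ → ℕ), Tendsto σ atTop atTop →
      (∀ n, j ≤ σ n → |A| ≤ M * (1 / ((σ n : ℝ) + 1))) → A = 0 := by
    intro A σ hσ hA
    have h1 : Tendsto (fun n => M * (1 / ((σ n : ℝ) + 1))) atTop (𝓝 (M * 0)) :=
      (tendsto_one_div_add_atTop_nhds_zero_nat.comp hσ).const_mul M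
    rw [mul_zero] at h1
    have h2 : |A| ≤ 0 := by
      apply ge_of_tendsto h1
      filter_upwards [hσ.eventually_ge_atTop j] with n hn
      exact hA n hn
    exact abs_eq_zero.mp (le_antisymm h2 (abs_nonneg _))
  have hσ0 : Tendsto (fun n : ℕ => 2 * n) atTop atTop := tendsto_id.const_mul_atTop' (by norm_num)
  have hσ1 : Tendsto (fun n : ℕ => 2 * n + 1) atTop atTop :=
    tendsto_atTop_mono (fun n => by omega) hσ0
  have z1 : ∫ p, v p * fderiv ℝ g p ((0:ℂ), (-1:ℂ)) = 0 := hzero _ _ hσ0 (fun n hn =>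
    (T.dir_bound hv hs hg hgc (hK _ hn) (fun p hp => T.close_even (by simp) hp)).1)
  have z2 : ∫ p, v p * fderiv ℝ g p (I • ((0:ℂ), (-1:ℂ))) = 0 := hzero _ _ hσ0 (fun n hn =>
    (T.dir_bound hv hs hg hgc (hK _ hn) (fun p hp => T.close_even (by simp) hp)).2)
  have z3 : ∫ p, v p * fderiv ℝ g p ((1:ℂ), (0:ℂ)) = 0 := hzero _ _ hσ1 (fun n hn =>
    (T.dir_bound hv hs hg hgc (hK _ hn) (fun p hp => T.close_odd (by simp) hp)).1)
  have z4 : ∫ p, v p * fderiv ℝ g p (I • ((1:ℂ), (0:ℂ))) = 0 := hzero _ _ hσ1 (fun n hn =>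
    (T.dir_bound hv hs hg hgc (hK _ hn) (fun p hp => T.close_odd (by simp) hp)).2)
  have f1 : ((0:ℂ), (-1:ℂ)) = -((0:ℂ), (1:ℂ)) := by simp
  have f2 : I • ((0:ℂ), (-1:ℂ)) = -((0:ℂ), I) := by simp
  have f4 : I • ((1:ℂ), (0:ℂ)) = (I, (0:ℂ)) := by simp
  rw [f1] at z1
  rw [f2] at z2
  rw [f4] at z4
  simp only [map_neg, mul_neg] at z1 z2
  rw [integral_neg, neg_eq_zero] at z1 z2
  obtain ⟨a, b⟩ := h
  have hgd : Continuous (fderiv ℝ g) := hg.continuous_fderiv one_ne_zero
  have hdc : HasCompactSupport (fderiv ℝ g) := hgc.fderiv (𝕜 := ℝ)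
  have hint : ∀ w : ℂ × ℂ, Integrable (fun p => v p * fderiv ℝ g p w) := by
    intro w
    have h1 : Continuous (fun p => fderiv ℝ g p w) := hgd.clm_apply continuous_const
    have h2 : HasCompactSupport (fun p => fderiv ℝ g p w) := hgc.fderiv_apply (𝕜 := ℝ) w
    have h3 : Integrable (fun p => fderiv ℝ g p w) := h1.integrable_of_hasCompactSupport h2
    apply (h3.norm.const_mul C).mono'
    · exact hv.meas.aestronglyMeasurable.mul h1.aestronglyMeasurable
    · apply Eventually.of_forall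
      intro p
      rw [norm_mul, Real.norm_eq_abs, abs_of_nonneg (hv.nonneg p)]
      exact mul_le_mul_of_nonneg_right (hv.le p) (norm_nonneg _)
  have hexp : ∀ p, v p * fderiv ℝ g p (a, b) = ((a.re * (v p * fderiv ℝ g p (1, 0)) +
      a.im * (v p * fderiv ℝ g p (I, 0))) + b.re * (v p * fderiv ℝ g p (0, 1))) +
      b.im * (v p * fderiv ℝ g p (0, I)) := by
    intro p
    rw [clm_expand]
    ring
  simp_rw [hexp]
  have hZ : ∀ (c : ℝ) (w : ℂ × ℂ), ∫ p, v p * fderiv ℝ g p w = 0 →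
      ZInt (fun p => c * (v p * fderiv ℝ g p w)) := by
    intro c w hw
    exact ⟨(hint w).const_mul c, by rw [integral_const_mul, hw, mul_zero]⟩
  exact ((((hZ a.re _ z3).add (hZ a.im _ z4)).add (hZ b.re _ z1)).add (hZ b.im _ z2)).2

/-- `v` is almost everywhere constant on small balls. -/
theorem ae_const (hv : Bdd v C) (hs : SubOn T.Om v) {p0 : ℂ × ℂ} {δ : ℝ} (hδ : 0 < δ)
    (hball : ball p0 (2 * δ) ⊆ T.Om) : ∃ c : ℝ, ∀ᵐ p, p ∈ ball p0 δ → v p = c := by
  have hconst : ∀ᶠ n in atTop, ∀ x ∈ ball p0 δ, ∀ y ∈ ball p0 δ, mol (bump n) v x = mol (bump n) v y := by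
    filter_upwards [bump_rOut.eventually_lt_const hδ] with n hn
    have hd : ∀ x ∈ ball p0 δ, fderiv ℝ (mol (bump n) v) x = 0 := by
      intro x hx
      apply ContinuousLinearMap.ext
      intro h
      rw [mol_fderiv hv]
      rw [T.weak_grad hv hs]
      · simp
      · exact ((bump n).contDiff_normed (n := 1)).comp (contDiff_const.sub contDiff_id)
      · apply HasCompactSupport.intro (isCompact_closedBall x (bump n).rOut)
        intro y hy
        rw [mem_closedBall, dist_comm, dist_eq_norm, not_le] at hy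
        have : x - y ∉ Function.support ((bump n).normed volume) := by
          rw [(bump n).support_normed_eq, mem_ball, dist_zero_right]
          linarith
        exact Function.notMem_support.mp this
      · have h1 : tsupport (fun y => (bump n).normed volume (x - y)) ⊆ closedBall x (bump n).rOut := by
          apply closure_minimal _ isClosed_closedBall
          intro y hy
          have : x - y ∈ Function.support ((bump n).normed volume) := hy
          rw [(bump n).support_normed_eq, mem_ball, dist_zero_right] at this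
          rw [mem_closedBall, dist_comm, dist_eq_norm]
          exact this.le
        refine h1.trans (Subset.trans ?_ hball)
        intro y hy
        rw [mem_closedBall] at hy
        rw [mem_ball] at hx ⊢
        have := dist_triangle y x p0
        linarith
    have hdiff : Differentiable ℝ (mol (bump n) v) := (mol_contDiff hv _).differentiable two_ne_zero
    intro x hx y hy
    have h2 := (convex_ball p0 δ).norm_image_sub_le_of_norm_fderiv_le (𝕜 := ℝ)
      (f := mol (bump n) v) (C := 0) (fun z _ => hdiff z) (fun z hz => by rw [hd z hz]; simp) hy hx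
    rw [zero_mul, norm_le_zero_iff, sub_eq_zero] at h2
    exact h2
  have hae := mol_tendsto hv
  obtain ⟨p1, hp1, hp1l⟩ : ∃ p1 ∈ ball p0 δ, Tendsto (fun n => mol (bump n) v p1) atTop (𝓝 (v p1)) := by
    by_contra hcon
    push Not at hcon
    have h1 : volume (ball p0 δ) = 0 := by
      apply measure_mono_null _ (ae_iff.mp hae)
      intro p hp
      exact hcon p hp
    have h2 : 0 < volume (ball p0 δ) := measure_ball_pos _ _ hδ
    exact h2.ne' h1
  refine ⟨v p1, ?_⟩
  filter_upwards [hae] with p hp hpb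
  apply tendsto_nhds_unique hp
  apply hp1l.congr'
  filter_upwards [hconst] with n hn
  exact hn p1 hp1 p hpb

end Tower

end

end Pool.Agent.H72.PB
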