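import Pool.Agent.H72.PB14

set_option autoImplicit false

/-! Bounded plurisubharmonic functions are constant. -/

namespace Pool.Agent.H72.PB

open MeasureTheory Set Filter Topology Complex Metric Polynomial
open scoped ENNReal

noncomputable section

lemma measurePreserving_rot (θ : ℝ) (p : ℂ × ℂ) :
    MeasurePreserving (fun b : ℂ × ℂ => p + Complex.exp ((θ : ℂ) * Complex.I) • b) := by
  have h1 : MeasurePreserving (rotation (Circle.exp θ)) (volume : Measure ℂ) volume :=
    LinearIsometryEquiv.measurePreserving _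
  have h2 : MeasurePreserving (Prod.map (rotation (Circle.exp θ)) (rotation (Circle.exp θ)))
      (volume : Measure (ℂ × ℂ)) volume := h1.prod h1
  have h3 : MeasurePreserving (fun b : ℂ × ℂ => p + b) (volume : Measure (ℂ × ℂ)) volume :=
    measurePreserving_add_left volume p
  have h4 := h3.comp h2
  have h5 : (fun b : ℂ × ℂ => p + Complex.exp ((θ : ℂ) * Complex.I) • b) =
      (fun b : ℂ × ℂ => p + b) ∘ (Prod.map (rotation (Circle.exp θ)) (rotation (Circle.exp θ))) := by
    funext b
    simp [rotation_apply, Circle.coe_exp, Prod.map]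
    rfl
  rw [h5]
  exact h4

/-- If a sub-mean function is almost everywhere constant near a point then its value at the point is
at most the constant. -/
lemma le_of_ae_const {v : ℂ × ℂ → ℝ} (hvm : Measurable v) {Ω : Set (ℂ × ℂ)} (hs : SubOn Ω v)
    {p : ℂ × ℂ} {δ : ℝ} (hδ : 0 < δ) (hball : ball p δ ⊆ Ω) {c : ℝ}
    (hc : ∀ᵐ q, q ∈ ball p δ → v q = c) : v p ≤ c := by
  have hpi := Real.pi_pos
  have h1 : ∀ θ : ℝ, ∀ᵐ b : ℂ × ℂ, b ∈ ball (0 : ℂ × ℂ) δ →
      v (p + Complex.exp ((θ : ℂ) * Complex.I) • b) = c := by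
    intro θ
    have h2 := (measurePreserving_rot θ p).quasiMeasurePreserving.ae hc
    filter_upwards [h2] with b hb hbb
    apply hb
    rw [mem_ball, dist_eq_norm, add_sub_cancel_left, norm_smul, Complex.norm_exp_ofReal_mul_I, one_mul]
    simpa using hbb
  have hmeas : MeasurableSet {x : ℝ × (ℂ × ℂ) | x.2 ∈ ball (0 : ℂ × ℂ) δ →
      v (p + Complex.exp ((x.1 : ℂ) * Complex.I) • x.2) = c} := by
    have m1 : MeasurableSet {x : ℝ × (ℂ × ℂ) | x.2 ∈ ball (0 : ℂ × ℂ) δ} :=
      measurable_snd measurableSet_ball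
    have m2 : MeasurableSet {x : ℝ × (ℂ × ℂ) | v (p + Complex.exp ((x.1 : ℂ) * Complex.I) • x.2) = c} := by
      have : Measurable (fun x : ℝ × (ℂ × ℂ) => v (p + Complex.exp ((x.1 : ℂ) * Complex.I) • x.2)) := by
        apply hvm.comp
        apply Continuous.measurable
        fun_prop
      exact this (measurableSet_singleton c)
    have m3 : {x : ℝ × (ℂ × ℂ) | x.2 ∈ ball (0 : ℂ × ℂ) δ →
      v (p + Complex.exp ((x.1 : ℂ) * Complex.I) • x.2) = c} =
      {x : ℝ × (ℂ × ℂ) | x.2 ∈ ball (0 : ℂ × ℂ) δ}ᶜ ∪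
      {x : ℝ × (ℂ × ℂ) | v (p + Complex.exp ((x.1 : ℂ) * Complex.I) • x.2) = c} := by
      ext x
      simp only [mem_ofPred_eq, mem_union, mem_compl_iff]
      tauto
    rw [m3]
    exact m1.compl.union m2
  have h3 := (Measure.ae_ae_comm (μ := (volume : Measure ℝ)) (ν := (volume : Measure (ℂ × ℂ))) hmeas).mp
    (Eventually.of_forall h1)
  obtain ⟨b, hb, hbθ⟩ : ∃ b ∈ ball (0 : ℂ × ℂ) δ, ∀ᵐ θ : ℝ, b ∈ ball (0 : ℂ × ℂ) δ →
      v (p + Complex.exp ((θ : ℂ) * Complex.I) • b) = c := by
    by_contra hcon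
    push Not at hcon
    have h4 : volume (ball (0 : ℂ × ℂ) δ) = 0 := by
      apply measure_mono_null _ (ae_iff.mp h3)
      intro b hb hall
      exact hcon b hb (hall.mono (fun θ e1 e2 => e2.2 (e1 e2.1)))
    exact (measure_ball_pos volume (0 : ℂ × ℂ) hδ).ne' h4
  have h5 := hs p b (by
    intro ζ hζ
    apply hball
    rw [mem_ball, dist_eq_norm, add_sub_cancel_left, norm_smul]
    rw [mem_ball, dist_zero_right] at hb
    nlinarith [norm_nonneg b, norm_nonneg ζ])
  have h6 : ∫ θ in (0:ℝ)..(2 * Real.pi), v (p + Complex.exp ((θ : ℂ) * Complex.I) • b) =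
      ∫ θ in (0:ℝ)..(2 * Real.pi), c := by
    apply intervalIntegral.integral_congr_ae
    filter_upwards [hbθ] with θ hθ _
    exact hθ hb
  rw [h6, intervalIntegral.integral_const, smul_eq_mul, sub_zero] at h5
  refine h5.trans (le_of_eq ?_)
  field_simp

/-- **Liouville property.** -/
theorem Tower.liouville (T : Tower) {O : Set (ℂ × ℂ)} (hO : IsOpen O) (hOc : IsPreconnected O)
    (hOT : O ⊆ T.Om) (hcomp : ∀ a ∈ O, ∀ b : ℂ × ℂ, (∀ ζ : ℂ, ‖ζ‖ ≤ 1 → a + ζ • b ∈ T.Om) →
      ∀ ζ : ℂ, ‖ζ‖ ≤ 1 → a + ζ • b ∈ O) {u : ℂ × ℂ → ℝ} (husc : UpperSemicontinuousOn u O)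
    (hb : ∃ M : ℝ, ∀ z ∈ O, |u z| ≤ M) (hsm : SubOn O u) : ∀ z ∈ O, ∀ w ∈ O, u z = u w := by
  have hpi := Real.pi_pos
  obtain ⟨M', hM'⟩ := hb
  set M := max M' 0 with hMdef
  have hM0 : 0 ≤ M := le_max_right _ _
  have hM : ∀ z ∈ O, |u z| ≤ M := fun z hz => (hM' z hz).trans (le_max_left _ _)
  set v : ℂ × ℂ → ℝ := O.indicator (fun p => u p + M) with hv
  have hvO : ∀ p ∈ O, v p = u p + M := fun p hp => indicator_of_mem hp _
  have hvn : ∀ p ∉ O, v p = 0 := fun p hp => indicator_of_notMem hp _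
  have hv0 : ∀ p, 0 ≤ v p := by
    intro p
    by_cases hp : p ∈ O
    · rw [hvO p hp]
      have := neg_le_of_abs_le (hM p hp)
      linarith
    · rw [hvn p hp]
  have hvC : ∀ p, v p ≤ 2 * M := by
    intro p
    by_cases hp : p ∈ O
    · rw [hvO p hp]
      have := le_of_abs_le (hM p hp)
      linarith
    · rw [hvn p hp]; linarith
  -- upper semicontinuity
  have husc2 : ∀ p ∈ O, ∀ t, v p < t → ∀ᶠ q in 𝓝 p, v q < t := by
    intro p hp t ht
    rw [hvO p hp] at ht
    have h1 := husc p hp (t - M) (by linarith)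
    rw [hO.nhdsWithin_eq hp] at h1
    filter_upwards [h1, hO.mem_nhds hp] with q hq hqO
    rw [hvO q hqO]
    linarith
  have hvm : Measurable v := by
    apply measurable_of_Iio
    intro t
    by_cases ht : 0 < t
    · have h1 : v ⁻¹' Iio t = Oᶜ ∪ {p | p ∈ O ∧ v p < t} := by
        ext p
        simp only [mem_preimage, mem_Iio, mem_union, mem_compl_iff, mem_ofPred_eq]
        by_cases hp : p ∈ O
        · simp [hp]
        · simp [hp, hvn p hp, ht]
      rw [h1]
      apply hO.measurableSet.compl.union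
      apply IsOpen.measurableSet
      rw [isOpen_iff_mem_nhds]
      rintro p ⟨hp, hpt⟩
      filter_upwards [husc2 p hp t hpt, hO.mem_nhds hp] with q hq hqO
      exact ⟨hqO, hq⟩
    · have h1 : v ⁻¹' Iio t = ∅ := by
        ext p
        simp only [mem_preimage, mem_Iio, mem_empty_iff_false, iff_false, not_lt]
        push Not at ht
        exact ht.trans (hv0 p)
      rw [h1]
      exact MeasurableSet.empty
  have hbdd : Bdd v (2 * M) := ⟨hvm, hv0, hvC⟩
  have hsub : SubOn T.Om v := by
    intro a b hab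
    by_cases ha : a ∈ O
    · have hdisc := hcomp a ha b hab
      have h1 := hsm a b hdisc
      have h2 : ∀ θ : ℝ, u (a + Complex.exp ((θ : ℂ) * Complex.I) • b) =
          v (a + Complex.exp ((θ : ℂ) * Complex.I) • b) - M := by
        intro θ
        rw [hvO _ (hdisc _ (by rw [Complex.norm_exp_ofReal_mul_I]))]
        ring
      simp_rw [h2] at h1
      have h3 : IntervalIntegrable (fun θ : ℝ => v (a + Complex.exp ((θ : ℂ) * Complex.I) • b)) volume
          0 (2 * Real.pi) := by
        rw [intervalIntegrable_iff]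
        apply Measure.integrableOn_of_bounded (M := 2 * M)
        · exact measure_Ioc_lt_top.ne
        · apply Measurable.aestronglyMeasurable
          apply hvm.comp
          apply Continuous.measurable
          fun_prop
        · apply Eventually.of_forall
          intro θ
          rw [Real.norm_eq_abs, abs_of_nonneg (hv0 _)]
          exact hvC _
      rw [intervalIntegral.integral_sub h3 intervalIntegrable_const, intervalIntegral.integral_const,
        smul_eq_mul, sub_zero] at h1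
      rw [hvO a ha]
      set J := ∫ θ in (0:ℝ)..(2 * Real.pi), v (a + Complex.exp ((θ : ℂ) * Complex.I) • b) with hJ
      have h4 : 1 / (2 * Real.pi) * (J - 2 * Real.pi * M) = 1 / (2 * Real.pi) * J - M := by
        field_simp
      rw [h4] at h1
      linarith
    · rw [hvn a ha]
      apply mul_nonneg (by positivity)
      apply intervalIntegral.integral_nonneg (by positivity)
      intro θ _
      exact hv0 _
  -- local constancy
  have hloc : ∀ p0 ∈ O, ∀ᶠ p in 𝓝 p0, v p = v p0 := by
    intro p0 hp0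
    obtain ⟨ρ, hρ, hρO⟩ := Metric.isOpen_iff.mp hO p0 hp0
    have hδ : 0 < ρ / 2 := by positivity
    have hball : ball p0 (2 * (ρ / 2)) ⊆ O := by
      have : 2 * (ρ / 2) = ρ := by ring
      rw [this]; exact hρO
    obtain ⟨c, hc⟩ := T.ae_const hbdd hsub hδ (hball.trans hOT)
    have hval : ∀ p ∈ ball p0 (ρ / 2), v p = c := by
      intro p hp
      have hpO : p ∈ O := hρO (ball_subset_ball (by linarith) hp)
      obtain ⟨r, hr, hrb⟩ := Metric.isOpen_iff.mp isOpen_ball p hp
      apply le_antisymm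
      · apply le_of_ae_const hvm hsub hr
        · exact (hrb.trans (ball_subset_ball (by linarith))).trans (hρO.trans hOT)
        · filter_upwards [hc] with q hq hqr
          exact hq (hrb hqr)
      · by_contra hcon
        push Not at hcon
        have h1 := husc2 p hpO c hcon
        obtain ⟨s, hs, hsb⟩ := Metric.mem_nhds_iff.mp (h1.and (isOpen_ball.mem_nhds hp))
        have h2 : volume (ball p s) = 0 := by
          apply measure_mono_null _ (ae_iff.mp hc)
          intro q hq
          have := hsb hq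
          rw [mem_ofPred_eq] at this ⊢
          intro h3
          exact this.1.ne (h3 this.2)
        exact (measure_ball_pos volume p hs).ne' h2
    filter_upwards [ball_mem_nhds p0 hδ] with p hp
    rw [hval p hp, hval p0 (mem_ball_self hδ)]
  have hlocu : ∀ p0 ∈ O, ∀ᶠ p in 𝓝 p0, p ∈ O ∧ u p = u p0 := by
    intro p0 hp0
    filter_upwards [hloc p0 hp0, hO.mem_nhds hp0] with p hp hpO
    rw [hvO p hpO, hvO p0 hp0] at hp
    exact ⟨hpO, by linarith⟩
  intro z hz w hw
  by_contra hne
  have hA : IsOpen {p | p ∈ O ∧ u p = u z} := by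
    rw [isOpen_iff_mem_nhds]
    rintro p ⟨hp, hpz⟩
    filter_upwards [hlocu p hp] with q hq
    exact ⟨hq.1, hq.2.trans hpz⟩
  have hB : IsOpen {p | p ∈ O ∧ u p ≠ u z} := by
    rw [isOpen_iff_mem_nhds]
    rintro p ⟨hp, hpz⟩
    filter_upwards [hlocu p hp] with q hq
    exact ⟨hq.1, by rw [hq.2]; exact hpz⟩
  obtain ⟨q, hq, hq1, hq2⟩ := hOc _ _ hA hB (by
    intro p hp
    by_cases h : u p = u z
    · left; exact ⟨hp, h⟩
    · right; exact ⟨hp, h⟩) ⟨z, hz, hz, rfl⟩ ⟨w, hw, hw, fun h => hne h.symm⟩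
  exact hq2.2 hq1.2

end

end Pool.Agent.H72.PB
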