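import Pool.Agent.H72.PB15

set_option autoImplicit false

/-! The connected component and the transfer to `Fin 2 → ℂ`. -/

namespace Pool.Agent.H72.PB

open MeasureTheory Set Filter Topology Complex Metric Polynomial
open scoped ENNReal

noncomputable section

namespace Tower

variable (T : Tower)

/-- The component of the origin. -/
def O : Set (ℂ × ℂ) := connectedComponentIn T.Om (0, 0)

lemma isOpen_O : IsOpen T.O := T.isOpen_Om.connectedComponentIn

lemma O_subset : T.O ⊆ T.Om := connectedComponentIn_subset _ _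

lemma zero_mem_O : ((0, 0) : ℂ × ℂ) ∈ T.O := mem_connectedComponentIn T.zero_mem

lemma isConnected_O : IsConnected T.O := isConnected_connectedComponentIn_iff.mpr T.zero_mem

lemma O_eq {a : ℂ × ℂ} (ha : a ∈ T.O) : T.O = connectedComponentIn T.Om a := connectedComponentIn_eq ha

lemma disc_O {a : ℂ × ℂ} (ha : a ∈ T.O) {b : ℂ × ℂ} (hab : ∀ ζ : ℂ, ‖ζ‖ ≤ 1 → a + ζ • b ∈ T.Om) :
    ∀ ζ : ℂ, ‖ζ‖ ≤ 1 → a + ζ • b ∈ T.O := by
  intro ζ hζ
  rw [T.O_eq ha]
  have h1 : IsPreconnected ((fun ζ : ℂ => a + ζ • b) '' closedBall (0:ℂ) 1) := by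
    apply (convex_closedBall (0:ℂ) 1).isPreconnected.image
    apply Continuous.continuousOn
    fun_prop
  apply h1.subset_connectedComponentIn
  · exact ⟨0, by simp, by simp⟩
  · rintro _ ⟨ξ, hξ, rfl⟩
    exact hab ξ (by simpa using hξ)
  · exact ⟨ζ, by simpa using hζ, rfl⟩

/-- The component is relatively closed. -/
lemma closure_O {S : Set (ℂ × ℂ)} (hS : S ⊆ T.O) {p : ℂ × ℂ} (hp : p ∈ closure S) (hpO : p ∈ T.Om) :
    p ∈ T.O := by
  have h1 : IsOpen (connectedComponentIn T.Om p) := T.isOpen_Om.connectedComponentIn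
  have h2 : p ∈ connectedComponentIn T.Om p := mem_connectedComponentIn hpO
  obtain ⟨q, hq1, hq2⟩ := mem_closure_iff.mp hp _ h1 h2
  have h3 := connectedComponentIn_eq hq1
  have h4 := T.O_eq (hS hq2)
  rw [h4, ← h3]
  exact h2

lemma exhaust (c : ℝ) : IsCompact (closure {p | p ∈ T.O ∧ T.phi p < c}) ∧
    closure {p | p ∈ T.O ∧ T.phi p < c} ⊆ T.O := by
  obtain ⟨k, hk⟩ := T.phi_sublevel c
  have h1 : closure {p | p ∈ T.O ∧ T.phi p < c} ⊆ T.K k := by
    apply closure_minimal _ (T.isClosed_K k)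
    rintro p ⟨hp, hpc⟩
    exact hk ⟨T.O_subset hp, hpc⟩
  refine ⟨(T.isCompact_K k).of_isClosed_subset isClosed_closure h1, ?_⟩
  intro p hp
  apply T.closure_O (S := {p | p ∈ T.O ∧ T.phi p < c}) (fun q hq => hq.1) hp
  exact T.D_subset_Om (k + 1) (T.K_subset_D k (h1 hp))

end Tower

/-- The coordinate change. -/
def ee : (Fin 2 → ℂ) ≃L[ℂ] ℂ × ℂ := ContinuousLinearEquiv.finTwoArrow ℂ ℂ

lemma ee_apply (x : Fin 2 → ℂ) : ee x = (x 0, x 1) := rfl

lemma volume_ee {S : Set (ℂ × ℂ)} : volume (ee ⁻¹' S) = volume S := by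
  have h1 : MeasurePreserving (MeasurableEquiv.finTwoArrow (α := ℂ)) volume volume :=
    volume_preserving_finTwoArrow ℂ
  have h2 : (ee : (Fin 2 → ℂ) → ℂ × ℂ) = MeasurableEquiv.finTwoArrow (α := ℂ) := by
    funext x
    rfl
  rw [h2]
  exact h1.measure_preimage_equiv S

theorem main_result : ∃ n : ℕ, 1 ≤ n ∧ ∃ Ω : Set (Fin n → ℂ), IsOpen Ω ∧ IsConnected Ω ∧
      (∃ φ : (Fin n → ℂ) → ℝ, ContinuousOn φ Ω ∧
        (∀ a b : Fin n → ℂ, (∀ ζ : ℂ, ‖ζ‖ ≤ 1 → a + ζ • b ∈ Ω) →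
          φ a ≤ (1 / (2 * Real.pi)) *
            ∫ θ in (0:ℝ)..(2 * Real.pi), φ (a + Complex.exp ((θ : ℂ) * Complex.I) • b)) ∧
        ∀ c : ℝ, IsCompact (closure {z | z ∈ Ω ∧ φ z < c}) ∧
          closure {z | z ∈ Ω ∧ φ z < c} ⊆ Ω) ∧
      (∃ f : (Fin n → ℂ) → ℂ, DifferentiableOn ℂ f Ω ∧
        MeasureTheory.MemLp f 2 (MeasureTheory.volume.restrict Ω) ∧ ∃ z ∈ Ω, f z ≠ 0) ∧
      ∀ u : (Fin n → ℂ) → ℝ, UpperSemicontinuousOn u Ω →
        (∃ M : ℝ, ∀ z ∈ Ω, |u z| ≤ M) →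
        (∀ a b : Fin n → ℂ, (∀ ζ : ℂ, ‖ζ‖ ≤ 1 → a + ζ • b ∈ Ω) →
          u a ≤ (1 / (2 * Real.pi)) *
            ∫ θ in (0:ℝ)..(2 * Real.pi), u (a + Complex.exp ((θ : ℂ) * Complex.I) • b)) →
        ∀ z ∈ Ω, ∀ w ∈ Ω, u z = u w := by
  obtain ⟨T⟩ := exists_tower
  have hlin : ∀ (a b : Fin 2 → ℂ) (ζ : ℂ), ee (a + ζ • b) = ee a + ζ • ee b := by
    intro a b ζ
    rw [map_add, map_smul]
  have hlin' : ∀ (a b : ℂ × ℂ) (ζ : ℂ), ee.symm (a + ζ • b) = ee.symm a + ζ • ee.symm b := by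
    intro a b ζ
    rw [map_add, map_smul]
  refine ⟨2, by norm_num, ee ⁻¹' T.O, T.isOpen_O.preimage ee.continuous, ?_, ?_, ?_, ?_⟩
  · have h1 : ee ⁻¹' T.O = ee.symm '' T.O := by
      rw [ee.symm.image_eq_preimage_symm]
      rfl
    rw [h1]
    exact T.isConnected_O.image _ ee.symm.continuous.continuousOn
  · refine ⟨fun z => T.phi (ee z), ?_, ?_, ?_⟩
    · exact (T.phi_continuousOn.mono T.O_subset).comp ee.continuous.continuousOn (fun z hz => hz)
    · intro a b hab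
      have h1 := T.phi_submean (a := ee a) (b := ee b) (fun ζ hζ => by
        rw [← hlin]
        exact T.O_subset (hab ζ hζ))
      simp_rw [hlin]
      exact h1
    · intro c
      have h1 : {z | z ∈ ee ⁻¹' T.O ∧ T.phi (ee z) < c} = ee ⁻¹' {p | p ∈ T.O ∧ T.phi p < c} := rfl
      have h2 : closure (ee ⁻¹' {p | p ∈ T.O ∧ T.phi p < c}) =
          ee ⁻¹' closure {p | p ∈ T.O ∧ T.phi p < c} :=
        (ee.toHomeomorph.preimage_closure _).symm
      obtain ⟨h3, h4⟩ := T.exhaust c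
      rw [h1, h2]
      refine ⟨?_, preimage_mono h4⟩
      exact ee.toHomeomorph.isClosedEmbedding.isCompact_preimage h3
  · refine ⟨fun _ => 1, differentiableOn_const _, ?_, ee.symm (0, 0), ?_, one_ne_zero⟩
    · have h1 : volume (ee ⁻¹' T.O) < ∞ := by
        rw [volume_ee]
        exact (measure_mono T.O_subset).trans_lt T.vol_Om
      have : IsFiniteMeasure (volume.restrict (ee ⁻¹' T.O)) := ⟨by rwa [Measure.restrict_apply_univ]⟩
      exact memLp_const 1
    · rw [mem_preimage, ee.apply_symm_apply]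
      exact T.zero_mem_O
  · intro u husc hbdd hsm z hz w hw
    have h1 := T.liouville T.isOpen_O T.isConnected_O.isPreconnected T.O_subset
      (fun a ha b hab => T.disc_O ha hab) (u := fun p => u (ee.symm p)) ?_ ?_ ?_ (ee z) hz (ee w) hw
    · simpa using h1
    · intro p hp y hy
      have h2 := husc (ee.symm p) (by rw [mem_preimage, ee.apply_symm_apply]; exact hp) y hy
      have h3 : Tendsto ee.symm (𝓝[T.O] p) (𝓝[ee ⁻¹' T.O] (ee.symm p)) := by
        apply tendsto_nhdsWithin_of_tendsto_nhds_of_eventually_within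
        · exact (ee.symm.continuous.tendsto p).mono_left nhdsWithin_le_nhds
        · filter_upwards [self_mem_nhdsWithin] with q hq
          rw [mem_preimage, ee.apply_symm_apply]
          exact hq
      exact h3.eventually h2
    · obtain ⟨M, hM⟩ := hbdd
      exact ⟨M, fun p hp => hM _ (by rw [mem_preimage, ee.apply_symm_apply]; exact hp)⟩
    · intro a b hab
      have h2 := hsm (ee.symm a) (ee.symm b) (fun ζ hζ => by
        rw [← hlin', mem_preimage, ee.apply_symm_apply]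
        exact hab ζ hζ)
      simp_rw [← hlin'] at h2
      exact h2

end

end Pool.Agent.H72.PB
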