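import Pool.Agent.H72.PB1

set_option autoImplicit false

/-! The energy inequality along a holomorphic divergence-free field. -/

namespace Pool.Agent.H72.PB

open MeasureTheory Set Filter Topology Complex Metric

noncomputable section

/-- The Levi form (as a real second derivative). -/
def Lev (v : ℂ × ℂ → ℝ) (p h : ℂ × ℂ) : ℝ :=
  fderiv ℝ (fderiv ℝ v) p h h + fderiv ℝ (fderiv ℝ v) p (I • h) (I • h)

lemma second_field {v : ℂ × ℂ → ℝ} (hv : ContDiff ℝ 2 v) {V : ℂ × ℂ → ℂ × ℂ}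
    (hV : ContDiff ℂ 1 V) (p : ℂ × ℂ) :
    fderiv ℝ (fun q => fderiv ℝ v q (V q)) p (V p) +
      fderiv ℝ (fun q => fderiv ℝ v q (I • V q)) p (I • V p) = Lev v p (V p) := by
  have hd : DifferentiableAt ℝ (fderiv ℝ v) p :=
    ((hv.fderiv_right (m := 1) (by norm_num)).differentiable one_ne_zero) p
  have hVC : DifferentiableAt ℂ V p := (hV.differentiable one_ne_zero) p
  have hVR : HasFDerivAt V ((fderiv ℂ V p).restrictScalars ℝ) p := hVC.hasFDerivAt.restrictScalars ℝ
  have hIV : HasFDerivAt (fun q => I • V q) ((I • fderiv ℂ V p).restrictScalars ℝ) p :=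
    (hVC.hasFDerivAt.const_smul I).restrictScalars ℝ
  rw [fderiv_clm_apply hd hVR.differentiableAt, fderiv_clm_apply hd hIV.differentiableAt,
    hVR.fderiv, hIV.fderiv]
  simp only [_root_.add_apply, ContinuousLinearMap.comp_apply, ContinuousLinearMap.flip_apply,
    ContinuousLinearMap.coe_restrictScalars', _root_.smul_apply, map_smul, Lev]
  have h2 : fderiv ℝ v p (I • I • fderiv ℂ V p (V p)) = - fderiv ℝ v p (fderiv ℂ V p (V p)) := by
    rw [smul_smul, I_mul_I, neg_one_smul, map_neg]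
  rw [h2]
  ring

/-- Energy inequality for a nonnegative bounded function whose Levi form along the Hamiltonian
field of `P` is nonnegative. -/
theorem energy {P : ℂ × ℂ → ℂ} (hP : ContDiff ℂ 2 P) {v ψ : ℂ × ℂ → ℝ} (hv : ContDiff ℝ 2 v)
    (hψ : ContDiff ℝ 1 ψ) (hc : HasCompactSupport ψ) {C : ℝ}
    (hC : ∀ p ∈ tsupport ψ, 0 ≤ v p ∧ v p ≤ C) (hL : ∀ p ∈ tsupport ψ, 0 ≤ Lev v p (ham P p)) :
    ∫ p, ψ p ^ 2 * ((fderiv ℝ v p (ham P p)) ^ 2 + (fderiv ℝ v p (I • ham P p)) ^ 2) ≤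
      4 * C ^ 2 * ∫ p, ((fderiv ℝ ψ p (ham P p)) ^ 2 + (fderiv ℝ ψ p (I • ham P p)) ^ 2) := by
  have hham : ContDiff ℝ 1 (ham P) := (ham_contDiff hP).restrict_scalars ℝ
  have hIham : ContDiff ℝ 1 (fun p => I • ham P p) :=
    ((ham_contDiff hP).const_smul I).restrict_scalars ℝ
  have hdv : ContDiff ℝ 1 (fderiv ℝ v) := hv.fderiv_right (by norm_num)
  have hX : ContDiff ℝ 1 (fun p => fderiv ℝ v p (ham P p)) := hdv.clm_apply hham
  have hY : ContDiff ℝ 1 (fun p => fderiv ℝ v p (I • ham P p)) := hdv.clm_apply hIham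
  have hv1 : ContDiff ℝ 1 v := hv.of_le (by norm_num)
  -- the two test functions
  have hG : ∀ {w : ℂ × ℂ → ℝ}, ContDiff ℝ 1 w → ContDiff ℝ 1 (fun p => v p * ψ p ^ 2 * w p) ∧
      HasCompactSupport (fun p => v p * ψ p ^ 2 * w p) := by
    intro w hw
    refine ⟨(hv1.mul (hψ.pow 2)).mul hw, ?_⟩
    apply HasCompactSupport.mul_right
    apply HasCompactSupport.mul_left
    have : (fun p => ψ p ^ 2) = fun p => ψ p * ψ p := by
      funext p; ring
    rw [this]
    exact hc.mul_right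
  have hder : ∀ {w : ℂ × ℂ → ℝ}, ContDiff ℝ 1 w → ∀ p h, fderiv ℝ (fun p => v p * ψ p ^ 2 * w p) p h =
      fderiv ℝ v p h * ψ p ^ 2 * w p + 2 * v p * ψ p * fderiv ℝ ψ p h * w p +
        v p * ψ p ^ 2 * fderiv ℝ w p h := by
    intro w hw p h
    have e1 := ((hv1.differentiable one_ne_zero) p).hasFDerivAt
    have e2 := ((hψ.differentiable one_ne_zero) p).hasFDerivAt
    have e3 := ((hw.differentiable one_ne_zero) p).hasFDerivAt
    have e4 : HasFDerivAt (fun p => v p * ψ p ^ 2 * w p) _ p := (e1.mul (e2.pow 2)).mul e3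
    rw [e4.fderiv]
    simp only [_root_.add_apply, _root_.smul_apply, smul_eq_mul, Pi.mul_apply, nsmul_eq_mul]
    norm_num
    ring
  obtain ⟨hGX, hGXc⟩ := hG hX
  obtain ⟨hGY, hGYc⟩ := hG hY
  have hI1 := (integral_ham hP hGX hGXc).1
  have hI2 := (integral_ham hP hGY hGYc).2
  have hint : ∀ {f : ℂ × ℂ → ℝ} {V : ℂ × ℂ → ℂ × ℂ}, ContDiff ℝ 1 f → HasCompactSupport f →
      Continuous V → Integrable (fun p => fderiv ℝ f p (V p)) := by
    intro f V hf hfc hVc
    apply Continuous.integrable_of_hasCompactSupport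
    · exact (hf.continuous_fderiv one_ne_zero).clm_apply hVc
    · have h1 : HasCompactSupport (fderiv ℝ f) := hfc.fderiv (𝕜 := ℝ)
      refine h1.mono ?_
      intro p hp
      simp only [Function.mem_support, ne_eq] at hp ⊢
      intro h
      apply hp
      rw [h]
      simp
  have hi1 := hint hGX hGXc hham.continuous
  have hi2 := hint hGY hGYc hIham.continuous
  have hi3 : Integrable (fun p => ψ p ^ 2 * ((fderiv ℝ v p (ham P p)) ^ 2 +
      (fderiv ℝ v p (I • ham P p)) ^ 2)) := by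
    apply Continuous.integrable_of_hasCompactSupport
    · exact (hψ.continuous.pow 2).mul ((hX.continuous.pow 2).add (hY.continuous.pow 2))
    · apply HasCompactSupport.mul_right
      have : (fun p => ψ p ^ 2) = fun p => ψ p * ψ p := by
        funext p; ring
      rw [this]
      exact hc.mul_right
  have hi4 : Integrable (fun p => (fderiv ℝ ψ p (ham P p)) ^ 2 +
      (fderiv ℝ ψ p (I • ham P p)) ^ 2) := by
    apply Continuous.integrable_of_hasCompactSupport
    · have c1 := (hψ.continuous_fderiv one_ne_zero).clm_apply hham.continuous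
      have c2 := (hψ.continuous_fderiv one_ne_zero).clm_apply hIham.continuous
      exact (c1.pow 2).add (c2.pow 2)
    · have h1 : HasCompactSupport (fderiv ℝ ψ) := hc.fderiv (𝕜 := ℝ)
      refine h1.mono ?_
      intro p hp
      simp only [Function.mem_support, ne_eq] at hp ⊢
      intro h
      apply hp
      rw [h]
      simp
  have hpt : ∀ p, (1 / 2) * (ψ p ^ 2 * ((fderiv ℝ v p (ham P p)) ^ 2 +
      (fderiv ℝ v p (I • ham P p)) ^ 2)) - 2 * C ^ 2 * ((fderiv ℝ ψ p (ham P p)) ^ 2 +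
      (fderiv ℝ ψ p (I • ham P p)) ^ 2) ≤
      fderiv ℝ (fun p => v p * ψ p ^ 2 * fderiv ℝ v p (ham P p)) p (ham P p) +
      fderiv ℝ (fun p => v p * ψ p ^ 2 * fderiv ℝ v p (I • ham P p)) p (I • ham P p) := by
    intro p
    rw [hder hX, hder hY]
    by_cases hp : p ∈ tsupport ψ
    · obtain ⟨h1, h2⟩ := hC p hp
      have h3 := hL p hp
      have h4 := second_field hv (ham_contDiff hP) p
      have h5 : v p ^ 2 ≤ C ^ 2 := pow_le_pow_left₀ h1 h2 2
      set a := fderiv ℝ v p (ham P p)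
      set b := fderiv ℝ v p (I • ham P p)
      set x := fderiv ℝ ψ p (ham P p)
      set y := fderiv ℝ ψ p (I • ham P p)
      set s := fderiv ℝ (fun q => fderiv ℝ v q (ham P q)) p (ham P p)
      set t := fderiv ℝ (fun q => fderiv ℝ v q (I • ham P q)) p (I • ham P p)
      have h6 : 0 ≤ v p * ψ p ^ 2 * (s + t) := by
        rw [h4]; positivity
      have h7 : v p ^ 2 * x ^ 2 ≤ C ^ 2 * x ^ 2 := mul_le_mul_of_nonneg_right h5 (sq_nonneg _)
      have h8 : v p ^ 2 * y ^ 2 ≤ C ^ 2 * y ^ 2 := mul_le_mul_of_nonneg_right h5 (sq_nonneg _)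
      nlinarith [sq_nonneg (ψ p * a + 2 * v p * x), sq_nonneg (ψ p * b + 2 * v p * y)]
    · have h1 : ψ p = 0 := image_eq_zero_of_notMem_tsupport hp
      have h2 : fderiv ℝ ψ p = 0 := by
        have := tsupport_fderiv_subset ℝ (f := ψ)
        exact image_eq_zero_of_notMem_tsupport (fun h => hp (this h))
      simp [h1, h2]
  have h9 : ∫ p, ((1 / 2) * (ψ p ^ 2 * ((fderiv ℝ v p (ham P p)) ^ 2 +
      (fderiv ℝ v p (I • ham P p)) ^ 2)) - 2 * C ^ 2 * ((fderiv ℝ ψ p (ham P p)) ^ 2 +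
      (fderiv ℝ ψ p (I • ham P p)) ^ 2)) ≤
      ∫ p, (fderiv ℝ (fun p => v p * ψ p ^ 2 * fderiv ℝ v p (ham P p)) p (ham P p) +
      fderiv ℝ (fun p => v p * ψ p ^ 2 * fderiv ℝ v p (I • ham P p)) p (I • ham P p)) :=
    integral_mono ((hi3.const_mul _).sub (hi4.const_mul _)) (hi1.add hi2) hpt
  rw [integral_add hi1 hi2, hI1, hI2, integral_sub (hi3.const_mul _) (hi4.const_mul _),
    integral_const_mul, integral_const_mul] at h9
  linarith

end

end Pool.Agent.H72.PB
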