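import Pool.Agent.H72.PB2

set_option autoImplicit false

/-! Sub-mean value property implies a nonnegative Levi form, for smooth functions. -/

namespace Pool.Agent.H72.PB

open MeasureTheory Set Filter Topology Complex Metric

noncomputable section

lemma taylor_two {E : Type*} [NormedAddCommGroup E] [NormedSpace ℝ E] {f : E → ℝ}
    (hf : ContDiff ℝ 2 f) (x : E) {ε : ℝ} (hε : 0 < ε) :
    ∃ δ > (0:ℝ), ∀ k : E, ‖k‖ < δ →
      |f (x + k) - f x - fderiv ℝ f x k - (1 / 2) * fderiv ℝ (fderiv ℝ f) x k k| ≤ ε * ‖k‖ ^ 2 := by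
  have hd : DifferentiableAt ℝ (fderiv ℝ f) x :=
    ((hf.fderiv_right (m := 1) (by norm_num)).differentiable one_ne_zero) x
  have hsymm : ∀ a b, fderiv ℝ (fderiv ℝ f) x a b = fderiv ℝ (fderiv ℝ f) x b a :=
    (hf.contDiffAt.isSymmSndFDerivAt (by simp)).eq
  have hO := hasFDerivAt_iff_isLittleO_nhds_zero.mp hd.hasFDerivAt
  have h1 := hO.def hε
  obtain ⟨δ, hδ, hball⟩ := Metric.eventually_nhds_iff.mp h1
  refine ⟨δ, hδ, fun k hk => ?_⟩
  set T := fderiv ℝ (fderiv ℝ f) x with hT
  set g : E → ℝ := fun k => f (x + k) - f x - fderiv ℝ f x k - (1 / 2) * T k k with hg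
  have hgd : ∀ y, HasFDerivAt g (fderiv ℝ f (x + y) - fderiv ℝ f x - T y) y := by
    intro y
    have e1 : HasFDerivAt (fun k => f (x + k)) (fderiv ℝ f (x + y)) y := by
      have := ((hf.differentiable two_ne_zero) (x + y)).hasFDerivAt
      have h2 : HasFDerivAt (fun k : E => x + k) (ContinuousLinearMap.id ℝ E) y :=
        (hasFDerivAt_id y).const_add x
      have h3 := HasFDerivAt.comp y this h2
      rw [ContinuousLinearMap.comp_id] at h3
      exact h3
    have e2 : HasFDerivAt (fun k => fderiv ℝ f x k) (fderiv ℝ f x) y := (fderiv ℝ f x).hasFDerivAt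
    have e3 : HasFDerivAt (fun k => T k k) (T y + T.flip y) y := by
      have h3 : HasFDerivAt (fun k => T k) T y := T.hasFDerivAt
      have h4 := h3.clm_apply (hasFDerivAt_id y)
      simpa using h4
    have e4 := ((e1.sub_const (f x)).sub e2).sub (e3.const_mul (1 / 2))
    refine e4.congr_fderiv ?_
    ext h
    have := hsymm y h
    simp only [_root_.sub_apply, _root_.smul_apply, _root_.add_apply,
      ContinuousLinearMap.flip_apply, smul_eq_mul]
    rw [this]
    ring
  have hconv : Convex ℝ (closedBall (0:E) ‖k‖) := convex_closedBall _ _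
  have hbound : ∀ y ∈ closedBall (0:E) ‖k‖, ‖fderiv ℝ f (x + y) - fderiv ℝ f x - T y‖ ≤ ε * ‖k‖ := by
    intro y hy
    rw [mem_closedBall, dist_zero_right] at hy
    have h2 := hball (y := y) (by rw [dist_zero_right]; linarith)
    refine h2.trans ?_
    exact mul_le_mul_of_nonneg_left hy hε.le
  have h5 := hconv.norm_image_sub_le_of_norm_hasFDerivWithin_le
    (fun y _ => (hgd y).hasFDerivWithinAt) hbound (x := 0) (y := k) (by simp) (by simp)
  have h6 : g 0 = 0 := by simp [hg]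
  rw [h6, sub_zero, sub_zero, Real.norm_eq_abs] at h5
  calc |g k| ≤ ε * ‖k‖ * ‖k‖ := h5
    _ = ε * ‖k‖ ^ 2 := by ring

/-- Sub-mean value property at a point along small circles implies that the Levi form is
nonnegative. -/
theorem lev_nonneg {v : ℂ × ℂ → ℝ} (hv : ContDiff ℝ 2 v) (p h : ℂ × ℂ) {r0 : ℝ} (hr0 : 0 < r0)
    (hs : ∀ r : ℝ, 0 < r → r < r0 → v p ≤ (2 * Real.pi)⁻¹ *
      ∫ θ in (0:ℝ)..(2 * Real.pi), v (p + Complex.exp ((θ : ℂ) * Complex.I) • ((r:ℂ) • h))) :
    0 ≤ Lev v p h := by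
  have hpi : 0 < Real.pi := Real.pi_pos
  apply le_of_forall_pos_le_add
  intro ε hε
  rw [← sub_nonneg, ← sub_nonneg] at *
  obtain ⟨δ, hδ, hT⟩ := taylor_two hv p (ε := ε / (4 * (‖h‖ ^ 2 + 1))) (by positivity)
  obtain ⟨r, hr, hrr0, hrδ⟩ : ∃ r : ℝ, 0 < r ∧ r < r0 ∧ r * ‖h‖ < δ := by
    refine ⟨min (r0 / 2) (δ / (2 * (‖h‖ + 1))), ?_, ?_, ?_⟩
    · have : 0 < δ / (2 * (‖h‖ + 1)) := by positivity
      exact lt_min (by linarith) this
    · exact lt_of_le_of_lt (min_le_left _ _) (by linarith)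
    · have h1 : min (r0 / 2) (δ / (2 * (‖h‖ + 1))) * ‖h‖ ≤ δ / (2 * (‖h‖ + 1)) * ‖h‖ :=
        mul_le_mul_of_nonneg_right (min_le_right _ _) (norm_nonneg _)
      have h2 : δ / (2 * (‖h‖ + 1)) * ‖h‖ < δ := by
        rw [div_mul_eq_mul_div, div_lt_iff₀ (by positivity)]
        nlinarith [norm_nonneg h]
      linarith
  have hs1 := hs r hr hrr0
  set D1 := fderiv ℝ v p h with hD1
  set D2 := fderiv ℝ v p (I • h) with hD2
  set T := fderiv ℝ (fderiv ℝ v) p with hTdef
  have hsplit : ∀ θ : ℝ, Complex.exp ((θ : ℂ) * Complex.I) • ((r:ℂ) • h) =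
      (r * Real.cos θ) • h + (r * Real.sin θ) • (I • h) := by
    intro θ
    rw [Complex.exp_mul_I, ← Complex.ofReal_cos, ← Complex.ofReal_sin, smul_smul]
    rw [← Complex.coe_smul (r * Real.cos θ) h, ← Complex.coe_smul (r * Real.sin θ) (I • h), smul_smul,
      ← add_smul]
    congr 1
    push_cast
    ring
  have hup : ∀ θ : ℝ, v (p + Complex.exp ((θ : ℂ) * Complex.I) • ((r:ℂ) • h)) ≤
      v p + r * (Real.cos θ * D1 + Real.sin θ * D2) + (1 / 2) * r ^ 2 * (Real.cos θ ^ 2 * T h h +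
        Real.sin θ ^ 2 * T (I • h) (I • h) +
        Real.sin θ * Real.cos θ * (T h (I • h) + T (I • h) h)) + ε / 4 * r ^ 2 := by
    intro θ
    have hn : ‖Complex.exp ((θ : ℂ) * Complex.I) • ((r:ℂ) • h)‖ = r * ‖h‖ := by
      rw [norm_smul, norm_smul, Complex.norm_exp_ofReal_mul_I, one_mul, Complex.norm_real,
        Real.norm_eq_abs, abs_of_pos hr]
    have h1 := hT (Complex.exp ((θ : ℂ) * Complex.I) • ((r:ℂ) • h)) (by rw [hn]; exact hrδ)
    rw [hn] at h1
    have h2 := (abs_le.mp h1).2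
    have h3 : ε / (4 * (‖h‖ ^ 2 + 1)) * (r * ‖h‖) ^ 2 ≤ ε / 4 * r ^ 2 := by
      rw [div_mul_eq_mul_div, div_mul_eq_mul_div, div_le_div_iff₀ (by positivity) (by norm_num)]
      have : 0 ≤ ε * r ^ 2 := by positivity
      nlinarith [sq_nonneg ‖h‖]
    have h4 : fderiv ℝ v p (Complex.exp ((θ : ℂ) * Complex.I) • ((r:ℂ) • h)) =
        r * (Real.cos θ * D1 + Real.sin θ * D2) := by
      rw [hsplit, map_add, map_smul, map_smul, smul_eq_mul, smul_eq_mul]
      ring
    have h5 : T (Complex.exp ((θ : ℂ) * Complex.I) • ((r:ℂ) • h))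
        (Complex.exp ((θ : ℂ) * Complex.I) • ((r:ℂ) • h)) =
        r ^ 2 * (Real.cos θ ^ 2 * T h h +
        Real.sin θ ^ 2 * T (I • h) (I • h) +
        Real.sin θ * Real.cos θ * (T h (I • h) + T (I • h) h)) := by
      rw [hsplit]
      simp only [map_add, map_smul, _root_.add_apply, _root_.smul_apply, smul_eq_mul]
      ring
    rw [h4, h5] at h2
    linarith
  have hcont : Continuous (fun θ : ℝ => v (p + Complex.exp ((θ : ℂ) * Complex.I) • ((r:ℂ) • h))) := by
    apply hv.continuous.comp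
    fun_prop
  have hint : (∫ θ in (0:ℝ)..(2 * Real.pi), v (p + Complex.exp ((θ : ℂ) * Complex.I) • ((r:ℂ) • h))) ≤
      ∫ θ in (0:ℝ)..(2 * Real.pi), (v p + r * (Real.cos θ * D1 + Real.sin θ * D2) +
        (1 / 2) * r ^ 2 * (Real.cos θ ^ 2 * T h h +
        Real.sin θ ^ 2 * T (I • h) (I • h) +
        Real.sin θ * Real.cos θ * (T h (I • h) + T (I • h) h)) + ε / 4 * r ^ 2) := by
    apply intervalIntegral.integral_mono_on (by positivity)
    · exact hcont.intervalIntegrable _ _
    · apply Continuous.intervalIntegrable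
      fun_prop
    · intro θ _
      exact hup θ
  have hval : ∫ θ in (0:ℝ)..(2 * Real.pi), (v p + r * (Real.cos θ * D1 + Real.sin θ * D2) +
        (1 / 2) * r ^ 2 * (Real.cos θ ^ 2 * T h h +
        Real.sin θ ^ 2 * T (I • h) (I • h) +
        Real.sin θ * Real.cos θ * (T h (I • h) + T (I • h) h)) + ε / 4 * r ^ 2) =
      2 * Real.pi * v p + (1 / 2) * r ^ 2 * (Real.pi * (T h h + T (I • h) (I • h))) +
        2 * Real.pi * (ε / 4 * r ^ 2) := by
    have e1 : ∀ θ : ℝ, (v p + r * (Real.cos θ * D1 + Real.sin θ * D2) +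
        (1 / 2) * r ^ 2 * (Real.cos θ ^ 2 * T h h +
        Real.sin θ ^ 2 * T (I • h) (I • h) +
        Real.sin θ * Real.cos θ * (T h (I • h) + T (I • h) h)) + ε / 4 * r ^ 2) =
        (((((v p + ε / 4 * r ^ 2) + (r * D1) * Real.cos θ) + (r * D2) * Real.sin θ) +
          ((1 / 2) * r ^ 2 * T h h) * Real.cos θ ^ 2) +
          ((1 / 2) * r ^ 2 * T (I • h) (I • h)) * Real.sin θ ^ 2) +
          ((1 / 2) * r ^ 2 * (T h (I • h) + T (I • h) h)) * (Real.sin θ * Real.cos θ) := by
      intro θ; ring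
    simp_rw [e1]
    have c : ∀ {f : ℝ → ℝ}, Continuous f → IntervalIntegrable f volume 0 (2 * Real.pi) :=
      fun hf => hf.intervalIntegrable _ _
    rw [intervalIntegral.integral_add (c (by fun_prop)) (c (by fun_prop)),
      intervalIntegral.integral_add (c (by fun_prop)) (c (by fun_prop)),
      intervalIntegral.integral_add (c (by fun_prop)) (c (by fun_prop)),
      intervalIntegral.integral_add (c (by fun_prop)) (c (by fun_prop)),
      intervalIntegral.integral_add (c (by fun_prop)) (c (by fun_prop)),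
      intervalIntegral.integral_const_mul, intervalIntegral.integral_const_mul,
      intervalIntegral.integral_const_mul, intervalIntegral.integral_const_mul,
      intervalIntegral.integral_const_mul, intervalIntegral.integral_const, integral_cos,
      integral_sin, integral_cos_sq, integral_sin_sq, integral_sin_mul_cos₁]
    simp
    ring
  rw [hval] at hint
  have hfin : v p ≤ (2 * Real.pi)⁻¹ * (2 * Real.pi * v p + (1 / 2) * r ^ 2 * (Real.pi * (T h h + T (I • h) (I • h))) +
        2 * Real.pi * (ε / 4 * r ^ 2)) :=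
    hs1.trans (mul_le_mul_of_nonneg_left hint (by positivity))
  have h7 : (2 * Real.pi)⁻¹ * (2 * Real.pi * v p + (1 / 2) * r ^ 2 * (Real.pi * (T h h + T (I • h) (I • h))) +
        2 * Real.pi * (ε / 4 * r ^ 2)) = v p + r ^ 2 / 4 * ((T h h + T (I • h) (I • h)) + ε) := by
    field_simp
    ring
  rw [h7] at hfin
  have h8 : 0 ≤ r ^ 2 / 4 * ((T h h + T (I • h) (I • h)) + ε) := by linarith
  have h9 : 0 ≤ (T h h + T (I • h) (I • h)) + ε := by
    by_contra hneg
    push Not at hneg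
    have : 0 < r ^ 2 / 4 := by positivity
    nlinarith
  simpa [Lev] using h9

end

end Pool.Agent.H72.PB
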