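import Mathlib

set_option autoImplicit false

/-! Area estimates for one-variable polynomials. -/

namespace Pool.Agent.H72.PB

open MeasureTheory Set Filter Topology Complex Metric Polynomial
open scoped ENNReal

noncomputable section

/-- Area of a sublevel set of a polynomial. -/
lemma volume_poly_le (q : ℂ[X]) {m : ℕ} (hm : 1 ≤ m) (hq : q.natDegree = m) {ρ t : ℝ} (ht : 0 ≤ t)
    (hρ : ρ ≤ ‖q.leadingCoeff‖ * t ^ m) :
    volume {w : ℂ | ‖q.eval w‖ ≤ ρ} ≤ (m : ℝ≥0∞) * (ENNReal.ofReal (Real.pi * t ^ 2)) := by
  classical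
  have hq0 : q ≠ 0 := by
    rintro rfl
    simp at hq
    omega
  have hlc : 0 < ‖q.leadingCoeff‖ := by
    rw [norm_pos_iff]
    exact leadingCoeff_ne_zero.mpr hq0
  have hsplit : q.Splits := IsAlgClosed.splits q
  have hcard : q.roots.card = m := by
    rw [← hq]
    exact hsplit.natDegree_eq_card_roots.symm
  have heval : ∀ w, ‖q.eval w‖ = ‖q.leadingCoeff‖ * (q.roots.map (fun r => ‖w - r‖)).prod := by
    intro w
    conv_lhs => rw [hsplit.eq_prod_roots]
    rw [eval_mul, eval_C, norm_mul, eval_multiset_prod, Multiset.map_map]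
    congr 1
    have : ∀ s : Multiset ℂ, ‖(s.map (eval w ∘ fun a => X - C a)).prod‖ = (s.map (fun r => ‖w - r‖)).prod := by
      intro s
      induction s using Multiset.induction_on with
      | empty => simp
      | cons a s ih =>
        rw [Multiset.map_cons, Multiset.prod_cons, Multiset.map_cons, Multiset.prod_cons, norm_mul, ih]
        simp
    exact this _
  have hsub : {w : ℂ | ‖q.eval w‖ ≤ ρ} ⊆ ⋃ r ∈ q.roots.toFinset, closedBall r t := by
    intro w hw
    rw [mem_ofPred_eq] at hw
    by_contra hcon
    simp only [mem_iUnion, Multiset.mem_toFinset, exists_prop, not_exists, not_and, mem_closedBall,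
      dist_eq_norm, not_le] at hcon
    rw [heval] at hw
    have h1 : ∀ s : Multiset ℂ, (∀ r ∈ s, t < ‖w - r‖) → 1 ≤ s.card →
        t ^ s.card < (s.map (fun r => ‖w - r‖)).prod := by
      intro s
      induction s using Multiset.induction_on with
      | empty => intro _ h; simp at h
      | cons a s ih =>
        intro h _
        rw [Multiset.card_cons, Multiset.map_cons, Multiset.prod_cons, pow_succ, mul_comm]
        have ha := h a (Multiset.mem_cons_self a s)
        rcases Nat.eq_zero_or_pos s.card with h0 | h0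
        · rw [Multiset.card_eq_zero] at h0
          subst h0
          simpa using ha
        · have h2 := ih (fun r hr => h r (Multiset.mem_cons_of_mem hr)) h0
          have h3 : 0 ≤ t ^ s.card := pow_nonneg ht _
          exact mul_lt_mul'' ha h2 ht h3
    have h2 := h1 q.roots hcon (by rw [hcard]; exact hm)
    rw [hcard] at h2
    have h3 := mul_lt_mul_of_pos_left h2 hlc
    linarith
  calc volume {w : ℂ | ‖q.eval w‖ ≤ ρ} ≤ volume (⋃ r ∈ q.roots.toFinset, closedBall r t) :=
        measure_mono hsub
    _ ≤ ∑ r ∈ q.roots.toFinset, volume (closedBall r t) := measure_biUnion_finset_le _ _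
    _ = ∑ r ∈ q.roots.toFinset, ENNReal.ofReal (Real.pi * t ^ 2) := by
        apply Finset.sum_congr rfl
        intro r _
        rw [Complex.volume_closedBall, mul_comm Real.pi, ENNReal.ofReal_mul (by positivity),
          ENNReal.ofReal_pow ht]
        congr 1
        rw [← NNReal.coe_real_pi, ENNReal.ofReal_coe_nnreal]
    _ = (q.roots.toFinset.card : ℝ≥0∞) * ENNReal.ofReal (Real.pi * t ^ 2) := by
        rw [Finset.sum_const, nsmul_eq_mul]
    _ ≤ (m : ℝ≥0∞) * (ENNReal.ofReal (Real.pi * t ^ 2)) := by
        gcongr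
        rw [← hcard]
        exact Multiset.toFinset_card_le _

/-- The number of preimages of a point under a polynomial. -/
lemma card_preimage_le (q : ℂ[X]) (hq : 1 ≤ q.natDegree) (s : ℂ) (T : Finset ℂ)
    (hT : ∀ w ∈ T, q.eval w = s) : T.card ≤ q.natDegree := by
  classical
  have hne : q - C s ≠ 0 := by
    intro h
    have : q = C s := sub_eq_zero.mp h
    rw [this, natDegree_C] at hq
    omega
  have hsub : T ⊆ (q - C s).roots.toFinset := by
    intro w hw
    rw [Multiset.mem_toFinset, mem_roots hne, IsRoot.def, eval_sub, eval_C, hT w hw, sub_self]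
  calc T.card ≤ (q - C s).roots.toFinset.card := Finset.card_le_card hsub
    _ ≤ (q - C s).roots.card := Multiset.toFinset_card_le _
    _ ≤ (q - C s).natDegree := card_roots' _
    _ = q.natDegree := natDegree_sub_C

lemma exists_nhds_injOn (q : ℂ[X]) {w : ℂ} (hw : q.derivative.eval w ≠ 0) :
    ∃ U : Set ℂ, IsOpen U ∧ w ∈ U ∧ InjOn (fun z => q.eval z) U := by
  have h1 : HasStrictDerivAt (fun z => q.eval z) (q.derivative.eval w) w := q.hasStrictDerivAt w
  have h2 := h1.hasStrictFDerivAt_equiv hw
  refine ⟨(h2.toOpenPartialHomeomorph _).source, (h2.toOpenPartialHomeomorph _).open_source,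
    h2.mem_toOpenPartialHomeomorph_source, ?_⟩
  have h3 := (h2.toOpenPartialHomeomorph _).injOn
  simpa using h3

lemma det_mul_complex (a : ℂ) :
    ((ContinuousLinearMap.toSpanSingleton ℂ a).restrictScalars ℝ).det = ‖a‖ ^ 2 := by
  have h1 : ((ContinuousLinearMap.toSpanSingleton ℂ a).restrictScalars ℝ).det =
      LinearMap.det (((ContinuousLinearMap.toSpanSingleton ℂ a) : ℂ →ₗ[ℂ] ℂ).restrictScalars ℝ) := rfl
  rw [h1, LinearMap.det_restrictScalars, Algebra.norm_complex_apply, Complex.normSq_eq_norm_sq]
  congr 2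
  rw [LinearMap.det_ring]
  simp

/-- The area inequality for a polynomial map. -/
theorem area_formula_le (q : ℂ[X]) (hq : 1 ≤ q.natDegree) {F : ℂ → ℝ≥0∞} (hF : Measurable F) :
    ∫⁻ w, ENNReal.ofReal (‖q.derivative.eval w‖ ^ 2) * F (q.eval w) ≤
      (q.natDegree : ℝ≥0∞) * ∫⁻ s, F s := by
  classical
  set A : Set ℂ := {w | q.derivative.eval w ≠ 0} with hA
  have hAopen : IsOpen A := isOpen_ne_fun q.derivative.continuous continuous_const
  choose! U hU using fun (w : ℂ) (hw : w ∈ A) => exists_nhds_injOn q (w := w) hw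
  obtain ⟨T, hTA, hTc, hcov⟩ := TopologicalSpace.countable_cover_nhdsWithin (s := A) (f := U)
    (fun w hw => mem_nhdsWithin_of_mem_nhds ((hU w hw).1.mem_nhds (hU w hw).2.1))
  -- the polynomial is injective on countably many pieces
  by_cases hTe : T.Nonempty
  swap
  · have hA0 : A = ∅ := by
      rw [not_nonempty_iff_eq_empty] at hTe
      rw [hTe] at hcov
      simpa using hcov
    have h1 : ∀ w, ENNReal.ofReal (‖q.derivative.eval w‖ ^ 2) * F (q.eval w) = 0 := by
      intro w
      have : w ∉ A := by rw [hA0]; simp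
      rw [hA, mem_ofPred_eq, not_not] at this
      rw [this]
      simp
    rw [lintegral_congr h1]
    simp
  obtain ⟨e, he⟩ := hTc.exists_eq_range hTe
  set B : ℕ → Set ℂ := fun n => U (e n) with hB
  have heA : ∀ n, e n ∈ A := fun n => hTA (by rw [he]; exact mem_range_self n)
  have hBopen : ∀ n, IsOpen (B n) := fun n => (hU _ (heA n)).1
  have hBinj : ∀ n, InjOn (fun z => q.eval z) (B n) := fun n => (hU _ (heA n)).2.2
  set D : ℕ → Set ℂ := fun n => A ∩ disjointed B n with hD
  have hDm : ∀ n, MeasurableSet (D n) := fun n =>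
    hAopen.measurableSet.inter (MeasurableSet.disjointed (fun i => (hBopen i).measurableSet) n)
  have hDd : Pairwise (Function.onFun Disjoint D) := by
    intro i j hij
    exact (disjoint_disjointed B hij).mono inter_subset_right inter_subset_right
  have hDU : (⋃ n, D n) = A := by
    rw [← inter_iUnion, iUnion_disjointed, inter_eq_left]
    refine hcov.trans ?_
    rw [he]
    intro x hx
    simp only [mem_range, iUnion_exists, iUnion_iUnion_eq', mem_iUnion] at hx ⊢
    exact hx
  have hDinj : ∀ n, InjOn (fun z => q.eval z) (D n) := fun n =>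
    (hBinj n).mono (inter_subset_right.trans (disjointed_subset B n))
  have hcomp : ∀ w ∉ A, ENNReal.ofReal (‖q.derivative.eval w‖ ^ 2) * F (q.eval w) = 0 := by
    intro w hw
    rw [hA, mem_ofPred_eq, not_not] at hw
    rw [hw]
    simp
  have h1 : ∫⁻ w, ENNReal.ofReal (‖q.derivative.eval w‖ ^ 2) * F (q.eval w) =
      ∑' n, ∫⁻ w in D n, ENNReal.ofReal (‖q.derivative.eval w‖ ^ 2) * F (q.eval w) := by
    rw [← lintegral_iUnion hDm hDd, hDU, ← lintegral_indicator hAopen.measurableSet]
    apply lintegral_congr
    intro w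
    by_cases hw : w ∈ A
    · rw [indicator_of_mem hw]
    · rw [indicator_of_notMem hw, hcomp w hw]
  have hIm : ∀ n, MeasurableSet ((fun z => q.eval z) '' D n) := fun n =>
    (hDm n).image_of_continuousOn_injOn q.continuous.continuousOn (hDinj n)
  have h2 : ∀ n, ∫⁻ w in D n, ENNReal.ofReal (‖q.derivative.eval w‖ ^ 2) * F (q.eval w) =
      ∫⁻ s, ((fun z => q.eval z) '' D n).indicator F s := by
    intro n
    rw [lintegral_indicator (hIm n)]
    rw [lintegral_image_eq_lintegral_abs_det_fderiv_mul volume (hDm n)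
      (f := fun z => q.eval z)
      (f' := fun w => (ContinuousLinearMap.toSpanSingleton ℂ (q.derivative.eval w)).restrictScalars ℝ)
      (fun w _ => ((q.hasDerivAt w).hasFDerivAt.restrictScalars ℝ).hasFDerivWithinAt) (hDinj n) F]
    apply lintegral_congr
    intro w
    rw [det_mul_complex, abs_of_nonneg (by positivity)]
  rw [h1]
  simp_rw [h2]
  rw [← lintegral_tsum (fun n => (hF.indicator (hIm n)).aemeasurable), ← lintegral_const_mul _ hF]
  apply lintegral_mono
  intro s
  simp only
  rw [ENNReal.tsum_eq_iSup_sum]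
  apply iSup_le
  intro N
  set N' := N.filter (fun n => s ∈ (fun z => q.eval z) '' D n) with hN'
  have h3 : ∑ n ∈ N, ((fun z => q.eval z) '' D n).indicator F s = ∑ n ∈ N', F s := by
    rw [hN', Finset.sum_filter]
    apply Finset.sum_congr rfl
    intro n _
    rw [indicator_apply]
  rw [h3, Finset.sum_const, nsmul_eq_mul]
  gcongr
  have h4 : ∀ n ∈ N', ∃ w ∈ D n, q.eval w = s := by
    intro n hn
    rw [hN', Finset.mem_filter] at hn
    exact hn.2
  choose! g hg using h4
  have hginj : Set.InjOn g N' := by
    intro i hi j hj hij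
    by_contra hne
    have := hDd hne
    rw [Function.onFun, Set.disjoint_left] at this
    exact this (hg i hi).1 (by rw [hij]; exact (hg j hj).1)
  rw [← Finset.card_image_of_injOn hginj]
  apply card_preimage_le q hq s
  intro w hw
  rw [Finset.mem_image] at hw
  obtain ⟨n, hn, rfl⟩ := hw
  exact (hg n hn).2

end

end Pool.Agent.H72.PB
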