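import Mathlib

set_option autoImplicit false

/-! Cutoff functions on the plane with small Dirichlet energy. -/

namespace Pool.Agent.H72.PB

open MeasureTheory Set Filter Topology Complex Metric
open scoped ENNReal

noncomputable section

/-- Squared gradient. -/
def gradsq (χ : ℂ → ℝ) (z : ℂ) : ℝ := (fderiv ℝ χ z 1) ^ 2 + (fderiv ℝ χ z I) ^ 2

lemma integrable_weight :
    Integrable (fun z : ℂ => (1 + ‖z‖ ^ 2)⁻¹ * ((1 + Real.log (1 + ‖z‖ ^ 2)) ^ 2)⁻¹) := by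
  rw [integrable_fun_norm_addHaar (volume : Measure ℂ)
    (f := fun y : ℝ => (1 + y ^ 2)⁻¹ * ((1 + Real.log (1 + y ^ 2)) ^ 2)⁻¹)]
  rw [Complex.finrank_real_complex]
  have hpos : ∀ x : ℝ, 0 < 1 + x ^ 2 := fun x => by positivity
  have hlog : ∀ x : ℝ, 0 ≤ Real.log (1 + x ^ 2) := fun x => Real.log_nonneg (by nlinarith [sq_nonneg x])
  have hder : ∀ x ∈ Ici (0:ℝ), HasDerivAt (fun x : ℝ => -(1 / 2) * (1 + Real.log (1 + x ^ 2))⁻¹)
      (x ^ (2 - 1) • ((1 + x ^ 2)⁻¹ * ((1 + Real.log (1 + x ^ 2)) ^ 2)⁻¹)) x := by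
    intro x _
    have h1 : HasDerivAt (fun x : ℝ => 1 + x ^ 2) (2 * x) x := by
      simpa using (hasDerivAt_pow 2 x).const_add 1
    have h2 := (h1.log (hpos x).ne').const_add 1
    have h3 := h2.inv (c := fun x : ℝ => 1 + Real.log (1 + x ^ 2)) (by have := hlog x; positivity)
    have h4 := h3.const_mul (-(1 / 2) : ℝ)
    refine h4.congr_deriv ?_
    have := (hpos x).ne'
    have h5 : (1 + Real.log (1 + x ^ 2)) ≠ 0 := by have := hlog x; positivity
    simp only [smul_eq_mul]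
    field_simp
    norm_num
  refine integrableOn_Ioi_deriv_of_nonneg' hder ?_ (l := -(1 / 2) * 0) ?_
  · intro x hx
    have hx' : 0 < x := hx
    have := hlog x
    have := hpos x
    simp only [smul_eq_mul]
    positivity
  · apply Tendsto.const_mul
    apply Tendsto.inv_tendsto_atTop
    apply tendsto_atTop_add_const_left
    apply Real.tendsto_log_atTop.comp
    apply tendsto_atTop_add_const_left
    exact tendsto_pow_atTop two_ne_zero

/-- The exhaustion used in the cutoffs. -/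
def tau (z : ℂ) : ℝ := Real.log (1 + Real.log (1 + ‖z‖ ^ 2))

lemma tau_aux (z : ℂ) : 0 < 1 + ‖z‖ ^ 2 ∧ 0 < 1 + Real.log (1 + ‖z‖ ^ 2) := by
  have h1 : 0 < 1 + ‖z‖ ^ 2 := by positivity
  have h2 : 0 ≤ Real.log (1 + ‖z‖ ^ 2) := Real.log_nonneg (by nlinarith [sq_nonneg ‖z‖])
  exact ⟨h1, by linarith⟩

lemma tau_contDiff : ContDiff ℝ 1 tau := by
  unfold tau
  apply ContDiff.log
  · apply contDiff_const.add
    apply ContDiff.log
    · exact contDiff_const.add (contDiff_norm_sq ℝ)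
    · intro z; exact (tau_aux z).1.ne'
  · intro z; exact (tau_aux z).2.ne'

lemma tau_hasFDerivAt (z : ℂ) : HasFDerivAt tau
    ((1 + Real.log (1 + ‖z‖ ^ 2))⁻¹ • ((1 + ‖z‖ ^ 2)⁻¹ • (2 • innerSL ℝ z))) z := by
  have h1 : HasFDerivAt (fun z : ℂ => ‖z‖ ^ 2) (2 • innerSL ℝ z) z :=
    (hasStrictFDerivAt_norm_sq z).hasFDerivAt
  have h2 := ((h1.const_add 1).log (tau_aux z).1.ne').const_add 1
  exact h2.log (tau_aux z).2.ne'

lemma exists_deriv_bound : ∃ G : ℝ, 0 ≤ G ∧ ∀ x, |deriv Real.smoothTransition x| ≤ G := by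
  have h1 : Continuous (deriv Real.smoothTransition) :=
    (Real.smoothTransition.contDiff (n := 1)).continuous_deriv le_rfl
  obtain ⟨G, hG⟩ := (isCompact_Icc (a := (0:ℝ)) (b := 1)).exists_bound_of_continuousOn h1.continuousOn
  refine ⟨max G 0, le_max_right _ _, fun x => ?_⟩
  by_cases hx : x ∈ Icc (0:ℝ) 1
  · exact (hG x hx).trans (le_max_left _ _)
  · have h2 : deriv Real.smoothTransition x = 0 := by
      rw [mem_Icc, not_and_or, not_le, not_le] at hx
      rcases hx with hx | hx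
      · have : Real.smoothTransition =ᶠ[𝓝 x] fun _ => 0 := by
          filter_upwards [Iio_mem_nhds hx] with y hy
          exact Real.smoothTransition.zero_of_nonpos (le_of_lt hy)
        rw [this.deriv_eq]
        simp
      · have : Real.smoothTransition =ᶠ[𝓝 x] fun _ => 1 := by
          filter_upwards [Ioi_mem_nhds hx] with y hy
          exact Real.smoothTransition.one_of_one_le (le_of_lt hy)
        rw [this.deriv_eq]
        simp
    rw [h2, abs_zero]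
    exact le_max_right _ _

theorem exists_cutoff (r : ℝ) {ε : ℝ} (hε : 0 < ε) : ∃ χ : ℂ → ℝ, ContDiff ℝ 1 χ ∧
    HasCompactSupport χ ∧ (∀ z, ‖z‖ ≤ r → χ z = 1) ∧
    ∫⁻ z, ENNReal.ofReal (gradsq χ z) ≤ ENNReal.ofReal ε := by
  obtain ⟨G, hG0, hG⟩ := exists_deriv_bound
  set J := ∫ z : ℂ, (1 + ‖z‖ ^ 2)⁻¹ * ((1 + Real.log (1 + ‖z‖ ^ 2)) ^ 2)⁻¹ with hJ
  have hJ0 : 0 ≤ J := integral_nonneg (fun z => by have := tau_aux z; positivity)
  -- choose T
  obtain ⟨T, hT0, hTr, hTε⟩ : ∃ T : ℝ, 0 < T ∧ Real.log (1 + Real.log (1 + r ^ 2)) ≤ T ∧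
      4 * G ^ 2 * J / T ^ 2 ≤ ε := by
    have h1 : Tendsto (fun T : ℝ => 4 * G ^ 2 * J / T ^ 2) atTop (𝓝 0) :=
      Tendsto.div_atTop tendsto_const_nhds (tendsto_pow_atTop two_ne_zero)
    have h2 := h1.eventually_le_const hε
    obtain ⟨T, h3, h4, h5⟩ := (h2.and ((eventually_ge_atTop (Real.log (1 + Real.log (1 + r ^ 2)))).and
      (eventually_gt_atTop 0))).exists
    exact ⟨T, h5, h4, h3⟩
  refine ⟨fun z => Real.smoothTransition (2 - tau z / T), ?_, ?_, ?_, ?_⟩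
  · exact (Real.smoothTransition.contDiff (n := 1)).comp
      (contDiff_const.sub (tau_contDiff.div_const T))
  · obtain ⟨S, hS⟩ : ∃ S : ℝ, ∀ z : ℂ, S < ‖z‖ → 2 * T ≤ tau z := by
      have h1 : Tendsto (fun x : ℝ => Real.log (1 + Real.log (1 + x ^ 2))) atTop atTop := by
        apply Real.tendsto_log_atTop.comp
        apply tendsto_atTop_add_const_left
        apply Real.tendsto_log_atTop.comp
        apply tendsto_atTop_add_const_left
        exact tendsto_pow_atTop two_ne_zero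
      obtain ⟨S, hS⟩ := (h1.eventually_ge_atTop (2 * T)).exists_forall_of_atTop
      exact ⟨S, fun z hz => hS _ hz.le⟩
    apply HasCompactSupport.intro (isCompact_closedBall (0:ℂ) S)
    intro z hz
    rw [mem_closedBall, dist_zero_right, not_le] at hz
    apply Real.smoothTransition.zero_of_nonpos
    have h1 := hS z hz
    rw [sub_nonpos, le_div_iff₀ hT0]
    exact h1
  · intro z hz
    apply Real.smoothTransition.one_of_one_le
    have h1 : tau z ≤ T := by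
      refine le_trans ?_ hTr
      unfold tau
      have h2 : ‖z‖ ^ 2 ≤ r ^ 2 := pow_le_pow_left₀ (norm_nonneg _) hz 2
      have h3 := tau_aux z
      apply Real.log_le_log h3.2
      have := Real.log_le_log h3.1 (by linarith : 1 + ‖z‖ ^ 2 ≤ 1 + r ^ 2)
      linarith
    have h2 : tau z / T ≤ 1 := by rw [div_le_one hT0]; exact h1
    linarith
  · have hgrad : ∀ z, gradsq (fun z => Real.smoothTransition (2 - tau z / T)) z ≤
        4 * G ^ 2 / T ^ 2 * ((1 + ‖z‖ ^ 2)⁻¹ * ((1 + Real.log (1 + ‖z‖ ^ 2)) ^ 2)⁻¹) := by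
      intro z
      obtain ⟨p1, p2⟩ := tau_aux z
      have h1 : HasFDerivAt (fun z => 2 - tau z / T) (-(T⁻¹ • ((1 + Real.log (1 + ‖z‖ ^ 2))⁻¹ •
          ((1 + ‖z‖ ^ 2)⁻¹ • (2 • innerSL ℝ z))))) z := by
        have := ((tau_hasFDerivAt z).const_mul T⁻¹).const_sub 2
        have h2 : (fun z => 2 - tau z / T) = fun z => 2 - T⁻¹ * tau z := by
          funext z; rw [div_eq_inv_mul]
        rw [h2]
        exact this
      have h3 : HasDerivAt Real.smoothTransition (deriv Real.smoothTransition (2 - tau z / T))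
          (2 - tau z / T) :=
        ((Real.smoothTransition.contDiff (n := 1)).differentiable one_ne_zero _).hasDerivAt
      have h4 := h3.comp_hasFDerivAt z h1
      have h5 : fderiv ℝ (fun z => Real.smoothTransition (2 - tau z / T)) z = _ := h4.fderiv
      unfold gradsq
      rw [h5]
      simp only [_root_.smul_apply, _root_.neg_apply, smul_eq_mul, innerSL_apply_apply, nsmul_eq_mul]
      have hi1 : inner ℝ z (1:ℂ) = z.re := by simp [Complex.inner]
      have hi2 : inner ℝ z I = z.im := by simp [Complex.inner]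
      rw [hi1, hi2]
      set d := deriv Real.smoothTransition (2 - tau z / T)
      have hd : d ^ 2 ≤ G ^ 2 := by
        rw [← sq_abs d]
        exact pow_le_pow_left₀ (abs_nonneg _) (hG _) 2
      set u := 1 + Real.log (1 + ‖z‖ ^ 2)
      have hs : z.re ^ 2 + z.im ^ 2 = ‖z‖ ^ 2 := by
        rw [← Complex.normSq_eq_norm_sq, Complex.normSq_apply]; ring
      have e1 : (d * -(T⁻¹ * (u⁻¹ * ((1 + ‖z‖ ^ 2)⁻¹ * (((2:ℕ):ℝ) * z.re))))) ^ 2 +
          (d * -(T⁻¹ * (u⁻¹ * ((1 + ‖z‖ ^ 2)⁻¹ * (((2:ℕ):ℝ) * z.im))))) ^ 2 =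
          4 * d ^ 2 / T ^ 2 * ((1 + ‖z‖ ^ 2)⁻¹ * (u ^ 2)⁻¹) * (‖z‖ ^ 2 * (1 + ‖z‖ ^ 2)⁻¹) := by
        rw [← hs]
        push_cast
        rw [hs]
        field_simp
        rw [← hs]
        ring
      rw [e1]
      have e2 : ‖z‖ ^ 2 * (1 + ‖z‖ ^ 2)⁻¹ ≤ 1 := by
        rw [← div_eq_mul_inv, div_le_one p1]
        linarith
      have e3 : 0 ≤ ‖z‖ ^ 2 * (1 + ‖z‖ ^ 2)⁻¹ := by positivity
      have e4 : 0 ≤ (1 + ‖z‖ ^ 2)⁻¹ * (u ^ 2)⁻¹ := by positivity
      have e5 : 4 * d ^ 2 / T ^ 2 ≤ 4 * G ^ 2 / T ^ 2 := by gcongr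
      calc 4 * d ^ 2 / T ^ 2 * ((1 + ‖z‖ ^ 2)⁻¹ * (u ^ 2)⁻¹) * (‖z‖ ^ 2 * (1 + ‖z‖ ^ 2)⁻¹)
          ≤ 4 * d ^ 2 / T ^ 2 * ((1 + ‖z‖ ^ 2)⁻¹ * (u ^ 2)⁻¹) * 1 := by gcongr
        _ = 4 * d ^ 2 / T ^ 2 * ((1 + ‖z‖ ^ 2)⁻¹ * (u ^ 2)⁻¹) := mul_one _
        _ ≤ _ := mul_le_mul_of_nonneg_right e5 e4
    calc ∫⁻ z, ENNReal.ofReal (gradsq (fun z => Real.smoothTransition (2 - tau z / T)) z)
        ≤ ∫⁻ z : ℂ, ENNReal.ofReal (4 * G ^ 2 / T ^ 2 *
          ((1 + ‖z‖ ^ 2)⁻¹ * ((1 + Real.log (1 + ‖z‖ ^ 2)) ^ 2)⁻¹)) :=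
          lintegral_mono (fun z => ENNReal.ofReal_le_ofReal (hgrad z))
      _ = ENNReal.ofReal (∫ z : ℂ, 4 * G ^ 2 / T ^ 2 *
          ((1 + ‖z‖ ^ 2)⁻¹ * ((1 + Real.log (1 + ‖z‖ ^ 2)) ^ 2)⁻¹)) := by
          rw [ofReal_integral_eq_lintegral_ofReal (integrable_weight.const_mul _)]
          exact Eventually.of_forall (fun z => by have := tau_aux z; positivity)
      _ ≤ ENNReal.ofReal ε := by
          apply ENNReal.ofReal_le_ofReal
          rw [integral_const_mul, ← hJ]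
          refine le_trans (le_of_eq ?_) hTε
          ring

end

end Pool.Agent.H72.PB
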