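import Pool.Agent.H72.PB2
import Pool.Agent.H72.PB4
import Pool.Agent.H72.PB5

set_option autoImplicit false

/-! Functions which are polynomials in the second variable with constant leading coefficient, and
the cutoffs adapted to them. -/

namespace Pool.Agent.H72.PB

open MeasureTheory Set Filter Topology Complex Metric Polynomial
open scoped ENNReal

noncomputable section

/-- `P` is a polynomial in the second variable, of positive degree, with constant nonzero leading
coefficient and continuous coefficients. -/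
def MonW (P : ℂ × ℂ → ℂ) : Prop :=
  ∃ (m : ℕ) (c : ℂ) (q : ℂ → ℂ[X]), 1 ≤ m ∧ c ≠ 0 ∧
    (∀ z, (q z).natDegree = m ∧ (q z).leadingCoeff = c) ∧
    (∀ j, Continuous fun z => (q z).coeff j) ∧ ∀ z w, P (z, w) = (q z).eval w

/-- `P` is a polynomial in the first variable, of bounded degree, with continuous coefficients. -/
def DegZ (P : ℂ × ℂ → ℂ) : Prop :=
  ∃ (m : ℕ) (q : ℂ → ℂ[X]), (∀ w, (q w).natDegree ≤ m) ∧
    (∀ j, Continuous fun w => (q w).coeff j) ∧ ∀ z w, P (z, w) = (q w).eval z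

/-- Properness in the second variable, locally uniformly in the first one. -/
lemma MonW.proper {P : ℂ × ℂ → ℂ} (hP : MonW P) (S : ℝ) :
    ∃ W : ℝ, ∀ p : ℂ × ℂ, ‖p.1‖ ≤ S → ‖P p‖ ≤ 1 → ‖p.2‖ ≤ W := by
  obtain ⟨m, c, q, hm, hc, hq, hqc, hPq⟩ := hP
  have hb : ∀ j, ∃ B : ℝ, ∀ z ∈ closedBall (0:ℂ) S, ‖(q z).coeff j‖ ≤ B := fun j =>
    (isCompact_closedBall (0:ℂ) S).exists_bound_of_continuousOn (hqc j).continuousOn
  choose B hB using hb
  set B' : ℝ := ∑ j ∈ Finset.range m, |B j| with hB'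
  have hB'0 : 0 ≤ B' := Finset.sum_nonneg (fun j _ => abs_nonneg _)
  refine ⟨(B' + 1) / ‖c‖ + 1, fun p hp1 hp2 => ?_⟩
  obtain ⟨z, w⟩ := p
  simp only at hp1 ⊢
  set s := P (z, w) with hs
  have hdeg : (q z - C s).natDegree = m := by rw [natDegree_sub_C]; exact (hq z).1
  have hne : q z - C s ≠ 0 := by
    intro h
    rw [h, natDegree_zero] at hdeg
    omega
  have hlc : (q z - C s).leadingCoeff = c := by
    rw [leadingCoeff, hdeg, coeff_sub, coeff_C, if_neg (by omega), sub_zero, ← (hq z).1]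
    exact (hq z).2
  have hroot : (q z - C s).IsRoot w := by
    rw [IsRoot.def, eval_sub, eval_C, hs, hPq, sub_self]
  have h1 := hroot.norm_lt_cauchyBound hne
  rw [cauchyBound, hdeg, hlc] at h1
  have h2 : (((Finset.range m).sup fun x => ‖(q z - C s).coeff x‖₊ : NNReal) : ℝ) ≤ B' + 1 := by
    have h3 : ((Finset.range m).sup fun x => ‖(q z - C s).coeff x‖₊) ≤ Real.toNNReal (B' + 1) := by
      apply Finset.sup_le
      intro j hj
      rw [← NNReal.coe_le_coe, Real.coe_toNNReal _ (by positivity), coe_nnnorm, coeff_sub]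
      refine (norm_sub_le _ _).trans ?_
      apply add_le_add
      · have h4 := hB j z (by rw [mem_closedBall, dist_zero_right]; exact hp1)
        calc ‖(q z).coeff j‖ ≤ B j := h4
          _ ≤ |B j| := le_abs_self _
          _ ≤ B' := Finset.single_le_sum (f := fun j => |B j|) (fun _ _ => abs_nonneg _) hj
      · rw [coeff_C]
        split_ifs
        · exact hp2
        · simp
    have h5 : ((Real.toNNReal (B' + 1) : NNReal) : ℝ) = B' + 1 := Real.coe_toNNReal _ (by positivity)
    rw [← h5]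
    exact_mod_cast h3
  have h6 : ‖w‖ < (((Finset.range m).sup fun x => ‖(q z - C s).coeff x‖₊ : NNReal) : ℝ) / ‖c‖ + 1 := by
    exact_mod_cast h1
  have hcpos : 0 < ‖c‖ := norm_pos_iff.mpr hc
  have h7 : (((Finset.range m).sup fun x => ‖(q z - C s).coeff x‖₊ : NNReal) : ℝ) / ‖c‖ ≤
      (B' + 1) / ‖c‖ := by gcongr
  linarith

/-- The cutoff in the value of `P`. -/
def rho (s : ℂ) : ℝ := Real.smoothTransition ((9 - 16 * ‖s‖ ^ 2) / 5)

lemma rho_contDiff : ContDiff ℝ 1 rho := by
  unfold rho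
  apply (Real.smoothTransition.contDiff (n := 1)).comp
  exact (contDiff_const.sub (contDiff_const.mul (contDiff_norm_sq ℝ))).div_const 5

lemma rho_one {s : ℂ} (hs : ‖s‖ ≤ 1 / 2) : rho s = 1 := by
  apply Real.smoothTransition.one_of_one_le
  have := pow_le_pow_left₀ (norm_nonneg s) hs 2
  linarith

lemma rho_zero {s : ℂ} (hs : 3 / 4 ≤ ‖s‖) : rho s = 0 := by
  apply Real.smoothTransition.zero_of_nonpos
  have := pow_le_pow_left₀ (by norm_num) hs 2
  linarith

lemma rho_mem (s : ℂ) : 0 ≤ rho s ∧ rho s ≤ 1 :=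
  ⟨Real.smoothTransition.nonneg _, Real.smoothTransition.le_one _⟩

lemma rho_lintegral : ∫⁻ s, ENNReal.ofReal (rho s ^ 2) < ∞ := by
  have h1 : ∫⁻ s, ENNReal.ofReal (rho s ^ 2) ≤ ∫⁻ s, (closedBall (0:ℂ) 1).indicator (fun _ => 1) s := by
    apply lintegral_mono
    intro s
    by_cases hs : s ∈ closedBall (0:ℂ) 1
    · rw [indicator_of_mem hs]
      have := rho_mem s
      rw [ENNReal.ofReal_le_one]
      exact pow_le_one₀ this.1 this.2
    · rw [indicator_of_notMem hs]
      rw [mem_closedBall, dist_zero_right, not_le] at hs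
      have h2 : rho s = 0 := rho_zero (by linarith)
      simp only [h2]
      simp
  refine h1.trans_lt ?_
  rw [lintegral_indicator_const measurableSet_closedBall, one_mul]
  exact measure_closedBall_lt_top

lemma clm_sq (L : ℂ →L[ℝ] ℝ) (a : ℂ) : (L a) ^ 2 + (L (I * a)) ^ 2 = ‖a‖ ^ 2 * ((L 1) ^ 2 + (L I) ^ 2) := by
  have h1 : ∀ b : ℂ, L b = b.re * L 1 + b.im * L I := by
    intro b
    have h2 : b = b.re • (1:ℂ) + b.im • I := by
      apply Complex.ext <;> simp
    conv_lhs => rw [h2]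
    rw [map_add, map_smul, map_smul, smul_eq_mul, smul_eq_mul]
  rw [h1 a, h1 (I * a), ← Complex.normSq_eq_norm_sq, Complex.normSq_apply]
  simp [Complex.mul_re, Complex.mul_im]
  ring

/-- Cutoffs adapted to `P` with small energy along the Hamiltonian field. -/
theorem exists_psi {P : ℂ × ℂ → ℂ} (hP : ContDiff ℂ 2 P) (hM : MonW P) (r : ℝ) {ε : ℝ} (hε : 0 < ε) :
    ∃ ψ : ℂ × ℂ → ℝ, ContDiff ℝ 1 ψ ∧ HasCompactSupport ψ ∧ (∀ p ∈ tsupport ψ, ‖P p‖ < 1) ∧
      (∀ p : ℂ × ℂ, ‖p.1‖ ≤ r → ‖P p‖ ≤ 1 / 2 → ψ p = 1) ∧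
      ∫ p, ((fderiv ℝ ψ p (ham P p)) ^ 2 + (fderiv ℝ ψ p (I • ham P p)) ^ 2) ≤ ε := by
  have hM' := hM
  obtain ⟨m, c, q, hm, hc, hq, hqc, hPq⟩ := hM
  set K : ℝ≥0∞ := (m : ℝ≥0∞) * ∫⁻ s, ENNReal.ofReal (rho s ^ 2) with hK
  have hKtop : K < ∞ := ENNReal.mul_lt_top (ENNReal.natCast_lt_top _) rho_lintegral
  obtain ⟨χ, hχ1, hχ2, hχ3, hχ4⟩ := exists_cutoff r (ε := ε / (K.toReal + 1)) (by positivity)
  have hPR : ContDiff ℝ 2 P := hP.restrict_scalars ℝ
  have hP1 : ContDiff ℝ 1 P := hPR.of_le (by norm_num)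
  set ψ : ℂ × ℂ → ℝ := fun p => χ p.1 * rho (P p) with hψ
  have hψ1 : ContDiff ℝ 1 ψ := (hχ1.comp contDiff_fst).mul (rho_contDiff.comp hP1)
  obtain ⟨S, hS⟩ : ∃ S : ℝ, ∀ z, χ z ≠ 0 → ‖z‖ ≤ S := by
    obtain ⟨S, hS⟩ := (hχ2.isCompact.isBounded).subset_closedBall (0:ℂ)
    refine ⟨S, fun z hz => ?_⟩
    have := hS (subset_tsupport _ hz)
    simpa using this
  obtain ⟨W, hW⟩ := hM'.proper S
  have hsupp : ∀ p, ψ p ≠ 0 → ‖p.1‖ ≤ S ∧ ‖P p‖ ≤ 3 / 4 := by
    intro p hp
    simp only [hψ, ne_eq, mul_eq_zero, not_or] at hp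
    refine ⟨hS _ hp.1, ?_⟩
    by_contra hcon
    push Not at hcon
    exact hp.2 (rho_zero hcon.le)
  have hψ2 : HasCompactSupport ψ := by
    apply HasCompactSupport.intro ((isCompact_closedBall (0:ℂ) S).prod (isCompact_closedBall (0:ℂ) W))
    intro p hp
    by_contra hne
    obtain ⟨h1, h2⟩ := hsupp p hne
    apply hp
    refine ⟨?_, ?_⟩
    · simpa using h1
    · have := hW p h1 (by linarith)
      simpa using this
  have hclosed : tsupport ψ ⊆ {p | ‖P p‖ ≤ 3 / 4} := by
    apply closure_minimal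
    · intro p hp
      exact (hsupp p hp).2
    · exact isClosed_le (hP1.continuous.norm) continuous_const
  refine ⟨ψ, hψ1, hψ2, ?_, ?_, ?_⟩
  · intro p hp
    have h1 : ‖P p‖ ≤ 3 / 4 := hclosed hp
    linarith
  · intro p h1 h2
    simp only [hψ]
    rw [hχ3 _ h1, rho_one h2, one_mul]
  · -- the derivative along the field
    have hder : ∀ p h, fderiv ℂ P p h = 0 → fderiv ℝ ψ p h = rho (P p) * fderiv ℝ χ p.1 h.1 := by
      intro p h hh
      have e1 : HasFDerivAt (fun p : ℂ × ℂ => χ p.1) ((fderiv ℝ χ p.1).comp (ContinuousLinearMap.fst ℝ ℂ ℂ)) p :=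
        HasFDerivAt.comp p ((hχ1.differentiable one_ne_zero) p.1).hasFDerivAt hasFDerivAt_fst
      have e2 : HasFDerivAt P ((fderiv ℂ P p).restrictScalars ℝ) p :=
        ((hP.differentiable two_ne_zero) p).hasFDerivAt.restrictScalars ℝ
      have e3 : HasFDerivAt (fun p => rho (P p)) ((fderiv ℝ rho (P p)).comp ((fderiv ℂ P p).restrictScalars ℝ)) p :=
        HasFDerivAt.comp p ((rho_contDiff.differentiable one_ne_zero) (P p)).hasFDerivAt e2
      have e4 : HasFDerivAt ψ _ p := e1.mul e3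
      rw [e4.fderiv]
      simp only [_root_.add_apply, _root_.smul_apply, ContinuousLinearMap.comp_apply,
        ContinuousLinearMap.coe_fst', ContinuousLinearMap.coe_restrictScalars', smul_eq_mul, hh, map_zero,
        mul_zero, zero_add]
    have hsum : ∀ p, (fderiv ℝ ψ p (ham P p)) ^ 2 + (fderiv ℝ ψ p (I • ham P p)) ^ 2 =
        gradsq χ p.1 * (‖dW P p‖ ^ 2 * rho (P p) ^ 2) := by
      intro p
      rw [hder p _ (fderiv_ham_self p), hder p (I • ham P p) (by rw [map_smul, fderiv_ham_self, smul_zero])]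
      have h1 := clm_sq (fderiv ℝ χ p.1) (dW P p)
      have h2 : (ham P p).1 = dW P p := rfl
      have h3 : (I • ham P p).1 = I * dW P p := rfl
      rw [h2, h3, mul_pow, mul_pow, ← mul_add, h1, gradsq]
      ring
    have hnn : ∀ p, 0 ≤ (fderiv ℝ ψ p (ham P p)) ^ 2 + (fderiv ℝ ψ p (I • ham P p)) ^ 2 := by
      intro p; positivity
    have hdWq : ∀ z w, dW P (z, w) = (q z).derivative.eval w := by
      intro z w
      have e1 : HasFDerivAt P (fderiv ℂ P (z, w)) (z, w) := ((hP.differentiable two_ne_zero) (z, w)).hasFDerivAt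
      have e2 : HasDerivAt (fun w : ℂ => (z, w)) ((0:ℂ), (1:ℂ)) w := by
        simpa using (hasDerivAt_const w z).prodMk (hasDerivAt_id w)
      have e3 := e1.comp_hasDerivAt w e2
      have e4 : (P ∘ fun w => (z, w)) = fun w => (q z).eval w := by
        funext w
        exact hPq z w
      rw [e4] at e3
      exact e3.unique ((q z).hasDerivAt w)
    have hF : Measurable (fun s => ENNReal.ofReal (rho s ^ 2)) :=
      ENNReal.measurable_ofReal.comp ((rho_contDiff.continuous.pow 2).measurable)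
    have hgm : Measurable (fun z => ENNReal.ofReal (gradsq χ z)) := by
      apply ENNReal.measurable_ofReal.comp
      apply Continuous.measurable
      unfold gradsq
      have c1 := hχ1.continuous_fderiv one_ne_zero
      exact ((c1.clm_apply continuous_const).pow 2).add ((c1.clm_apply continuous_const).pow 2)
    have hlint : ∫⁻ p, ENNReal.ofReal ((fderiv ℝ ψ p (ham P p)) ^ 2 + (fderiv ℝ ψ p (I • ham P p)) ^ 2) ≤
        ENNReal.ofReal ε := by
      have hmeas : Measurable (fun p => ENNReal.ofReal (gradsq χ p.1 * (‖dW P p‖ ^ 2 * rho (P p) ^ 2))) := by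
        apply ENNReal.measurable_ofReal.comp
        apply Continuous.measurable
        have c1 := hχ1.continuous_fderiv one_ne_zero
        have c2 : Continuous (gradsq χ) := by
          unfold gradsq
          exact ((c1.clm_apply continuous_const).pow 2).add ((c1.clm_apply continuous_const).pow 2)
        exact (c2.comp continuous_fst).mul (((dW_contDiff hP).continuous.norm.pow 2).mul
          ((rho_contDiff.continuous.comp hP1.continuous).pow 2))
      simp_rw [hsum]
      rw [Measure.volume_eq_prod, lintegral_prod _ hmeas.aemeasurable]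
      have h1 : ∀ z, ∫⁻ w, ENNReal.ofReal (gradsq χ z * (‖dW P (z, w)‖ ^ 2 * rho (P (z, w)) ^ 2)) ≤
          ENNReal.ofReal (gradsq χ z) * K := by
        intro z
        have hg : 0 ≤ gradsq χ z := by unfold gradsq; positivity
        have h2 : ∀ w, ENNReal.ofReal (gradsq χ z * (‖dW P (z, w)‖ ^ 2 * rho (P (z, w)) ^ 2)) =
            ENNReal.ofReal (gradsq χ z) * (ENNReal.ofReal (‖(q z).derivative.eval w‖ ^ 2) *
              ENNReal.ofReal (rho ((q z).eval w) ^ 2)) := by
          intro w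
          rw [ENNReal.ofReal_mul hg, ENNReal.ofReal_mul (by positivity), hdWq, hPq]
        simp_rw [h2]
        rw [lintegral_const_mul' _ _ ENNReal.ofReal_ne_top]
        gcongr
        have h3 := area_formula_le (q z) (by rw [(hq z).1]; exact hm) hF
        rw [(hq z).1] at h3
        exact h3
      calc ∫⁻ z, ∫⁻ w, ENNReal.ofReal (gradsq χ z * (‖dW P (z, w)‖ ^ 2 * rho (P (z, w)) ^ 2))
          ≤ ∫⁻ z, ENNReal.ofReal (gradsq χ z) * K := lintegral_mono h1
        _ = (∫⁻ z, ENNReal.ofReal (gradsq χ z)) * K := lintegral_mul_const _ hgm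
        _ ≤ ENNReal.ofReal (ε / (K.toReal + 1)) * K := by gcongr
        _ ≤ ENNReal.ofReal ε := by
            rw [← ENNReal.ofReal_toReal hKtop.ne, ← ENNReal.ofReal_mul (by positivity)]
            apply ENNReal.ofReal_le_ofReal
            rw [ENNReal.toReal_ofReal ENNReal.toReal_nonneg, div_mul_eq_mul_div, div_le_iff₀ (by positivity)]
            have : 0 ≤ K.toReal := ENNReal.toReal_nonneg
            nlinarith
    rw [integral_eq_lintegral_of_nonneg_ae (Eventually.of_forall hnn)]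
    · exact ENNReal.toReal_le_of_le_ofReal hε.le hlint
    · apply Continuous.aestronglyMeasurable
      have hham : Continuous (ham P) := (ham_contDiff hP).continuous
      have c1 := hψ1.continuous_fderiv one_ne_zero
      exact ((c1.clm_apply hham).pow 2).add ((c1.clm_apply (hham.const_smul I)).pow 2)

end

end Pool.Agent.H72.PB
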