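import Pool.Agent.H72.PB6

set_option autoImplicit false

/-! Area bounds for the fibres of the new polynomial. -/

namespace Pool.Agent.H72.PB

open MeasureTheory Set Filter Topology Complex Metric Polynomial
open scoped ENNReal

noncomputable section

lemma contCoeff_mul {p q : ℂ → ℂ[X]} (hp : ∀ j, Continuous fun z => (p z).coeff j)
    (hq : ∀ j, Continuous fun z => (q z).coeff j) : ∀ j, Continuous fun z => (p z * q z).coeff j := by
  intro j
  simp_rw [coeff_mul]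
  apply continuous_finsetSum
  intro i _
  exact (hp i.1).mul (hq i.2)

lemma contCoeff_pow {p : ℂ → ℂ[X]} (hp : ∀ j, Continuous fun z => (p z).coeff j) (n : ℕ) :
    ∀ j, Continuous fun z => ((p z) ^ n).coeff j := by
  induction n with
  | zero => intro j; simp only [pow_zero]; exact continuous_const
  | succ n ih =>
    simp_rw [pow_succ]
    exact contCoeff_mul ih hp

lemma contCoeff_const (a : ℂ[X]) : ∀ j, Continuous fun _ : ℂ => a.coeff j :=
  fun _ => continuous_const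

lemma contCoeff_C {a : ℂ → ℂ} (ha : Continuous a) : ∀ j, Continuous fun z => (C (a z)).coeff j := by
  intro j
  simp_rw [coeff_C]
  split_ifs
  · exact ha
  · exact continuous_const

lemma contCoeff_add {p q : ℂ → ℂ[X]} (hp : ∀ j, Continuous fun z => (p z).coeff j)
    (hq : ∀ j, Continuous fun z => (q z).coeff j) : ∀ j, Continuous fun z => (p z + q z).coeff j := by
  intro j
  simp_rw [coeff_add]
  exact (hp j).add (hq j)

/-- Degree and leading coefficient of a shifted power. -/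
lemma shifted_pow {q : ℂ[X]} {m : ℕ} {c d a : ℂ} (hm : 1 ≤ m) (hd : d ≠ 0)
    (hq : q.natDegree = m ∧ q.leadingCoeff = c) {k : ℕ} (hk : 1 ≤ k) :
    (C a + (C d * q) ^ k).natDegree = m * k ∧ (C a + (C d * q) ^ k).leadingCoeff = (d * c) ^ k := by
  have h1 : (C d * q).natDegree = m := by rw [natDegree_C_mul hd]; exact hq.1
  have h2 : (C d * q).leadingCoeff = d * c := by rw [leadingCoeff_mul, leadingCoeff_C, hq.2]
  have h3 : ((C d * q) ^ k).natDegree = m * k := by rw [natDegree_pow, h1, mul_comm]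
  have h4 : (C a + (C d * q) ^ k).natDegree = m * k := by rw [natDegree_C_add, h3]
  refine ⟨h4, ?_⟩
  rw [leadingCoeff, h4, coeff_add, coeff_C, if_neg (by positivity), zero_add, ← h3, coeff_natDegree,
    leadingCoeff_pow, h2]

lemma eval_shifted (q : ℂ[X]) (d a : ℂ) (k : ℕ) (w : ℂ) :
    (C a + (C d * q) ^ k).eval w = a + (d * q.eval w) ^ k := by
  simp

/-- Crude area bound. -/
lemma crude_area {q : ℂ[X]} {m : ℕ} {c d : ℂ} (hm : 1 ≤ m) (hd : d ≠ 0)
    (hq : q.natDegree = m ∧ q.leadingCoeff = c) {k : ℕ} (hk : 1 ≤ k) (a : ℂ) {T : ℝ} (hT : 0 ≤ T)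
    (h1 : 1 ≤ ‖(d * c) ^ k‖ * T ^ (m * k)) :
    volume {w : ℂ | ‖a + (d * q.eval w) ^ k‖ ≤ 1} ≤ ((m * k : ℕ) : ℝ≥0∞) * ENNReal.ofReal (Real.pi * T ^ 2) := by
  obtain ⟨h2, h3⟩ := shifted_pow (a := a) hm hd hq hk
  have h4 := volume_poly_le (C a + (C d * q) ^ k) (m := m * k) (Nat.mul_pos hm hk) h2 (ρ := 1) hT
    (by rw [h3]; exact h1)
  simp_rw [eval_shifted] at h4
  exact h4

/-- Refined area bound. -/
lemma fine_area {q : ℂ[X]} {m : ℕ} {c d : ℂ} (hm : 1 ≤ m) (hd : d ≠ 0)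
    (hq : q.natDegree = m ∧ q.leadingCoeff = c) {k : ℕ} (hk : 1 ≤ k) {a : ℂ} {T A : ℝ} (hT : 0 ≤ T)
    (hA : 0 < A) (haA : A ^ 2 ≤ ‖a‖) (h1 : A⁻¹ ≤ ‖(d * c) ^ k‖ * T ^ (m * k)) :
    volume {w : ℂ | ‖a + (d * q.eval w) ^ (2 * k)‖ ≤ 1} ≤
      2 * (((m * k : ℕ) : ℝ≥0∞) * ENNReal.ofReal (Real.pi * T ^ 2)) := by
  obtain ⟨s, hs⟩ := IsAlgClosed.exists_pow_nat_eq (-a) (n := 2) (by norm_num)
  have hsn : ‖s‖ ^ 2 = ‖a‖ := by rw [← norm_pow, hs, norm_neg]
  have hsA : A ≤ ‖s‖ := by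
    have : A ^ 2 ≤ ‖s‖ ^ 2 := by rw [hsn]; exact haA
    exact le_of_sq_le_sq this (norm_nonneg _)
  have hsub : {w : ℂ | ‖a + (d * q.eval w) ^ (2 * k)‖ ≤ 1} ⊆
      {w : ℂ | ‖(C s + (C d * q) ^ k).eval w‖ ≤ A⁻¹} ∪
      {w : ℂ | ‖(C (-s) + (C d * q) ^ k).eval w‖ ≤ A⁻¹} := by
    intro w hw
    rw [mem_ofPred_eq] at hw
    rw [mem_union, mem_ofPred_eq, mem_ofPred_eq, eval_shifted, eval_shifted]
    set x := (d * q.eval w) ^ k with hx
    have e1 : a + (d * q.eval w) ^ (2 * k) = (s + x) * (-s + x) := by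
      rw [pow_mul', ← hx]
      have : a = - s ^ 2 := by rw [hs]; ring
      rw [this]
      ring
    rw [e1, norm_mul] at hw
    by_contra hcon
    push Not at hcon
    obtain ⟨c1, c2⟩ := hcon
    have e2 : 2 * ‖s‖ ≤ ‖s + x‖ + ‖-s + x‖ := by
      have : ‖(s + x) - (-s + x)‖ ≤ ‖s + x‖ + ‖-s + x‖ := norm_sub_le _ _
      have e3 : (s + x) - (-s + x) = 2 * s := by ring
      rw [e3, norm_mul] at this
      simpa using this
    have hApos : 0 < A⁻¹ := inv_pos.mpr hA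
    rcases le_total ‖s‖ ‖s + x‖ with h | h
    · have : A * A⁻¹ < ‖s + x‖ * ‖-s + x‖ := by
        apply mul_lt_mul' (hsA.trans h) c2 hApos.le (lt_of_lt_of_le hA (hsA.trans h))
      rw [mul_inv_cancel₀ hA.ne'] at this
      linarith
    · have h' : ‖s‖ ≤ ‖-s + x‖ := by linarith
      have : A⁻¹ * A < ‖s + x‖ * ‖-s + x‖ := by
        apply mul_lt_mul c1 (hsA.trans h') hA (norm_nonneg _)
      rw [inv_mul_cancel₀ hA.ne'] at this
      linarith
  refine (measure_mono hsub).trans ((measure_union_le _ _).trans ?_)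
  rw [two_mul]
  obtain ⟨h2, h3⟩ := shifted_pow (a := s) hm hd hq hk
  obtain ⟨h4, h5⟩ := shifted_pow (a := -s) hm hd hq hk
  apply add_le_add
  · exact volume_poly_le _ (Nat.mul_pos hm hk) h2 hT (by rw [h3]; exact h1)
  · exact volume_poly_le _ (Nat.mul_pos hm hk) h4 hT (by rw [h5]; exact h1)

/-- Sublevel sets over bounded sets have finite volume. -/
lemma MonW.finvol {Q : ℂ × ℂ → ℂ} (hQ : MonW Q) (hc : Continuous Q) (R ρ : ℝ) :
    volume {p : ℂ × ℂ | ‖p.1‖ ≤ R ∧ ‖Q p‖ ≤ ρ} < ∞ := by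
  obtain ⟨m, c, q, hm, hc0, hq, hqc, hPq⟩ := hQ
  have hcpos : 0 < ‖c‖ := norm_pos_iff.mpr hc0
  set T := max 1 (ρ / ‖c‖) with hT
  have hT1 : 1 ≤ T := le_max_left _ _
  have hTρ : ρ ≤ ‖c‖ * T ^ m := by
    have h1 : ρ / ‖c‖ ≤ T := le_max_right _ _
    have h2 : T ≤ T ^ m := le_self_pow₀ hT1 (by omega)
    rw [div_le_iff₀ hcpos] at h1
    nlinarith
  have hmeas : MeasurableSet {p : ℂ × ℂ | ‖p.1‖ ≤ R ∧ ‖Q p‖ ≤ ρ} := by
    apply IsClosed.measurableSet
    exact (isClosed_le continuous_fst.norm continuous_const).inter (isClosed_le hc.norm continuous_const)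
  rw [Measure.volume_eq_prod, Measure.prod_apply hmeas]
  have h1 : ∀ z, volume (Prod.mk z ⁻¹' {p : ℂ × ℂ | ‖p.1‖ ≤ R ∧ ‖Q p‖ ≤ ρ}) ≤
      (closedBall (0:ℂ) R).indicator (fun _ => (m : ℝ≥0∞) * ENNReal.ofReal (Real.pi * T ^ 2)) z := by
    intro z
    by_cases hz : z ∈ closedBall (0:ℂ) R
    · rw [indicator_of_mem hz]
      refine (measure_mono ?_).trans (volume_poly_le (q z) hm (hq z).1 (ρ := ρ) (t := T) (by linarith)
        (by rw [(hq z).2]; exact hTρ))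
      intro w hw
      rw [mem_preimage, mem_ofPred_eq] at hw
      rw [mem_ofPred_eq, ← hPq]
      exact hw.2
    · rw [indicator_of_notMem hz]
      have : Prod.mk z ⁻¹' {p : ℂ × ℂ | ‖p.1‖ ≤ R ∧ ‖Q p‖ ≤ ρ} = ∅ := by
        ext w
        simp only [mem_preimage, mem_ofPred_eq, mem_empty_iff_false, iff_false, not_and]
        intro h
        exact absurd (by simpa using h) hz
      rw [this]
      simp
  refine (lintegral_mono h1).trans_lt ?_
  rw [lintegral_indicator_const measurableSet_closedBall]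
  apply ENNReal.mul_lt_top
  · exact ENNReal.mul_lt_top (ENNReal.natCast_lt_top _) ENNReal.ofReal_lt_top
  · exact measure_closedBall_lt_top

/-- Continuity of the volume from above. -/
lemma exists_delta {Q : ℂ × ℂ → ℂ} (hQ : MonW Q) (hc : Continuous Q) (R : ℝ) {ε : ℝ≥0∞} (hε : 0 < ε) :
    ∃ δ : ℝ, 0 < δ ∧ δ ≤ 1 ∧ volume {p : ℂ × ℂ | ‖p.1‖ ≤ R ∧ ‖Q p‖ ≤ 1 + 3 * δ} ≤
      volume {p : ℂ × ℂ | ‖p.1‖ ≤ R ∧ ‖Q p‖ ≤ 1} + ε := by
  set S : ℕ → Set (ℂ × ℂ) := fun n => {p : ℂ × ℂ | ‖p.1‖ ≤ R ∧ ‖Q p‖ ≤ 1 + 3 * (1 / ((n:ℝ) + 1))} with hS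
  have hSm : ∀ n, MeasurableSet (S n) := by
    intro n
    apply IsClosed.measurableSet
    exact (isClosed_le continuous_fst.norm continuous_const).inter (isClosed_le hc.norm continuous_const)
  have hanti : Antitone S := by
    intro i j hij p hp
    refine ⟨hp.1, hp.2.trans ?_⟩
    have : (1:ℝ) / ((j:ℝ) + 1) ≤ 1 / ((i:ℝ) + 1) := by
      apply one_div_le_one_div_of_le (by positivity)
      have : (i:ℝ) ≤ j := by exact_mod_cast hij
      linarith
    linarith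
  have hlim := tendsto_measure_iInter_atTop (μ := volume) (fun n => (hSm n).nullMeasurableSet) hanti
    ⟨0, (hQ.finvol hc R _).ne⟩
  have hI : (⋂ n, S n) = {p : ℂ × ℂ | ‖p.1‖ ≤ R ∧ ‖Q p‖ ≤ 1} := by
    ext p
    simp only [hS, mem_iInter, mem_ofPred_eq]
    constructor
    · intro h
      refine ⟨(h 0).1, ?_⟩
      have h1 : Tendsto (fun n : ℕ => 1 + 3 * (1 / ((n:ℝ) + 1))) atTop (𝓝 (1 + 3 * 0)) :=
        (tendsto_one_div_add_atTop_nhds_zero_nat.const_mul 3).const_add 1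
      have h2 := ge_of_tendsto' h1 (fun n => (h n).2)
      linarith
    · intro h n
      refine ⟨h.1, h.2.trans ?_⟩
      have : (0:ℝ) ≤ 1 / ((n:ℝ) + 1) := by positivity
      linarith
  rw [hI] at hlim
  have hfin := (hQ.finvol hc R 1).ne
  have h3 : volume {p : ℂ × ℂ | ‖p.1‖ ≤ R ∧ ‖Q p‖ ≤ 1} <
      volume {p : ℂ × ℂ | ‖p.1‖ ≤ R ∧ ‖Q p‖ ≤ 1} + ε := ENNReal.lt_add_right hfin hε.ne'
  obtain ⟨n, hn⟩ := (hlim.eventually_lt_const h3).exists
  refine ⟨1 / ((n:ℝ) + 1), by positivity, ?_, hn.le⟩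
  rw [div_le_one (by positivity)]
  have : (0:ℝ) ≤ n := Nat.cast_nonneg n
  linarith

end

end Pool.Agent.H72.PB
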