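import Pool.Agent.H72.PB7

set_option autoImplicit false

/-! The inductive step: a new polynomial. -/

namespace Pool.Agent.H72.PB

open MeasureTheory Set Filter Topology Complex Metric Polynomial
open scoped ENNReal

noncomputable section

/-- The new polynomial. -/
def newP (Q : ℂ × ℂ → ℂ) (η d R : ℝ) (N k : ℕ) (p : ℂ × ℂ) : ℂ :=
  ((η : ℂ) * p.1 + (p.1 / (R : ℂ)) ^ N) + ((d : ℂ) * Q p) ^ (2 * k)

lemma newP_contDiff {Q : ℂ × ℂ → ℂ} (hQ : ContDiff ℂ 2 Q) (η d R : ℝ) (N k : ℕ) :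
    ContDiff ℂ 2 (newP Q η d R N k) := by
  unfold newP
  exact ((contDiff_const.mul contDiff_fst).add ((contDiff_fst.div_const _).pow N)).add
    ((contDiff_const.mul hQ).pow _)

lemma newP_fderiv {Q : ℂ × ℂ → ℂ} (hQ : ContDiff ℂ 2 Q) (η d R : ℝ) (N k : ℕ) (p h : ℂ × ℂ) :
    fderiv ℂ (newP Q η d R N k) p h = ((η : ℂ) + N * (p.1 / (R:ℂ)) ^ (N - 1) * (R:ℂ)⁻¹) * h.1 +
      ((2 * k : ℕ) : ℂ) * ((d : ℂ) * Q p) ^ (2 * k - 1) * ((d:ℂ) * fderiv ℂ Q p h) := by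
  have e1 : HasFDerivAt (fun p : ℂ × ℂ => p.1) (ContinuousLinearMap.fst ℂ ℂ ℂ) p := hasFDerivAt_fst
  have e2 : HasFDerivAt Q (fderiv ℂ Q p) p := ((hQ.differentiable two_ne_zero) p).hasFDerivAt
  have e3 : HasFDerivAt (newP Q η d R N k) _ p :=
    (((e1.const_mul (η:ℂ)).add ((e1.mul_const ((R:ℂ)⁻¹)).pow N)).add ((e2.const_mul (d:ℂ)).pow (2 * k)))
  rw [e3.fderiv]
  simp only [_root_.add_apply, _root_.smul_apply, ContinuousLinearMap.coe_fst', smul_eq_mul, nsmul_eq_mul,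
    div_eq_mul_inv]
  ring

/-- The new polynomial is monic in the second variable. -/
lemma newP_monW {Q : ℂ × ℂ → ℂ} {m : ℕ} {c : ℂ} {q : ℂ → ℂ[X]} (hm : 1 ≤ m) (hc : c ≠ 0)
    (hq : ∀ z, (q z).natDegree = m ∧ (q z).leadingCoeff = c)
    (hqc : ∀ j, Continuous fun z => (q z).coeff j) (hPq : ∀ z w, Q (z, w) = (q z).eval w)
    (η d R : ℝ) (hd : d ≠ 0) (N k : ℕ) (hk : 1 ≤ k) : MonW (newP Q η d R N k) := by
  have hd' : (d:ℂ) ≠ 0 := by exact_mod_cast hd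
  refine ⟨m * (2 * k), ((d:ℂ) * c) ^ (2 * k),
    fun z => C ((η : ℂ) * z + (z / (R:ℂ)) ^ N) + (C (d:ℂ) * q z) ^ (2 * k), ?_, ?_, ?_, ?_, ?_⟩
  · exact Nat.mul_pos hm (by omega)
  · exact pow_ne_zero _ (mul_ne_zero hd' hc)
  · intro z
    exact shifted_pow hm hd' (hq z) (by omega)
  · apply contCoeff_add
    · apply contCoeff_C
      fun_prop
    · apply contCoeff_pow
      exact contCoeff_mul (contCoeff_const _) hqc
  · intro z w
    simp only
    rw [eval_shifted, newP, hPq]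

/-- The new polynomial is monic in the first variable. -/
lemma newP_monZ {Q : ℂ × ℂ → ℂ} {m : ℕ} {q : ℂ → ℂ[X]} (hq : ∀ w, (q w).natDegree ≤ m)
    (hqc : ∀ j, Continuous fun z => (q z).coeff j) (hPq : ∀ z w, Q (z, w) = (q w).eval z)
    (η d : ℝ) {R : ℝ} (hR : R ≠ 0) {N k : ℕ} (hN : 2 * k * m < N) (hN2 : 2 ≤ N) :
    MonW (newP Q η d R N k ∘ Prod.swap) := by
  have hR' : (R:ℂ) ≠ 0 := by exact_mod_cast hR
  have hb : ((R:ℂ)⁻¹) ^ N ≠ 0 := pow_ne_zero _ (inv_ne_zero hR')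
  refine ⟨N, ((R:ℂ)⁻¹) ^ N,
    fun w => C (((R:ℂ)⁻¹) ^ N) * X ^ N + (C (η:ℂ) * X + (C (d:ℂ) * q w) ^ (2 * k)), ?_, hb, ?_, ?_, ?_⟩
  · omega
  · intro w
    have h1 : (C (η:ℂ) * X + (C (d:ℂ) * q w) ^ (2 * k)).natDegree < N := by
      refine lt_of_le_of_lt (natDegree_add_le _ _) ?_
      apply max_lt
      · exact lt_of_le_of_lt ((natDegree_C_mul_le _ _).trans natDegree_X_le) (by omega)
      · calc ((C (d:ℂ) * q w) ^ (2 * k)).natDegree ≤ (2 * k) * (C (d:ℂ) * q w).natDegree := natDegree_pow_le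
          _ ≤ (2 * k) * m := by
              apply Nat.mul_le_mul_left
              exact (natDegree_C_mul_le _ _).trans (hq w)
          _ < N := hN
    have h2 : (C (((R:ℂ)⁻¹) ^ N) * X ^ N).natDegree = N := natDegree_C_mul_X_pow _ _ hb
    have h3 : (C (((R:ℂ)⁻¹) ^ N) * X ^ N + (C (η:ℂ) * X + (C (d:ℂ) * q w) ^ (2 * k))).natDegree = N := by
      rw [natDegree_add_eq_left_of_natDegree_lt (by rw [h2]; exact h1), h2]
    refine ⟨h3, ?_⟩
    rw [leadingCoeff, h3, coeff_add, coeff_eq_zero_of_natDegree_lt h1, add_zero, coeff_C_mul_X_pow,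
      if_pos rfl]
  · apply contCoeff_add (contCoeff_const _)
    apply contCoeff_add (contCoeff_const _)
    apply contCoeff_pow
    exact contCoeff_mul (contCoeff_const _) hqc
  · intro w z
    simp only [Function.comp_apply, Prod.swap_prod_mk, newP, eval_add, eval_mul, eval_C, eval_pow, eval_X,
      hPq, div_eq_mul_inv, mul_pow]
    ring

lemma volume_annulus {a b : ℝ} (ha : 0 ≤ a) (hab : a ≤ b) :
    volume (closedBall (0:ℂ) b \ closedBall (0:ℂ) a) = ENNReal.ofReal (Real.pi * (b ^ 2 - a ^ 2)) := by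
  have hvol : ∀ r : ℝ, 0 ≤ r → volume (closedBall (0:ℂ) r) = ENNReal.ofReal (Real.pi * r ^ 2) := by
    intro r hr
    rw [Complex.volume_closedBall, mul_comm Real.pi, ENNReal.ofReal_mul (by positivity),
      ENNReal.ofReal_pow hr]
    congr 1
    rw [← NNReal.coe_real_pi, ENNReal.ofReal_coe_nnreal]
  rw [measure_sdiff (closedBall_subset_closedBall hab) measurableSet_closedBall.nullMeasurableSet
    measure_closedBall_lt_top.ne, hvol b (ha.trans hab), hvol a ha, ← ENNReal.ofReal_sub _ (by positivity)]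
  congr 1
  ring

lemma integrable_four : Integrable (fun z : ℂ => ((1 + ‖z‖) ^ 4)⁻¹) := by
  have h1 := integrable_one_add_norm (E := ℂ) (μ := volume) (r := 4) (by
    rw [Complex.finrank_real_complex]; norm_num)
  refine h1.congr (Eventually.of_forall (fun z => ?_))
  simp only
  rw [Real.rpow_neg (by positivity)]
  congr 1
  have := Real.rpow_natCast (1 + ‖z‖) 4
  rw [← this]
  norm_num


/-- Parameter choice: the exponent of the old polynomial. -/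
lemma exists_k {d β C : ℝ} (hd0 : 0 < d) (hd1 : d < 1) (hβ : 0 < β) :
    ∃ k : ℕ, 1 ≤ k ∧ ((2 * k : ℕ) : ℝ) * d ^ (2 * k) * C ≤ β ∧ d ^ (2 * k) ≤ 1 / 8 := by
  have h1 : Tendsto (fun n : ℕ => (n:ℝ) * d ^ n) atTop (𝓝 0) := tendsto_self_mul_const_pow_of_lt_one hd0.le hd1
  have h2 : Tendsto (fun n : ℕ => (n:ℝ) * d ^ n * C) atTop (𝓝 (0 * C)) := h1.mul_const C
  rw [zero_mul] at h2
  have h3 : Tendsto (fun n : ℕ => d ^ n) atTop (𝓝 0) := tendsto_pow_atTop_nhds_zero_of_lt_one hd0.le hd1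
  have h4 : Tendsto (fun k : ℕ => 2 * k) atTop atTop := tendsto_id.const_mul_atTop' (by norm_num)
  have h5 := (h2.comp h4).eventually_le_const hβ
  have h6 := (h3.comp h4).eventually_le_const (show (0:ℝ) < 1 / 8 by norm_num)
  obtain ⟨k, h7, h8, h9⟩ := (h5.and (h6.and (eventually_ge_atTop 1))).exists
  exact ⟨k, h9, h7, h8⟩

/-- Parameter choice: the exponent of the coordinate. -/
lemma exists_N {R β δ κ B ε : ℝ} (hβ : 0 < β) (hδ : 0 < δ) (hκ : 0 < κ) (hκ1 : κ < 1)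
    (hε : 0 < ε) {s : ℕ} (hs : 1 ≤ s) (M : ℕ) :
    ∃ j : ℕ, ((2 * s * (j + 2) : ℕ) : ℝ) * (1 / 2) ^ (2 * s * (j + 2) - 1) * R⁻¹ ≤ β ∧
      ((1:ℝ) / 2) ^ (2 * s * (j + 2)) ≤ 1 / 8 ∧ (1 - κ) ^ (2 * s * (j + 2)) ≤ δ ∧
      M < 2 * s * (j + 2) ∧ B * ((1 + κ)⁻¹) ^ (2 * j) ≤ ε := by
  have hN : Tendsto (fun j : ℕ => 2 * s * (j + 2)) atTop atTop := by
    apply tendsto_atTop_mono (f := fun j : ℕ => j) _ tendsto_id
    intro j
    nlinarith
  have h1 : Tendsto (fun n : ℕ => (n:ℝ) * (1 / 2) ^ (n - 1) * R⁻¹) atTop (𝓝 0) := by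
    have h2 : Tendsto (fun n : ℕ => (n:ℝ) * (1 / 2 : ℝ) ^ n * (2 * R⁻¹)) atTop (𝓝 (0 * (2 * R⁻¹))) :=
      (tendsto_self_mul_const_pow_of_lt_one (by norm_num) (by norm_num)).mul_const _
    rw [zero_mul] at h2
    refine h2.congr' ?_
    filter_upwards [eventually_ge_atTop 1] with n hn
    obtain ⟨l, rfl⟩ := Nat.exists_eq_add_of_le' hn
    rw [Nat.add_sub_cancel, pow_succ]
    ring
  have h3 : Tendsto (fun n : ℕ => ((1:ℝ) / 2) ^ n) atTop (𝓝 0) :=
    tendsto_pow_atTop_nhds_zero_of_lt_one (by norm_num) (by norm_num)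
  have h4 : Tendsto (fun n : ℕ => (1 - κ) ^ n) atTop (𝓝 0) :=
    tendsto_pow_atTop_nhds_zero_of_lt_one (by linarith) (by linarith)
  have h5 : Tendsto (fun j : ℕ => B * ((1 + κ)⁻¹) ^ (2 * j)) atTop (𝓝 (B * 0)) := by
    apply Tendsto.const_mul
    have h6 : Tendsto (fun n : ℕ => ((1 + κ)⁻¹) ^ n) atTop (𝓝 0) := by
      apply tendsto_pow_atTop_nhds_zero_of_lt_one (by positivity)
      exact inv_lt_one_of_one_lt₀ (by linarith)
    exact h6.comp (tendsto_id.const_mul_atTop' (by norm_num))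
  rw [mul_zero] at h5
  have e1 := (h1.comp hN).eventually_le_const hβ
  have e2 := (h3.comp hN).eventually_le_const (show (0:ℝ) < 1 / 8 by norm_num)
  have e3 := (h4.comp hN).eventually_le_const hδ
  have e4 := hN.eventually_gt_atTop M
  have e5 := h5.eventually_le_const hε
  obtain ⟨j, f1, f2, f3, f4, f5⟩ := (e1.and (e2.and (e3.and (e4.and e5)))).exists
  exact ⟨j, f1, f2, f3, f4, f5⟩

end

end Pool.Agent.H72.PB
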