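import Pool.Agent.H72.PB8

set_option autoImplicit false

/-! The inductive step: volume bound. -/

namespace Pool.Agent.H72.PB

open MeasureTheory Set Filter Topology Complex Metric Polynomial
open scoped ENNReal

noncomputable section

/-- The fibre over the inner part. -/
lemma fibre_inner {Q : ℂ × ℂ → ℂ} {δ R κ : ℝ} (hR : 0 < R) (hδ : 0 < δ) (hδ1 : δ ≤ 1)
    {N k : ℕ} (hk : 1 ≤ k) (hN : (1 - κ) ^ N ≤ δ / 2) {z w : ℂ}
    (hz : ‖z‖ ≤ (1 - κ) * R) (hw : ‖newP Q (δ / (4 * R)) (1 + δ)⁻¹ R N k (z, w)‖ ≤ 1) :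
    ‖Q (z, w)‖ ≤ 1 + 3 * δ := by
  set x : ℂ := (((1 + δ)⁻¹ : ℝ) : ℂ) * Q (z, w) with hx
  set a : ℂ := (((δ / (4 * R) : ℝ)) : ℂ) * z + (z / (R : ℂ)) ^ N with ha
  have h1 : newP Q (δ / (4 * R)) (1 + δ)⁻¹ R N k (z, w) = a + x ^ (2 * k) := rfl
  have hzR : ‖z / (R:ℂ)‖ ≤ 1 - κ := by
    rw [norm_div, Complex.norm_real, Real.norm_eq_abs, abs_of_pos hR, div_le_iff₀ hR]
    exact hz
  have ha1 : ‖a‖ ≤ δ := by
    have e1 : ‖(((δ / (4 * R) : ℝ)) : ℂ) * z‖ ≤ δ / 4 := by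
      rw [norm_mul, Complex.norm_real, Real.norm_eq_abs, abs_of_pos (by positivity)]
      have e2 : ‖z‖ ≤ R := by
        by_cases hκ0 : 0 ≤ κ
        · nlinarith
        · push Not at hκ0
          have e3 : (1:ℝ) < 1 - κ := by linarith
          have e4 : (1:ℝ) ≤ (1 - κ) ^ N := one_le_pow₀ e3.le
          linarith
      calc δ / (4 * R) * ‖z‖ ≤ δ / (4 * R) * R := mul_le_mul_of_nonneg_left e2 (by positivity)
        _ = δ / 4 := by field_simp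
    have e5 : ‖(z / (R : ℂ)) ^ N‖ ≤ δ / 2 := by
      rw [norm_pow]
      exact (pow_le_pow_left₀ (norm_nonneg _) hzR N).trans hN
    calc ‖a‖ ≤ _ + _ := norm_add_le _ _
      _ ≤ δ := by linarith
  have h2 : ‖x‖ ^ (2 * k) ≤ 1 + δ := by
    rw [← norm_pow]
    have : x ^ (2 * k) = (a + x ^ (2 * k)) - a := by ring
    rw [this]
    refine (norm_sub_le _ _).trans ?_
    rw [← h1]
    linarith
  have h3 : ‖x‖ ≤ 1 + δ := by
    by_contra hcon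
    push Not at hcon
    have h4 : (1 + δ) ^ (2 * k) < ‖x‖ ^ (2 * k) := pow_lt_pow_left₀ hcon (by linarith) (by omega)
    have h5 : 1 + δ ≤ (1 + δ) ^ (2 * k) := le_self_pow₀ (by linarith) (by omega)
    linarith
  have h6 : ‖Q (z, w)‖ = (1 + δ) * ‖x‖ := by
    rw [hx, norm_mul, Complex.norm_real, Real.norm_eq_abs, abs_of_pos (by positivity), ← mul_assoc,
      mul_inv_cancel₀ (by positivity), one_mul]
  rw [h6]
  nlinarith

/-- The fibre over the outer part. -/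
lemma fibre_outer {Q : ℂ × ℂ → ℂ} {m : ℕ} {c : ℂ} {q : ℂ[X]} (hm : 1 ≤ m)
    (hq : q.natDegree = m ∧ q.leadingCoeff = c) {δ R κ : ℝ} (hR : 1 ≤ R) (hδ : 0 < δ) (hδ1 : δ ≤ 1)
    (hκ : 0 < κ) {z : ℂ} (hPq : ∀ w, Q (z, w) = q.eval w)
    {k j : ℕ} (hk : 1 ≤ k) {K : ℝ} (hK : 1 ≤ K)
    (hK2 : 2 ≤ ‖((((1 + δ)⁻¹ : ℝ) : ℂ) * c) ^ k‖ * K ^ (m * k)) (hz : (1 + κ) * R ≤ ‖z‖) :
    volume {w : ℂ | ‖newP Q (δ / (4 * R)) (1 + δ)⁻¹ R (2 * (m * k) * (j + 2)) k (z, w)‖ ≤ 1} ≤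
      ENNReal.ofReal ((2 * (m * k : ℕ) * (Real.pi * K ^ 2) * (16 * R ^ 4)) * ((1 + κ)⁻¹) ^ (2 * j) *
        ((1 + ‖z‖) ^ 4)⁻¹) := by
  have hR0 : 0 < R := by linarith
  set N := 2 * (m * k) * (j + 2) with hN
  set s := m * k with hs
  have hs1 : 1 ≤ s := Nat.mul_pos hm hk
  have hd : (((1 + δ)⁻¹ : ℝ) : ℂ) ≠ 0 := by
    rw [Ne, Complex.ofReal_eq_zero]
    positivity
  set t : ℝ := ‖z‖ / R with ht
  have ht1 : 1 + κ ≤ t := by rw [ht, le_div_iff₀ hR0]; exact hz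
  have ht0 : 0 < t := by linarith
  set a : ℂ := (((δ / (4 * R) : ℝ)) : ℂ) * z + (z / (R : ℂ)) ^ N with ha
  have hzR : ‖z / (R:ℂ)‖ = t := by
    rw [norm_div, Complex.norm_real, Real.norm_eq_abs, abs_of_pos hR0]
  have hN2 : N = (s * (j + 2)) + (s * (j + 2)) := by rw [hN]; ring
  have hNt : t ≤ t ^ N := le_self_pow₀ (by linarith) (by rw [hN2]; positivity)
  have ha1 : ((1 / 2) * t ^ (s * (j + 2))) ^ 2 ≤ ‖a‖ := by
    have e1 : ‖(((δ / (4 * R) : ℝ)) : ℂ) * z‖ ≤ (1 / 4) * t := by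
      rw [norm_mul, Complex.norm_real, Real.norm_eq_abs, abs_of_pos (by positivity), ht]
      rw [div_mul_eq_mul_div, div_le_iff₀ (by positivity)]
      field_simp
      nlinarith [norm_nonneg z]
    have e2 : ‖(z / (R : ℂ)) ^ N‖ = t ^ N := by rw [norm_pow, hzR]
    have e3 : ‖(z / (R : ℂ)) ^ N‖ ≤ ‖a‖ + ‖(((δ / (4 * R) : ℝ)) : ℂ) * z‖ := by
      have : (z / (R : ℂ)) ^ N = a - (((δ / (4 * R) : ℝ)) : ℂ) * z := by rw [ha]; ring
      conv_lhs => rw [this]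
      exact norm_sub_le _ _
    have e4 : ((1 / 2) * t ^ (s * (j + 2))) ^ 2 = (1 / 4) * t ^ N := by
      rw [mul_pow, ← pow_mul, hN2]
      ring_nf
    rw [e4]
    rw [e2] at e3
    have : 0 < t ^ N := by positivity
    linarith
  have hT : (0:ℝ) ≤ K * (t⁻¹) ^ (j + 2) := by positivity
  have h1 := fine_area (d := (((1 + δ)⁻¹ : ℝ) : ℂ)) hm hd hq hk (a := a) (T := K * (t⁻¹) ^ (j + 2))
    (A := (1 / 2) * t ^ (s * (j + 2))) hT (by positivity) ha1 (by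
      rw [← hs]
      have f1 : ((1 / 2) * t ^ (s * (j + 2)))⁻¹ = 2 * t⁻¹ ^ (s * (j + 2)) := by
        rw [mul_inv, inv_pow]
        norm_num
      have f2 : ‖((((1 + δ)⁻¹ : ℝ) : ℂ) * c) ^ k‖ * (K * t⁻¹ ^ (j + 2)) ^ s =
          (‖((((1 + δ)⁻¹ : ℝ) : ℂ) * c) ^ k‖ * K ^ s) * t⁻¹ ^ (s * (j + 2)) := by
        have f3 : (K * t⁻¹ ^ (j + 2)) ^ s = K ^ s * t⁻¹ ^ (s * (j + 2)) := by
          rw [mul_pow, ← pow_mul, mul_comm (j + 2) s]
        rw [f3]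
        exact (mul_assoc _ _ _).symm
      rw [f1, f2]
      exact mul_le_mul_of_nonneg_right hK2 (by positivity))
  have hset : {w : ℂ | ‖newP Q (δ / (4 * R)) (1 + δ)⁻¹ R N k (z, w)‖ ≤ 1} =
      {w : ℂ | ‖a + ((((1 + δ)⁻¹ : ℝ) : ℂ) * q.eval w) ^ (2 * k)‖ ≤ 1} := by
    ext w
    rw [mem_ofPred_eq, mem_ofPred_eq, newP, hPq]
  rw [hset]
  refine h1.trans ?_
  rw [← hs]
  have h2 : (2:ℝ≥0∞) * ((s : ℝ≥0∞) * ENNReal.ofReal (Real.pi * (K * t⁻¹ ^ (j + 2)) ^ 2)) =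
      ENNReal.ofReal (2 * (s:ℝ) * (Real.pi * (K * t⁻¹ ^ (j + 2)) ^ 2)) := by
    have f1 : (2:ℝ≥0∞) = ENNReal.ofReal 2 := by norm_num
    have f2 : (s : ℝ≥0∞) = ENNReal.ofReal (s:ℝ) := (ENNReal.ofReal_natCast s).symm
    rw [f1, f2, ← ENNReal.ofReal_mul (by positivity), ← ENNReal.ofReal_mul (by positivity)]
    congr 1
    ring
  rw [h2]
  apply ENNReal.ofReal_le_ofReal
  have h3 : t⁻¹ ≤ (1 + κ)⁻¹ := by
    apply inv_anti₀ (by positivity) ht1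
  have h4 : (t⁻¹ ^ (j + 2)) ^ 2 ≤ ((1 + κ)⁻¹) ^ (2 * j) * (16 * R ^ 4 * ((1 + ‖z‖) ^ 4)⁻¹) := by
    have e1 : (t⁻¹ ^ (j + 2)) ^ 2 = t⁻¹ ^ (2 * j) * t⁻¹ ^ 4 := by
      rw [← pow_mul, ← pow_add]
      congr 1
      ring
    rw [e1]
    apply mul_le_mul
    · exact pow_le_pow_left₀ (by positivity) h3 _
    · have e2 : t⁻¹ ≤ 2 * R * (1 + ‖z‖)⁻¹ := by
        rw [ht, inv_div, ← div_eq_mul_inv, div_le_div_iff₀ (by nlinarith) (by positivity)]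
        have : 1 ≤ ‖z‖ := by nlinarith
        nlinarith
      calc t⁻¹ ^ 4 ≤ (2 * R * (1 + ‖z‖)⁻¹) ^ 4 := pow_le_pow_left₀ (by positivity) e2 _
        _ = 16 * R ^ 4 * ((1 + ‖z‖) ^ 4)⁻¹ := by
            rw [mul_pow, mul_pow, inv_pow]
            norm_num
    · positivity
    · positivity
  calc 2 * (s:ℝ) * (Real.pi * (K * t⁻¹ ^ (j + 2)) ^ 2)
      = (2 * (s:ℝ) * (Real.pi * K ^ 2)) * (t⁻¹ ^ (j + 2)) ^ 2 := by ring
    _ ≤ (2 * (s:ℝ) * (Real.pi * K ^ 2)) * (((1 + κ)⁻¹) ^ (2 * j) * (16 * R ^ 4 * ((1 + ‖z‖) ^ 4)⁻¹)) :=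
        mul_le_mul_of_nonneg_left h4 (by positivity)
    _ = _ := by ring

/-- **The inductive step.** -/
theorem step {Q : ℂ × ℂ → ℂ} (hQ : ContDiff ℂ 2 Q) (hM : MonW Q) (hD : DegZ Q) {R : ℝ} (hR : 1 ≤ R)
    {ε β : ℝ} (hε : 0 < ε) (hβ : 0 < β) :
    ∃ (η : ℝ) (P : ℂ × ℂ → ℂ), 0 < η ∧ ContDiff ℂ 2 P ∧ MonW P ∧ MonW (P ∘ Prod.swap) ∧
      (∀ p : ℂ × ℂ, ‖p.1‖ ≤ R → ‖p.2‖ ≤ R → ‖Q p‖ ≤ 1 →
        ‖P p‖ ≤ 1 / 2 ∧ ‖dZ P p - (η : ℂ)‖ ≤ β * η ∧ ‖dW P p‖ ≤ β * η) ∧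
      volume {p : ℂ × ℂ | ‖P p‖ ≤ 1} ≤ volume {p : ℂ × ℂ | ‖p.1‖ ≤ 2 * R ∧ ‖Q p‖ ≤ 1} +
        ENNReal.ofReal ε := by
  have hM' := hM
  obtain ⟨m, c, q, hm, hc, hq, hqc, hPq⟩ := hM
  obtain ⟨mz, qz, hqz, hqzc, hPqz⟩ := hD
  have hR' : 0 < 2 * R := by linarith
  obtain ⟨δ, hδ, hδ1, hδv⟩ := exists_delta hM' hQ.continuous (2 * R) (ε := ENNReal.ofReal (ε / 3))
    (ENNReal.ofReal_pos.mpr (by positivity))
  set d : ℝ := (1 + δ)⁻¹ with hd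
  have hd0 : 0 < d := by positivity
  have hd1 : d < 1 := inv_lt_one_of_one_lt₀ (by linarith)
  have hdc : (d:ℂ) ≠ 0 := by exact_mod_cast hd0.ne'
  set η : ℝ := δ / (4 * (2 * R)) with hη
  have hη0 : 0 < η := by positivity
  -- bound for the derivatives of `Q`
  have hKc : IsCompact (closedBall (0:ℂ) R ×ˢ closedBall (0:ℂ) R) :=
    (isCompact_closedBall _ _).prod (isCompact_closedBall _ _)
  obtain ⟨C1, hC1⟩ := hKc.exists_bound_of_continuousOn (dZ_contDiff hQ).continuous.continuousOn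
  obtain ⟨C2, hC2⟩ := hKc.exists_bound_of_continuousOn (dW_contDiff hQ).continuous.continuousOn
  set CQ := max (max C1 C2) 0 with hCQ
  have hCQ0 : 0 ≤ CQ := le_max_right _ _
  obtain ⟨k, hk, hk1, hk2⟩ := exists_k (C := CQ) hd0 hd1 (show 0 < β * η / 2 by positivity)
  -- constants
  have hℓ : 0 < ‖((d:ℂ) * c) ^ k‖ := norm_pos_iff.mpr (pow_ne_zero _ (mul_ne_zero hdc hc))
  have hℓ2 : 0 < ‖((d:ℂ) * c) ^ (2 * k)‖ := norm_pos_iff.mpr (pow_ne_zero _ (mul_ne_zero hdc hc))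
  have hex : ∀ {l b : ℝ} {n : ℕ}, 0 < l → 1 ≤ n → ∃ T : ℝ, 1 ≤ T ∧ b ≤ l * T ^ n := by
    intro l b n hl hn
    refine ⟨max 1 (b / l), le_max_left _ _, ?_⟩
    have h1 : max 1 (b / l) ≤ (max 1 (b / l)) ^ n := le_self_pow₀ (le_max_left _ _) (by omega)
    have h2 : b / l ≤ (max 1 (b / l)) ^ n := (le_max_right _ _).trans h1
    rw [div_le_iff₀ hl] at h2
    linarith
  obtain ⟨T0, hT01, hT0⟩ := hex (b := 1) (n := m * (2 * k)) hℓ2 (Nat.mul_pos hm (by omega))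
  obtain ⟨K, hK1, hK2⟩ := hex (b := 2) (n := m * k) hℓ (Nat.mul_pos hm hk)
  set A0 : ℝ := ((m * (2 * k) : ℕ) : ℝ) * (Real.pi * T0 ^ 2) with hA0
  have hA00 : 0 ≤ A0 := by positivity
  obtain ⟨κ, hκ0, hκ1, hκε⟩ : ∃ κ : ℝ, 0 < κ ∧ κ ≤ 1 / 2 ∧
      A0 * (Real.pi * (((1 + κ) * (2 * R)) ^ 2 - ((1 - κ) * (2 * R)) ^ 2)) ≤ ε / 3 := by
    refine ⟨min (1 / 2) (ε / 3 / (16 * Real.pi * R ^ 2 * A0 + 1)), ?_, min_le_left _ _, ?_⟩
    · apply lt_min (by norm_num)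
      positivity
    · set κ := min (1 / 2) (ε / 3 / (16 * Real.pi * R ^ 2 * A0 + 1)) with hκ
      have h1 : κ ≤ ε / 3 / (16 * Real.pi * R ^ 2 * A0 + 1) := min_le_right _ _
      have h2 : 0 ≤ κ := by
        apply le_min (by norm_num)
        positivity
      rw [le_div_iff₀ (by positivity)] at h1
      calc A0 * (Real.pi * (((1 + κ) * (2 * R)) ^ 2 - ((1 - κ) * (2 * R)) ^ 2))
          = κ * (16 * Real.pi * R ^ 2 * A0) := by ring
        _ ≤ κ * (16 * Real.pi * R ^ 2 * A0 + 1) := by nlinarith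
        _ ≤ ε / 3 := h1
  set J := ∫ z : ℂ, ((1 + ‖z‖) ^ 4)⁻¹ with hJ
  set B : ℝ := (2 * (m * k : ℕ) * (Real.pi * K ^ 2) * (16 * (2 * R) ^ 4)) with hB
  obtain ⟨j, hj1, hj2, hj3, hj4, hj5⟩ := exists_N (R := 2 * R) (β := β * η / 2) (δ := δ / 2) (κ := κ)
    (B := B * J) (ε := ε / 3) (by positivity) (by positivity) hκ0 (by linarith) (by positivity)
    (s := m * k) (Nat.mul_pos hm hk) (2 * k * mz)
  set N := 2 * (m * k) * (j + 2) with hN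
  have hs1 : 1 ≤ m * k := Nat.mul_pos hm hk
  have hN2 : 2 ≤ N := by rw [hN]; nlinarith
  set P := newP Q η d (2 * R) N k with hP
  refine ⟨η, P, hη0, newP_contDiff hQ _ _ _ _ _, newP_monW hm hc hq hqc hPq _ _ _ hd0.ne' _ _ hk,
    newP_monZ hqz hqzc hPqz _ _ hR'.ne' hj4 hN2, ?_, ?_⟩
  · rintro ⟨z, w⟩ hz hw hQ1
    simp only at hz hw
    have hzr : ‖z / ((2 * R : ℝ) : ℂ)‖ ≤ 1 / 2 := by
      rw [norm_div, Complex.norm_real, Real.norm_eq_abs, abs_of_pos hR', div_le_iff₀ hR']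
      linarith
    have hdQ : ‖(d:ℂ) * Q (z, w)‖ ≤ d := by
      rw [norm_mul, Complex.norm_real, Real.norm_eq_abs, abs_of_pos hd0]
      nlinarith
    have hmem : ((z, w) : ℂ × ℂ) ∈ closedBall (0:ℂ) R ×ˢ closedBall (0:ℂ) R := by
      constructor
      · simpa using hz
      · simpa using hw
    have hdz : ‖dZ Q (z, w)‖ ≤ CQ := (hC1 _ hmem).trans ((le_max_left _ _).trans (le_max_left _ _))
    have hdw : ‖dW Q (z, w)‖ ≤ CQ := (hC2 _ hmem).trans ((le_max_right _ _).trans (le_max_left _ _))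
    have hterm : ∀ x : ℂ, ‖x‖ ≤ CQ →
        ‖((2 * k : ℕ) : ℂ) * ((d : ℂ) * Q (z, w)) ^ (2 * k - 1) * ((d:ℂ) * x)‖ ≤ β * η / 2 := by
      intro x hx
      rw [norm_mul, norm_mul, norm_pow, norm_mul (d:ℂ) x, Complex.norm_natCast, Complex.norm_real,
        Real.norm_eq_abs, abs_of_pos hd0]
      have e1 : ‖(d:ℂ) * Q (z, w)‖ ^ (2 * k - 1) ≤ d ^ (2 * k - 1) := pow_le_pow_left₀ (norm_nonneg _) hdQ _
      have e2 : d ^ (2 * k) = d ^ (2 * k - 1) * d := by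
        rw [← pow_succ]
        congr 1
        omega
      calc ((2 * k : ℕ) : ℝ) * ‖(d:ℂ) * Q (z, w)‖ ^ (2 * k - 1) * (d * ‖x‖)
          ≤ ((2 * k : ℕ) : ℝ) * d ^ (2 * k - 1) * (d * CQ) := by gcongr
        _ = ((2 * k : ℕ) : ℝ) * d ^ (2 * k) * CQ := by rw [e2]; ring
        _ ≤ β * η / 2 := hk1
    refine ⟨?_, ?_, ?_⟩
    · have e1 : P (z, w) = ((η : ℂ) * z + (z / ((2 * R : ℝ) : ℂ)) ^ N) + ((d : ℂ) * Q (z, w)) ^ (2 * k) := rfl
      rw [e1]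
      have e2 : ‖(η : ℂ) * z‖ ≤ 1 / 8 := by
        rw [norm_mul, Complex.norm_real, Real.norm_eq_abs, abs_of_pos hη0]
        calc η * ‖z‖ ≤ η * R := mul_le_mul_of_nonneg_left hz hη0.le
          _ = δ / 8 := by rw [hη]; field_simp; ring
          _ ≤ 1 / 8 := by linarith
      have e3 : ‖(z / ((2 * R : ℝ) : ℂ)) ^ N‖ ≤ 1 / 8 := by
        rw [norm_pow]
        exact (pow_le_pow_left₀ (norm_nonneg _) hzr _).trans hj2
      have e4 : ‖((d : ℂ) * Q (z, w)) ^ (2 * k)‖ ≤ 1 / 8 := by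
        rw [norm_pow]
        exact (pow_le_pow_left₀ (norm_nonneg _) hdQ _).trans hk2
      calc _ ≤ ‖(η : ℂ) * z + (z / ((2 * R : ℝ) : ℂ)) ^ N‖ + ‖((d : ℂ) * Q (z, w)) ^ (2 * k)‖ :=
            norm_add_le _ _
        _ ≤ (‖(η : ℂ) * z‖ + ‖(z / ((2 * R : ℝ) : ℂ)) ^ N‖) + ‖((d : ℂ) * Q (z, w)) ^ (2 * k)‖ := by
            gcongr
            exact norm_add_le _ _
        _ ≤ 1 / 2 := by linarith
    · rw [dZ, hP, newP_fderiv hQ]
      simp only [mul_one]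
      have e1 : (η : ℂ) + N * (z / ((2 * R : ℝ) : ℂ)) ^ (N - 1) * (((2 * R : ℝ) : ℂ))⁻¹ +
          ((2 * k : ℕ) : ℂ) * ((d : ℂ) * Q (z, w)) ^ (2 * k - 1) * ((d:ℂ) * fderiv ℂ Q (z, w) (1, 0)) - (η:ℂ) =
          N * (z / ((2 * R : ℝ) : ℂ)) ^ (N - 1) * (((2 * R : ℝ) : ℂ))⁻¹ +
          ((2 * k : ℕ) : ℂ) * ((d : ℂ) * Q (z, w)) ^ (2 * k - 1) * ((d:ℂ) * fderiv ℂ Q (z, w) (1, 0)) := by
        ring
      rw [e1]
      have e2 : ‖(N:ℂ) * (z / ((2 * R : ℝ) : ℂ)) ^ (N - 1) * (((2 * R : ℝ) : ℂ))⁻¹‖ ≤ β * η / 2 := by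
        rw [norm_mul, norm_mul, norm_pow, Complex.norm_natCast, norm_inv, Complex.norm_real,
          Real.norm_eq_abs, abs_of_pos hR']
        refine le_trans ?_ hj1
        gcongr
      calc _ ≤ _ + _ := norm_add_le _ _
        _ ≤ β * η / 2 + β * η / 2 := add_le_add e2 (hterm _ hdz)
        _ = β * η := by ring
    · rw [dW, hP, newP_fderiv hQ]
      simp only [mul_zero, zero_add]
      refine (hterm _ hdw).trans ?_
      have : 0 < β * η := by positivity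
      linarith
  · -- the volume bound
    have hPcont : Continuous P := (newP_contDiff hQ _ _ _ _ _).continuous
    have hmeas : MeasurableSet {p : ℂ × ℂ | ‖P p‖ ≤ 1} :=
      (isClosed_le hPcont.norm continuous_const).measurableSet
    have hmeas1 : MeasurableSet {p : ℂ × ℂ | ‖p.1‖ ≤ 2 * R ∧ ‖Q p‖ ≤ 1 + 3 * δ} :=
      ((isClosed_le continuous_fst.norm continuous_const).inter
        (isClosed_le hQ.continuous.norm continuous_const)).measurableSet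
    set f1 : ℂ → ℝ≥0∞ := fun z => volume (Prod.mk z ⁻¹' {p : ℂ × ℂ | ‖p.1‖ ≤ 2 * R ∧ ‖Q p‖ ≤ 1 + 3 * δ}) with hf1
    set Z2 : Set ℂ := closedBall (0:ℂ) ((1 + κ) * (2 * R)) \ closedBall (0:ℂ) ((1 - κ) * (2 * R)) with hZ2
    set f2 : ℂ → ℝ≥0∞ := Z2.indicator (fun _ => ENNReal.ofReal A0) with hf2
    set f3 : ℂ → ℝ≥0∞ := fun z => ENNReal.ofReal (B * ((1 + κ)⁻¹) ^ (2 * j) * ((1 + ‖z‖) ^ 4)⁻¹) with hf3
    have hpt : ∀ z, volume (Prod.mk z ⁻¹' {p : ℂ × ℂ | ‖P p‖ ≤ 1}) ≤ f1 z + (f2 z + f3 z) := by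
      intro z
      have hpre : Prod.mk z ⁻¹' {p : ℂ × ℂ | ‖P p‖ ≤ 1} = {w | ‖P (z, w)‖ ≤ 1} := rfl
      rw [hpre]
      rcases le_or_gt ‖z‖ ((1 - κ) * (2 * R)) with h1 | h1
      · refine le_trans ?_ le_self_add
        apply measure_mono
        intro w hw
        rw [mem_ofPred_eq] at hw
        rw [mem_preimage, mem_ofPred_eq]
        refine ⟨?_, fibre_inner hR' hδ hδ1 hk hj3 h1 hw⟩
        simp only
        nlinarith
      · rcases le_or_gt ‖z‖ ((1 + κ) * (2 * R)) with h2 | h2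
        · refine le_trans ?_ (le_add_self.trans (add_le_add_right (le_self_add) _))
          have hz2 : z ∈ Z2 := by
            rw [hZ2, Set.mem_sdiff, mem_closedBall, mem_closedBall, dist_zero_right]
            exact ⟨h2, not_le.mpr h1⟩
          rw [hf2, indicator_of_mem hz2]
          have h3 := crude_area (q := q z) hm hdc (hq z) (k := 2 * k) (by omega)
            ((η : ℂ) * z + (z / ((2 * R : ℝ) : ℂ)) ^ N) (T := T0) (by linarith) hT0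
          have h4 : {w : ℂ | ‖P (z, w)‖ ≤ 1} =
              {w : ℂ | ‖((η : ℂ) * z + (z / ((2 * R : ℝ) : ℂ)) ^ N) + ((d:ℂ) * (q z).eval w) ^ (2 * k)‖ ≤ 1} := by
            ext w
            rw [mem_ofPred_eq, mem_ofPred_eq, hP, newP, hPq]
          rw [h4]
          refine h3.trans (le_of_eq ?_)
          rw [hA0, ← ENNReal.ofReal_natCast (m * (2 * k)), ← ENNReal.ofReal_mul (by positivity)]
        · refine le_trans ?_ (le_add_self.trans (add_le_add_right (le_add_self) _))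
          exact fibre_outer hm (hq z) (by linarith) hδ hδ1 hκ0 (hPq z) hk hK1 hK2 h2.le
    have hf1m : Measurable f1 := measurable_measure_prodMk_left hmeas1
    have hf2m : Measurable f2 := measurable_const.indicator (measurableSet_closedBall.diff measurableSet_closedBall)
    have hI1 : ∫⁻ z, f1 z = volume {p : ℂ × ℂ | ‖p.1‖ ≤ 2 * R ∧ ‖Q p‖ ≤ 1 + 3 * δ} := by
      rw [Measure.volume_eq_prod, Measure.prod_apply hmeas1]
    have hI2 : ∫⁻ z, f2 z ≤ ENNReal.ofReal (ε / 3) := by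
      rw [hf2, lintegral_indicator_const (measurableSet_closedBall.diff measurableSet_closedBall),
        volume_annulus (by nlinarith) (by nlinarith), ← ENNReal.ofReal_mul hA00]
      exact ENNReal.ofReal_le_ofReal hκε
    have hI3 : ∫⁻ z, f3 z ≤ ENNReal.ofReal (ε / 3) := by
      rw [hf3, ← ofReal_integral_eq_lintegral_ofReal (integrable_four.const_mul _)
        (Eventually.of_forall (fun z => by positivity)), integral_const_mul]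
      apply ENNReal.ofReal_le_ofReal
      rw [← hJ]
      refine le_trans (le_of_eq ?_) hj5
      ring
    rw [Measure.volume_eq_prod, Measure.prod_apply hmeas]
    calc ∫⁻ z, volume (Prod.mk z ⁻¹' {p : ℂ × ℂ | ‖P p‖ ≤ 1}) ≤ ∫⁻ z, (f1 z + (f2 z + f3 z)) :=
          lintegral_mono hpt
      _ = (∫⁻ z, f1 z) + ((∫⁻ z, f2 z) + (∫⁻ z, f3 z)) := by
          rw [lintegral_add_left hf1m, lintegral_add_left hf2m]
      _ ≤ (volume {p : ℂ × ℂ | ‖p.1‖ ≤ 2 * R ∧ ‖Q p‖ ≤ 1} + ENNReal.ofReal (ε / 3)) +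
          (ENNReal.ofReal (ε / 3) + ENNReal.ofReal (ε / 3)) := by
          rw [hI1]
          exact add_le_add hδv (add_le_add hI2 hI3)
      _ = volume {p : ℂ × ℂ | ‖p.1‖ ≤ 2 * R ∧ ‖Q p‖ ≤ 1} + ENNReal.ofReal ε := by
          rw [add_assoc, ← ENNReal.ofReal_add (by positivity) (by positivity),
            ← ENNReal.ofReal_add (by positivity) (by positivity)]
          congr 2
          ring

end

end Pool.Agent.H72.PB
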