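import Mathlib

set_option autoImplicit false

/-! Local to global principle for continuous functions with the sub-mean value property on the
closed unit disc. -/

namespace Pool.Agent.H72.PG

open Complex Filter Metric Real Set Topology

lemma avg_re {g : ℂ → ℂ} {c : ℂ} {r : ℝ} (hg : DiffContOnCl ℂ g (ball c |r|)) :
    circleAverage (fun z => (g z).re) c r = (g c).re := by
  by_cases hr : r = 0
  · simp [hr]
  have hci : CircleIntegrable g c r := by
    apply ContinuousOn.circleIntegrable'
    apply hg.2.mono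
    rw [closure_ball _ (abs_ne_zero.mpr hr)]
    exact sphere_subset_closedBall
  have h1 := Complex.reCLM.circleAverage_comp_comm hci
  have h2 := hg.circleAverage
  rw [h2] at h1
  simpa [Function.comp_def] using h1

lemma avg_norm_sq (c : ℂ) (r : ℝ) :
    circleAverage (fun z : ℂ => ‖z‖ ^ 2) c r = ‖c‖ ^ 2 + r ^ 2 := by
  have h1 : Set.EqOn (fun z : ℂ => ‖z‖ ^ 2)
      (fun z : ℂ => (((‖c‖ ^ 2 + r ^ 2 : ℝ) : ℂ) + 2 * (starRingEnd ℂ c * (z - c))).re)
      (sphere c |r|) := by
    intro z hz
    have hz' : ‖z - c‖ = |r| := by simpa [dist_eq_norm] using hz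
    have h2 : ‖z - c‖ ^ 2 = r ^ 2 := by rw [hz', sq_abs]
    rw [← Complex.normSq_eq_norm_sq, Complex.normSq_apply] at h2
    simp only [← Complex.normSq_eq_norm_sq, Complex.normSq_apply]
    simp [Complex.add_re, Complex.mul_re]
    simp at h2
    have h3 : ((r:ℂ) ^ 2).re = r ^ 2 := by rw [← Complex.ofReal_pow, Complex.ofReal_re]
    rw [h3]
    nlinarith
  rw [circleAverage_congr_sphere h1]
  have hd : Differentiable ℂ (fun z : ℂ => (((‖c‖ ^ 2 + r ^ 2 : ℝ) : ℂ) + 2 * (starRingEnd ℂ c * (z - c)))) := by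
    fun_prop
  rw [avg_re hd.diffContOnCl]
  simp only [sub_self, mul_zero, add_zero, ofReal_re]

/-- Local sub-mean value property at a point. -/
def LocSub (v : ℂ → ℝ) (ζ : ℂ) : Prop :=
  ∃ r0 > (0:ℝ), ∀ r, 0 < r → r < r0 → v ζ ≤ circleAverage v ζ r

lemma maxPrinciple {v : ℂ → ℝ} (hc : ContinuousOn v (closedBall 0 1))
    (hl : ∀ ζ ∈ ball (0:ℂ) 1, LocSub v ζ) {M : ℝ} (hM : ∀ ζ ∈ sphere (0:ℂ) 1, v ζ ≤ M) :
    v 0 ≤ M := by
  by_contra hcon
  push Not at hcon
  set δ := (v 0 - M) / 2 with hδ
  have hδ0 : 0 < δ := by rw [hδ]; linarith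
  set w : ℂ → ℝ := fun ζ => v ζ + δ * ‖ζ‖ ^ 2 with hw
  have hwc : ContinuousOn w (closedBall 0 1) := by
    apply hc.add
    fun_prop
  obtain ⟨ζ, hζ, hmax⟩ := (isCompact_closedBall (0:ℂ) 1).exists_isMaxOn ⟨0, by simp⟩ hwc
  have h0 : w 0 ≤ w ζ := hmax (by simp)
  have hζn : ζ ∈ ball (0:ℂ) 1 := by
    by_contra hnb
    have hsph : ζ ∈ sphere (0:ℂ) 1 := by
      simp only [mem_closedBall, dist_zero_right, mem_ball, not_lt, mem_sphere] at *
      exact le_antisymm hζ hnb
    have h1 := hM ζ hsph
    have hn : ‖ζ‖ = 1 := by simpa using hsph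
    simp only [hw, hn, norm_zero] at h0
    norm_num at h0
    linarith
  obtain ⟨r0, hr0, hsub⟩ := hl ζ hζn
  obtain ⟨r1, hr1, hball⟩ := Metric.isOpen_iff.mp isOpen_ball ζ hζn
  set r := min r0 r1 / 2 with hr
  have hrpos : 0 < r := by rw [hr]; have := lt_min hr0 hr1; linarith
  have hrr0 : r < r0 := by rw [hr]; have := min_le_left r0 r1; have := lt_min hr0 hr1; linarith
  have hrr1 : r < r1 := by rw [hr]; have := min_le_right r0 r1; have := lt_min hr0 hr1; linarith
  have hs := hsub r hrpos hrr0
  have hsphere : sphere ζ |r| ⊆ closedBall (0:ℂ) 1 := by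
    rw [abs_of_pos hrpos]
    intro z hz
    apply ball_subset_closedBall
    apply hball
    rw [mem_sphere] at hz
    rw [mem_ball, hz]; exact hrr1
  have hvi : CircleIntegrable v ζ r := (hc.mono hsphere).circleIntegrable'
  have hni : CircleIntegrable (fun z : ℂ => δ * ‖z‖ ^ 2) ζ r := by
    apply ContinuousOn.circleIntegrable'
    fun_prop
  have hwi : CircleIntegrable w ζ r := (hwc.mono hsphere).circleIntegrable'
  have havg : circleAverage w ζ r = circleAverage v ζ r + δ * (‖ζ‖ ^ 2 + r ^ 2) := by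
    have h1 : circleAverage w ζ r = circleAverage v ζ r + circleAverage (fun z : ℂ => δ * ‖z‖ ^ 2) ζ r :=
      circleAverage_fun_add hvi hni
    have h2 : circleAverage (fun z : ℂ => δ * ‖z‖ ^ 2) ζ r = δ * circleAverage (fun z : ℂ => ‖z‖ ^ 2) ζ r := by
      have := circleAverage_fun_smul (c := ζ) (R := r) (a := δ) (f := fun z : ℂ => ‖z‖ ^ 2)
      simpa [smul_eq_mul] using this
    rw [h1, h2, avg_norm_sq]
  have hle : circleAverage w ζ r ≤ w ζ := by
    apply circleAverage_mono_on_of_le_circle hwi
    intro z hz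
    exact hmax (hsphere hz)
  rw [havg] at hle
  simp only [hw] at hle
  have : 0 < δ * r ^ 2 := by positivity
  nlinarith

/-- Every continuous real function on the unit circle is uniformly close to the real part of
an entire function. -/
lemma exists_entire_near {v : ℂ → ℝ} (hc : ContinuousOn v (sphere 0 1)) {ε : ℝ} (hε : 0 < ε) :
    ∃ p : ℂ → ℂ, Differentiable ℂ p ∧ ∀ ζ ∈ sphere (0:ℂ) 1, |v ζ - (p ζ).re| < ε := by
  have : Fact (0 < 2 * π) := ⟨by positivity⟩
  set f : C(AddCircle (2 * π), ℂ) :=
    { toFun := fun x => ((v (AddCircle.toCircle x : ℂ) : ℝ) : ℂ)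
      continuous_toFun := by
        apply Complex.continuous_ofReal.comp
        apply hc.comp_continuous
        · exact continuous_subtype_val.comp AddCircle.continuous_toCircle
        · intro x
          rw [mem_sphere_zero_iff_norm]
          exact Circle.norm_coe _ } with hf
  have hmem : f ∈ (Submodule.span ℂ (Set.range <| @fourier (2 * π))).topologicalClosure := by
    rw [span_fourier_closure_eq_top]
    trivial
  have hmem2 : f ∈ closure ((Submodule.span ℂ (Set.range <| @fourier (2 * π))) : Set C(AddCircle (2 * π), ℂ)) := by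
    rw [← Submodule.topologicalClosure_coe]
    exact hmem
  obtain ⟨g, hg, hfg⟩ := Metric.mem_closure_iff.mp hmem2 ε hε
  have hQ : ∀ g ∈ Submodule.span ℂ (Set.range <| @fourier (2 * π)),
      ∃ p q : ℂ → ℂ, Differentiable ℂ p ∧ Differentiable ℂ q ∧
        ∀ x, g x = p (AddCircle.toCircle x : ℂ) + starRingEnd ℂ (q (AddCircle.toCircle x : ℂ)) := by
    intro g hg
    induction hg using Submodule.span_induction with
    | mem g hg =>
      obtain ⟨n, rfl⟩ := hg
      rcases le_total 0 n with hn | hn
      · obtain ⟨k, rfl⟩ := Int.eq_ofNat_of_zero_le hn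
        refine ⟨fun z => z ^ k, fun _ => 0, by fun_prop, by fun_prop, fun x => ?_⟩
        rw [fourier_apply, AddCircle.toCircle_zsmul]
        simp
      · obtain ⟨k, hk⟩ := Int.eq_ofNat_of_zero_le (neg_nonneg.mpr hn)
        have hk2 : n = -(k:ℤ) := by omega
        subst hk2
        refine ⟨fun _ => 0, fun z => z ^ k, by fun_prop, by fun_prop, fun x => ?_⟩
        rw [fourier_neg, fourier_apply, AddCircle.toCircle_zsmul]
        simp
    | zero => exact ⟨fun _ => 0, fun _ => 0, by fun_prop, by fun_prop, fun x => by simp⟩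
    | add g h _ _ hg hh =>
      obtain ⟨p, q, hp, hq, he⟩ := hg
      obtain ⟨p', q', hp', hq', he'⟩ := hh
      refine ⟨fun z => p z + p' z, fun z => q z + q' z, by fun_prop, by fun_prop, fun x => ?_⟩
      simp only [ContinuousMap.add_apply, he, he', map_add]
      ring
    | smul a g _ hg =>
      obtain ⟨p, q, hp, hq, he⟩ := hg
      refine ⟨fun z => a * p z, fun z => starRingEnd ℂ a * q z, by fun_prop, by fun_prop, fun x => ?_⟩
      simp only [ContinuousMap.smul_apply, he, smul_eq_mul, map_mul, Complex.conj_conj]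
      ring
  obtain ⟨p, q, hp, hq, he⟩ := hQ g hg
  refine ⟨fun z => p z + q z, by fun_prop, fun ζ hζ => ?_⟩
  have hζ1 : ‖ζ‖ = 1 := by simpa using hζ
  obtain ⟨x, hx⟩ : ∃ x : AddCircle (2 * π), (AddCircle.toCircle x : ℂ) = ζ := by
    refine ⟨((arg ζ : ℝ) : AddCircle (2 * π)), ?_⟩
    rw [AddCircle.toCircle_apply_mk]
    have : (2 * π / (2 * π) * arg ζ) = arg ζ := by
      field_simp
    rw [this, Circle.coe_exp]
    have h := Complex.norm_mul_exp_arg_mul_I ζ
    rw [hζ1] at h
    simpa using h
  have h1 : ‖f x - g x‖ < ε := by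
    have h2 := ContinuousMap.dist_apply_le_dist (f := f) (g := g) x
    rw [dist_eq_norm] at h2
    exact lt_of_le_of_lt h2 hfg
  have h2 : f x = ((v ζ : ℝ) : ℂ) := by simp [hf, hx]
  have h3 : (g x).re = (p ζ + q ζ).re := by
    rw [he x, hx]
    simp
  have h4 : |(f x - g x).re| ≤ ‖f x - g x‖ := Complex.abs_re_le_norm _
  rw [Complex.sub_re, h2, h3, Complex.ofReal_re] at h4
  rw [h2] at h1
  exact lt_of_le_of_lt h4 h1

/-- A continuous function on the closed disc which is locally sub-mean is sub-mean at the centre. -/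
theorem submean_of_local {v : ℂ → ℝ} (hc : ContinuousOn v (closedBall 0 1))
    (hl : ∀ ζ ∈ ball (0:ℂ) 1, LocSub v ζ) : v 0 ≤ circleAverage v 0 1 := by
  apply le_of_forall_pos_le_add
  intro ε hε
  obtain ⟨p, hp, hpv⟩ := exists_entire_near (hc.mono sphere_subset_closedBall) (half_pos hε)
  have hpc : Continuous (fun z => (p z).re) := Complex.continuous_re.comp hp.continuous
  have h1 : v 0 - (p 0).re ≤ ε / 2 := by
    apply maxPrinciple (v := fun z => v z - (p z).re) (hc.sub hpc.continuousOn)
    · intro ζ hζ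
      obtain ⟨r0, hr0, hsub⟩ := hl ζ hζ
      obtain ⟨r1, hr1, hball⟩ := Metric.isOpen_iff.mp isOpen_ball ζ hζ
      refine ⟨min r0 r1, lt_min hr0 hr1, fun r hr hrr => ?_⟩
      have hrr0 : r < r0 := lt_of_lt_of_le hrr (min_le_left _ _)
      have hrr1 : r < r1 := lt_of_lt_of_le hrr (min_le_right _ _)
      have hsphere : sphere ζ |r| ⊆ closedBall (0:ℂ) 1 := by
        rw [abs_of_pos hr]
        intro z hz
        apply ball_subset_closedBall
        apply hball
        rw [mem_sphere] at hz
        rw [mem_ball, hz]; exact hrr1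
      have hvi : CircleIntegrable v ζ r := (hc.mono hsphere).circleIntegrable'
      have hpi : CircleIntegrable (fun z => (p z).re) ζ r := hpc.continuousOn.circleIntegrable'
      have h2 := circleAverage_fun_sub hvi hpi
      rw [h2, avg_re hp.diffContOnCl]
      have := hsub r hr hrr0
      linarith
    · intro ζ hζ
      have := (abs_lt.mp (hpv ζ hζ)).2
      linarith
  have hvi : CircleIntegrable v 0 1 := by
    apply ContinuousOn.circleIntegrable'
    apply hc.mono
    rw [abs_one]
    exact sphere_subset_closedBall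
  have hpi : CircleIntegrable (fun z => (p z).re - ε / 2) 0 1 := by
    apply ContinuousOn.circleIntegrable'
    exact (hpc.sub continuous_const).continuousOn
  have hpi0 : CircleIntegrable (fun z => (p z).re) 0 1 := hpc.continuousOn.circleIntegrable'
  have h3 : circleAverage (fun z => (p z).re - ε / 2) 0 1 ≤ circleAverage v 0 1 := by
    apply circleAverage_mono hpi hvi
    intro z hz
    rw [abs_one] at hz
    have := (abs_lt.mp (hpv z hz)).1
    linarith
  have h4 : circleAverage (fun z => (p z).re - ε / 2) 0 1 = (p 0).re - ε / 2 := by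
    have hcst : CircleIntegrable (fun _ : ℂ => ε / 2) 0 1 := continuousOn_const.circleIntegrable'
    rw [circleAverage_fun_sub hpi0 hcst, avg_re hp.diffContOnCl, circleAverage_const]
  rw [h4] at h3
  linarith

end Pool.Agent.H72.PG
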