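import Pool.Agent.H72.PG1

set_option autoImplicit false

/-! Upper bounds for plurisubharmonic functions (defined by the sub-mean value property on affine
discs) along holomorphic discs, by doubling of variables. -/

namespace Pool.Agent.H72.PG

open Complex Filter Metric Real Set Topology

section disc

variable {E : Type*} [NormedAddCommGroup E] [InnerProductSpace ℂ E] [FiniteDimensional ℂ E]

/-- The sub-mean value property on closed affine discs, tested against continuous majorants. -/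
def SubM (Ω : Set E) (u : E → EReal) : Prop :=
  ∀ a b : E, (∀ ζ : ℂ, ‖ζ‖ ≤ 1 → a + ζ • b ∈ Ω) →
    ∀ φ : ℝ → ℝ, Continuous φ →
      (∀ θ : ℝ, u (a + Complex.exp ((θ : ℂ) * Complex.I) • b) ≤ ((φ θ : ℝ) : EReal)) →
      u a ≤ (((2 * Real.pi)⁻¹ * ∫ θ in (0:ℝ)..(2 * Real.pi), φ θ : ℝ) : EReal)

omit [FiniteDimensional ℂ E] in
lemma second_order [CompleteSpace E] {φ : ℂ → E} (hφ : Differentiable ℂ φ) (t : ℂ) :
    ∃ b : E, ∃ C ≥ (0:ℝ), ∃ r0 > (0:ℝ), ∀ ζ : ℂ, ‖ζ‖ < r0 →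
      ‖φ (t + ζ) - φ t - ζ • b‖ ≤ C * ‖ζ‖ ^ 2 := by
  have han : AnalyticAt ℂ φ t := hφ.analyticAt t
  obtain ⟨p, hp⟩ := han
  have hO := hp.isBigO_sub_partialSum_pow 2
  obtain ⟨C, hC0, hC⟩ := hO.exists_nonneg
  rw [Asymptotics.isBigOWith_iff, Metric.eventually_nhds_iff] at hC
  obtain ⟨r0, hr0, hr⟩ := hC
  refine ⟨p 1 (fun _ => 1), C, hC0, r0, hr0, fun ζ hζ => ?_⟩
  have h1 := hr (y := ζ) (by simpa using hζ)
  have h2 : p.partialSum 2 ζ = φ t + ζ • p 1 (fun _ => 1) := by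
    rw [FormalMultilinearSeries.partialSum, Finset.sum_range_succ, Finset.sum_range_one]
    have h3 : p 0 (fun _ => ζ) = φ t := hp.coeff_zero _
    have h4 : p 1 (fun _ => ζ) = ζ • p 1 (fun _ => 1) := by
      simp
    rw [h3, h4]
  rw [h2] at h1
  have h5 : φ (t + ζ) - φ t - ζ • p 1 (fun _ => 1) = φ (t + ζ) - (φ t + ζ • p 1 (fun _ => 1)) := by
    abel
  rw [h5]
  simpa using h1

lemma circle_shift (f : ℂ → ℝ) (t : ℂ) (r : ℝ) :
    circleAverage f t r = (2 * Real.pi)⁻¹ * ∫ θ in (0:ℝ)..(2 * Real.pi),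
      f (t + (r:ℂ) * Complex.exp ((θ : ℂ) * Complex.I)) := by
  simp [circleAverage_def, circleMap]

/-- The local contradiction at a maximum point. -/
lemma local_step {Ω : Set E} {u : E → EReal} (hs : SubM Ω u) {φ : ℂ → E}
    (hφ : Differentiable ℂ φ) {A U : Set ℂ} {H : ℂ → ℝ} (hUA : U ⊆ A) (hU : IsOpen U)
    (hH : ContinuousOn H A) {X : Set E} (hXΩ : X ⊆ Ω) {t : ℂ} (ht : t ∈ U) {x : E}
    (hx : X ∈ 𝓝 x) {δ r0 : ℝ} (hδ : 0 < δ) (hr0 : 0 < r0)
    (hHt : ∀ r, 0 < r → r < r0 → circleAverage H t r ≤ H t - δ * r ^ 2)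
    {K α : ℝ} (hK : 0 ≤ K) (hα : u x = (α : EReal))
    (hmax : ∀ t' ∈ A, ∀ x' ∈ X, u x' ≤
      ((α - H t - K * ‖x - φ t‖ ^ 2 + H t' + K * ‖x' - φ t'‖ ^ 2 : ℝ) : EReal)) : False := by
  obtain ⟨b, C, hC, r1, hr1, hD⟩ := second_order hφ t
  obtain ⟨r2, hr2, hball⟩ := Metric.isOpen_iff.mp hU t ht
  obtain ⟨r3, hr3, hX⟩ := Metric.mem_nhds_iff.mp hx
  obtain ⟨r, hrpos, hrr0, hrr1, hrr2, hrr3, hrsmall⟩ : ∃ r : ℝ, 0 < r ∧ r < r0 ∧ r < r1 ∧ r < r2 ∧
      r * ‖b‖ < r3 ∧ K * C ^ 2 * r ^ 2 < δ := by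
    have e0 : ∀ᶠ r : ℝ in 𝓝[>] 0, 0 < r := self_mem_nhdsWithin
    have e1 : ∀ c : ℝ, 0 < c → ∀ᶠ r : ℝ in 𝓝[>] 0, r < c := fun c hc =>
      mem_nhdsWithin_of_mem_nhds (Iio_mem_nhds hc)
    have e2 : ∀ᶠ r : ℝ in 𝓝[>] 0, r * ‖b‖ < r3 := by
      have : Tendsto (fun r : ℝ => r * ‖b‖) (𝓝 0) (𝓝 (0 * ‖b‖)) :=
        (continuous_id.mul continuous_const).tendsto 0
      rw [zero_mul] at this
      exact (this.eventually_lt_const hr3).filter_mono nhdsWithin_le_nhds
    have e3 : ∀ᶠ r : ℝ in 𝓝[>] 0, K * C ^ 2 * r ^ 2 < δ := by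
      have : Tendsto (fun r : ℝ => K * C ^ 2 * r ^ 2) (𝓝 0) (𝓝 (K * C ^ 2 * 0 ^ 2)) :=
        (continuous_const.mul (continuous_id.pow 2)).tendsto 0
      rw [zero_pow two_ne_zero, mul_zero] at this
      exact (this.eventually_lt_const hδ).filter_mono nhdsWithin_le_nhds
    exact (e0.and ((e1 r0 hr0).and ((e1 r1 hr1).and ((e1 r2 hr2).and (e2.and e3))))).exists
  have hts : ∀ ζ : ℂ, ‖ζ‖ ≤ r → t + ζ ∈ A := by
    intro ζ hζ
    apply hUA
    apply hball
    rw [mem_ball, dist_eq_norm, add_sub_cancel_left]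
    linarith
  have hxs : ∀ ζ : ℂ, ‖ζ‖ ≤ r → x + ζ • b ∈ X := by
    intro ζ hζ
    apply hX
    rw [mem_ball, dist_eq_norm, add_sub_cancel_left, norm_smul]
    exact lt_of_le_of_lt (mul_le_mul_of_nonneg_right hζ (norm_nonneg _)) hrr3
  set v := x - φ t with hv
  set D : ℂ → E := fun z => φ z - φ t - (z - t) • b with hDdef
  have hDd : Differentiable ℂ D := by
    simp only [hDdef]
    fun_prop
  set g : ℂ → ℂ := fun z => inner ℂ v (D z) with hg
  have hgd : Differentiable ℂ g := by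
    have h1 : Differentiable ℂ (fun z => innerSL ℂ v (D z)) :=
      (innerSL ℂ v).differentiable.comp hDd
    simpa [hg] using h1
  set ψ : ℂ → ℝ := fun z => (α - H t - K * ‖v‖ ^ 2) + H z + K * (‖v‖ ^ 2 - 2 * (g z).re + (C * r ^ 2) ^ 2)
    with hψ
  have hgt : (g t).re = 0 := by simp [hg, hDdef]
  have hnr : ∀ θ : ℝ, ‖(r:ℂ) * Complex.exp ((θ : ℂ) * Complex.I)‖ = r := by
    intro θ
    rw [norm_mul, Complex.norm_exp_ofReal_mul_I, mul_one, Complex.norm_real, Real.norm_eq_abs,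
      abs_of_pos hrpos]
  -- continuity of the majorant
  have hcont : Continuous (fun θ : ℝ => ψ (t + (r:ℂ) * Complex.exp ((θ : ℂ) * Complex.I))) := by
    have hHc : Continuous (fun θ : ℝ => H (t + (r:ℂ) * Complex.exp ((θ : ℂ) * Complex.I))) := by
      apply hH.comp_continuous (by fun_prop)
      intro θ
      exact hts _ (hnr θ).le
    have hgc : Continuous (fun θ : ℝ => (g (t + (r:ℂ) * Complex.exp ((θ : ℂ) * Complex.I))).re) := by
      apply Complex.continuous_re.comp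
      apply hgd.continuous.comp
      fun_prop
    simp only [hψ]
    exact (continuous_const.add hHc).add (continuous_const.mul
      ((continuous_const.sub (continuous_const.mul hgc)).add continuous_const))
  have hmain := hs x ((r:ℂ) • b) (by
    intro ζ hζ
    rw [smul_smul]
    apply hXΩ
    apply hxs
    rw [norm_mul, Complex.norm_real, Real.norm_eq_abs, abs_of_pos hrpos]
    nlinarith) _ hcont (by
    intro θ
    have h1 := hmax (t + (r:ℂ) * Complex.exp ((θ : ℂ) * Complex.I)) (hts _ (hnr θ).le)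
      (x + ((r:ℂ) * Complex.exp ((θ : ℂ) * Complex.I)) • b) (hxs _ (hnr θ).le)
    rw [smul_smul, mul_comm (Complex.exp _) (r:ℂ)]
    refine le_trans h1 ?_
    rw [EReal.coe_le_coe_iff]
    simp only [hψ]
    set ζ := (r:ℂ) * Complex.exp ((θ : ℂ) * Complex.I) with hζ
    have h2 : x + ζ • b - φ (t + ζ) = v - D (t + ζ) := by
      simp only [hDdef, hv, add_sub_cancel_left]
      abel
    have h3 : ‖D (t + ζ)‖ ≤ C * r ^ 2 := by
      have := hD ζ (by rw [hnr θ]; exact hrr1)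
      rw [hnr θ] at this
      simpa [hDdef] using this
    have h4 : ‖v - D (t + ζ)‖ ^ 2 ≤ ‖v‖ ^ 2 - 2 * (g (t + ζ)).re + (C * r ^ 2) ^ 2 := by
      have h5 : ‖D (t + ζ)‖ ^ 2 ≤ (C * r ^ 2) ^ 2 := by
        apply pow_le_pow_left₀ (norm_nonneg _) h3
      have h5' : ‖v - D (t + ζ)‖ ^ 2 = ‖v‖ ^ 2 - 2 * (g (t + ζ)).re + ‖D (t + ζ)‖ ^ 2 := by
        rw [@norm_sub_sq ℂ]
        simp [hg]
      linarith
    rw [h2]
    have h6 := mul_le_mul_of_nonneg_left h4 hK
    linarith)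
  rw [hα, EReal.coe_le_coe_iff, ← circle_shift] at hmain
  have hsph : sphere t |r| ⊆ A := by
    intro z hz
    rw [abs_of_pos hrpos, mem_sphere, dist_eq_norm] at hz
    have := hts (z - t) hz.le
    simpa using this
  have hHi : CircleIntegrable H t r := (hH.mono hsph).circleIntegrable'
  have hgi : CircleIntegrable (fun z => (g z).re) t r :=
    (Complex.continuous_re.comp hgd.continuous).continuousOn.circleIntegrable'
  have havg : circleAverage ψ t r = (α - H t - K * ‖v‖ ^ 2) + circleAverage H t r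
      + K * (‖v‖ ^ 2 + (C * r ^ 2) ^ 2) := by
    have e1 : ψ = fun z => ((α - H t - K * ‖v‖ ^ 2) + K * (‖v‖ ^ 2 + (C * r ^ 2) ^ 2)) +
        (H z - (2 * K) • (g z).re) := by
      funext z
      simp only [hψ, smul_eq_mul]
      ring
    have hgi2 : CircleIntegrable (fun z => (2 * K) • (g z).re) t r := by
      apply ContinuousOn.circleIntegrable'
      exact ((Complex.continuous_re.comp hgd.continuous).const_smul (2 * K)).continuousOn
    have hsub : CircleIntegrable (fun z => H z - (2 * K) • (g z).re) t r := hHi.sub hgi2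
    have hcst : CircleIntegrable (fun _ : ℂ => (α - H t - K * ‖v‖ ^ 2) +
        K * (‖v‖ ^ 2 + (C * r ^ 2) ^ 2)) t r := continuousOn_const.circleIntegrable'
    rw [e1, circleAverage_fun_add hcst hsub, circleAverage_const, circleAverage_fun_sub hHi hgi2, circleAverage_fun_smul,
      avg_re hgd.diffContOnCl, hgt]
    simp only [smul_eq_mul, mul_zero, sub_zero]
    ring
  rw [havg] at hmain
  have h7 := hHt r hrpos hrr0
  have h8 : 0 < r ^ 2 := by positivity
  have h9 : K * C ^ 2 * r ^ 2 * r ^ 2 < δ * r ^ 2 := mul_lt_mul_of_pos_right hrsmall h8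
  nlinarith

omit [FiniteDimensional ℂ E] in
/-- Existence of the maximum points. -/
lemma exists_max {Ω : Set E} {u : E → EReal} (husc : UpperSemicontinuousOn u Ω)
    (hu0 : ∀ s ∈ Ω, u s ≤ 0) {φ : ℂ → E} (hφ : Differentiable ℂ φ) {A : Set ℂ}
    (hA : IsCompact A) {H : ℂ → ℝ} (hH : ContinuousOn H A) {X : Set E} (hX : IsCompact X)
    (hXΩ : X ⊆ Ω) (hφX : ∀ t ∈ A, φ t ∈ X) {t0 : ℂ} (ht0 : t0 ∈ A) {m : ℝ}
    (hm : ((H t0 + m : ℝ) : EReal) ≤ u (φ t0)) (K : ℝ) :
    ∃ t ∈ A, ∃ x ∈ X, ∃ α : ℝ, u x = (α : EReal) ∧ m ≤ α - H t - K * ‖x - φ t‖ ^ 2 ∧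
      ∀ t' ∈ A, ∀ x' ∈ X, u x' ≤
        ((α - H t - K * ‖x - φ t‖ ^ 2 + H t' + K * ‖x' - φ t'‖ ^ 2 : ℝ) : EReal) := by
  set R : ℂ × E → ℝ := fun p => - H p.1 - K * ‖p.2 - φ p.1‖ ^ 2 with hR
  set G : ℂ × E → EReal := fun p => u p.2 + ((R p : ℝ) : EReal) with hG
  have hRc : ContinuousOn R (A ×ˢ X) := by
    have h1 : ContinuousOn (fun p : ℂ × E => H p.1) (A ×ˢ X) :=
      hH.comp continuousOn_fst (fun p hp => hp.1)
    have h2 : Continuous (fun p : ℂ × E => K * ‖p.2 - φ p.1‖ ^ 2) := by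
      have := hφ.continuous
      fun_prop
    exact h1.neg.sub h2.continuousOn
  have hGusc : UpperSemicontinuousOn G (A ×ˢ X) := by
    apply UpperSemicontinuousOn.add'
    · intro p hp y hy
      have h1 := husc p.2 (hXΩ hp.2) y hy
      have h2 : Tendsto (fun q : ℂ × E => q.2) (𝓝[A ×ˢ X] p) (𝓝[Ω] p.2) := by
        apply tendsto_nhdsWithin_of_tendsto_nhds_of_eventually_within
        · exact (continuous_snd.tendsto p).mono_left nhdsWithin_le_nhds
        · filter_upwards [self_mem_nhdsWithin] with q hq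
          exact hXΩ hq.2
      exact h2.eventually h1
    · apply ContinuousOn.upperSemicontinuousOn
      exact continuous_coe_real_ereal.comp_continuousOn hRc
    · intro p hp
      apply EReal.continuousAt_add
      · right
        exact EReal.coe_ne_bot _
      · right
        exact EReal.coe_ne_top _
  obtain ⟨p, hp, hmax⟩ := UpperSemicontinuousOn.exists_isMaxOn
    (⟨(t0, φ t0), ht0, hφX t0 ht0⟩ : (A ×ˢ X).Nonempty) (hA.prod hX) hGusc
  have h0 : G (t0, φ t0) ≤ G p := hmax (⟨ht0, hφX t0 ht0⟩ : (t0, φ t0) ∈ A ×ˢ X)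
  have h1 : (m : EReal) ≤ G (t0, φ t0) := by
    simp only [hG, hR, sub_self, norm_zero]
    have : ((H t0 + m : ℝ) : EReal) + (((- H t0 - K * 0 ^ 2 : ℝ)) : EReal) = (m : EReal) := by
      rw [← EReal.coe_add]
      congr 1
      ring
    rw [← this]
    exact add_le_add_left hm _
  have h2 : (m : EReal) ≤ G p := h1.trans h0
  have hub : u p.2 ≠ ⊥ := by
    intro hb
    simp only [hG, hb, EReal.bot_add] at h2
    exact (EReal.bot_lt_coe m).not_ge h2
  have hut : u p.2 ≠ ⊤ := by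
    intro ht
    have := hu0 p.2 (hXΩ hp.2)
    rw [ht] at this
    exact absurd this (by simp)
  refine ⟨p.1, hp.1, p.2, hp.2, (u p.2).toReal, (EReal.coe_toReal hut hub).symm, ?_, ?_⟩
  · rw [← EReal.coe_le_coe_iff]
    refine h2.trans_eq ?_
    simp only [hG, hR]
    conv_lhs => rw [← EReal.coe_toReal hut hub]
    rw [← EReal.coe_add]
    congr 1
    ring
  · intro t' ht' x' hx'
    have h3 : G (t', x') ≤ G p := hmax (⟨ht', hx'⟩ : (t', x') ∈ A ×ˢ X)
    have h4 : G p = (((u p.2).toReal + R p : ℝ) : EReal) := by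
      simp only [hG]
      conv_lhs => rw [← EReal.coe_toReal hut hub]
      rw [← EReal.coe_add]
    rw [h4] at h3
    have h5 : u x' ≤ (((u p.2).toReal + R p : ℝ) : EReal) - ((R (t', x') : ℝ) : EReal) := by
      rw [EReal.le_sub_iff_add_le (Or.inl (EReal.coe_ne_bot _)) (Or.inl (EReal.coe_ne_top _))]
      exact h3
    refine h5.trans_eq ?_
    rw [← EReal.coe_sub]
    congr 1
    simp only [hR]
    ring

/-- **Disc lemma.** -/
theorem disc_bound {Ω : Set E} (hΩ : IsOpen Ω) {u : E → EReal}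
    (husc : UpperSemicontinuousOn u Ω) (hu0 : ∀ s ∈ Ω, u s ≤ 0) (hs : SubM Ω u) {φ : ℂ → E}
    (hφ : Differentiable ℂ φ) {A U : Set ℂ} (hA : IsCompact A) (hUA : U ⊆ A) (hU : IsOpen U)
    (hφA : ∀ t ∈ A, φ t ∈ Ω) {H : ℂ → ℝ} (hH : ContinuousOn H A)
    (hb : ∀ t ∈ A, t ∉ U → u (φ t) ≤ (H t : EReal))
    (hi : ∀ t ∈ U, ∃ δ > (0:ℝ), ∃ r0 > (0:ℝ), ∀ r, 0 < r → r < r0 →
      circleAverage H t r ≤ H t - δ * r ^ 2) :
    ∀ t ∈ A, u (φ t) ≤ (H t : EReal) := by
  intro t0 ht0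
  by_contra hcon
  push Not at hcon
  obtain ⟨q, hq1, hq2⟩ := EReal.lt_iff_exists_real_btwn.mp hcon
  rw [EReal.coe_lt_coe_iff] at hq1
  set m := q - H t0 with hmdef
  have hm0 : 0 < m := by rw [hmdef]; linarith
  have hm : ((H t0 + m : ℝ) : EReal) ≤ u (φ t0) := by
    have : H t0 + m = q := by rw [hmdef]; ring
    rw [this]
    exact hq2.le
  have hcomp : IsCompact (φ '' A) := hA.image hφ.continuous
  obtain ⟨ρ, hρ, hρΩ⟩ := hcomp.exists_cthickening_subset_open hΩ (by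
    rintro _ ⟨t, ht, rfl⟩
    exact hφA t ht)
  set X := cthickening ρ (φ '' A) with hXdef
  have hXc : IsCompact X := hcomp.cthickening
  have hφX : ∀ t ∈ A, φ t ∈ X := fun t ht => self_subset_cthickening _ ⟨t, ht, rfl⟩
  have hex := fun K : ℕ => exists_max husc hu0 hφ hA hH hXc hρΩ hφX ht0 hm (K : ℝ)
  choose t ht x hx α hα hm1 hmax using hex
  -- bound for H
  obtain ⟨B, hB⟩ := hA.exists_bound_of_continuousOn hH
  have hα0 : ∀ K, α K ≤ 0 := by
    intro K
    have := hu0 (x K) (hρΩ (hx K))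
    rw [hα K] at this
    exact_mod_cast this
  have hKd : ∀ K : ℕ, (K:ℝ) * ‖x K - φ (t K)‖ ^ 2 ≤ B := by
    intro K
    have h1 := hm1 K
    have h2 := hα0 K
    have h3 := hB (t K) (ht K)
    rw [Real.norm_eq_abs] at h3
    have h4 := neg_abs_le (H (t K))
    linarith
  have hB0 : 0 ≤ B := le_trans (norm_nonneg _) (hB t0 ht0)
  have hdist : Tendsto (fun K => ‖x K - φ (t K)‖) atTop (𝓝 0) := by
    have h1 : Tendsto (fun K : ℕ => ‖x K - φ (t K)‖ ^ 2) atTop (𝓝 0) := by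
      refine tendsto_of_tendsto_of_tendsto_of_le_of_le' (g := fun _ => 0) (h := fun K : ℕ => B / (K:ℝ))
        tendsto_const_nhds (tendsto_const_div_atTop_nhds_zero_nat B) ?_ ?_
      · exact Eventually.of_forall (fun K => by positivity)
      · filter_upwards [eventually_gt_atTop 0] with K hK
        have hK' : (0:ℝ) < K := by exact_mod_cast hK
        rw [le_div_iff₀ hK', mul_comm]
        exact hKd K
    have h2 := h1.sqrt
    simpa [Real.sqrt_sq (norm_nonneg _)] using h2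
  obtain ⟨ts, hts, σ, hσ, hlim⟩ := hA.tendsto_subseq ht
  have hxlim : Tendsto (fun k => x (σ k)) atTop (𝓝 (φ ts)) := by
    have h1 : Tendsto (fun k => φ (t (σ k))) atTop (𝓝 (φ ts)) :=
      (hφ.continuous.tendsto ts).comp hlim
    have h2 : Tendsto (fun k => x (σ k) - φ (t (σ k))) atTop (𝓝 0) := by
      rw [tendsto_zero_iff_norm_tendsto_zero]
      exact hdist.comp hσ.tendsto_atTop
    have h3 := h2.add h1
    simpa using h3
  have hHlim : Tendsto (fun k => H (t (σ k))) atTop (𝓝 (H ts)) := by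
    have h1 : Tendsto (fun k => t (σ k)) atTop (𝓝[A] ts) :=
      tendsto_nhdsWithin_of_tendsto_nhds_of_eventually_within _ hlim
        (Eventually.of_forall (fun k => ht (σ k)))
    exact (hH ts hts).tendsto.comp h1
  have htsU : ts ∈ U := by
    by_contra hnU
    have h1 := hb ts hts hnU
    have h2 : u (φ ts) < ((H ts + m / 2 : ℝ) : EReal) := by
      refine lt_of_le_of_lt h1 ?_
      rw [EReal.coe_lt_coe_iff]
      linarith
    have h3 := husc (φ ts) (hφA ts hts) _ h2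
    have h4 : Tendsto (fun k => x (σ k)) atTop (𝓝[Ω] (φ ts)) :=
      tendsto_nhdsWithin_of_tendsto_nhds_of_eventually_within _ hxlim
        (Eventually.of_forall (fun k => hρΩ (hx (σ k))))
    have h5 := h4.eventually h3
    have h6 : ∀ᶠ k in atTop, H ts - m / 2 < H (t (σ k)) :=
      hHlim.eventually_const_lt (by linarith)
    obtain ⟨k, hk5, hk6⟩ := (h5.and h6).exists
    rw [hα, EReal.coe_lt_coe_iff] at hk5
    have h7 := hm1 (σ k)
    have h8 : 0 ≤ ((σ k : ℕ) : ℝ) * ‖x (σ k) - φ (t (σ k))‖ ^ 2 := by positivity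
    linarith
  have h1 : ∀ᶠ k in atTop, t (σ k) ∈ U := hlim.eventually (hU.mem_nhds htsU)
  have h2 : ∀ᶠ k in atTop, ‖x (σ k) - φ (t (σ k))‖ < ρ :=
    (hdist.comp hσ.tendsto_atTop).eventually_lt_const hρ
  obtain ⟨k, hk1, hk2⟩ := (h1.and h2).exists
  have hXn : X ∈ 𝓝 (x (σ k)) := by
    rw [Metric.mem_nhds_iff]
    refine ⟨ρ - ‖x (σ k) - φ (t (σ k))‖, by linarith, ?_⟩
    intro y hy
    rw [mem_ball] at hy
    have h3 := dist_triangle y (x (σ k)) (φ (t (σ k)))
    rw [dist_eq_norm (x (σ k))] at h3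
    exact mem_cthickening_of_dist_le y (φ (t (σ k))) ρ (φ '' A) ⟨t (σ k), ht _, rfl⟩ (by linarith)
  obtain ⟨δ, hδ, r0, hr0, hHt⟩ := hi _ hk1
  exact local_step hs hφ hUA hU hH hρΩ hk1 hXn hδ hr0 hHt (Nat.cast_nonneg (σ k)) (hα _) (hmax _)

end disc

end Pool.Agent.H72.PG
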