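import Pool.Agent.H72.PG2

set_option autoImplicit false

/-! Functions locally supported from below by moduli of holomorphic functions. -/

namespace Pool.Agent.H72.PG

open Complex Filter Metric Real Set Topology

section hol

variable {E : Type*} [NormedAddCommGroup E] [NormedSpace ℂ E]

/-- `v` is supported from below at `x` by the modulus of a holomorphic function. -/
def HolSupp (v : E → ℝ) (x : E) : Prop :=
  ∃ F : E → ℂ, (∀ᶠ y in 𝓝 x, DifferentiableAt ℂ F y) ∧ ‖F x‖ = v x ∧ ∀ᶠ y in 𝓝 x, ‖F y‖ ≤ v y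

lemma HolSupp.congr {v w : E → ℝ} {x : E} (h : HolSupp v x) (hvw : v =ᶠ[𝓝 x] w) :
    HolSupp w x := by
  obtain ⟨F, h1, h2, h3⟩ := h
  refine ⟨F, h1, by rw [h2, hvw.self_of_nhds], ?_⟩
  filter_upwards [h3, hvw] with y hy hy2
  rw [← hy2]
  exact hy

lemma HolSupp.of_differentiable {F : E → ℂ} {x : E} (h : ∀ᶠ y in 𝓝 x, DifferentiableAt ℂ F y) :
    HolSupp (fun y => ‖F y‖) x :=
  ⟨F, h, rfl, Eventually.of_forall (fun _ => le_rfl)⟩

lemma HolSupp.mul {v w : E → ℝ} {x : E} (hv : HolSupp v x) (hw : HolSupp w x) :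
    HolSupp (fun y => v y * w y) x := by
  obtain ⟨F, h1, h2, h3⟩ := hv
  obtain ⟨G, k1, k2, k3⟩ := hw
  refine ⟨fun y => F y * G y, ?_, by rw [norm_mul, h2, k2], ?_⟩
  · filter_upwards [h1, k1] with y hy hy2
    exact hy.mul hy2
  · filter_upwards [h3, k3] with y hy hy2
    rw [norm_mul]
    exact mul_le_mul hy hy2 (norm_nonneg _) ((norm_nonneg _).trans hy)

lemma HolSupp.const {c : ℝ} (hc : 0 ≤ c) (x : E) : HolSupp (fun _ => c) x := by
  refine ⟨fun _ => (c:ℂ), Eventually.of_forall (fun _ => by fun_prop), ?_, Eventually.of_forall ?_⟩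
  · simp [abs_of_nonneg hc]
  · intro y
    simp [abs_of_nonneg hc]

lemma HolSupp.max {v w : E → ℝ} {x : E} (hv : HolSupp v x) (hw : HolSupp w x) :
    HolSupp (fun y => max (v y) (w y)) x := by
  rcases le_total (w x) (v x) with hle | hle
  · obtain ⟨F, h1, h2, h3⟩ := hv
    refine ⟨F, h1, by rw [h2]; exact (max_eq_left hle).symm, ?_⟩
    filter_upwards [h3] with y hy
    exact hy.trans (le_max_left _ _)
  · obtain ⟨F, h1, h2, h3⟩ := hw
    refine ⟨F, h1, by rw [h2]; exact (max_eq_right hle).symm, ?_⟩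
    filter_upwards [h3] with y hy
    exact hy.trans (le_max_right _ _)

lemma HolSupp.rpow {v : E → ℝ} {x : E} (hv : HolSupp v x) (hv0 : ∀ y, 0 ≤ v y) {α : ℝ}
    (hα : 0 < α) : HolSupp (fun y => v y ^ α) x := by
  rcases (hv0 x).eq_or_lt with h0 | hpos
  · refine ⟨fun _ => 0, Eventually.of_forall (fun _ => by fun_prop), ?_, Eventually.of_forall ?_⟩
    · simp only [norm_zero]
      rw [← h0, Real.zero_rpow hα.ne']
    · intro y
      rw [norm_zero]
      exact Real.rpow_nonneg (hv0 y) _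
  · obtain ⟨F, h1, h2, h3⟩ := hv
    have hFx : F x ≠ 0 := by
      rw [← norm_pos_iff, h2]
      exact hpos
    have hFc : ContinuousAt F x := (h1.self_of_nhds).continuousAt
    have hq : Tendsto (fun y => F y / F x) (𝓝 x) (𝓝 1) := by
      have := hFc.tendsto.div_const (F x)
      rwa [div_self hFx] at this
    have hsl : ∀ᶠ y in 𝓝 x, F y / F x ∈ slitPlane :=
      hq.eventually (isOpen_slitPlane.mem_nhds one_mem_slitPlane)
    refine ⟨fun y => ((v x ^ α : ℝ) : ℂ) * (F y / F x) ^ (α : ℂ), ?_, ?_, ?_⟩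
    · filter_upwards [h1, hsl] with y hy hy2
      have h4 : DifferentiableAt ℂ (fun z => F z / F x) y := by
        simpa [div_eq_mul_inv] using hy.mul_const (F x)⁻¹
      exact (h4.cpow (differentiableAt_const _) hy2).const_mul _
    · simp only
      rw [div_self hFx, Complex.one_cpow, mul_one, Complex.norm_real, Real.norm_eq_abs,
        abs_of_nonneg (Real.rpow_nonneg (hv0 x) _)]
    · filter_upwards [h3] with y hy
      rw [norm_mul, Complex.norm_cpow_real, Complex.norm_real, Real.norm_eq_abs,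
        abs_of_nonneg (Real.rpow_nonneg (hv0 x) _), norm_div, h2,
        ← Real.mul_rpow (hv0 x) (by positivity), mul_div_cancel₀ _ hpos.ne']
      exact Real.rpow_le_rpow (norm_nonneg _) hy hα.le

lemma HolSupp.prod {ι : Type*} {s : Finset ι} {v : ι → E → ℝ} {x : E}
    (h : ∀ i ∈ s, HolSupp (v i) x) : HolSupp (fun y => ∏ i ∈ s, v i y) x := by
  classical
  induction s using Finset.induction_on with
  | empty => simpa using HolSupp.const zero_le_one x
  | insert i s hi ih =>
    simp only [Finset.prod_insert hi]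
    exact (h i (Finset.mem_insert_self _ _)).mul (ih (fun j hj => h j (Finset.mem_insert_of_mem hj)))

lemma exists_unimod (w : ℂ) : ∃ c : ℂ, ‖c‖ ≤ 1 ∧ (c * w).re = ‖w‖ := by
  by_cases hw : w = 0
  · exact ⟨0, by simp, by simp [hw]⟩
  · have hn : ‖w‖ ≠ 0 := by simpa using hw
    refine ⟨starRingEnd ℂ w / (‖w‖ : ℂ), ?_, ?_⟩
    · rw [norm_div, Complex.norm_conj, Complex.norm_real, norm_norm, div_self hn]
    · rw [div_mul_eq_mul_div, mul_comm, Complex.mul_conj, Complex.normSq_eq_norm_sq,
        ← Complex.ofReal_div, Complex.ofReal_re]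
      field_simp

/-- Sub-mean value property from a holomorphic support. -/
lemma HolSupp.locSub {v : E → ℝ} {a b : E} {ζ0 : ℂ} (h : HolSupp v (a + ζ0 • b))
    (hc : ∀ᶠ ζ in 𝓝 ζ0, ContinuousAt (fun ζ : ℂ => v (a + ζ • b)) ζ) :
    LocSub (fun ζ : ℂ => v (a + ζ • b)) ζ0 := by
  obtain ⟨F, h1, h2, h3⟩ := h
  have hl : Continuous (fun ζ : ℂ => a + ζ • b) := by fun_prop
  have hld : Differentiable ℂ (fun ζ : ℂ => a + ζ • b) := by fun_prop
  have k1 := hl.continuousAt.eventually h1
  have k3 := hl.continuousAt.eventually h3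
  obtain ⟨r0, hr0, hr⟩ := Metric.eventually_nhds_iff.mp (k1.and (k3.and hc))
  refine ⟨r0, hr0, fun r hrpos hrr => ?_⟩
  obtain ⟨c, hc1, hc2⟩ := exists_unimod (F (a + ζ0 • b))
  have hin : ∀ z ∈ closedBall ζ0 |r|, dist z ζ0 < r0 := by
    intro z hz
    rw [mem_closedBall, abs_of_pos hrpos] at hz
    linarith
  have hd : DifferentiableOn ℂ (fun ζ : ℂ => c * F (a + ζ • b)) (closedBall ζ0 |r|) := by
    intro z hz
    apply DifferentiableAt.differentiableWithinAt
    have := (hr (hin z hz)).1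
    exact (DifferentiableAt.comp z this (hld z)).const_mul c
  have hd2 : DiffContOnCl ℂ (fun ζ : ℂ => c * F (a + ζ • b)) (ball ζ0 |r|) := by
    refine DifferentiableOn.diffContOnCl ?_
    apply hd.mono
    exact closure_ball_subset_closedBall
  have havg : circleAverage (fun z => (c * F (a + z • b)).re) ζ0 r = (c * F (a + ζ0 • b)).re :=
    avg_re hd2
  rw [hc2, h2] at havg
  refine le_trans havg.ge ?_
  apply circleAverage_mono
  · apply ContinuousOn.circleIntegrable'
    apply Complex.continuous_re.comp_continuousOn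
    exact (hd.continuousOn).mono sphere_subset_closedBall
  · apply ContinuousOn.circleIntegrable'
    intro z hz
    exact (hr (hin z (sphere_subset_closedBall hz))).2.2.continuousWithinAt
  · intro z hz
    have h4 := (hr (hin z (sphere_subset_closedBall hz))).2.1
    calc (c * F (a + z • b)).re ≤ ‖c * F (a + z • b)‖ := Complex.re_le_norm _
      _ = ‖c‖ * ‖F (a + z • b)‖ := norm_mul _ _
      _ ≤ 1 * ‖F (a + z • b)‖ := mul_le_mul_of_nonneg_right hc1 (norm_nonneg _)
      _ ≤ v (a + z • b) := by rw [one_mul]; exact h4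

end hol

end Pool.Agent.H72.PG
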