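import Pool.Agent.H72.PG3

set_option autoImplicit false

/-! The infinite product. -/

namespace Pool.Agent.H72.PG

open Complex Filter Metric Real Set Topology

abbrev E3 := EuclideanSpace ℂ (Fin 3)

noncomputable def lam (j : ℕ) : ℝ := (1 / 2) ^ (j + 1)

noncomputable def eps (j : ℕ) : ℝ := (1 / 4) ^ (j + 2)

noncomputable def gf (j : ℕ) (x : E3) : ℂ := (x 1) ^ (j + 1) - x 0 * (x 0 - 1 / 10) ^ (j + 1)

noncomputable def ef (j : ℕ) (x : E3) : ℝ := max ‖x 2 - (lam j : ℂ)‖ ‖gf j x‖ / 2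

noncomputable def uf (j : ℕ) (x : E3) : ℝ := (ef j x) ^ (eps j)

noncomputable def En (n : ℕ) (x : E3) : ℝ := ‖x 0‖ * ∏ j ∈ Finset.range n, uf j x

noncomputable def Ei (x : E3) : ℝ := ⨅ n, En n x

/-- The polydisc. -/
def PD : Set E3 := {x | ‖x 0‖ < 1 / 4 ∧ ‖x 1‖ < 1 ∧ ‖x 2‖ < 1}

lemma lam_pos (j : ℕ) : 0 < lam j := by unfold lam; positivity

lemma lam_le (j : ℕ) : lam j ≤ 1 / 2 := by
  unfold lam
  rw [pow_succ]
  have : ((1:ℝ) / 2) ^ j ≤ 1 := pow_le_one₀ (by norm_num) (by norm_num)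
  linarith

lemma lam_norm (j : ℕ) : ‖(lam j : ℂ)‖ = lam j := by
  rw [Complex.norm_real, Real.norm_eq_abs, abs_of_pos (lam_pos j)]

lemma eps_pos (j : ℕ) : 0 < eps j := by unfold eps; positivity

lemma ef_nonneg (j : ℕ) (x : E3) : 0 ≤ ef j x := by
  unfold ef
  have : 0 ≤ max ‖x 2 - (lam j : ℂ)‖ ‖gf j x‖ := le_max_of_le_left (norm_nonneg _)
  linarith

lemma isOpen_PD : IsOpen PD := by
  unfold PD
  apply IsOpen.and
  · exact isOpen_lt (by fun_prop) continuous_const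
  · apply IsOpen.and
    · exact isOpen_lt (by fun_prop) continuous_const
    · exact isOpen_lt (by fun_prop) continuous_const

lemma ef_le_one {x : E3} (hx : x ∈ PD) (j : ℕ) : ef j x ≤ 1 := by
  obtain ⟨h0, h1, h2⟩ := hx
  unfold ef
  have h3 : ‖x 2 - (lam j : ℂ)‖ ≤ 2 := by
    refine (norm_sub_le _ _).trans ?_
    rw [lam_norm]
    have := lam_le j
    linarith
  have h4 : ‖gf j x‖ ≤ 2 := by
    unfold gf
    refine (norm_sub_le _ _).trans ?_
    rw [norm_mul, norm_pow, norm_pow]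
    have h5 : ‖x 1‖ ^ (j + 1) ≤ 1 := pow_le_one₀ (norm_nonneg _) h1.le
    have h6 : ‖x 0 - 1 / 10‖ ≤ 1 := by
      refine (norm_sub_le _ _).trans ?_
      have : ‖(1 / 10 : ℂ)‖ = 1 / 10 := by norm_num
      rw [this]
      linarith
    have h7 : ‖x 0 - 1 / 10‖ ^ (j + 1) ≤ 1 := pow_le_one₀ (norm_nonneg _) h6
    have h8 : ‖x 0‖ * ‖x 0 - 1 / 10‖ ^ (j + 1) ≤ 1 := by
      have : 0 ≤ ‖x 0 - 1 / 10‖ ^ (j + 1) := by positivity
      nlinarith [norm_nonneg (x 0)]
    linarith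
  have := max_le h3 h4
  linarith

lemma uf_nonneg (j : ℕ) (x : E3) : 0 ≤ uf j x := Real.rpow_nonneg (ef_nonneg j x) _

lemma uf_le_one {x : E3} (hx : x ∈ PD) (j : ℕ) : uf j x ≤ 1 :=
  Real.rpow_le_one (ef_nonneg j x) (ef_le_one hx j) (eps_pos j).le

lemma continuous_ef (j : ℕ) : Continuous (ef j) := by
  unfold ef gf
  fun_prop

lemma continuous_uf (j : ℕ) : Continuous (uf j) := by
  unfold uf
  exact (continuous_ef j).rpow_const (fun x => Or.inr (eps_pos j).le)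

lemma continuous_En (n : ℕ) : Continuous (En n) := by
  unfold En
  apply Continuous.mul (by fun_prop)
  exact continuous_finsetProd _ (fun j _ => continuous_uf j)

lemma En_nonneg (n : ℕ) (x : E3) : 0 ≤ En n x :=
  mul_nonneg (norm_nonneg _) (Finset.prod_nonneg (fun j _ => uf_nonneg j x))

lemma En_succ (n : ℕ) (x : E3) : En (n + 1) x = En n x * uf n x := by
  unfold En
  rw [Finset.prod_range_succ]
  ring

lemma En_zero (x : E3) : En 0 x = ‖x 0‖ := by
  simp [En]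

lemma En_succ_le {x : E3} (hx : x ∈ PD) (n : ℕ) : En (n + 1) x ≤ En n x := by
  rw [En_succ]
  exact mul_le_of_le_one_right (En_nonneg n x) (uf_le_one hx n)

lemma En_anti {x : E3} (hx : x ∈ PD) : Antitone (fun n => En n x) :=
  antitone_nat_of_succ_le (En_succ_le hx)

lemma En_le_norm {x : E3} (hx : x ∈ PD) (n : ℕ) : En n x ≤ ‖x 0‖ := by
  have := En_anti hx (Nat.zero_le n)
  simp only [En_zero] at this
  exact this

lemma En_le_one {x : E3} (hx : x ∈ PD) (n : ℕ) : En n x ≤ 1 :=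
  (En_le_norm hx n).trans (by have := hx.1; linarith)

lemma bdd_En (x : E3) : BddBelow (Set.range (fun n => En n x)) :=
  ⟨0, by rintro _ ⟨n, rfl⟩; exact En_nonneg n x⟩

lemma Ei_le (n : ℕ) (x : E3) : Ei x ≤ En n x := ciInf_le (bdd_En x) n

lemma Ei_nonneg (x : E3) : 0 ≤ Ei x := le_ciInf (fun n => En_nonneg n x)

lemma tendsto_En {x : E3} (hx : x ∈ PD) : Tendsto (fun n => En n x) atTop (𝓝 (Ei x)) :=
  tendsto_atTop_ciInf (En_anti hx) (bdd_En x)

lemma Ei_lt_iff (x : E3) (c : ℝ) : Ei x < c ↔ ∃ n, En n x < c := by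
  constructor
  · intro h
    exact exists_lt_of_ciInf_lt h
  · rintro ⟨n, hn⟩
    exact (Ei_le n x).trans_lt hn

/-- Bernoulli-type lower bound. -/
lemma rpow_ge {e α : ℝ} (he : 0 < e) (hα : 0 ≤ α) : 1 - α * Real.log (1 / e) ≤ e ^ α := by
  rw [Real.rpow_def_of_pos he]
  have := Real.add_one_le_exp (Real.log e * α)
  rw [one_div, Real.log_inv]
  linarith

lemma jeps (j : ℕ) : ((j:ℝ) + 1) * eps j ≤ (1 / 2) ^ (j + 4) := by
  have h1 : ((j:ℝ) + 1) ≤ 2 ^ j := by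
    have h := Nat.lt_two_pow_self (n := j)
    have h2 : j + 1 ≤ 2 ^ j := h
    exact_mod_cast h2
  have h2 : eps j = (1 / 2) ^ j * (1 / 2) ^ (j + 4) := by
    unfold eps
    have : (1 / 4 : ℝ) = (1 / 2) ^ 2 := by norm_num
    rw [this, ← pow_mul, ← pow_add]
    congr 1
    ring
  rw [h2, ← mul_assoc]
  have h3 : ((j:ℝ) + 1) * (1 / 2) ^ j ≤ 1 := by
    have h4 : (2:ℝ) ^ j * (1 / 2) ^ j = 1 := by
      rw [← mul_pow]; norm_num
    calc ((j:ℝ) + 1) * (1 / 2) ^ j ≤ 2 ^ j * (1 / 2) ^ j :=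
          mul_le_mul_of_nonneg_right h1 (by positivity)
      _ = 1 := h4
  exact mul_le_of_le_one_left (by positivity) h3

/-- Telescoping estimate. -/
lemma En_sub {x : E3} (hx : x ∈ PD) {c : ℝ} (hc0 : 0 < c) (hc1 : c < 1) {J : ℕ}
    (h : ∀ j, J ≤ j → c ^ (j + 1) ≤ ef j x) {n : ℕ} (hn : J ≤ n) (m : ℕ) :
    En n x - En (n + m) x ≤ Real.log (1 / c) * ((1 / 2) ^ n - (1 / 2) ^ (n + m)) := by
  have hlog : 0 ≤ Real.log (1 / c) := Real.log_nonneg (by rw [le_div_iff₀ hc0]; linarith)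
  induction m with
  | zero => simp
  | succ m ih =>
    have h1 : En (n + (m + 1)) x = En (n + m) x * uf (n + m) x := by
      rw [← add_assoc, En_succ]
    have hu : 1 - Real.log (1 / c) * (1 / 2) ^ (n + m + 4) ≤ uf (n + m) x := by
      have h2 := h (n + m) (by omega)
      have hcp : 0 < c ^ (n + m + 1) := by positivity
      have h3 : (c ^ (n + m + 1)) ^ (eps (n + m)) ≤ uf (n + m) x :=
        Real.rpow_le_rpow hcp.le h2 (eps_pos _).le
      have h4 := rpow_ge hcp (eps_pos (n + m)).le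
      have h5 : Real.log (1 / c ^ (n + m + 1)) = ((n + m : ℕ) + 1 : ℝ) * Real.log (1 / c) := by
        rw [one_div, Real.log_inv, Real.log_pow, one_div, Real.log_inv]
        push_cast
        ring
      rw [h5] at h4
      have h6 := jeps (n + m)
      have h7 := mul_le_mul_of_nonneg_right h6 hlog
      nlinarith
    have hE0 := En_nonneg (n + m) x
    have hE1 := En_le_one hx (n + m)
    have h8 : En (n + m) x - En (n + (m + 1)) x ≤ Real.log (1 / c) * (1 / 2) ^ (n + m + 4) := by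
      rw [h1]
      have h9 : 0 ≤ Real.log (1 / c) * (1 / 2) ^ (n + m + 4) := by positivity
      nlinarith
    have h10 : ((1:ℝ) / 2) ^ (n + m + 4) ≤ (1 / 2) ^ (n + m) - (1 / 2) ^ (n + (m + 1)) := by
      have e1 : ((1:ℝ) / 2) ^ (n + m + 4) = (1 / 2) ^ (n + m) * (1 / 16) := by
        rw [pow_add]; norm_num
      have e2 : ((1:ℝ) / 2) ^ (n + (m + 1)) = (1 / 2) ^ (n + m) * (1 / 2) := by
        rw [← add_assoc, pow_succ]
      rw [e1, e2]
      have : (0:ℝ) < (1 / 2) ^ (n + m) := by positivity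
      linarith
    have h11 := mul_le_mul_of_nonneg_left h10 hlog
    nlinarith

lemma En_sub_Ei {x : E3} (hx : x ∈ PD) {c : ℝ} (hc0 : 0 < c) (hc1 : c < 1) {J : ℕ}
    (h : ∀ j, J ≤ j → c ^ (j + 1) ≤ ef j x) {n : ℕ} (hn : J ≤ n) :
    En n x - Ei x ≤ Real.log (1 / c) * (1 / 2) ^ n := by
  have hlog : 0 ≤ Real.log (1 / c) := Real.log_nonneg (by rw [le_div_iff₀ hc0]; linarith)
  have ht : Tendsto (fun m => En n x - En (n + m) x) atTop (𝓝 (En n x - Ei x)) := by
    apply Tendsto.sub tendsto_const_nhds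
    have := (tendsto_En hx).comp (tendsto_add_atTop_nat n)
    simpa [Function.comp_def, add_comm] using this
  apply le_of_tendsto ht
  apply Eventually.of_forall
  intro m
  refine (En_sub hx hc0 hc1 h hn m).trans ?_
  have : (0:ℝ) ≤ (1 / 2) ^ (n + m) := by positivity
  nlinarith

/-- Continuity criterion. -/
lemma Ei_continuousAt {x : E3} (hx : x ∈ PD) {c : ℝ} (hc0 : 0 < c) (hc1 : c < 1) {J : ℕ}
    (h : ∀ᶠ y in 𝓝 x, ∀ j, J ≤ j → c ^ (j + 1) ≤ ef j y) : ContinuousAt Ei x := by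
  have hlog : 0 ≤ Real.log (1 / c) := Real.log_nonneg (by rw [le_div_iff₀ hc0]; linarith)
  apply continuousAt_of_locally_uniform_approx_of_continuousAt
  intro u hu
  obtain ⟨ε, hε, hεu⟩ := Metric.mem_uniformity_dist.mp hu
  have ht : Tendsto (fun n : ℕ => Real.log (1 / c) * (1 / 2 : ℝ) ^ n) atTop (𝓝 (Real.log (1 / c) * 0)) :=
    (tendsto_pow_atTop_nhds_zero_of_lt_one (by norm_num) (by norm_num)).const_mul _
  rw [mul_zero] at ht
  obtain ⟨n, hn1, hn2⟩ := ((ht.eventually_lt_const hε).and (eventually_ge_atTop J)).exists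
  refine ⟨{y | (∀ j, J ≤ j → c ^ (j + 1) ≤ ef j y) ∧ y ∈ PD}, h.and (isOpen_PD.mem_nhds hx),
    En n, (continuous_En n).continuousAt, ?_⟩
  rintro y ⟨hy1, hy2⟩
  apply hεu
  rw [Real.dist_eq, abs_sub_comm, abs_of_nonneg (by linarith [Ei_le n y])]
  exact (En_sub_Ei hy2 hc0 hc1 hy1 hn2).trans_lt hn1

end Pool.Agent.H72.PG
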