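import Pool.Agent.H72.PG4

set_option autoImplicit false

/-! Continuity, sub-mean property and lower bounds for the infinite product. -/

namespace Pool.Agent.H72.PG

open Complex Filter Metric Real Set Topology

lemma lam_anti {i j : ℕ} (h : i ≤ j) : lam j ≤ lam i := by
  unfold lam
  apply pow_le_pow_of_le_one (by norm_num) (by norm_num)
  omega

lemma tendsto_lam : Tendsto lam atTop (𝓝 0) := by
  have h : Tendsto (fun n : ℕ => ((1:ℝ) / 2) ^ n) atTop (𝓝 0) :=
    tendsto_pow_atTop_nhds_zero_of_lt_one (by norm_num) (by norm_num)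
  exact (tendsto_add_atTop_iff_nat 1).mpr h

lemma Ei_cont_A {x : E3} (hx : x ∈ PD) (h2 : x 2 ≠ 0) : ContinuousAt Ei x := by
  have hm : 0 < ‖x 2‖ := norm_pos_iff.mpr h2
  obtain ⟨J, hJ⟩ := (tendsto_lam.eventually_lt_const (show (0:ℝ) < ‖x 2‖ / 4 by positivity)).exists
  have hm1 : ‖x 2‖ < 1 := hx.2.2
  apply Ei_continuousAt hx (c := ‖x 2‖ / 8) (by positivity) (by linarith) (J := J)
  have hcont : Continuous (fun y : E3 => ‖y 2‖) := by fun_prop
  have hev : ∀ᶠ y in 𝓝 x, ‖x 2‖ / 2 < ‖y 2‖ :=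
    hcont.continuousAt.eventually_const_lt (by linarith)
  filter_upwards [hev] with y hy j hj
  have h3 : ‖x 2‖ / 4 ≤ ‖y 2 - (lam j : ℂ)‖ := by
    have h4 := norm_sub_norm_le (y 2) (lam j : ℂ)
    rw [lam_norm] at h4
    have h5 := lam_anti hj
    linarith
  have h4 : ‖x 2‖ / 8 ≤ ef j y := by
    unfold ef
    have := le_max_left ‖y 2 - (lam j : ℂ)‖ ‖gf j y‖
    linarith
  refine le_trans ?_ h4
  exact pow_le_of_le_one (by positivity) (by linarith) (by omega)

lemma Ei_cont_B {x : E3} (h0 : x 0 = 0) : ContinuousAt Ei x := by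
  have hle : ∀ y : E3, Ei y ≤ ‖y 0‖ := fun y => by
    have := Ei_le 0 y
    rwa [En_zero] at this
  have hx0 : Ei x = 0 := by
    apply le_antisymm _ (Ei_nonneg x)
    have := hle x
    rwa [h0, norm_zero] at this
  unfold ContinuousAt
  rw [hx0]
  have hcont : Continuous (fun y : E3 => ‖y 0‖) := by fun_prop
  have ht := hcont.tendsto x
  rw [h0, norm_zero] at ht
  exact tendsto_of_tendsto_of_tendsto_of_le_of_le tendsto_const_nhds ht Ei_nonneg hle

lemma Ei_cont_C {x : E3} (hx : x ∈ PD) (h0 : x 0 ≠ 0) (h1 : ‖x 1‖ < ‖x 0 - 1 / 10‖) :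
    ContinuousAt Ei x := by
  have hm : 0 < ‖x 0‖ := norm_pos_iff.mpr h0
  have hm1 : ‖x 0‖ < 1 / 4 := hx.1
  obtain ⟨q, hq1, hq2⟩ := exists_between h1
  obtain ⟨p, hp1, hp2⟩ := exists_between hq1
  have hp0 : 0 < p := lt_of_le_of_lt (norm_nonneg _) hp1
  have hq0 : 0 < q := hp0.trans hp2
  have hqlt : q < 1 := by
    have : ‖x 0 - 1 / 10‖ ≤ ‖x 0‖ + 1 / 10 := by
      refine (norm_sub_le _ _).trans ?_
      have : ‖(1 / 10 : ℂ)‖ = 1 / 10 := by norm_num
      rw [this]
    linarith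
  set m := ‖x 0‖ / 2 with hmdef
  have hm0 : 0 < m := by positivity
  have hpq : p / q < 1 := (div_lt_one hq0).mpr hp2
  have ht : Tendsto (fun n : ℕ => (p / q) ^ n) atTop (𝓝 0) :=
    tendsto_pow_atTop_nhds_zero_of_lt_one (by positivity) hpq
  obtain ⟨J, hJ⟩ := (ht.eventually_lt_const (show (0:ℝ) < m / 2 by positivity)).exists
  have hc1 : q * (m / 4) < 1 := by nlinarith
  apply Ei_continuousAt hx (c := q * (m / 4)) (by positivity) hc1 (J := J)
  have c0 : Continuous (fun y : E3 => ‖y 0‖) := by fun_prop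
  have c1 : Continuous (fun y : E3 => ‖y 1‖) := by fun_prop
  have c2 : Continuous (fun y : E3 => ‖y 0 - 1 / 10‖) := by fun_prop
  have e0 : ∀ᶠ y in 𝓝 x, m < ‖y 0‖ := c0.continuousAt.eventually_const_lt (by rw [hmdef]; linarith)
  have e1 : ∀ᶠ y in 𝓝 x, ‖y 1‖ < p := c1.continuousAt.eventually_lt_const hp1
  have e2 : ∀ᶠ y in 𝓝 x, q < ‖y 0 - 1 / 10‖ := c2.continuousAt.eventually_const_lt hq2
  filter_upwards [e0, e1, e2] with y hy0 hy1 hy2 j hj
  have hg : m * q ^ (j + 1) - p ^ (j + 1) ≤ ‖gf j y‖ := by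
    unfold gf
    rw [norm_sub_rev]
    refine le_trans ?_ (norm_sub_norm_le _ _)
    rw [norm_mul, norm_pow, norm_pow]
    have h3 : ‖y 1‖ ^ (j + 1) ≤ p ^ (j + 1) := pow_le_pow_left₀ (norm_nonneg _) hy1.le _
    have h4 : m * q ^ (j + 1) ≤ ‖y 0‖ * ‖y 0 - 1 / 10‖ ^ (j + 1) :=
      mul_le_mul hy0.le (pow_le_pow_left₀ hq0.le hy2.le _) (by positivity) (norm_nonneg _)
    linarith
  have hpow : p ^ (j + 1) ≤ (m / 2) * q ^ (j + 1) := by
    have h5 : (p / q) ^ (j + 1) ≤ (p / q) ^ J :=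
      pow_le_pow_of_le_one (by positivity) hpq.le (by omega)
    have h6 : (p / q) ^ (j + 1) ≤ m / 2 := h5.trans hJ.le
    rw [div_pow, div_le_iff₀ (by positivity)] at h6
    exact h6
  have hge : (m / 4) * q ^ (j + 1) ≤ ef j y := by
    unfold ef
    have := le_max_right ‖y 2 - (lam j : ℂ)‖ ‖gf j y‖
    linarith
  refine le_trans ?_ hge
  rw [mul_pow, mul_comm]
  apply mul_le_mul_of_nonneg_right _ (by positivity)
  exact pow_le_of_le_one (by positivity) (by linarith) (by omega)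

/-! ### Lower bounds -/

lemma uf_ge {x : E3} {j : ℕ} (h : lam j / 4 ≤ ‖x 2 - (lam j : ℂ)‖) :
    1 - (1 / 2) ^ (j + 2) ≤ uf j x := by
  have h1 : (1 / 2 : ℝ) ^ (j + 4) ≤ ef j x := by
    unfold ef
    have h2 := le_max_left ‖x 2 - (lam j : ℂ)‖ ‖gf j x‖
    have h3 : (1 / 2 : ℝ) ^ (j + 4) = lam j / 8 := by
      unfold lam
      rw [pow_add _ j 4, pow_succ]
      ring
    rw [h3]
    linarith
  have hp : (0:ℝ) < (1 / 2) ^ (j + 4) := by positivity
  have h2 : ((1 / 2 : ℝ) ^ (j + 4)) ^ (eps j) ≤ uf j x := Real.rpow_le_rpow hp.le h1 (eps_pos j).le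
  refine le_trans ?_ h2
  refine le_trans ?_ (rpow_ge hp (eps_pos j).le)
  have h3 : Real.log (1 / (1 / 2 : ℝ) ^ (j + 4)) = ((j:ℝ) + 4) * Real.log 2 := by
    rw [one_div, one_div, inv_pow, inv_inv, Real.log_pow]
    push_cast
    ring
  rw [h3]
  have hl : Real.log 2 ≤ 1 := by
    have := Real.log_two_lt_d9
    linarith
  have hl0 : 0 ≤ Real.log 2 := Real.log_nonneg (by norm_num)
  have h4 : ((j:ℝ) + 4) ≤ 2 ^ (j + 2) := by
    have h5 : ∀ j : ℕ, j + 4 ≤ 2 ^ (j + 2) := by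
      intro j
      induction j with
      | zero => norm_num
      | succ j ih => rw [pow_succ]; omega
    exact_mod_cast h5 j
  have h5 : eps j = (1 / 2) ^ (j + 2) * (1 / 2) ^ (j + 2) := by
    unfold eps
    rw [← mul_pow]
    norm_num
  have h6 : ((j:ℝ) + 4) * (1 / 2) ^ (j + 2) ≤ 1 := by
    have h7 : (2:ℝ) ^ (j + 2) * (1 / 2) ^ (j + 2) = 1 := by
      rw [← mul_pow]; norm_num
    calc ((j:ℝ) + 4) * (1 / 2) ^ (j + 2) ≤ 2 ^ (j + 2) * (1 / 2) ^ (j + 2) :=
          mul_le_mul_of_nonneg_right h4 (by positivity)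
      _ = 1 := h7
  have hq : (0:ℝ) < (1 / 2) ^ (j + 2) := by positivity
  have h8 : eps j * (((j:ℝ) + 4) * Real.log 2) ≤ (1 / 2) ^ (j + 2) := by
    rw [h5]
    have h9 : ((j:ℝ) + 4) * (1 / 2) ^ (j + 2) * Real.log 2 ≤ 1 * 1 :=
      mul_le_mul h6 hl hl0 zero_le_one
    calc (1 / 2 : ℝ) ^ (j + 2) * (1 / 2) ^ (j + 2) * (((j:ℝ) + 4) * Real.log 2)
        = (1 / 2) ^ (j + 2) * (((j:ℝ) + 4) * (1 / 2) ^ (j + 2) * Real.log 2) := by ring
      _ ≤ (1 / 2) ^ (j + 2) * (1 * 1) := mul_le_mul_of_nonneg_left h9 hq.le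
      _ = (1 / 2) ^ (j + 2) := by ring
  linarith

lemma prod_ge (n : ℕ) :
    (1 / 2 : ℝ) + (1 / 2) ^ (n + 1) ≤ ∏ j ∈ Finset.range n, (1 - (1 / 2 : ℝ) ^ (j + 2)) := by
  induction n with
  | zero => norm_num
  | succ n ih =>
    rw [Finset.prod_range_succ]
    have h1 : (0:ℝ) ≤ 1 - (1 / 2) ^ (n + 2) := by
      have : ((1:ℝ) / 2) ^ (n + 2) ≤ 1 := pow_le_one₀ (by norm_num) (by norm_num)
      linarith
    refine le_trans ?_ (mul_le_mul_of_nonneg_right ih h1)
    have e1 : ((1:ℝ) / 2) ^ (n + 1 + 1) = (1 / 2) ^ n * (1 / 4) := by rw [pow_add, pow_add]; ring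
    have e3 : ((1:ℝ) / 2) ^ (n + 1) = (1 / 2) ^ n * (1 / 2) := by rw [pow_add]; ring
    rw [e1, e3]
    have hq0 : (0:ℝ) < (1 / 2) ^ n := by positivity
    have hq1 : ((1:ℝ) / 2) ^ n ≤ 1 := pow_le_one₀ (by norm_num) (by norm_num)
    nlinarith

lemma En_ge {x : E3} {j0 n : ℕ}
    (h : ∀ j, j < n → j ≠ j0 → lam j / 4 ≤ ‖x 2 - (lam j : ℂ)‖) :
    ‖x 0‖ * ((if j0 ∈ Finset.range n then uf j0 x else 1) * (1 / 2)) ≤ En n x := by
  unfold En
  apply mul_le_mul_of_nonneg_left _ (norm_nonneg _)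
  have h1 : ∏ j ∈ Finset.range n, ((if j0 = j then uf j x else 1) * (1 - (1 / 2 : ℝ) ^ (j + 2))) ≤
      ∏ j ∈ Finset.range n, uf j x := by
    apply Finset.prod_le_prod
    · intro j _
      have h2 : (0:ℝ) ≤ 1 - (1 / 2) ^ (j + 2) := by
        have : ((1:ℝ) / 2) ^ (j + 2) ≤ 1 := pow_le_one₀ (by norm_num) (by norm_num)
        linarith
      split_ifs
      · exact mul_nonneg (uf_nonneg j x) h2
      · exact mul_nonneg zero_le_one h2
    · intro j hj
      split_ifs with hjj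
      · have h2 : (0:ℝ) ≤ (1 / 2) ^ (j + 2) := by positivity
        have := uf_nonneg j x
        nlinarith
      · rw [one_mul]
        exact uf_ge (h j (Finset.mem_range.mp hj) (fun h' => hjj h'.symm))
  refine le_trans ?_ h1
  rw [Finset.prod_mul_distrib, Finset.prod_ite_eq]
  apply mul_le_mul_of_nonneg_left
  · refine le_trans ?_ (prod_ge n)
    have : (0:ℝ) < (1 / 2) ^ (n + 1) := by positivity
    linarith
  · split_ifs
    · exact uf_nonneg j0 x
    · exact zero_le_one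

lemma disj_aux {s : ℂ} {i j : ℕ} (hi : ‖s - (lam i : ℂ)‖ < lam i / 4)
    (hj : ‖s - (lam j : ℂ)‖ < lam j / 4) (hij : i < j) : False := by
  have h1 : lam j ≤ lam i / 2 := by
    have h2 := lam_anti (show i + 1 ≤ j from hij)
    have h3 : lam (i + 1) = lam i / 2 := by
      unfold lam
      rw [pow_succ _ (i + 1)]
      ring
    linarith
  have h4 : ‖(lam i : ℂ) - (lam j : ℂ)‖ = lam i - lam j := by
    rw [← Complex.ofReal_sub, Complex.norm_real, Real.norm_eq_abs, abs_of_nonneg]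
    have := lam_pos i
    linarith
  have h5 : ‖(lam i : ℂ) - (lam j : ℂ)‖ ≤ ‖s - (lam j : ℂ)‖ + ‖s - (lam i : ℂ)‖ := by
    have h6 : (lam i : ℂ) - (lam j : ℂ) = (s - (lam j : ℂ)) - (s - (lam i : ℂ)) := by ring
    rw [h6]
    exact norm_sub_le _ _
  rw [h4] at h5
  have := lam_pos i
  linarith

lemma disj {s : ℂ} {i j : ℕ} (hi : ‖s - (lam i : ℂ)‖ < lam i / 4)
    (hj : ‖s - (lam j : ℂ)‖ < lam j / 4) : i = j := by
  rcases lt_trichotomy i j with h | h | h
  · exact (disj_aux hi hj h).elim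
  · exact h
  · exact (disj_aux hj hi h).elim

lemma ef_of_uf {x : E3} {j : ℕ} (h : uf j x ≤ 1 / 6000) : ef j x ≤ (1 / 6000) ^ (j + 2) := by
  have h1 : ef j x = (uf j x) ^ (4 ^ (j + 2) : ℕ) := by
    unfold uf
    rw [← Real.rpow_natCast, ← Real.rpow_mul (ef_nonneg j x)]
    have : eps j * ((4 ^ (j + 2) : ℕ) : ℝ) = 1 := by
      unfold eps
      push_cast
      rw [← mul_pow]
      norm_num
    rw [this, Real.rpow_one]
  rw [h1]
  refine (pow_le_pow_left₀ (uf_nonneg j x) h _).trans ?_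
  apply pow_le_pow_of_le_one (by norm_num) (by norm_num)
  exact (Nat.lt_pow_self (by norm_num)).le

/-! ### Sub-mean value property -/

lemma diff_coord (i : Fin 3) : Differentiable ℂ (fun y : E3 => y i) := by
  fun_prop

lemma holSupp_ef (j : ℕ) (x : E3) : HolSupp (ef j) x := by
  have h1 : HolSupp (fun y : E3 => ‖y 2 - (lam j : ℂ)‖) x := by
    apply HolSupp.of_differentiable
    apply Eventually.of_forall
    intro y
    exact ((diff_coord 2) y).sub_const _
  have h2 : HolSupp (fun y : E3 => ‖gf j y‖) x := by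
    apply HolSupp.of_differentiable
    apply Eventually.of_forall
    intro y
    unfold gf
    have e0 := (diff_coord 0) y
    have e1 := (diff_coord 1) y
    exact (e1.pow _).sub (e0.mul ((e0.sub_const _).pow _))
  have h3 := (h1.max h2).mul (HolSupp.const (show (0:ℝ) ≤ 1 / 2 by norm_num) x)
  apply h3.congr
  apply Eventually.of_forall
  intro y
  unfold ef
  simp only
  ring

lemma holSupp_En (n : ℕ) (x : E3) : HolSupp (En n) x := by
  unfold En
  apply HolSupp.mul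
  · exact HolSupp.of_differentiable (Eventually.of_forall (fun y => (diff_coord 0) y))
  · apply HolSupp.prod
    intro j _
    exact (holSupp_ef j x).rpow (ef_nonneg j) (eps_pos j)

lemma En_submean (n : ℕ) (a b : E3) :
    En n a ≤ circleAverage (fun ζ : ℂ => En n (a + ζ • b)) 0 1 := by
  have hc : Continuous (fun ζ : ℂ => En n (a + ζ • b)) := (continuous_En n).comp (by fun_prop)
  have h := submean_of_local (v := fun ζ : ℂ => En n (a + ζ • b)) hc.continuousOn (by
    intro ζ _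
    exact (holSupp_En n _).locSub (Eventually.of_forall (fun ζ => hc.continuousAt)))
  simpa using h

lemma Ei_submean (a b : E3) (h : ∀ ζ : ℂ, ‖ζ‖ ≤ 1 → a + ζ • b ∈ PD) :
    Ei a ≤ circleAverage (fun ζ : ℂ => Ei (a + ζ • b)) 0 1 := by
  have ht : Tendsto (fun n => circleAverage (fun ζ : ℂ => En n (a + ζ • b)) 0 1) atTop
      (𝓝 (circleAverage (fun ζ : ℂ => Ei (a + ζ • b)) 0 1)) := by
    unfold Real.circleAverage
    apply Tendsto.const_smul
    apply intervalIntegral.tendsto_integral_filter_of_dominated_convergence (fun _ => (1:ℝ))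
    · apply Eventually.of_forall
      intro n
      apply Continuous.aestronglyMeasurable
      have hc : Continuous (fun ζ : ℂ => En n (a + ζ • b)) := (continuous_En n).comp (by fun_prop)
      exact hc.comp (continuous_circleMap 0 1)
    · apply Eventually.of_forall
      intro n
      apply Eventually.of_forall
      intro θ _
      rw [Real.norm_eq_abs, abs_of_nonneg (En_nonneg _ _)]
      exact En_le_one (h _ (by simp [circleMap])) n
    · simp
    · apply Eventually.of_forall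
      intro θ _
      exact tendsto_En (h _ (by simp [circleMap]))
  apply ge_of_tendsto' ht
  intro n
  exact (Ei_le n a).trans (En_submean n a b)

end Pool.Agent.H72.PG
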