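import Pool.Agent.H72.PG5

set_option autoImplicit false

/-! The domain and its exhaustion function. -/

namespace Pool.Agent.H72.PG

open Complex Filter Metric Real Set Topology

noncomputable def kap : ℝ := 1 / 240000

lemma kap_pos : 0 < kap := by unfold kap; norm_num

/-- The open set whose component of the origin is the example. -/
def Om : Set E3 :=
  {x | x ∈ PD ∧ (∃ n, En n x < kap) ∧ (‖x 0‖ ≤ 1 / 20 → ‖x 1‖ < ‖x 0 - 1 / 10‖)}

noncomputable def eta (x : E3) : ℝ := ‖x 1 / (x 0 - 1 / 10)‖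

noncomputable def Fj (j : ℕ) (x : E3) : ℝ := ‖4 * x 0‖ ^ ((2:ℝ) / ((j:ℝ) + 1))

open Classical in
noncomputable def Fg (x : E3) : ℝ :=
  if h : ∃ j, ‖x 2 - (lam j : ℂ)‖ < lam j / 4 then Fj h.choose x else 0

lemma Fg_eq {x : E3} {j : ℕ} (h : ‖x 2 - (lam j : ℂ)‖ < lam j / 4) : Fg x = Fj j x := by
  have hex : ∃ j, ‖x 2 - (lam j : ℂ)‖ < lam j / 4 := ⟨j, h⟩
  unfold Fg
  rw [dif_pos hex, disj hex.choose_spec h]

noncomputable def Mf (x : E3) : ℝ :=
  if ‖x 0‖ < 1 / 20 then eta x else if ‖x 0‖ ≤ 2 / 25 then max (eta x) (Fg x) else Fg x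

lemma isOpen_Om : IsOpen Om := by
  have h1 : IsOpen {x : E3 | ∃ n, En n x < kap} := by
    have : {x : E3 | ∃ n, En n x < kap} = ⋃ n, {x : E3 | En n x < kap} := by
      ext x
      simp
    rw [this]
    exact isOpen_iUnion (fun n => isOpen_lt (continuous_En n) continuous_const)
  have h2 : IsOpen {x : E3 | ‖x 0‖ ≤ 1 / 20 → ‖x 1‖ < ‖x 0 - 1 / 10‖} := by
    have h3 : IsClosed {x : E3 | ‖x 0‖ ≤ 1 / 20 ∧ ‖x 0 - 1 / 10‖ ≤ ‖x 1‖} := by
      apply IsClosed.and
      · exact isClosed_le (by fun_prop) continuous_const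
      · exact isClosed_le (by fun_prop) (by fun_prop)
    have h4 : {x : E3 | ‖x 0‖ ≤ 1 / 20 → ‖x 1‖ < ‖x 0 - 1 / 10‖} =
        {x : E3 | ‖x 0‖ ≤ 1 / 20 ∧ ‖x 0 - 1 / 10‖ ≤ ‖x 1‖}ᶜ := by
      ext x
      simp only [mem_ofPred_eq, mem_compl_iff, not_and, not_le]
    rw [h4]
    exact h3.isOpen_compl
  exact isOpen_PD.and (h1.and h2)

lemma tube {x : E3} (hx : x ∈ Om) (h : 1 / 20 ≤ ‖x 0‖) :
    ∃ j, ‖x 2 - (lam j : ℂ)‖ < lam j / 4 ∧ ef j x ≤ (1 / 6000) ^ (j + 2) := by
  obtain ⟨hP, ⟨n, hn⟩, _⟩ := hx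
  have hex : ∃ j, ‖x 2 - (lam j : ℂ)‖ < lam j / 4 := by
    by_contra hcon
    push Not at hcon
    have h1 := En_ge (x := x) (j0 := n) (n := n) (fun j _ _ => hcon j)
    simp only [Finset.mem_range, lt_irrefl, if_false, one_mul] at h1
    unfold kap at hn
    linarith
  obtain ⟨j, hj⟩ := hex
  refine ⟨j, hj, ?_⟩
  apply ef_of_uf
  have h1 := En_ge (x := x) (j0 := j) (n := max n (j + 1)) (fun i _ hij => by
    by_contra hcon
    push Not at hcon
    exact hij (disj hcon hj))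
  have hmem : j ∈ Finset.range (max n (j + 1)) := by
    rw [Finset.mem_range]
    omega
  rw [if_pos hmem] at h1
  have h2 : En (max n (j + 1)) x ≤ En n x := En_anti hP (le_max_left _ _)
  have h3 := uf_nonneg j x
  unfold kap at hn
  nlinarith

lemma norm_tenth : ‖(1 / 10 : ℂ)‖ = 1 / 10 := by norm_num

lemma dist_lower {x : E3} (h2 : ‖x 0‖ ≤ 2 / 25) : 1 / 50 ≤ ‖x 0 - 1 / 10‖ := by
  have h := norm_sub_norm_le (1 / 10 : ℂ) (x 0)
  rw [norm_tenth, norm_sub_rev] at h
  linarith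

lemma eta_pow {x : E3} {j : ℕ} (h : ef j x ≤ (1 / 6000) ^ (j + 2)) (h2 : ‖x 0‖ ≤ 2 / 25) :
    |eta x ^ (j + 1) - ‖x 0‖| ≤ 1 / 1000 := by
  have hd := dist_lower h2
  have hd0 : 0 < ‖x 0 - 1 / 10‖ := by linarith
  have hne : x 0 - 1 / 10 ≠ 0 := norm_pos_iff.mp hd0
  have h3 : (x 1 / (x 0 - 1 / 10)) ^ (j + 1) - x 0 = gf j x / (x 0 - 1 / 10) ^ (j + 1) := by
    unfold gf
    have := pow_ne_zero (j + 1) hne
    rw [div_pow, sub_div, mul_div_assoc, div_self this, mul_one]
  have h4 : |eta x ^ (j + 1) - ‖x 0‖| ≤ ‖gf j x‖ / ‖x 0 - 1 / 10‖ ^ (j + 1) := by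
    unfold eta
    rw [← norm_pow]
    refine (abs_norm_sub_norm_le _ _).trans ?_
    rw [h3, norm_div, norm_pow]
  refine h4.trans ?_
  have h5 : ‖gf j x‖ ≤ 2 * (1 / 6000) ^ (j + 2) := by
    have h6 := le_max_right ‖x 2 - (lam j : ℂ)‖ ‖gf j x‖
    unfold ef at h
    linarith
  rw [div_le_iff₀ (by positivity)]
  have h7 : (1 / 50 : ℝ) ^ (j + 1) ≤ ‖x 0 - 1 / 10‖ ^ (j + 1) :=
    pow_le_pow_left₀ (by norm_num) hd _
  have h8 : (1 / 6000 : ℝ) ^ (j + 1) ≤ (1 / 50) ^ (j + 1) :=
    pow_le_pow_left₀ (by norm_num) (by norm_num) _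
  have h9 : (1 / 6000 : ℝ) ^ (j + 2) = (1 / 6000) ^ (j + 1) * (1 / 6000) := by
    rw [pow_succ _ (j + 1)]
  rw [h9] at h5
  have h10 : (0:ℝ) < (1 / 6000) ^ (j + 1) := by positivity
  linarith

lemma eta_nonneg (x : E3) : 0 ≤ eta x := norm_nonneg _

lemma Fj_nonneg (j : ℕ) (x : E3) : 0 ≤ Fj j x := Real.rpow_nonneg (norm_nonneg _) _

lemma Fj_pow (j : ℕ) (x : E3) : Fj j x ^ (j + 1) = 16 * ‖x 0‖ ^ 2 := by
  unfold Fj
  rw [← Real.rpow_natCast, ← Real.rpow_mul (norm_nonneg _)]
  have h1 : (2:ℝ) / ((j:ℝ) + 1) * ((j + 1 : ℕ) : ℝ) = 2 := by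
    push_cast
    field_simp
  rw [h1, norm_mul]
  have h2 : ‖(4:ℂ)‖ = 4 := by norm_num
  rw [h2]
  norm_num
  ring

lemma Fg_le_eta {x : E3} (hx : x ∈ Om) (h1 : 1 / 20 ≤ ‖x 0‖) (h2 : ‖x 0‖ ≤ 11 / 200) :
    Fg x ≤ eta x := by
  obtain ⟨j, hj, he⟩ := tube hx h1
  rw [Fg_eq hj]
  have h3 := abs_le.mp (eta_pow he (by linarith))
  refine le_of_pow_le_pow_left₀ (n := j + 1) (by omega) (eta_nonneg x) ?_
  rw [Fj_pow]
  nlinarith [h3.1]

lemma eta_le_Fg {x : E3} (hx : x ∈ Om) (h1 : 7 / 100 ≤ ‖x 0‖) (h2 : ‖x 0‖ ≤ 2 / 25) :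
    eta x ≤ Fg x := by
  obtain ⟨j, hj, he⟩ := tube hx (by linarith)
  rw [Fg_eq hj]
  have h3 := abs_le.mp (eta_pow he (by linarith))
  refine le_of_pow_le_pow_left₀ (n := j + 1) (by omega) (Fj_nonneg j x) ?_
  rw [Fj_pow]
  nlinarith [h3.2]

lemma Mf_zone1 {x : E3} (hx : x ∈ Om) (h : ‖x 0‖ < 11 / 200) : Mf x = eta x := by
  unfold Mf
  split_ifs with h1 h2
  · rfl
  · push Not at h1
    exact max_eq_left (Fg_le_eta hx h1 h.le)
  · linarith

lemma Mf_zone3 {x : E3} (hx : x ∈ Om) (h : 7 / 100 < ‖x 0‖) : Mf x = Fg x := by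
  unfold Mf
  split_ifs with h1 h2
  · linarith
  · exact max_eq_right (eta_le_Fg hx h.le h2)
  · rfl

lemma eta_lt_one {x : E3} (hx : x ∈ Om) (h : ‖x 0‖ ≤ 2 / 25) : eta x < 1 := by
  have hd := dist_lower h
  rcases le_total (‖x 0‖) (1 / 20) with h1 | h1
  · unfold eta
    rw [norm_div, div_lt_one (by linarith)]
    exact hx.2.2 h1
  · obtain ⟨j, hj, he⟩ := tube hx h1
    have h3 := abs_le.mp (eta_pow he h)
    by_contra hcon
    push Not at hcon
    have h4 : (1:ℝ) ≤ eta x ^ (j + 1) := one_le_pow₀ hcon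
    linarith [h3.2]

lemma Fg_lt_one {x : E3} (hx : x ∈ PD) : Fg x < 1 := by
  by_cases hex : ∃ j, ‖x 2 - (lam j : ℂ)‖ < lam j / 4
  · obtain ⟨j, hj⟩ := hex
    rw [Fg_eq hj]
    unfold Fj
    apply Real.rpow_lt_one (norm_nonneg _)
    · rw [norm_mul]
      have h2 : ‖(4:ℂ)‖ = 4 := by norm_num
      rw [h2]
      have := hx.1
      linarith
    · positivity
  · unfold Fg
    rw [dif_neg hex]
    exact zero_lt_one

lemma Mf_lt_one {x : E3} (hx : x ∈ Om) : Mf x < 1 := by
  unfold Mf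
  split_ifs with h1 h2
  · exact eta_lt_one hx (by linarith)
  · exact max_lt (eta_lt_one hx h2) (Fg_lt_one hx.1)
  · exact Fg_lt_one hx.1

/-- The local structure of `Mf`. -/
lemma Mf_local {x : E3} (hx : x ∈ Om) : HolSupp Mf x ∧ ContinuousAt Mf x := by
  have hOm : ∀ᶠ y in 𝓝 x, y ∈ Om := isOpen_Om.mem_nhds hx
  have c0 : Continuous (fun y : E3 => ‖y 0‖) := by fun_prop
  have c2 : ∀ j, Continuous (fun y : E3 => ‖y 2 - (lam j : ℂ)‖) := by intro j; fun_prop
  -- eta
  have heta : ‖x 0‖ < 2 / 25 → HolSupp eta x ∧ ContinuousAt eta x := by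
    intro h
    have hd := dist_lower h.le
    have hne : x 0 - 1 / 10 ≠ 0 := norm_pos_iff.mp (by linarith)
    have cd : Continuous (fun y : E3 => y 0 - 1 / 10) := by fun_prop
    have hev : ∀ᶠ y in 𝓝 x, y 0 - 1 / 10 ≠ 0 := cd.continuousAt.eventually_ne hne
    constructor
    · apply HolSupp.of_differentiable (F := fun y : E3 => y 1 / (y 0 - 1 / 10))
      filter_upwards [hev] with y hy
      have e1 : DifferentiableAt ℂ (fun y : E3 => y 0 - 1 / 10) y := ((diff_coord 0) y).sub_const _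
      have e2 : DifferentiableAt ℂ (fun y : E3 => y 1) y := (diff_coord 1) y
      have e3 : DifferentiableAt ℂ (fun w : ℂ => w⁻¹) (y 0 - 1 / 10) := differentiableAt_inv hy
      have e4 : DifferentiableAt ℂ (fun y : E3 => (y 0 - 1 / 10)⁻¹) y :=
        DifferentiableAt.comp y e3 e1
      have e5 : DifferentiableAt ℂ (fun y : E3 => y 1 * (y 0 - 1 / 10)⁻¹) y := e2.mul e4
      have e6 : (fun y : E3 => y 1 / (y 0 - 1 / 10)) = fun y : E3 => y 1 * (y 0 - 1 / 10)⁻¹ := by
        funext w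
        rw [div_eq_mul_inv]
      rw [e6]
      exact e5
    · unfold eta
      apply ContinuousAt.norm
      apply ContinuousAt.div _ cd.continuousAt hne
      exact (diff_coord 1).continuous.continuousAt
  have hFj : ∀ j, HolSupp (Fj j) x ∧ ContinuousAt (Fj j) x := by
    intro j
    constructor
    · apply HolSupp.rpow (v := fun y : E3 => ‖4 * y 0‖)
      · apply HolSupp.of_differentiable
        apply Eventually.of_forall
        intro y
        exact ((diff_coord 0) y).const_mul 4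
      · intro y; exact norm_nonneg _
      · positivity
    · unfold Fj
      apply ContinuousAt.rpow_const
      · fun_prop
      · right
        positivity
  rcases lt_or_ge (‖x 0‖) (11 / 200) with h1 | h1
  · obtain ⟨k1, k2⟩ := heta (by linarith)
    have hev : ∀ᶠ y in 𝓝 x, ‖y 0‖ < 11 / 200 := c0.continuousAt.eventually_lt_const h1
    have hEq : eta =ᶠ[𝓝 x] Mf := by
      filter_upwards [hOm, hev] with y hy1 hy2
      exact (Mf_zone1 hy1 hy2).symm
    exact ⟨k1.congr hEq, k2.congr hEq⟩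
  · obtain ⟨j, hj, _⟩ := tube hx (by linarith)
    have hevj : ∀ᶠ y in 𝓝 x, ‖y 2 - (lam j : ℂ)‖ < lam j / 4 :=
      (c2 j).continuousAt.eventually_lt_const hj
    obtain ⟨k3, k4⟩ := hFj j
    rcases lt_or_ge (‖x 0‖) (2 / 25) with h2 | h2
    · obtain ⟨k1, k2⟩ := heta h2
      have hev1 : ∀ᶠ y in 𝓝 x, 1 / 20 < ‖y 0‖ :=
        c0.continuousAt.eventually_const_lt (by linarith)
      have hev2 : ∀ᶠ y in 𝓝 x, ‖y 0‖ < 2 / 25 := c0.continuousAt.eventually_lt_const h2
      have hEq : (fun y => max (eta y) (Fj j y)) =ᶠ[𝓝 x] Mf := by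
        filter_upwards [hevj, hev1, hev2] with y hy1 hy2 hy3
        unfold Mf
        rw [if_neg (not_lt.mpr hy2.le), if_pos hy3.le, Fg_eq hy1]
      have k5 : ContinuousAt (fun y => max (eta y) (Fj j y)) x := Tendsto.max k2 k4
      exact ⟨(k1.max k3).congr hEq, k5.congr hEq⟩
    · have hev1 : ∀ᶠ y in 𝓝 x, 7 / 100 < ‖y 0‖ :=
        c0.continuousAt.eventually_const_lt (by linarith)
      have hEq : Fj j =ᶠ[𝓝 x] Mf := by
        filter_upwards [hevj, hev1, hOm] with y hy1 hy2 hy3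
        rw [Mf_zone3 hy3 hy2, Fg_eq hy1]
      exact ⟨k3.congr hEq, k4.congr hEq⟩

lemma Ei_cont {x : E3} (hx : x ∈ Om) : ContinuousAt Ei x := by
  by_cases h0 : x 0 = 0
  · exact Ei_cont_B h0
  by_cases h2 : x 2 = 0
  · apply Ei_cont_C hx.1 h0
    rcases le_total (‖x 0‖) (1 / 20) with h1 | h1
    · exact hx.2.2 h1
    · obtain ⟨j, hj, _⟩ := tube hx h1
      rw [h2, zero_sub, norm_neg, lam_norm] at hj
      have := lam_pos j
      linarith
  · exact Ei_cont_A hx.1 h2

/-- The exhaustion function. -/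
noncomputable def rho (x : E3) : ℝ :=
  max (Ei x / kap) (max (max ‖x 2‖ ‖x 1‖) (Mf x)) - 1

lemma rho_continuousAt {x : E3} (hx : x ∈ Om) : ContinuousAt rho x := by
  unfold rho
  have h1 : ContinuousAt (fun x : E3 => max ‖x 2‖ ‖x 1‖) x := by
    apply Continuous.continuousAt
    fun_prop
  have h2 : ContinuousAt (fun x : E3 => max (max ‖x 2‖ ‖x 1‖) (Mf x)) x :=
    Tendsto.max h1 (Mf_local hx).2
  have h3 : ContinuousAt (fun x : E3 => Ei x / kap) x := (Ei_cont hx).div_const _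
  have h4 : ContinuousAt (fun x : E3 => max (Ei x / kap) (max (max ‖x 2‖ ‖x 1‖) (Mf x))) x :=
    Tendsto.max h3 h2
  exact h4.sub continuousAt_const

lemma rho_neg {x : E3} (hx : x ∈ Om) : rho x < 0 := by
  unfold rho
  have h1 : Ei x / kap < 1 := by
    rw [div_lt_one kap_pos, Ei_lt_iff]
    exact hx.2.1
  have h2 : max (max ‖x 2‖ ‖x 1‖) (Mf x) < 1 :=
    max_lt (max_lt hx.1.2.2 hx.1.2.1) (Mf_lt_one hx)
  have := max_lt h1 h2
  linarith

lemma rho_submean {a b : E3} (h : ∀ ζ : ℂ, ‖ζ‖ ≤ 1 → a + ζ • b ∈ Om) :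
    rho a ≤ circleAverage (fun ζ : ℂ => rho (a + ζ • b)) 0 1 := by
  have hcd : ∀ ζ : ℂ, Continuous (fun ζ : ℂ => a + ζ • b) := fun ζ => by fun_prop
  have hcont : ∀ ζ : ℂ, a + ζ • b ∈ Om → ContinuousAt (fun ζ : ℂ => rho (a + ζ • b)) ζ := by
    intro ζ hζ
    exact ContinuousAt.comp (f := fun ζ : ℂ => a + ζ • b) (rho_continuousAt hζ) (hcd ζ).continuousAt
  have hmain := submean_of_local (v := fun ζ : ℂ => rho (a + ζ • b)) (by
    intro ζ hζ
    apply ContinuousAt.continuousWithinAt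
    apply hcont
    apply h
    simpa using hζ) (by
    intro ζ0 hζ0
    have hmem : a + ζ0 • b ∈ Om := h ζ0 (by simpa using (le_of_lt (by simpa using hζ0)))
    have hevOm : ∀ᶠ ζ in 𝓝 ζ0, a + ζ • b ∈ Om :=
      (hcd ζ0).continuousAt.eventually (isOpen_Om.mem_nhds hmem)
    set x0 := a + ζ0 • b with hx0
    set Pf : E3 → ℝ := fun x => max (max ‖x 2‖ ‖x 1‖) (Mf x) with hPf
    rcases le_total (Ei x0 / kap) (Pf x0) with hle | hle
    · -- holomorphic support
      have hP : HolSupp Pf x0 := by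
        apply HolSupp.max
        · apply HolSupp.max
          · exact HolSupp.of_differentiable (Eventually.of_forall (fun y => (diff_coord 2) y))
          · exact HolSupp.of_differentiable (Eventually.of_forall (fun y => (diff_coord 1) y))
        · exact (Mf_local hmem).1
      have hR : HolSupp (fun x => max (Ei x / kap) (Pf x)) x0 := by
        obtain ⟨F, f1, f2, f3⟩ := hP
        refine ⟨F, f1, by rw [f2]; exact (max_eq_right hle).symm, ?_⟩
        filter_upwards [f3] with y hy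
        exact hy.trans (le_max_right _ _)
      have h3 : (fun ζ : ℂ => max (Ei (a + ζ • b) / kap) (Pf (a + ζ • b))) =
          fun ζ : ℂ => rho (a + ζ • b) + 1 := by
        funext z
        simp only [rho, hPf]
        ring
      have hL := hR.locSub (a := a) (b := b) (ζ0 := ζ0) (by
        filter_upwards [hevOm] with ζ hζ
        rw [h3]
        exact (hcont ζ hζ).add continuousAt_const)
      obtain ⟨r0, hr0, hr⟩ := hL
      obtain ⟨r1, hr1, hball⟩ := Metric.eventually_nhds_iff.mp hevOm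
      refine ⟨min r0 r1, lt_min hr0 hr1, fun r hrp hrr => ?_⟩
      have h2 := hr r hrp (lt_of_lt_of_le hrr (min_le_left _ _))
      have hci : CircleIntegrable (fun ζ : ℂ => rho (a + ζ • b)) ζ0 r := by
        apply ContinuousOn.circleIntegrable'
        intro z hz
        apply ContinuousAt.continuousWithinAt
        apply hcont
        apply hball
        rw [mem_sphere, abs_of_pos hrp] at hz
        rw [hz]
        exact lt_of_lt_of_le hrr (min_le_right _ _)
      rw [h3, circleAverage_fun_add hci continuousOn_const.circleIntegrable',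
        circleAverage_const] at h2
      simp only at h2
      linarith
    · -- the infinite product
      obtain ⟨r1, hr1, hball⟩ := Metric.eventually_nhds_iff.mp hevOm
      refine ⟨r1, hr1, fun r hrp hrr => ?_⟩
      have hsub := Ei_submean x0 ((r:ℂ) • b) (by
        intro ζ hζ
        have h1 : x0 + ζ • (r:ℂ) • b = a + (ζ0 + ζ * r) • b := by
          rw [hx0, smul_smul, add_smul, add_assoc]
        rw [h1]
        refine (hball ?_).1
        rw [dist_eq_norm, add_sub_cancel_left, norm_mul, Complex.norm_real, Real.norm_eq_abs,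
          abs_of_pos hrp]
        nlinarith)
      have h1 : circleAverage (fun ζ : ℂ => Ei (x0 + ζ • (r:ℂ) • b)) 0 1 =
          circleAverage (fun ζ : ℂ => Ei (a + ζ • b)) ζ0 r := by
        rw [circle_shift, circle_shift]
        congr 2
        funext θ
        congr 1
        rw [hx0, smul_smul]
        simp only [zero_add, Complex.ofReal_one, one_mul]
        rw [add_assoc, ← add_smul, mul_comm]
      rw [h1] at hsub
      have hsph : ∀ z ∈ sphere ζ0 |r|, a + z • b ∈ Om := by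
        intro z hz
        apply hball
        rw [mem_sphere, abs_of_pos hrp] at hz
        rw [hz]
        exact hrr
      have hci : CircleIntegrable (fun ζ : ℂ => rho (a + ζ • b)) ζ0 r := by
        apply ContinuousOn.circleIntegrable'
        intro z hz
        exact (hcont z (hsph z hz)).continuousWithinAt
      have hci2 : CircleIntegrable (fun ζ : ℂ => Ei (a + ζ • b)) ζ0 r := by
        apply ContinuousOn.circleIntegrable'
        intro z hz
        apply ContinuousAt.continuousWithinAt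
        exact ContinuousAt.comp (f := fun ζ : ℂ => a + ζ • b) (Ei_cont (hsph z hz))
          (hcd z).continuousAt
      have hci3 : CircleIntegrable (fun ζ : ℂ => kap⁻¹ • Ei (a + ζ • b)) ζ0 r :=
        hci2.const_smul
      have h4 : circleAverage (fun ζ : ℂ => kap⁻¹ • Ei (a + ζ • b) - 1) ζ0 r ≤
          circleAverage (fun ζ : ℂ => rho (a + ζ • b)) ζ0 r := by
        apply circleAverage_mono _ hci
        · intro z _
          simp only [rho, smul_eq_mul]
          have h5 := le_max_left (Ei (a + z • b) / kap)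
            (max (max ‖(a + z • b) 2‖ ‖(a + z • b) 1‖) (Mf (a + z • b)))
          have h5' : Ei (a + z • b) / kap = kap⁻¹ * Ei (a + z • b) := by rw [div_eq_inv_mul]
          linarith
        · exact hci3.sub continuousOn_const.circleIntegrable'
      rw [circleAverage_fun_sub hci3 continuousOn_const.circleIntegrable',
        circleAverage_fun_smul, circleAverage_const] at h4
      refine le_trans ?_ h4
      have h6 : rho x0 = kap⁻¹ • Ei x0 - 1 := by
        have h7 : rho x0 = max (Ei x0 / kap) (Pf x0) - 1 := rfl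
        rw [h7, max_eq_left hle, div_eq_inv_mul, smul_eq_mul]
      change rho x0 ≤ _
      rw [h6, smul_eq_mul, smul_eq_mul]
      have h8 := mul_le_mul_of_nonneg_left hsub (inv_nonneg.mpr kap_pos.le)
      linarith)
  simpa using hmain

end Pool.Agent.H72.PG
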