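import Pool.Agent.H72.PG6

set_option autoImplicit false

/-! Compactness of the sublevel sets and the component of the origin. -/

namespace Pool.Agent.H72.PG

open Complex Filter Metric Real Set Topology

/-- Sublevel sets. -/
def Ksub (ε : ℝ) : Set E3 := {x | x ∈ Om ∧ rho x ≤ -ε}

lemma PD_norm_le {x : E3} (hx : x ∈ PD) : ‖x‖ ≤ 2 := by
  have h1 : ‖x‖ ^ 2 ≤ 2 ^ 2 := by
    rw [EuclideanSpace.norm_sq_eq, Fin.sum_univ_three]
    obtain ⟨h0, h1, h2⟩ := hx
    have e0 : ‖x 0‖ ^ 2 ≤ 1 := by nlinarith [norm_nonneg (x 0)]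
    have e1 : ‖x 1‖ ^ 2 ≤ 1 := by nlinarith [norm_nonneg (x 1)]
    have e2 : ‖x 2‖ ^ 2 ≤ 1 := by nlinarith [norm_nonneg (x 2)]
    linarith
  exact le_of_pow_le_pow_left₀ two_ne_zero (by norm_num) h1

lemma Ksub_closed_aux {ε : ℝ} (hε : 0 < ε) {x : E3} {y : ℕ → E3} (hy : ∀ n, y n ∈ Ksub ε)
    (hlim : Tendsto y atTop (𝓝 x)) : x ∈ Om := by
  have hmax : ∀ n, max (Ei (y n) / kap) (max (max ‖y n 2‖ ‖y n 1‖) (Mf (y n))) ≤ 1 - ε := by
    intro n
    have := (hy n).2
    unfold rho at this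
    linarith
  have hE : ∀ n, Ei (y n) ≤ (1 - ε) * kap := by
    intro n
    have := (le_max_left _ _).trans (hmax n)
    rwa [div_le_iff₀ kap_pos] at this
  have hm2 : ∀ n, max (max ‖y n 2‖ ‖y n 1‖) (Mf (y n)) ≤ 1 - ε := fun n =>
    (le_max_right _ _).trans (hmax n)
  have h2 : ∀ n, ‖y n 2‖ ≤ 1 - ε := fun n =>
    ((le_max_left _ _).trans (le_max_left _ _)).trans (hm2 n)
  have h1 : ∀ n, ‖y n 1‖ ≤ 1 - ε := fun n =>
    ((le_max_right _ _).trans (le_max_left _ _)).trans (hm2 n)
  have hM : ∀ n, Mf (y n) ≤ 1 - ε := fun n => (le_max_right _ _).trans (hm2 n)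
  have hε1 : 0 ≤ 1 - ε := (norm_nonneg _).trans (h2 0)
  have l0 : Tendsto (fun n => ‖y n 0‖) atTop (𝓝 ‖x 0‖) := by
    have : Continuous (fun y : E3 => ‖y 0‖) := by fun_prop
    exact (this.tendsto x).comp hlim
  have l1 : Tendsto (fun n => ‖y n 1‖) atTop (𝓝 ‖x 1‖) := by
    have : Continuous (fun y : E3 => ‖y 1‖) := by fun_prop
    exact (this.tendsto x).comp hlim
  have l2 : Tendsto (fun n => ‖y n 2‖) atTop (𝓝 ‖x 2‖) := by
    have : Continuous (fun y : E3 => ‖y 2‖) := by fun_prop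
    exact (this.tendsto x).comp hlim
  have ld : Tendsto (fun n => ‖y n 0 - 1 / 10‖) atTop (𝓝 ‖x 0 - 1 / 10‖) := by
    have : Continuous (fun y : E3 => ‖y 0 - 1 / 10‖) := by fun_prop
    exact (this.tendsto x).comp hlim
  have hx1 : ‖x 1‖ ≤ 1 - ε := le_of_tendsto' l1 h1
  have hx2 : ‖x 2‖ ≤ 1 - ε := le_of_tendsto' l2 h2
  have hkε : (1 - ε) * kap < kap := by
    have := kap_pos
    nlinarith
  -- it suffices to have continuity of the product
  have hfin : ContinuousAt Ei x → ∃ n, En n x < kap := by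
    intro hc
    rw [← Ei_lt_iff]
    have := le_of_tendsto' (hc.tendsto.comp hlim) hE
    exact this.trans_lt hkε
  rcases lt_or_ge (‖x 0‖) (11 / 200) with hz | hz
  · have hev : ∀ᶠ n in atTop, ‖y n 0‖ < 11 / 200 := l0.eventually_lt_const hz
    have hle : ‖x 1‖ ≤ (1 - ε) * ‖x 0 - 1 / 10‖ := by
      apply le_of_tendsto_of_tendsto l1 (ld.const_mul (1 - ε))
      filter_upwards [hev] with n hn
      have h3 := hM n
      rw [Mf_zone1 (hy n).1 hn] at h3
      unfold eta at h3
      have hd := dist_lower (x := y n) (by linarith)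
      rwa [norm_div, div_le_iff₀ (by linarith)] at h3
    have hd := dist_lower (x := x) (by linarith)
    have hlt : ‖x 1‖ < ‖x 0 - 1 / 10‖ := by nlinarith
    have hP : x ∈ PD := ⟨by linarith, by linarith, by linarith⟩
    refine ⟨hP, hfin ?_, fun _ => hlt⟩
    by_cases h0 : x 0 = 0
    · exact Ei_cont_B h0
    by_cases h2 : x 2 = 0
    · exact Ei_cont_C hP h0 hlt
    · exact Ei_cont_A hP h2
  · have hev : ∀ᶠ n in atTop, 1 / 20 < ‖y n 0‖ := l0.eventually_const_lt (by linarith)
    -- each point lies in a tube with bounded index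
    have hp1 : 1 - ε < 1 := by linarith
    obtain ⟨J, hJ⟩ := ((tendsto_pow_atTop_nhds_zero_of_lt_one hε1 hp1).eventually_lt_const
      (show (0:ℝ) < 1 / 25 by norm_num)).exists
    have hkey : ∀ᶠ n in atTop, 3 / 4 * lam J ≤ ‖y n 2‖ ∧ 16 * ‖y n 0‖ ^ 2 ≤ 1 - ε := by
      filter_upwards [hev] with n hn
      obtain ⟨j, hj, _⟩ := tube (hy n).1 hn.le
      have h3 : Fj j (y n) ≤ 1 - ε := by
        have h4 := hM n
        have h5 : Fg (y n) ≤ Mf (y n) := by
          unfold Mf
          rw [if_neg (not_lt.mpr hn.le)]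
          split_ifs
          · exact le_max_right _ _
          · exact le_rfl
        rw [Fg_eq hj] at h5
        exact h5.trans h4
      have h4 : 16 * ‖y n 0‖ ^ 2 ≤ (1 - ε) ^ (j + 1) := by
        rw [← Fj_pow j]
        exact pow_le_pow_left₀ (Fj_nonneg j _) h3 _
      have h5 : j < J := by
        by_contra hcon
        push Not at hcon
        have h6 : (1 - ε) ^ (j + 1) ≤ (1 - ε) ^ J :=
          pow_le_pow_of_le_one hε1 hp1.le (by omega)
        nlinarith
      constructor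
      · have h6 := lam_anti h5.le
        have h7 := norm_sub_norm_le (lam j : ℂ) (y n 2)
        rw [lam_norm, norm_sub_rev] at h7
        linarith
      · exact h4.trans (pow_le_of_le_one hε1 hp1.le (by omega))
    have hx2' : 3 / 4 * lam J ≤ ‖x 2‖ := by
      apply ge_of_tendsto l2
      filter_upwards [hkey] with n hn
      exact hn.1
    have hx0' : 16 * ‖x 0‖ ^ 2 ≤ 1 - ε := by
      apply le_of_tendsto ((l0.pow 2).const_mul 16)
      filter_upwards [hkey] with n hn
      exact hn.2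
    have hx2ne : x 2 ≠ 0 := by
      rw [← norm_pos_iff]
      have := lam_pos J
      linarith
    have hx0lt : ‖x 0‖ < 1 / 4 := by
      by_contra hcon
      push Not at hcon
      nlinarith
    have hP : x ∈ PD := ⟨hx0lt, by linarith, by linarith⟩
    refine ⟨hP, hfin (Ei_cont_A hP hx2ne), fun h => ?_⟩
    linarith

lemma Ksub_compact {ε : ℝ} (hε : 0 < ε) : IsCompact (Ksub ε) := by
  apply Metric.isCompact_of_isClosed_isBounded
  · rw [← closure_subset_iff_isClosed]
    intro x hx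
    obtain ⟨y, hy, hlim⟩ := mem_closure_iff_seq_limit.mp hx
    have hOm := Ksub_closed_aux hε hy hlim
    refine ⟨hOm, ?_⟩
    have hc := (rho_continuousAt hOm).tendsto.comp hlim
    exact le_of_tendsto' hc (fun n => (hy n).2)
  · apply (Metric.isBounded_closedBall (x := (0:E3)) (r := 2)).subset
    intro x hx
    rw [mem_closedBall, dist_zero_right]
    exact PD_norm_le hx.1.1

/-- The domain: the component of the origin. -/
def Om0 : Set E3 := connectedComponentIn Om 0

lemma zero_mem_Om : (0 : E3) ∈ Om := by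
  refine ⟨⟨by simp, by simp, by simp⟩, ⟨0, ?_⟩, fun _ => ?_⟩
  · rw [En_zero]
    simp [kap_pos]
  · simp

lemma isOpen_Om0 : IsOpen Om0 := isOpen_Om.connectedComponentIn

lemma Om0_subset : Om0 ⊆ Om := connectedComponentIn_subset _ _

lemma isConnected_Om0 : IsConnected Om0 := isConnected_connectedComponentIn_iff.mpr zero_mem_Om

lemma isBounded_Om0 : Bornology.IsBounded Om0 := by
  apply (Metric.isBounded_closedBall (x := (0:E3)) (r := 2)).subset
  intro x hx
  rw [mem_closedBall, dist_zero_right]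
  exact PD_norm_le (Om0_subset hx).1

lemma mem_Om0_of_closure {x : E3} (hx : x ∈ Om) (hc : x ∈ closure Om0) : x ∈ Om0 := by
  have h1 : connectedComponentIn Om x ∈ 𝓝 x :=
    isOpen_Om.connectedComponentIn.mem_nhds (mem_connectedComponentIn hx)
  obtain ⟨y, hy1, hy2⟩ := mem_closure_iff_nhds.mp hc _ h1
  have h2 := connectedComponentIn_eq hy1
  have h3 : Om0 = connectedComponentIn Om y := connectedComponentIn_eq hy2
  rw [h3, ← h2]
  exact mem_connectedComponentIn hx

lemma exhaustion (ε : ℝ) (hε : 0 < ε) : ∃ K : Set E3, IsCompact K ∧ K ⊆ Om0 ∧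
    ∀ z ∈ Om0, z ∉ K → -ε < rho z := by
  refine ⟨Ksub ε ∩ closure Om0, (Ksub_compact hε).inter_right isClosed_closure, ?_, ?_⟩
  · rintro x ⟨h1, h2⟩
    exact mem_Om0_of_closure h1.1 h2
  · intro z hz hzK
    by_contra hcon
    push Not at hcon
    exact hzK ⟨⟨Om0_subset hz, hcon⟩, subset_closure hz⟩

end Pool.Agent.H72.PG
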