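import Pool.Agent.H72.PG7

set_option autoImplicit false

/-! The discs and the upper bound for the Green function. -/

namespace Pool.Agent.H72.PG

open Complex Filter Metric Real Set Topology

/-- The discs. -/
noncomputable def disc (j : ℕ) (t : ℂ) : E3 :=
  !₂[t ^ (j + 1), t * (t ^ (j + 1) - 1 / 10), (lam j : ℂ)]

/-- The segment of base points. -/
noncomputable def seg (s : ℝ) : E3 := !₂[0, 0, (s : ℂ)]

lemma disc_0 (j : ℕ) (t : ℂ) : (disc j t) 0 = t ^ (j + 1) := rfl

lemma disc_1 (j : ℕ) (t : ℂ) : (disc j t) 1 = t * (t ^ (j + 1) - 1 / 10) := rfl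

lemma disc_2 (j : ℕ) (t : ℂ) : (disc j t) 2 = (lam j : ℂ) := rfl

lemma seg_0 (s : ℝ) : (seg s) 0 = 0 := rfl

lemma seg_1 (s : ℝ) : (seg s) 1 = 0 := rfl

lemma seg_2 (s : ℝ) : (seg s) 2 = (s : ℂ) := rfl

lemma ext3 {x y : E3} (h0 : x 0 = y 0) (h1 : x 1 = y 1) (h2 : x 2 = y 2) : x = y := by
  ext i
  fin_cases i
  · exact h0
  · exact h1
  · exact h2

lemma disc_zero (j : ℕ) : disc j 0 = seg (lam j) := by
  apply ext3
  · rw [disc_0, seg_0]; simp
  · rw [disc_1, seg_1]; simp
  · rw [disc_2, seg_2]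

lemma differentiable_disc (j : ℕ) : Differentiable ℂ (disc j) := by
  rw [differentiable_euclidean]
  intro i
  fin_cases i
  · change Differentiable ℂ (fun t : ℂ => t ^ (j + 1))
    fun_prop
  · change Differentiable ℂ (fun t : ℂ => t * (t ^ (j + 1) - 1 / 10))
    fun_prop
  · change Differentiable ℂ (fun t : ℂ => (lam j : ℂ))
    fun_prop

lemma continuous_seg : Continuous seg := by
  rw [show seg = fun s : ℝ => seg s from rfl]
  unfold seg
  fun_prop

lemma gf_disc (j : ℕ) (t : ℂ) : gf j (disc j t) = 0 := by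
  unfold gf
  rw [disc_0, disc_1, mul_pow]
  ring

lemma ef_disc (j : ℕ) (t : ℂ) : ef j (disc j t) = 0 := by
  unfold ef
  rw [gf_disc, disc_2]
  simp

lemma En_disc (j : ℕ) (t : ℂ) : En (j + 1) (disc j t) = 0 := by
  rw [En_succ]
  unfold uf
  rw [ef_disc, Real.zero_rpow (eps_pos j).ne', mul_zero]

lemma norm_lt_one_of_pow {t : ℂ} {N : ℕ} {c : ℝ} (hc : c < 1) (h : ‖t‖ ^ N ≤ c) : ‖t‖ < 1 := by
  by_contra hcon
  push Not at hcon
  have := one_le_pow₀ hcon (n := N)
  linarith

lemma disc_mem_Om {j : ℕ} {t : ℂ} (h : ‖t‖ ^ (j + 1) < 1 / 4) : disc j t ∈ Om := by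
  have ht1 : ‖t‖ < 1 := norm_lt_one_of_pow (by norm_num) h.le
  have h3 : ‖t ^ (j + 1) - 1 / 10‖ ≤ 1 / 4 + 1 / 10 := by
    refine (norm_sub_le _ _).trans ?_
    rw [norm_tenth, norm_pow]
    linarith
  refine ⟨⟨?_, ?_, ?_⟩, ⟨j + 1, ?_⟩, ?_⟩
  · rw [disc_0, norm_pow]; exact h
  · rw [disc_1, norm_mul]
    have := norm_nonneg (t ^ (j + 1) - 1 / 10)
    nlinarith [norm_nonneg t]
  · rw [disc_2, lam_norm]
    have := lam_le j
    linarith
  · rw [En_disc]; exact kap_pos
  · rw [disc_0, disc_1, norm_mul]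
    intro h4
    have h5 := norm_sub_norm_le (1 / 10 : ℂ) (t ^ (j + 1))
    rw [norm_tenth, norm_sub_rev] at h5
    have h6 : 0 < ‖t ^ (j + 1) - 1 / 10‖ := by linarith
    exact mul_lt_of_lt_one_left h6 ht1

lemma seg_mem_Om {s : ℝ} (h0 : 0 ≤ s) (h1 : s ≤ 1 / 2) : seg s ∈ Om := by
  refine ⟨⟨?_, ?_, ?_⟩, ⟨0, ?_⟩, fun _ => ?_⟩
  · rw [seg_0]; simp
  · rw [seg_1]; simp
  · rw [seg_2, Complex.norm_real, Real.norm_eq_abs, abs_of_nonneg h0]; linarith
  · rw [En_zero, seg_0, norm_zero]; exact kap_pos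
  · rw [seg_0, seg_1]; simp

/-- The compact set. -/
def Kseg : Set E3 := seg '' (Icc (0:ℝ) (1 / 2))

lemma Kseg_compact : IsCompact Kseg := isCompact_Icc.image continuous_seg

lemma Kseg_subset : Kseg ⊆ Om0 := by
  apply IsPreconnected.subset_connectedComponentIn
  · exact isPreconnected_Icc.image _ continuous_seg.continuousOn
  · refine ⟨0, ⟨le_rfl, by norm_num⟩, ?_⟩
    apply ext3
    · rw [seg_0]; rfl
    · rw [seg_1]; rfl
    · rw [seg_2]; simp
  · rintro _ ⟨s, hs, rfl⟩
    exact seg_mem_Om hs.1 hs.2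

lemma seg_lam_mem (j : ℕ) : seg (lam j) ∈ Kseg := ⟨lam j, ⟨(lam_pos j).le, lam_le j⟩, rfl⟩

lemma disc_mem_Om0 {j : ℕ} {t : ℂ} (h : ‖t‖ ^ (j + 1) < 1 / 4) : disc j t ∈ Om0 := by
  have h0 : disc j 0 ∈ Om0 := by
    rw [disc_zero]
    exact Kseg_subset (seg_lam_mem j)
  have h1 : Om0 = connectedComponentIn Om (disc j 0) := connectedComponentIn_eq h0
  rw [h1]
  set S : Set E3 := (fun s : ℝ => disc j ((s : ℂ) * t)) '' (Icc (0:ℝ) 1) with hS
  have hc : Continuous (fun s : ℝ => disc j ((s : ℂ) * t)) :=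
    (differentiable_disc j).continuous.comp (by fun_prop)
  have h2 : S ⊆ connectedComponentIn Om (disc j 0) := by
    apply IsPreconnected.subset_connectedComponentIn
    · exact isPreconnected_Icc.image _ hc.continuousOn
    · exact ⟨0, ⟨le_rfl, zero_le_one⟩, by simp⟩
    · rintro _ ⟨s, hs, rfl⟩
      apply disc_mem_Om
      rw [norm_mul, Complex.norm_real, Real.norm_eq_abs, abs_of_nonneg hs.1]
      refine lt_of_le_of_lt ?_ h
      apply pow_le_pow_left₀ (mul_nonneg hs.1 (norm_nonneg _))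
      exact mul_le_of_le_one_left (norm_nonneg _) hs.2
  apply h2
  exact ⟨1, ⟨zero_le_one, le_rfl⟩, by simp⟩

/-- The poles. -/
noncomputable def pole (j : ℕ) : E3 := !₂[1 / 10, 0, (lam j : ℂ)]

lemma pole_0 (j : ℕ) : (pole j) 0 = 1 / 10 := rfl

lemma pole_1 (j : ℕ) : (pole j) 1 = 0 := rfl

lemma pole_2 (j : ℕ) : (pole j) 2 = (lam j : ℂ) := rfl

lemma pole_mem (j : ℕ) : pole j ∈ Om0 := by
  obtain ⟨t, ht⟩ : ∃ t : ℂ, t ^ (j + 1) = 1 / 10 := by
    exact IsAlgClosed.exists_pow_nat_eq (1 / 10 : ℂ) (Nat.succ_pos j)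
  have h1 : pole j = disc j t := by
    apply ext3
    · rw [pole_0, disc_0, ht]
    · rw [pole_1, disc_1, ht]; simp
    · rw [pole_2, disc_2]
  rw [h1]
  apply disc_mem_Om0
  rw [← norm_pow, ht, norm_tenth]
  norm_num

/-- A point outside the domain close to the pole. -/
noncomputable def outp (j : ℕ) : E3 := !₂[1 / 10, 0, ((5 / 4 * lam j : ℝ) : ℂ)]

lemma outp_0 (j : ℕ) : (outp j) 0 = 1 / 10 := rfl

lemma outp_1 (j : ℕ) : (outp j) 1 = 0 := rfl

lemma outp_2 (j : ℕ) : (outp j) 2 = ((5 / 4 * lam j : ℝ) : ℂ) := rfl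

lemma lam_succ_le {i j : ℕ} (h : i < j) : lam j ≤ lam i / 2 := by
  have h2 := lam_anti (show i + 1 ≤ j from h)
  have h3 : lam (i + 1) = lam i / 2 := by
    unfold lam
    rw [pow_succ _ (i + 1)]
    ring
  linarith

lemma outp_not_mem (j : ℕ) : outp j ∉ Om := by
  intro h
  obtain ⟨i, hi, _⟩ := tube h (by rw [outp_0, norm_tenth]; norm_num)
  rw [outp_2, ← Complex.ofReal_sub, Complex.norm_real, Real.norm_eq_abs, abs_lt] at hi
  have hj := lam_pos j
  have hip := lam_pos i
  rcases lt_trichotomy i j with h1 | h1 | h1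
  · have := lam_succ_le h1
    linarith [hi.1]
  · subst h1
    linarith [hi.2]
  · have := lam_succ_le h1
    linarith [hi.2]

lemma dist_pole (j : ℕ) : dist (pole j) (outp j) = lam j / 4 := by
  rw [EuclideanSpace.dist_eq, Fin.sum_univ_three]
  rw [pole_0, pole_1, pole_2, outp_0, outp_1, outp_2, dist_self, dist_self, dist_eq_norm,
    ← Complex.ofReal_sub, Complex.norm_real, Real.norm_eq_abs]
  have h1 : lam j - 5 / 4 * lam j = -(lam j / 4) := by ring
  have := lam_pos j
  rw [h1, abs_neg, abs_of_pos (by positivity)]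
  simp only [ne_eq, OfNat.ofNat_ne_zero, not_false_eq_true, zero_pow, zero_add]
  exact Real.sqrt_sq (by positivity)

lemma infDist_pole (j : ℕ) : Metric.infDist (pole j) Om0ᶜ ≤ lam j / 4 := by
  rw [← dist_pole j]
  apply Metric.infDist_le_dist_of_mem
  intro h
  exact outp_not_mem j (Om0_subset h)

lemma norm_disc_sub_pole (j : ℕ) (t : ℂ) :
    ‖disc j t - pole j‖ = ‖t ^ (j + 1) - 1 / 10‖ * √(1 + ‖t‖ ^ 2) := by
  rw [EuclideanSpace.norm_eq, Fin.sum_univ_three]
  have e0 : (disc j t - pole j) 0 = t ^ (j + 1) - 1 / 10 := rfl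
  have e1 : (disc j t - pole j) 1 = t * (t ^ (j + 1) - 1 / 10) - 0 := rfl
  have e2 : (disc j t - pole j) 2 = (lam j : ℂ) - (lam j : ℂ) := rfl
  rw [e0, e1, e2, sub_zero, sub_self, norm_zero, norm_mul]
  have h1 : ‖t ^ (j + 1) - 1 / 10‖ ^ 2 + (‖t‖ * ‖t ^ (j + 1) - 1 / 10‖) ^ 2 + 0 ^ 2 =
      ‖t ^ (j + 1) - 1 / 10‖ ^ 2 * (1 + ‖t‖ ^ 2) := by ring
  rw [h1, Real.sqrt_mul (by positivity), Real.sqrt_sq (norm_nonneg _)]

/-- The comparison function. -/
noncomputable def Hf (j : ℕ) (t : ℂ) : ℝ :=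
  1 / 2 * (Real.log ‖t ^ (j + 1) - 1 / 10‖ - Real.log (7 / 50)) + 1 / 50 * (1 - ‖t‖ ^ 2)

/-- The upper bound. -/
theorem green_bound (j : ℕ) {u : E3 → EReal} (husc : UpperSemicontinuousOn u Om0)
    (hu0 : ∀ s ∈ Om0, u s ≤ 0) (hs : SubM Om0 u)
    (hpole : ∃ C : ℝ, ∀ s ∈ Om0, s ≠ pole j → u s ≤ ((Real.log ‖s - pole j‖ + C : ℝ) : EReal)) :
    u (seg (lam j)) ≤ ((-(3 / 25) : ℝ) : EReal) := by
  obtain ⟨C, hC⟩ := hpole
  obtain ⟨κ, hκ0, hκ1, hκ2⟩ : ∃ κ : ℝ, 0 < κ ∧ κ ≤ 1 / 20 ∧
      Real.log κ ≤ -2 * C - 2 * Real.log 2 - Real.log (7 / 50) := by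
    refine ⟨Real.exp (min (Real.log (1 / 20)) (-2 * C - 2 * Real.log 2 - Real.log (7 / 50))),
      Real.exp_pos _, ?_, ?_⟩
    · rw [← Real.le_log_iff_exp_le (by norm_num)]
      exact min_le_left _ _
    · rw [Real.log_exp]
      exact min_le_right _ _
  set N := j + 1 with hN
  set A : Set ℂ := {t | ‖t‖ ^ N ≤ 6 / 25 ∧ κ ≤ ‖t ^ N - 1 / 10‖} with hA
  set U : Set ℂ := {t | ‖t‖ ^ N < 6 / 25 ∧ κ < ‖t ^ N - 1 / 10‖} with hU
  have hAcl : IsClosed A := by
    apply IsClosed.and
    · exact isClosed_le (by fun_prop) continuous_const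
    · exact isClosed_le continuous_const (by fun_prop)
  have hUop : IsOpen U := by
    apply IsOpen.and
    · exact isOpen_lt (by fun_prop) continuous_const
    · exact isOpen_lt continuous_const (by fun_prop)
  have hUA : U ⊆ A := fun t ht => ⟨ht.1.le, ht.2.le⟩
  have hAn : ∀ t ∈ A, ‖t‖ < 1 := fun t ht => norm_lt_one_of_pow (by norm_num) ht.1
  have hAc : IsCompact A := by
    apply Metric.isCompact_of_isClosed_isBounded hAcl
    apply (Metric.isBounded_closedBall (x := (0:ℂ)) (r := 1)).subset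
    intro t ht
    rw [mem_closedBall, dist_zero_right]
    exact (hAn t ht).le
  have hmem : ∀ t ∈ A, disc j t ∈ Om0 := by
    intro t ht
    apply disc_mem_Om0
    have := ht.1
    linarith
  have hHc : ContinuousOn (Hf j) A := by
    unfold Hf
    apply ContinuousOn.add
    · apply ContinuousOn.mul continuousOn_const
      apply ContinuousOn.sub _ continuousOn_const
      apply ContinuousOn.log (by fun_prop)
      intro t ht
      have := ht.2
      linarith
    · fun_prop
  have h0A : (0:ℂ) ∈ A := by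
    refine ⟨?_, ?_⟩
    · simp only [hN, norm_zero, ne_eq, Nat.add_eq_zero_iff, one_ne_zero, and_false,
        not_false_eq_true, zero_pow]
      norm_num
    · simp only [hN, ne_eq, Nat.add_eq_zero_iff, one_ne_zero, and_false, not_false_eq_true,
        zero_pow, zero_sub, norm_neg, norm_tenth]
      linarith
  have hmain := disc_bound isOpen_Om0 husc hu0 hs (differentiable_disc j) hAc hUA hUop hmem hHc
    (by
      intro t ht htU
      have hn1 := hAn t ht
      have hsq : ‖t‖ ^ 2 ≤ 1 := pow_le_one₀ (norm_nonneg _) hn1.le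
      by_cases hcase : ‖t‖ ^ N < 6 / 25
      · -- near the pole
        have hk : ‖t ^ N - 1 / 10‖ = κ := by
          apply le_antisymm _ ht.2
          by_contra hcon
          push Not at hcon
          exact htU ⟨hcase, hcon⟩
        have hnd := norm_disc_sub_pole j t
        rw [← hN, hk] at hnd
        have hsqrt1 : 1 ≤ √(1 + ‖t‖ ^ 2) := by
          rw [Real.one_le_sqrt]
          have := sq_nonneg ‖t‖
          linarith
        have hsqrt2 : √(1 + ‖t‖ ^ 2) ≤ 2 := by
          rw [Real.sqrt_le_left (by norm_num)]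
          linarith
        have hne : disc j t ≠ pole j := by
          intro h
          rw [h, sub_self, norm_zero] at hnd
          have : 0 < κ * √(1 + ‖t‖ ^ 2) := by positivity
          linarith
        refine (hC _ (hmem t ht) hne).trans ?_
        rw [EReal.coe_le_coe_iff, hnd]
        have hl : Real.log (κ * √(1 + ‖t‖ ^ 2)) ≤ Real.log κ + Real.log 2 := by
          rw [Real.log_mul hκ0.ne' (by positivity)]
          have := Real.log_le_log (by positivity) hsqrt2
          linarith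
        unfold Hf
        rw [← hN, hk]
        linarith
      · have hN6 : 6 / 25 ≤ ‖t‖ ^ N := not_lt.mp hcase
        refine (hu0 _ (hmem t ht)).trans ?_
        have h1 : (0:ℝ) ≤ Hf j t := by
          unfold Hf
          have h2 : 7 / 50 ≤ ‖t ^ (j + 1) - 1 / 10‖ := by
            have h3 := norm_sub_norm_le (t ^ (j + 1)) (1 / 10 : ℂ)
            rw [norm_tenth, norm_pow] at h3
            rw [hN] at hN6
            linarith
          have h3 : Real.log (7 / 50) ≤ Real.log ‖t ^ (j + 1) - 1 / 10‖ :=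
            Real.log_le_log (by norm_num) h2
          linarith
        exact_mod_cast h1)
    (by
      intro t ht
      refine ⟨1 / 50, by norm_num, ?_⟩
      obtain ⟨r0, hr0, hball⟩ := Metric.isOpen_iff.mp hUop t ht
      refine ⟨r0, hr0, fun r hr hrr => ?_⟩
      have hin : closedBall t |r| ⊆ U := by
        intro z hz
        apply hball
        rw [mem_closedBall, abs_of_pos hr] at hz
        rw [mem_ball]
        linarith
      have hne : ∀ z ∈ closedBall t |r|, z ^ (j + 1) - 1 / 10 ≠ 0 := by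
        intro z hz
        have := (hin hz).2
        rw [← norm_pos_iff]
        exact hκ0.trans this
      have hlog : circleAverage (fun z : ℂ => Real.log ‖z ^ (j + 1) - 1 / 10‖) t r =
          Real.log ‖t ^ (j + 1) - 1 / 10‖ := by
        apply AnalyticOnNhd.circleAverage_log_norm_of_ne_zero (g := fun z : ℂ => z ^ (j + 1) - 1 / 10)
        · intro z _
          fun_prop
        · exact hne
      have hli : CircleIntegrable (fun z : ℂ => Real.log ‖z ^ (j + 1) - 1 / 10‖) t r := by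
        apply ContinuousOn.circleIntegrable'
        apply ContinuousOn.log (by fun_prop)
        intro z hz
        exact (norm_pos_iff.mpr (hne z (sphere_subset_closedBall hz))).ne'
      have hni : CircleIntegrable (fun z : ℂ => ‖z‖ ^ 2) t r := by
        apply ContinuousOn.circleIntegrable'
        fun_prop
      have hli2 : CircleIntegrable (fun z : ℂ => (1 / 2 : ℝ) • Real.log ‖z ^ (j + 1) - 1 / 10‖) t r :=
        hli.const_smul
      have hni2 : CircleIntegrable (fun z : ℂ => (1 / 50 : ℝ) • ‖z‖ ^ 2) t r := hni.const_smul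
      have hfe : Hf j = fun z : ℂ => (-(1 / 2) * Real.log (7 / 50) + 1 / 50) +
          ((1 / 2 : ℝ) • Real.log ‖z ^ (j + 1) - 1 / 10‖ - (1 / 50 : ℝ) • ‖z‖ ^ 2) := by
        funext z
        simp only [Hf, smul_eq_mul]
        ring
      have hsub : CircleIntegrable (fun z : ℂ => ((1 / 2 : ℝ) • Real.log ‖z ^ (j + 1) - 1 / 10‖ -
          (1 / 50 : ℝ) • ‖z‖ ^ 2)) t r := hli2.sub hni2
      have havg : circleAverage (Hf j) t r = (-(1 / 2) * Real.log (7 / 50) + 1 / 50) +
          (1 / 2 * Real.log ‖t ^ (j + 1) - 1 / 10‖ - 1 / 50 * (‖t‖ ^ 2 + r ^ 2)) := by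
        rw [hfe, circleAverage_fun_add continuousOn_const.circleIntegrable' hsub,
          circleAverage_const, circleAverage_fun_sub hli2 hni2, circleAverage_fun_smul,
          circleAverage_fun_smul, hlog, avg_norm_sq]
        simp only [smul_eq_mul]
      rw [havg]
      unfold Hf
      linarith) 0 h0A
  rw [disc_zero] at hmain
  refine hmain.trans ?_
  rw [EReal.coe_le_coe_iff]
  unfold Hf
  simp only [ne_eq, Nat.add_eq_zero_iff, one_ne_zero, and_false, not_false_eq_true,
    zero_pow, zero_sub, norm_neg, norm_tenth, norm_zero]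
  have h1 : Real.log (1 / 10) - Real.log (7 / 50) = Real.log (5 / 7) := by
    rw [← Real.log_div (by norm_num) (by norm_num)]
    norm_num
  have h2 : Real.log (5 / 7) ≤ 5 / 7 - 1 := Real.log_le_sub_one_of_pos (by norm_num)
  rw [h1]
  norm_num
  linarith

end Pool.Agent.H72.PG
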